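import Mathlib
import Pool.Agent.Work.MP_38c61c_al.Quad.QInjR

/-!
Block DG: for a centrally symmetric homology sphere of any dimension `d - 1`, `d = ee + 4 ≥ 5`,
multiplication by the Lefschetz element is injective in degree 2. Definitions. The full sets in
question have `ee + 2` elements, and `ee` vertices are fixed. `ee = 1` is block D5, `ee = 2` is
block D6.
-/

namespace CSLef.DG

open MvPolynomial Finset

/-- the data: complex, involution, chosen half `VP`, rows `a`, parameters `μ`, `c`, a facet `σ`,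
the degree functional `dg`, the functionals `T m` in degree `ee + 5`, the duals `XH` -/
structure Dat (ee : ℕ) (V : Type) [Fintype V] [DecidableEq V] (R : Type) [CommRing R] where
  Δ : Finset (Finset V)
  α : Equiv.Perm V
  VP : Finset V
  a : ℕ → V → R
  μ : ℕ → R
  c : V → R
  σ : Finset V
  dg : MvPolynomial V R →ₗ[R] R
  T : ℕ → MvPolynomial V R →ₗ[R] R
  XH : Finset V → MvPolynomial V R

variable {ee : ℕ} {V : Type} [Fintype V] [DecidableEq V] {R : Type} [CommRing R]

/-- exponent of a squarefree monomial -/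
noncomputable def ex (S : Finset V) : V →₀ ℕ := ∑ v ∈ S, Finsupp.single v 1

/-- the permanent of the rows `l ∈ L` and the columns `v ∈ S` (`S ⊆ VP`, `|S| = |L|`), written as a
coefficient of a product of linear forms -/
noncomputable def pmA (VP : Finset V) (a : ℕ → V → R) (L : Finset ℕ) (S : Finset V) : R :=
  coeff (ex S) (∏ l ∈ L, ∑ v ∈ VP, C (a l v) * X v)

namespace Dat

variable (D : Dat ee V R)

/-- the ideal -/
noncomputable def J : Ideal (MvPolynomial V R) := Jid D.Δ D.a (ee + 4)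

/-- the Lefschetz element -/
noncomputable def w : MvPolynomial V R := welA (ee + 4) D.α D.VP D.a D.μ D.c

/-- `X v - X (α v)` -/
noncomputable def z (v : V) : MvPolynomial V R := X v - X (D.α v)

/-- `W_l`, with `lin (a l) = W_l - α W_l` -/
noncomputable def W (l : ℕ) : MvPolynomial V R := ∑ v ∈ D.VP, C (D.a l v) * X v

/-- the weight of a vertex, `2 w = wo + ∑ μ_l Θ_l` -/
noncomputable def wt (p : V) : R := 2 * D.c p + ∑ l ∈ range (ee + 4), D.μ l * D.a l p

/-- `∑ wt p y_p` -/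
noncomputable def wo : MvPolynomial V R := ∑ p ∈ D.VP, C (D.wt p) * yy R D.α p

/-- full sets: subsets of `VP` all of whose flips are faces -/
def Full (H : Finset V) : Prop := H ⊆ D.VP ∧ ∀ T ∈ H.powerset, flip D.α H T ∈ D.Δ

instance : DecidablePred D.Full := fun H =>
  inferInstanceAs (Decidable (H ⊆ D.VP ∧ ∀ T ∈ H.powerset, flip D.α H T ∈ D.Δ))

/-- the full sets with `k` elements -/
def FS (k : ℕ) : Finset (Finset V) := (D.VP.powersetCard k).filter D.Full

/-- the functional `φ_H`: sum of the coefficients of the monomials of the flips of `H` -/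
noncomputable def ph (H : Finset V) : MvPolynomial V R →ₗ[R] R :=
  ∑ T ∈ H.powerset, lcoeff R (ex (flip D.α H T))

/-- the functional `ψ_{p,H}` (for `p ∈ H`): signed sum of the coefficients of the monomials
`x_(flip H T) * (the vertex of flip H T over p)` -/
noncomputable def ps (p : V) (H : Finset V) : MvPolynomial V R →ₗ[R] R :=
  ∑ T ∈ H.powerset, (if p ∈ T then (-1 : R) else 1) •
    lcoeff R (ex (flip D.α H T) + Finsupp.single (if p ∈ T then D.α p else p) 1)

/-- the Euler derivation at `v`: `X v ↦ X v`, `X (α v) ↦ X (α v)`, the other variables to `0` -/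
noncomputable def E (v : V) : Derivation R (MvPolynomial V R) (MvPolynomial V R) :=
  mkDerivation R (fun u => if u = v ∨ u = D.α v then (X u : MvPolynomial V R) else 0)

/-- the permanent of all the rows and the columns in `S`, `|S| = ee + 4` -/
noncomputable def pm (S : Finset V) : R := pmA D.VP D.a (range (ee + 4)) S

/-- `∑ x(G) X_G` over the full sets with `ee + 2` elements -/
noncomputable def KK (x : Finset V → R) : MvPolynomial V R :=
  ∑ G ∈ D.FS (ee + 2), C (x G) * D.XH G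

/-- `∑ ν(H) X_H` over the full sets with `ee + 1` elements -/
noncomputable def NN (ν : Finset V → R) : MvPolynomial V R :=
  ∑ H ∈ D.FS (ee + 1), C (ν H) * D.XH H

/-- the vertices `q` such that `U + q` is a full set with `ee + 1` elements -/
def lk (U : Finset V) : Finset V :=
  (D.VP \ U).filter (fun q => insert q U ∈ D.FS (ee + 1))

/-- `ω = dg (W_0 ... W_(ee+3))` -/
noncomputable def om : R := D.dg (∏ l ∈ range (ee + 4), D.W l)

end Dat

/-- the context (all its fields are proved for the generic ring in the existence part) -/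
structure Ctx [IsDomain R] (D : Dat ee V R) : Prop where
  he : 1 ≤ ee
  hs : IsHomSphere D.Δ (ee + 4)
  cs : IsCS D.Δ D.α
  vp : ∀ v, v ∈ D.VP ↔ D.α v ∉ D.VP
  anti : ∀ l v, D.a l (D.α v) = - D.a l v
  two : Prime (2 : R)
  sg : D.σ ∈ D.Δ
  sgc : D.σ.card = ee + 4
  /-- torsion-freeness modulo `J` -/
  tors : ∀ f : MvPolynomial V R, (2 : R) • f ∈ D.J → f ∈ D.J
  /-- the coefficients of a relation between the linear forms are in the ideal -/
  syz : ∀ h : ℕ → MvPolynomial V R, ∑ l ∈ range (ee + 4), lin (D.a l) * h l ∈ srIdeal R D.Δ →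
    ∀ l < ee + 4, h l ∈ D.J
  dgJ : ∀ f ∈ D.J, D.dg f = 0
  dgh : ∀ n, n ≠ ee + 4 → ∀ f : MvPolynomial V R, f.IsHomogeneous n → D.dg f = 0
  dgt : ∀ f : MvPolynomial V R, f.IsHomogeneous (ee + 4) → f - C (D.dg f) * xm R D.σ ∈ D.J
  dgs : D.dg (xm R D.σ) = 1
  dga : ∀ f, D.dg (rename D.α f) = D.dg f
  /-- nondegeneracy -/
  nd : ∀ i k, i + k = ee + 4 → ∀ f : MvPolynomial V R, f.IsHomogeneous i →
    (∀ g : MvPolynomial V R, g.IsHomogeneous k → D.dg (f * g) = 0) → f ∈ D.J
  /-- nondegeneracy modulo 2 -/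
  nd2 : ∀ i k, i + k = ee + 4 → ∀ f : MvPolynomial V R, f.IsHomogeneous i →
    (∀ G ∈ D.Δ, G.card = k → (2 : R) ∣ D.dg (f * xm R G)) →
    ∃ u : MvPolynomial V R, u.IsHomogeneous i ∧ f - (2 : R) • u ∈ D.J
  Tsr : ∀ m, ∀ f ∈ srIdeal R D.Δ, D.T m f = 0
  Tlin : ∀ m < ee + 4, ∀ l < ee + 4, ∀ f,
    D.T m (lin (D.a l) * f) = if l = m then D.dg f else 0
  Th : ∀ m n, n ≠ ee + 5 → ∀ f : MvPolynomial V R, f.IsHomogeneous n → D.T m f = 0
  Ta : ∀ m < ee + 4, ∀ f, D.T m (rename D.α f) = - D.T m f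
  /-- any `ee + 4` columns in the half `VP` are independent -/
  indt : ∀ S ⊆ D.VP, S.card = ee + 4 → ∀ t : ℕ → R,
    (∀ p ∈ S, ∑ m ∈ range (ee + 4), D.a m p * t m = 0) → ∀ m < ee + 4, t m = 0
  /-- their permanent is odd -/
  indp : ∀ S ⊆ D.VP, S.card = ee + 4 → ¬ (2 : R) ∣ D.pm S
  /-- one more genericity condition -/
  indw : ∀ U P : Finset V, U ⊆ P → P ⊆ D.VP → U.Nonempty → U.card = ee → P.card = ee + 5 →
    ¬ (2 : R) ∣ ∑ u ∈ U, (∑ l ∈ range (ee + 4), D.μ l * D.a l u) * D.pm (P.erase u)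
  /-- the derivation `∂ / ∂ a_(m,v)` -/
  der : ∀ m < ee + 4, ∀ v ∈ D.VP, ∃ δ : Derivation ℤ R R,
    (∀ l < ee + 4, ∀ u, δ (D.a l u) =
      if m = l then (if u = v then 1 else if u = D.α v then -1 else 0) else 0) ∧
    (∀ l, δ (D.μ l) = 0) ∧ (∀ u, δ (D.c u) = 0)
  /-- the derivation `∂ / ∂ c_v` -/
  derc : ∀ v ∈ D.VP, ∃ δ : Derivation ℤ R R, (∀ l u, δ (D.a l u) = 0) ∧
    (∀ l, δ (D.μ l) = 0) ∧ (∀ u, δ (D.c u) = if v = u then 1 else 0)
  /-- the duals of the functionals `φ_H` -/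
  xh_hom : ∀ H, D.Full H → (D.XH H).IsHomogeneous (ee + 4 - H.card)
  xh_dg : ∀ H, D.Full H → ∀ g, D.dg (D.XH H * g) = D.ph H g
  /-- the weights are odd -/
  wt_odd : ∀ v ∈ D.VP, ¬ (2 : R) ∣ ∑ l ∈ range (ee + 4), D.μ l * D.a l v
  /-- no cube roots of unity in the residue field -/
  nocube : ∀ x y : R, (2 : R) ∣ x ^ 2 + x * y + y ^ 2 → (2 : R) ∣ x ∧ (2 : R) ∣ y
  /-- the relations modulo 2 -/
  relb : ∀ y : MvPolynomial V R, y.IsHomogeneous 2 →
    (∀ M, (2 : R) ∣ D.dg (M * y ^ 2)) →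
    (∀ M, ∀ m < ee + 4, (2 : R) ∣ D.T m (M * D.w * y ^ 2)) →
    ∀ M q, (2 : R) ∣ D.dg (M * yy R D.α q * y)
  /-- Tate property modulo 2 -/
  tate : ∀ n, ∀ f : MvPolynomial V R, f.IsHomogeneous n → rename D.α f - f ∈ D.J →
    ∃ (β : Finset ℕ → R) (g v : MvPolynomial V R), g.IsHomogeneous n ∧ v.IsHomogeneous n ∧
      f - ∑ I ∈ (range (ee + 4)).powersetCard n, C (β I) * ∏ i ∈ I, D.W i -
        (g + rename D.α g) - (2 : R) • v ∈ D.J

end CSLef.DG
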