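import Mathlib
import Pool.Agent.Work.MP_38c61c_al.DG.Defs
import Pool.Agent.Work.MP_38c61c_al.Quad.QGeneric
import Pool.Agent.Work.MP_38c61c_al.Transfer
import Pool.Agent.Work.MP_38c61c_al.D6.StmtsX

/-!
Block DG, part X: the context exists over the generic ring `RR (ee + 4) V` (localization at 2), and
the bookkeeping from injectivity over this ring to generic parameters over fields, for every
dimension `d = ee + 4`, `1 ≤ ee`. The analogue of D6/StmtsX.lean. The items prove
`HG ee Δ α VP → (earlier statements) → St ee Δ α VP`. `D6.StSurjF` and `D6.StSCex` are used from D6,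
`D5.StXdualF`, `D5.StTateF`, `D5.StHCex`, `D5.StHCmap` from D5.
-/

namespace CSLef.DG

open MvPolynomial Finset

universe u

variable {V : Type} [Fintype V] [DecidableEq V]

/-- a homology `(d - 1)`-sphere, `d = ee + 4`, with a free involution and a half `VP` of the
vertices -/
structure HG (ee : ℕ) (Δ : Finset (Finset V)) (α : Equiv.Perm V) (VP : Finset V) : Prop where
  hs : IsHomSphere Δ (ee + 4)
  cs : IsCS Δ α
  vp : ∀ v, v ∈ VP ↔ α v ∉ VP

/-- the generic rows -/
noncomputable def ga (ee : ℕ) (α : Equiv.Perm V) (VP : Finset V) (l : ℕ) (v : V) : RR (ee + 4) V :=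
  algebraMap (PR (ee + 4) V) (RR (ee + 4) V) (aP (ee + 4) α VP l v)

/-- the generic `μ` -/
noncomputable def gm (ee : ℕ) (V : Type) (l : ℕ) : RR (ee + 4) V :=
  algebraMap (PR (ee + 4) V) (RR (ee + 4) V) (muP l)

/-- the generic `c` -/
noncomputable def gc (ee : ℕ) (v : V) : RR (ee + 4) V :=
  algebraMap (PR (ee + 4) V) (RR (ee + 4) V) (cP v)

/-- the functional over the residue field -/
noncomputable def gpi (ee : ℕ) (Δ : Finset (Finset V)) (α : Equiv.Perm V) (VP : Finset V) :
    MvPolynomial V (FF (ee + 4) V) →ₗ[FF (ee + 4) V] FF (ee + 4) V :=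
  piF Δ (ee + 4) (fun l w => toF (pP α VP l w)) (fun l w => FD (DP α VP l w))

/-- a degree functional over the generic ring -/
structure IsDg (ee : ℕ) (Δ : Finset (Finset V)) (α : Equiv.Perm V) (VP : Finset V) (σ : Finset V)
    (dg : MvPolynomial V (RR (ee + 4) V) →ₗ[RR (ee + 4) V] RR (ee + 4) V) : Prop where
  J : ∀ f ∈ Jid Δ (ga ee α VP) (ee + 4), dg f = 0
  h : ∀ n, n ≠ ee + 4 → ∀ f : MvPolynomial V (RR (ee + 4) V), f.IsHomogeneous n → dg f = 0
  t : ∀ f : MvPolynomial V (RR (ee + 4) V), f.IsHomogeneous (ee + 4) →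
    f - C (dg f) * xm (RR (ee + 4) V) σ ∈ Jid Δ (ga ee α VP) (ee + 4)
  s : dg (xm (RR (ee + 4) V) σ) = 1

variable (ee : ℕ) (Δ : Finset (Finset V)) (α : Equiv.Perm V) (VP : Finset V)

/-- the functionals in degree `ee + 5` -/
structure IsT (ee : ℕ) (Δ : Finset (Finset V)) (α : Equiv.Perm V) (VP : Finset V)
    (dg : MvPolynomial V (RR (ee + 4) V) →ₗ[RR (ee + 4) V] RR (ee + 4) V)
    (T : ℕ → MvPolynomial V (RR (ee + 4) V) →ₗ[RR (ee + 4) V] RR (ee + 4) V) : Prop where
  sr : ∀ m, ∀ f ∈ srIdeal (RR (ee + 4) V) Δ, T m f = 0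
  lin : ∀ m < ee + 4, ∀ l < ee + 4, ∀ f, T m (lin (ga ee α VP l) * f) = if l = m then dg f else 0
  h : ∀ m n, n ≠ ee + 5 → ∀ f : MvPolynomial V (RR (ee + 4) V), f.IsHomogeneous n → T m f = 0
  a : ∀ m < ee + 4, ∀ f, T m (rename α f) = - T m f

/-- Xdg. Proof. `locHyp`, `setupF` (RingR, Generic) give the hypotheses of `top_gen`; that
`xm F σ` is not in the ideal over the residue field is proved inside `cert_generic_q`
(`Quad/QGeneric.lean`: `piF_J`, `piF_facet_ne`). So for `f` homogeneous of degree `ee + 4` there is `r` with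
`f - r xm σ ∈ J`. It is unique: if `r xm σ ∈ J`, `r ≠ 0`, then `xm σ ∈ J` by `tors`, and `map_J` gives a
contradiction. Let `dg f` be the `r` of the homogeneous component of degree `ee + 4` of `f`: linear by
uniqueness; it kills `J` by `homComp_mem_J`. -/
def StXdg : Prop := ∀ σ ∈ Δ, σ.card = ee + 4 → ∃ dg, IsDg ee Δ α VP σ dg

/-- Xpi. Link with the functional over the residue field.
Proof. Apply `map_J` to `f - C (dg f) xm σ ∈ J` (homogeneous of degree `ee + 4`) and `piF_J` (the rows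
`rows p` are the reductions of `ga`, see `cert_generic_q` and `inj_generic_q`, `hrows`); nonvanishing is
`piF_facet_ne`. Last part: `red r = 0` iff `2 ∣ r` (`red_ker`, `red_two`). -/
def StXpi : Prop := ∀ σ ∈ Δ, σ.card = ee + 4 → ∀ dg, IsDg ee Δ α VP σ dg →
  gpi ee Δ α VP (xm (FF (ee + 4) V) σ) ≠ 0 ∧
  (∀ f : MvPolynomial V (RR (ee + 4) V), f.IsHomogeneous (ee + 4) →
    gpi ee Δ α VP (MvPolynomial.map (red (ee + 4) V) f) = red (ee + 4) V (dg f) * gpi ee Δ α VP (xm (FF (ee + 4) V) σ)) ∧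
  (∀ f : MvPolynomial V (RR (ee + 4) V), f.IsHomogeneous (ee + 4) →
    (gpi ee Δ α VP (MvPolynomial.map (red (ee + 4) V) f) = 0 ↔ (2 : RR (ee + 4) V) ∣ dg f))

/-- Xdga. The degree functional is invariant.
Proof. Let `f = xm σ`, `κ = dg (α f)`. `g ↦ dg (α g)` is linear, kills `J` (`rename_J`), so for `g`
homogeneous of degree `ee + 4`, `dg (α g) = κ dg g` (apply it to `g - C (dg g) f ∈ J`); `g = α f` gives
`κ^2 = 1`, so `κ = 1` or `κ = -1` (domain). If `κ = -1`: `f + α f` is homogeneous of degree `ee + 4` with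
`dg = 0`, so it is in `J` (`IsDg.t`); by `star` there is `g` with `f - (g - α g) ∈ J`, and taking the
homogeneous component of degree `ee + 4` (`homComp_mem_J`, as in `piF_zero_of_add_rename`) we may assume `g`
homogeneous of degree `ee + 4`. Apply `dg`: `1 = dg g - κ dg g = 2 dg g`, impossible, as `2` is not a unit
(`red_two`: `red 1 = 1 ≠ 0`). So `κ = 1`. For other degrees both sides are `0`; sum the homogeneous
components of a general `f` (`sum_homogeneousComponent`). -/
def StXdga : Prop := ∀ σ ∈ Δ, σ.card = ee + 4 → ∀ dg, IsDg ee Δ α VP σ dg → ∀ f, dg (rename α f) = dg f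

/-- XT. The functionals in degree `ee + 5`.
Proof. Every `f` homogeneous of degree `ee + 5` is in `J` (`large_R`), so `f = ∑ Θ_l g_l` modulo `sr`
(`mem_J_iff`), and `dg (g_m)` does not depend on the choice: a relation `∑ Θ_l h_l ∈ sr` has
`h_l ∈ J` (`syz_J`). Let `T m f = dg (g_m)` for the component of degree `ee + 5` of `f`. It is linear, kills
`sr` (the component of degree `ee + 5` of an element of `sr` is in `sr`: `mem_sr_iff`), and
`T m (Θ_l f) = [l = m] dg f`: take the component `f_5` of degree `ee + 4` of `f`, the component of degree `ee + 5` of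
`Θ_l f` is `Θ_l f_5` (`homComp_lin_mul` or `mem_J_hom`), and `dg f = dg f_5`. Invariance: apply `α` to
`f = ∑ Θ_l g_l + s`: `α f = ∑ Θ_l (- α g_l) + α s`, and `dg (α g) = dg g`. -/
def StXT : Prop := ∀ σ ∈ Δ, σ.card = ee + 4 → ∀ dg, IsDg ee Δ α VP σ dg → (∀ f, dg (rename α f) = dg f) →
  ∃ T : ℕ → MvPolynomial V (RR (ee + 4) V) →ₗ[RR (ee + 4) V] RR (ee + 4) V, IsT ee Δ α VP dg T

/-- Xnd. Nondegeneracy, and nondegeneracy modulo 2.
Proof. First part: `nondeg_R` (for `g` homogeneous of degree `k`, `g f` is homogeneous of degree `ee + 4`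
with `dg = 0`, so in `J`). Second: `gpi (xm G * map f) = 0` for the faces `G` with `k` vertices
(`StXpi`), so `map f` is in the ideal over the residue field (`nondeg_pi`), and `lift_J_hom`. -/
def StXnd : Prop := ∀ σ ∈ Δ, σ.card = ee + 4 → ∀ dg, IsDg ee Δ α VP σ dg →
  (∀ i k, i + k = ee + 4 → ∀ f : MvPolynomial V (RR (ee + 4) V), f.IsHomogeneous i →
    (∀ g : MvPolynomial V (RR (ee + 4) V), g.IsHomogeneous k → dg (f * g) = 0) → f ∈ Jid Δ (ga ee α VP) (ee + 4)) ∧
  (∀ i k, i + k = ee + 4 → ∀ f : MvPolynomial V (RR (ee + 4) V), f.IsHomogeneous i →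
    (∀ G ∈ Δ, G.card = k → (2 : RR (ee + 4) V) ∣ dg (f * xm (RR (ee + 4) V) G)) →
    ∃ u : MvPolynomial V (RR (ee + 4) V), u.IsHomogeneous i ∧ f - (2 : RR (ee + 4) V) • u ∈ Jid Δ (ga ee α VP) (ee + 4))

/-- the monomial of a list of vertices -/
noncomputable def xl {V : Type} (F : Type) [CommRing F] (L : List V) : MvPolynomial V F :=
  (L.map (fun v => (X v : MvPolynomial V F))).prod

/-- RbL (characteristic 2, any `d`, any degree `e`): D6 `I_Rb2.lean` with a list `L` of `d - 2 e`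
vertices in the place of `u, v`.
Proof. As there. `Con (xl F L * X'^2)` by induction on `L` (`Con.X`, `Con.mul`, `Con.sq`). First
`D 0 tau (piF (X s * (xl F L * X'^2))) = 0` for all `s`: for `s ∈ VP` by `rel3_aux` (with
`Con (xl F L * X'^2)` and the second hypothesis), for the others by `D_pi` and the first. Then
`CC_pi_T` for the list `L ++ q :: (gs ++ gs)` (of length `d - 2 e + 1 + 2 (e - 1) = d - 1`) and
`X q * (xl F L * X'^2)`; modulo `srIdeal`,
`((L.map yy).prod * (yy q * P^2)) * (X q * (xl F L * X'^2)) = (xl F L * X q * P * X')^2`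
(`Xyy`, `mul_sub_mem`, induction on `L`), and `CC_piF_sq` gives the square of the wanted value. -/
def StRbL : Prop := ∀ {V : Type} [Fintype V] [DecidableEq V] {F : Type} [Field F] [CharP F 2]
  {Δ : Finset (Finset V)} {d : ℕ} {α : Equiv.Perm V} {VP : Finset V} {p : ℕ → V ⊕ Bool → F}
  {D : ℕ → V ⊕ Bool → Derivation ℤ F F} {μ : ℕ → F} {c : V → F} {Dm : ℕ → Derivation ℤ F F}
  {Dc : V → Derivation ℤ F F}, Setup Δ d α VP p D μ c Dm Dc → ∀ e, 1 ≤ e → 2 * e + 1 ≤ d →
  ∀ X' : MvPolynomial V F,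
  (∀ L : List V, L.length + 2 * e = d → piF Δ d p D (xl F L * X' ^ 2) = 0) →
  (∀ L : List V, L.length + 2 * e = d →
    ∑ v' ∈ VP, p 0 (Sum.inl v') * piF Δ d p D (X v' * (xl F L * X' ^ 2)) = 0) →
  ∀ L : List V, L.length + 2 * e = d → ∀ q, ∀ gs : List V, gs.length + 1 = e →
  piF Δ d p D (xl F L * X q * (gs.map (yy F α)).prod * X') = 0

/-- XpiT. Proof. `f = ∑ Θ_l g_l` modulo `sr` (`large_R`, `mem_J_hom`: `g_l` homogeneous of degree `ee + 4`), so
`T m f = dg (g_m)` (`IsT`), which is even: `gpi (map g_m) = 0` (`StXpi`). `piF_lin_mul`: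
`gpi (map (Θ_l g_l)) = p_l(tau) * gpi (map g_l) = 0`, and `gpi` kills the reduction of `sr`
(`piF_sr`, `map_sr`). -/
def StXpiT : Prop := ∀ σ ∈ Δ, σ.card = ee + 4 → ∀ dg, IsDg ee Δ α VP σ dg → ∀ T, IsT ee Δ α VP dg T →
  ∀ f : MvPolynomial V (RR (ee + 4) V), f.IsHomogeneous (ee + 5) → (∀ m < ee + 4, (2 : RR (ee + 4) V) ∣ T m f) →
  gpi ee Δ α VP (MvPolynomial.map (red (ee + 4) V) f) = 0

/-- Xrelb. The relations modulo 2, in every degree `i` with `2 i < d`.
Proof. Both sides are additive in `M`, and for `M` homogeneous of degree different from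
`ee + 5 - 2 i` the element is homogeneous of degree different from `ee + 4`, where `dg = 0`; so
(`Finsupp` induction, monomials are `C r * xl _ L'`) let `M = xl _ (q :: L)`, `L.length + 2 i = ee + 4`
(`ee + 5 - 2 i ≥ 1`). `X' = map (red (ee + 4) V) y`. `StXpi` and `StXpiT` (for `M = xl _ L`):
`piF (xl L * X'^2) = 0` and `piF (wel * (xl L * X'^2)) = 0` (`map` of `welA` is `wel`: D6
`IXrelb.map_w`). `derive_m` with `l = 0` (for `Con (xl L * X'^2)`) gives the second hypothesis of
`StRbL`, and `StRbL` with `d = ee + 4`, `e = i` gives `piF (xl L * X q * (gs.map yy).prod * X') = 0`;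
`StXpi`. Model: D6 `I_Xrelb.lean`. -/
def StXrelb : Prop := ∀ σ ∈ Δ, σ.card = ee + 4 → ∀ dg, IsDg ee Δ α VP σ dg →
  ∀ T, IsT ee Δ α VP dg T → ∀ i, 1 ≤ i → 2 * i < ee + 4 →
  ∀ y : MvPolynomial V (RR (ee + 4) V), y.IsHomogeneous i →
  (∀ M, (2 : RR (ee + 4) V) ∣ dg (M * y ^ 2)) →
  (∀ M, ∀ m < ee + 4, (2 : RR (ee + 4) V) ∣
    T m (M * welA (ee + 4) α VP (ga ee α VP) (gm ee V) (gc ee) * y ^ 2)) →
  ∀ M, ∀ gs : List V, gs.length + 1 = i →
    (2 : RR (ee + 4) V) ∣ dg (M * (gs.map (yy (RR (ee + 4) V) α)).prod * y)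

/-- Sp. Specialization to integers.
Proof. The complement of the prime ideal `(2)` of `PR (ee + 4) V` becomes invertible in
`RR (ee + 4) V`, so `2 ∣ algebraMap P` implies `2 ∣ s P` with `s` odd, hence `2 ∣ P` in
`PR (ee + 4) V` (`2` is prime there): see the proof of D6 `I_Xind.lean`; apply `χ`. -/
def StSp : Prop := ∀ (P : PR (ee + 4) V) (χ : PR (ee + 4) V →+* ℤ),
  (2 : RR (ee + 4) V) ∣ algebraMap (PR (ee + 4) V) (RR (ee + 4) V) P → (2 : ℤ) ∣ χ P

/-- Pmm. Permanents and ring homomorphisms. Proof. `coeff_map`, `map_prod`, `map_sum`. -/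
def StPmm : Prop := ∀ {V : Type} [Fintype V] [DecidableEq V] {A B : Type} [CommRing A] [CommRing B]
  (f : A →+* B) (VP : Finset V) (a : ℕ → V → A) (L : Finset ℕ) (S : Finset V),
  f (pmA VP a L S) = pmA VP (fun l v => f (a l v)) L S

/-- XindT. Any `ee + 4` distinct columns in `VP` are independent.
Proof. Let `c' : Fin (ee + 4) → V` enumerate `S`, `M` the matrix with entries `ga l (c' i)`. `M.det` is
the image of the corresponding determinant `P` over `PR (ee + 4) V` (`RingHom.map_det`), and `2 ∤ M.det`: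
otherwise by `StSp` `χ P` is even for every `χ`; take for `χ` the evaluation of the variable
`(l, c' i)` of `PR (ee + 4) V` (`aP`, `pP`) at `1` if `l = i`, else `0`: `χ P = det 1 = 1`. So
`M.det ≠ 0`, and `M t = 0` implies `t = 0` (`Matrix.eq_zero_of_mulVec_eq_zero`; the ring is a domain).
Model: D6 `I_Xind.lean`, first part. -/
def StXindT : Prop := ∀ S ⊆ VP, S.card = ee + 4 → ∀ t : ℕ → RR (ee + 4) V,
  (∀ p ∈ S, ∑ m ∈ range (ee + 4), ga ee α VP m p * t m = 0) → ∀ m < ee + 4, t m = 0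

/-- XindP. Their permanent is odd.
Proof. The permanent is the image of the permanent over `PR (ee + 4) V` (`StPmm`). If it were
divisible by 2 then by `StSp` all its integer values would be even. Let `c' : Fin (ee + 4) → V`
enumerate `S`, evaluate the variable `(l, v)` at `1` if `v = c' l`, else `0` (for the other variables
of `PR` take `0`): the value is the coefficient of `ex S` in `∏_l X (c' l) = monomial (ex S) 1`, that
is `1`. -/
def StXindP : Prop := ∀ S ⊆ VP, S.card = ee + 4 →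
  ¬ (2 : RR (ee + 4) V) ∣ pmA VP (ga ee α VP) (range (ee + 4)) S

/-- XindW. One more genericity condition.
Proof. As for `XindP`. Choose `s ∈ U` and `c 0 ∈ P \ U` (it has 5 elements), and enumerate `P.erase s`
by `c : Fin (ee + 4) → V` with this `c 0`. Evaluate: `(l, v)` at `1` if `v = c l`, `(0, s)` at `1`, all
other `(l, v)` at `0`; `μ_0` at `1`, the other `μ_l` at `0`. The factor
`∑_l μ_l a_(l u) = a_(0 u)` is `0` for the `u ∈ U`, `u ≠ s` (`u ≠ c 0`), and `1` for `u = s`. The
permanent of `P.erase s` is the coefficient of `ex (P.erase s)` in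
`(X (c 0) + X s) * ∏_(l ≥ 1) X (c l)`: `1` (the other monomial contains `X s`). So the value is `1`,
not even. -/
def StXindW : Prop := ∀ U P : Finset V, U ⊆ P → P ⊆ VP → U.Nonempty → U.card = ee →
  P.card = ee + 5 →
  ¬ (2 : RR (ee + 4) V) ∣ ∑ u ∈ U, (∑ l ∈ range (ee + 4), gm ee V l * ga ee α VP l u) *
    pmA VP (ga ee α VP) (range (ee + 4)) (P.erase u)

/-- XindO. The weights are odd. Proof. `StSp`: put the variable `(0, v)` and `μ_0` to `1` and all the
other variables to `0`: the value is `1` (D6 `I_Xind.lean`, second part). -/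
def StXindO : Prop := ∀ v ∈ VP,
  ¬ (2 : RR (ee + 4) V) ∣ ∑ l ∈ range (ee + 4), gm ee V l * ga ee α VP l v

/-- Xder. The derivations. Proof. `LD (DP α VP m (Sum.inl v))` and `LD (DcP v)`: the computations are
in the proof of `inj_generic_q` (`Quad/QGeneric.lean`). -/
def StXder : Prop :=
  (∀ m < ee + 4, ∀ v ∈ VP, ∃ δ : Derivation ℤ (RR (ee + 4) V) (RR (ee + 4) V),
    (∀ l < ee + 4, ∀ u, δ (ga ee α VP l u) =
      if m = l then (if u = v then 1 else if u = α v then -1 else 0) else 0) ∧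
    (∀ l, δ (gm ee V l) = 0) ∧ (∀ u, δ (gc ee u) = 0)) ∧
  (∀ v ∈ VP, ∃ δ : Derivation ℤ (RR (ee + 4) V) (RR (ee + 4) V), (∀ l u, δ (ga ee α VP l u) = 0) ∧
    (∀ l, δ (gm ee V l) = 0) ∧ (∀ u, δ (gc ee u) = if v = u then 1 else 0))

/-- Xcube. `x^2 + x y + y^2` has only the trivial zero in the residue field.
Proof. Write `x = P/s`, `y = Q/s` with `P, Q, s` in `PR (ee + 4) V`, `s` odd (not divisible by 2): then
`2 ∣ P^2 + P Q + Q^2` in `PR (ee + 4) V` (as in Xind), so for the reductions `p, q` in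
`MvPolynomial (Om (ee + 4) V) (ZMod 2)`: `p^2 + p q + q^2 = 0`. Let `K` be an algebraic closure of `ZMod 2`
and `ω ∈ K` a root of `t^2 + t + 1`; `ω` is not in the image of `ZMod 2`. In the domain
`MvPolynomial _ K`: `(p - ω q)(p - ω^2 q) = p^2 + p q + q^2 = 0` (`ω + ω^2 = -1`, `ω^3 = 1`), so all
coefficients satisfy `p_m = ω q_m` (or all `p_m = ω^2 q_m`), with `p_m, q_m` in the image of `ZMod 2`:
`q_m = 0` and `p_m = 0`. So `p = q = 0`, `2 ∣ P, Q`, `2 ∣ x, y`. -/
def StXcube (V : Type) [Fintype V] [DecidableEq V] : Prop :=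
  ∀ x y : RR (ee + 4) V, (2 : RR (ee + 4) V) ∣ x ^ 2 + x * y + y ^ 2 →
    (2 : RR (ee + 4) V) ∣ x ∧ (2 : RR (ee + 4) V) ∣ y

/-- Xdual. Duality over the generic ring: every functional killing `J` in degree `h` is
`g ↦ dg (f g)`.
Proof. `F = FF (ee + 4) V`. Represent functionals on the homogeneous polynomials of degree `h` by the
functions `cc : Mon V h → R`, `lam_cc g = ∑_(m ∈ Mon V h) cc m * coeff m g` (`R = RR (ee + 4) V`; the module
of these functions is finitely generated over the Noetherian ring `R`, for instance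
`(Mon V h → R)` with the finite index type). `M` = those `cc` for which `lam_cc` kills the elements of
`J` homogeneous of degree `h`; `U` = those of the form `cc m = dg (f * monomial m 1)`, `f` homogeneous
of degree `ee + 4 - h`. `U ≤ M`; claim `M ≤ U + 2 M`, then `M ≤ U` by Nakayama
(`Submodule.le_of_le_smul_of_le_jacobson_bot`, as in `nak`, `max_eq`). Let `cc ∈ M`, `cb = red ∘ cc`.
`lam_cb` kills the elements of the reduced ideal of degree `h`: such an element lifts to `g`
homogeneous of degree `h`, `g = e + 2 g'`, `e ∈ J` (`lift_J_hom`), `lam_cc g = 2 lam_cc g'`, reduce.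
By `D5.StXdualF` with `e = gpi` (nondegeneracy: `nondeg_pi`) there is `fb` homogeneous of degree `ee + 4 - h`
with `gpi (fb * g) = lam_cb g`. Scale by `gpi (xm σ)` (`StXpi`, a nonzero constant) and lift to `f`
homogeneous: `red (dg (f * monomial m 1)) = cb m`, so `cc = (cc - 2 cc'') + 2 cc''` with
`cc - 2 cc'' ∈ U`, and `cc'' ∈ M` because `2 cc'' = cc - u`, `u ∈ U ≤ M`, and `R` is a domain. Finally for
`lam` given take `cc m = lam (monomial m 1)`; for `g` homogeneous of degree `h`,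
`lam_cc g = lam g` (`hom_sum_Mon`). -/
def StXdual : Prop := ∀ σ ∈ Δ, σ.card = ee + 4 → ∀ dg, IsDg ee Δ α VP σ dg → ∀ h ≤ ee + 4,
  ∀ lam : MvPolynomial V (RR (ee + 4) V) →ₗ[RR (ee + 4) V] RR (ee + 4) V,
  (∀ g ∈ Jid Δ (ga ee α VP) (ee + 4), g.IsHomogeneous h → lam g = 0) →
  ∃ f : MvPolynomial V (RR (ee + 4) V), f.IsHomogeneous (ee + 4 - h) ∧
    ∀ g : MvPolynomial V (RR (ee + 4) V), g.IsHomogeneous h → dg (f * g) = lam g

/-- Xtate. The Tate property over the generic ring.
Proof. `f` homogeneous of degree `n`, `α f - f ∈ J`: reduce, `fb + α fb` is in the reduced ideal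
(characteristic 2). `D5.StTateF` with `j = ee + 4` (`locHyp.ind`), take the homogeneous component of degree `n`
(`W_I` is homogeneous of degree `|I|`; `homComp_mem_J`; the component of `α g` is `α` of the
component): `fb = ∑_(|I| = n) β_I W_I + gb + α gb` modulo the reduced ideal, `gb` homogeneous. Lift `β`
and `gb` (homogeneous); the difference is homogeneous of degree `n` and reduces into the ideal:
`lift_J_hom` gives `e ∈ J` and `v` homogeneous. -/
def StXtate : Prop := ∀ n, ∀ f : MvPolynomial V (RR (ee + 4) V), f.IsHomogeneous n →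
  rename α f - f ∈ Jid Δ (ga ee α VP) (ee + 4) →
  ∃ (β : Finset ℕ → RR (ee + 4) V) (g v : MvPolynomial V (RR (ee + 4) V)), g.IsHomogeneous n ∧
    v.IsHomogeneous n ∧
    f - ∑ I ∈ (range (ee + 4)).powersetCard n, C (β I) * ∏ i ∈ I, (∑ v ∈ VP, C (ga ee α VP i v) * X v) -
      (g + rename α g) - (2 : RR (ee + 4) V) • v ∈ Jid Δ (ga ee α VP) (ee + 4)

/-- Xall. The context exists. Proof. `exists_facet` for `σ`; put everything together: `dg` from `StXdg`,
`T` from `StXT`, `XH H` for full `H` from `StXdual` with `lam = ph H` (which kills `J`: `ph` does not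
depend on `dg, T, XH`, see `StPh`; here take any datum with the given `Δ, α, VP, a`), extended to all
`g` by homogeneous components (`ph H g = 0` and `dg (XH H * g) = 0` in the other degrees), `0` for the
other sets. `tors`, `syz`: `tors_reg`, `syz_J`; `two`: `2` generates the maximal ideal and is not `0`
(see the proof of `tors`). `indt`, `indp`, `indw`, `wt_odd` are the `StXind?`; `relb` is `StXrelb`
with `i = 2` and `gs = [q]`. Model: D6 `I_Xall.lean`. -/
def StXall : Prop := 1 ≤ ee → ∃ D : Dat ee V (RR (ee + 4) V), D.Δ = Δ ∧ D.α = α ∧ D.VP = VP ∧ D.a = ga ee α VP ∧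
  D.μ = gm ee V ∧ D.c = gc ee ∧ Ctx D

/-- XeK. The degree functional over the fraction field `KK (ee + 4) V`.
Proof. `φ = algebraMap (RR (ee + 4) V) (KK (ee + 4) V)`, `den_R`. Take `dg` from `StXdg` (a facet `σ` exists) and let
`e` be the `KK`-linear functional with `e (monomial m 1) = φ (dg (monomial m 1))`
(`MvPolynomial.basisMonomials`, `Basis.constr`), so `e (map φ f) = φ (dg f)`. If `g ∈ JK`, clear
denominators (`den_poly`): `C (φ s) * g = map φ g'`, `g' ∈ J` by `descend_tors` (torsion-freeness: `tors`),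
so `φ s * e g = 0`. If `h` is homogeneous of degree `ee + 4` with `e h = 0`: `C (φ s) * h = map φ h'`, `h'`
homogeneous of degree `ee + 4` (`clear_hom`), `dg h' = 0`, so `h' ∈ J` (`IsDg.t`) and `h ∈ JK` (`unscale`). -/
def StXeK : Prop := ∃ e : MvPolynomial V (KK (ee + 4) V) →ₗ[KK (ee + 4) V] KK (ee + 4) V,
  (∀ g ∈ Jid Δ (fun l v => algebraMap (RR (ee + 4) V) (KK (ee + 4) V) (ga ee α VP l v)) (ee + 4), e g = 0) ∧
  (∀ h : MvPolynomial V (KK (ee + 4) V), h.IsHomogeneous (ee + 4) → e h = 0 →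
    h ∈ Jid Δ (fun l v => algebraMap (RR (ee + 4) V) (KK (ee + 4) V) (ga ee α VP l v)) (ee + 4))

/-- Dwn. Injectivity goes down.
Proof. Let `w x ∈ J`, `x` homogeneous of degree `i'`. For `g` homogeneous of degree `i - i'`:
`w (g x) ∈ J`, so `g x ∈ J`. Hence `g' x ∈ J` for all `g'` homogeneous of degree `ee + 4 - i'` (every
such `g'` is a sum of products `g g''`, `g` of degree `i - i'`; or use monomials), and `x ∈ J` by
`nondeg_R`. Model: the first part of D6 `I_Gen.lean`. -/
def StDwn : Prop := ∀ i ≤ ee + 4,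
  (∀ x : MvPolynomial V (RR (ee + 4) V), x.IsHomogeneous i →
    welA (ee + 4) α VP (ga ee α VP) (gm ee V) (gc ee) * x ∈ Jid Δ (ga ee α VP) (ee + 4) →
    x ∈ Jid Δ (ga ee α VP) (ee + 4)) →
  ∀ i' ≤ i, ∀ x : MvPolynomial V (RR (ee + 4) V), x.IsHomogeneous i' →
    welA (ee + 4) α VP (ga ee α VP) (gm ee V) (gc ee) * x ∈ Jid Δ (ga ee α VP) (ee + 4) →
    x ∈ Jid Δ (ga ee α VP) (ee + 4)

/-- Gen. From injectivity over the generic ring in the degrees of a finite set `N` to generic
parameters over a field: injectivity in these degrees and surjectivity in the dual degrees.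
Proof. For one degree `i`: `k_inj` moves the injectivity to the fraction field, `D5.StHCex` gives a
certificate over `PR (ee + 4) V` (for `φ = phiP (ee + 4) V`, `k = 1`, `w^1 = w`), `D5.StHCmap`
injectivity at `ψ`; model: D6 `I_Gen.lean`. Surjectivity from degree `j` to `j + 1`, `i + j = ee + 3`:
over `KK (ee + 4) V` by `D6.StSurjF` with `h = i`, `k = j`, `e` from `StXeK` (the nondegeneracies from
`k_nondeg`, `nondeg_R` and the second part of `StXeK`); then `D6.StSCex` for `φ = phiP (ee + 4) V`.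
Everything of degree at least `ee + 5` is in the ideal: as in `generic_bij_q`. Take the product of the
finitely many `g` (induction on `N`, or `Finset.prod` over `N.attach`). -/
def StGen : Prop := ∀ N : Finset ℕ, (∀ i ∈ N, i + 1 ≤ ee + 4 ∧
    ∀ x : MvPolynomial V (RR (ee + 4) V), x.IsHomogeneous i →
      welA (ee + 4) α VP (ga ee α VP) (gm ee V) (gc ee) * x ∈ Jid Δ (ga ee α VP) (ee + 4) →
      x ∈ Jid Δ (ga ee α VP) (ee + 4)) →
  ∃ g : PR (ee + 4) V, g ≠ 0 ∧ ∀ {k : Type u} [Field k] (ψ : PR (ee + 4) V →+* k), ψ g ≠ 0 →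
    (∀ i ∈ N,
      (∀ x : MvPolynomial V k, x.IsHomogeneous i →
        MvPolynomial.map ψ (wP (ee + 4) α VP) * x ∈
          Jid Δ (fun l v => ψ (aP (ee + 4) α VP l v)) (ee + 4) →
        x ∈ Jid Δ (fun l v => ψ (aP (ee + 4) α VP l v)) (ee + 4)) ∧
      (∀ j, i + j = ee + 3 → ∀ y : MvPolynomial V k, y.IsHomogeneous (j + 1) →
        ∃ x : MvPolynomial V k, x.IsHomogeneous j ∧
          MvPolynomial.map ψ (wP (ee + 4) α VP) * x - y ∈
            Jid Δ (fun l v => ψ (aP (ee + 4) α VP l v)) (ee + 4))) ∧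
    (∀ n, ee + 4 < n → ∀ f : MvPolynomial V k, f.IsHomogeneous n →
      f ∈ Jid Δ (fun l v => ψ (aP (ee + 4) α VP l v)) (ee + 4))

/-- Trans. Transfer to generic antisymmetric parameters and the sum of all variables.
Port of D6 `I_Trans.lean` (the part about `Φ`; no induction on the degree is needed). -/
def StTrans : Prop := ∀ {k : Type u} [Field k] [CharZero k], ∀ (N : Finset ℕ)
  (g : PR (ee + 4) V), g ≠ 0 →
  (∀ ψ : PR (ee + 4) V →+* k, ψ g ≠ 0 →
    (∀ i ∈ N,
      (∀ x : MvPolynomial V k, x.IsHomogeneous i →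
        MvPolynomial.map ψ (wP (ee + 4) α VP) * x ∈
          Jid Δ (fun l v => ψ (aP (ee + 4) α VP l v)) (ee + 4) →
        x ∈ Jid Δ (fun l v => ψ (aP (ee + 4) α VP l v)) (ee + 4)) ∧
      (∀ j, i + j = ee + 3 → ∀ y : MvPolynomial V k, y.IsHomogeneous (j + 1) →
        ∃ x : MvPolynomial V k, x.IsHomogeneous j ∧
          MvPolynomial.map ψ (wP (ee + 4) α VP) * x - y ∈
            Jid Δ (fun l v => ψ (aP (ee + 4) α VP l v)) (ee + 4))) ∧
    (∀ n, ee + 4 < n → ∀ f : MvPolynomial V k, f.IsHomogeneous n →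
      f ∈ Jid Δ (fun l v => ψ (aP (ee + 4) α VP l v)) (ee + 4))) →
  ∃ Φ : MvPolynomial (Fin (ee + 4) × V) k,
    (∃ A : Fin (ee + 4) → V → k, (∀ l v, A l (α v) = - A l v) ∧
      eval (fun q => A q.1 q.2) Φ ≠ 0) ∧
    ∀ A : Fin (ee + 4) → V → k, (∀ l v, A l (α v) = - A l v) →
      eval (fun q => A q.1 q.2) Φ ≠ 0 →
      (∀ i ∈ N, (∀ x ∈ gr (Jid Δ (rowN A) (ee + 4)) i,
          Ideal.Quotient.mk _ (wsum V k) * x = 0 → x = 0) ∧
        (∀ j, i + j = ee + 3 → ∀ y ∈ gr (Jid Δ (rowN A) (ee + 4)) (j + 1),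
          ∃ x ∈ gr (Jid Δ (rowN A) (ee + 4)) j, Ideal.Quotient.mk _ (wsum V k) * x = y)) ∧
      (∀ n, ee + 4 < n → ∀ f : MvPolynomial V k, f.IsHomogeneous n →
        f ∈ Jid Δ (rowN A) (ee + 4))

end CSLef.DG
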