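import Mathlib
import Pool.Agent.Work.MP_38c61c_al.DG.StmtsX

/-!
Item RbL of block DG: relations in characteristic 2 with a list of free vertices (the version for
lists of D6 `I_Rb2.lean`).
-/

namespace CSLef.DG

open MvPolynomial Finset

namespace IRbL

variable {V : Type} [Fintype V] [DecidableEq V] {F : Type} [Field F] [CharP F 2]
  {Δ : Finset (Finset V)} {d : ℕ} {α : Equiv.Perm V} {VP : Finset V} {p : ℕ → V ⊕ Bool → F}
  {D : ℕ → V ⊕ Bool → Derivation ℤ F F} {μ : ℕ → F} {c : V → F} {Dm : ℕ → Derivation ℤ F F}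
  {Dc : V → Derivation ℤ F F}

omit [Fintype V] [DecidableEq V] [CharP F 2] in
theorem xl_nil : xl F ([] : List V) = 1 := rfl

omit [Fintype V] [DecidableEq V] [CharP F 2] in
theorem xl_cons (v : V) (L : List V) : xl F (v :: L) = X v * xl F L := by
  unfold xl
  rw [List.map_cons, List.prod_cons]

theorem con_xl (L : List V) : Con (xl F L) := by
  induction L with
  | nil => exact Con.one
  | cons v L ih => rw [xl_cons]; exact (Con.X v).mul ih

/-- the derivative of the degree `d + 1` values vanishes -/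
theorem hT (S : Setup Δ d α VP p D μ c Dm Dc) (hd0 : 0 < d) {X' : MvPolynomial V F} (L : List V)
    (h1 : piF Δ d p D (xl F L * X' ^ 2) = 0)
    (hE : ∑ v' ∈ VP, p 0 (Sum.inl v') * piF Δ d p D (X v' * (xl F L * X' ^ 2)) = 0) (s : V) :
    D 0 tau (piF Δ d p D (X s * (xl F L * X' ^ 2))) = 0 := by
  have hcon : Con (xl F L * X' ^ 2) := (con_xl L).mul (Con.sq X')
  have hVP : ∀ s ∈ VP, D 0 tau (piF Δ d p D (X s * (xl F L * X' ^ 2))) = 0 := by
    intro s hs
    have h2 := rel3_aux S hcon hd0 hE hs [] [] rfl List.not_mem_nil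
    simp only [List.map_nil, List.prod_nil, one_mul, CC_nil, CC_cons] at h2
    have h3 := congrArg (D 0 tau) h2
    rw [map_zero, map_add, map_sum, Finset.sum_eq_zero, add_zero] at h3
    · exact h3
    · intro v' _
      rw [Derivation.leibniz, S.cols.D_p, if_neg (fun h => h.2.2), smul_zero, add_zero, smul_eq_mul]
      have h4 := Sq_piF S.cols S.cs (Δ := Δ) (yy F α s * (X v' * (xl F L * X' ^ 2)))
        (fun l => ((Con.yy s).mul ((Con.X v').mul hcon)) _) 0
      change D 0 tau (D 0 tau
        (piF Δ d p D (yy F α s * (X v' * (xl F L * X' ^ 2))))) = 0 at h4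
      change _ * D 0 tau (D 0 tau
        (piF Δ d p D (yy F α s * (X v' * (xl F L * X' ^ 2))))) = 0
      rw [h4, mul_zero]
  by_cases hs : s ∈ VP
  · exact hVP s hs
  · have hs' : α s ∈ VP := by
      by_contra h'
      exact hs ((S.vp s).mpr h')
    have h2 := D_pi S 0 s (f := xl F L * X' ^ 2) hcon
    rw [h1, map_zero] at h2
    have h3 : yy F α s * (xl F L * X' ^ 2) =
        X s * (xl F L * X' ^ 2) + X (α s) * (xl F L * X' ^ 2) := by
      unfold yy; ring
    rw [h3, map_add, map_add, hVP _ hs', add_zero] at h2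
    exact h2.symm

omit [CharP F 2] in
/-- the product over a list, modulo the Stanley-Reisner ideal -/
theorem listyy (S : Setup Δ d α VP p D μ c Dm Dc) (L : List V) :
    (L.map (yy F α)).prod * xl F L - xl F L ^ 2 ∈ srIdeal F Δ := by
  induction L with
  | nil =>
    rw [List.map_nil, List.prod_nil, xl_nil]
    simp
  | cons v L ih =>
    rw [List.map_cons, List.prod_cons, xl_cons]
    have h : yy F α v * (L.map (yy F α)).prod * (X v * xl F L) - (X v * xl F L) ^ 2 =
        (yy F α v * X v) * ((L.map (yy F α)).prod * xl F L) - X v ^ 2 * xl F L ^ 2 := by ring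
    rw [h]
    exact mul_sub_mem (Xyy S v) ih

end IRbL

theorem pr_RbL : StRbL := by
  intro V _ _ F _ _ Δ d α VP p D μ c Dm Dc S e he hde X' h1 hE L hL q gs hgs
  have hd0 : 0 < d := by omega
  set P := (gs.map (yy F α)).prod with hP
  have hfull : ((L ++ q :: (gs ++ gs)).map (yy F α)).prod =
      (L.map (yy F α)).prod * (yy F α q * P ^ 2) := by
    rw [List.map_append, List.prod_append, List.map_cons, List.prod_cons, list_sq]
  obtain ⟨n, hn⟩ : ∃ n, d = n + 1 := ⟨d - 1, by omega⟩
  have hlen : ((List.range n).map Nat.succ).length = (L ++ q :: (gs ++ gs)).length := by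
    rw [List.length_map, List.length_range, List.length_append, List.length_cons,
      List.length_append]
    omega
  have hcon : Con (X q * (xl F L * X' ^ 2)) :=
    (Con.X q).mul ((IRbL.con_xl L).mul (Con.sq X'))
  have h2 := CC_pi_T S 0 ((List.range n).map Nat.succ) (L ++ q :: (gs ++ gs)) hlen
    (X q * (xl F L * X' ^ 2)) hcon (IRbL.hT S hd0 L (h1 L hL) (hE L hL) q)
  have hrange : List.range d = 0 :: (List.range n).map Nat.succ := by
    rw [hn, List.range_succ_eq_map]
  rw [← hrange, hfull] at h2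
  have hZ : ((L.map (yy F α)).prod * (yy F α q * P ^ 2)) * (X q * (xl F L * X' ^ 2)) -
      (xl F L * X q * P * X') ^ 2 ∈ srIdeal F Δ := by
    have : ((L.map (yy F α)).prod * (yy F α q * P ^ 2)) * (X q * (xl F L * X' ^ 2)) -
      (xl F L * X q * P * X') ^ 2 =
      (P ^ 2 * X' ^ 2) * (((L.map (yy F α)).prod * xl F L) * (yy F α q * X q) -
        xl F L ^ 2 * X q ^ 2) := by ring
    rw [this]
    exact Ideal.mul_mem_left _ _ (mul_sub_mem (IRbL.listyy S L) (Xyy S q))
  have h3 := piF_sr S.cols S.cs S.hs.down hZ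
  rw [map_sub, sub_eq_zero] at h3
  rw [h3, CC_piF_sq S.cols S.cs] at h2
  exact pow_eq_zero_iff (two_ne_zero) |>.mp h2

end CSLef.DG
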