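import Mathlib
import Pool.Agent.Work.MP_38c61c_al.DG.Defs

/-!
Block DG, part 1: statements (functionals, pairs, reduction, main identity) in dimension
`d = ee + 4`, `ee ≥ 1`. Up to `StDisT` the statements and the proofs are those of D5 and D6 with 5 (or
6) replaced by `ee + 4` and 6 (or 7) by `ee + 5`. Each statement is about one datum `D`; the items
prove `Ctx D → (the listed earlier statements for D) → St D`.
In the docstrings `deg` is `D.dg`, `α` acts by `rename D.α`, `φ_H = D.ph H`, `ψ_(p,H) = D.ps p H`,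
`Θ_l = lin (D.a l)`, `y_v = X_v + X_(αv)`, `z_v = X_v - X_(αv)`, `sr = srIdeal R D.Δ`, and
`X_U = xm R U` is the product of the `X v`, `v ∈ U`.
-/

namespace CSLef.DG

open MvPolynomial Finset

variable {ee : ℕ} {V : Type} [Fintype V] [DecidableEq V] {R : Type} [CommRing R] [IsDomain R]

/-- PhX. Values of `φ_H` on multiples of a variable.
Proof. For `H ⊆ VP` and `T ⊆ H` the set `flip H T` contains exactly one of `p, αp` for every `p ∈ H`
(`αp` if `p ∈ T`, else `p`) and no other vertices (`αp ∉ VP` by `vp`). The coefficient of `ex S` in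
`X u * f` is `0` for `u ∉ S`, and the coefficient of `ex (S.erase u)` in `f` for `u ∈ S`. For `v ∈ H`:
in `φ_H (X v * f)` only the `T` with `v ∉ T` contribute, `flip H T` without `v` is
`flip (H.erase v) T`, and `T` runs over the subsets of `H.erase v`. In `φ_H (X (αv) * f)` only the
`T ∋ v` contribute, `flip H T` without `αv` is `flip (H.erase v) (T.erase v)`. For `v ∉ H` nothing
contributes. Last part: `flip H' T ⊆ flip H T` for `T ⊆ H' ⊆ H`. -/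
def StPhX (D : Dat ee V R) : Prop :=
  (∀ H ⊆ D.VP, ∀ v ∈ D.VP, ∀ f : MvPolynomial V R,
    (v ∈ H → D.ph H (X v * f) = D.ph (H.erase v) f ∧ D.ph H (X (D.α v) * f) = D.ph (H.erase v) f) ∧
    (v ∉ H → D.ph H (X v * f) = 0 ∧ D.ph H (X (D.α v) * f) = 0)) ∧
  (∀ H, D.Full H → ∀ H' ⊆ H, D.Full H')

/-- Ph. `φ_H` kills `sr`, all `z_v g`, and the ideal `J`.
Proof. `sr`: by `mem_sr_iff` the coefficients of `f ∈ sr` at exponents whose support is a face vanish,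
and the support of `ex (flip H T)` is `flip H T`, a face. `z_v f`: for `v ∈ VP` by `StPhX` the two
parts are equal; for `v ∉ VP`, `αv ∈ VP` and `z_v = - z_(αv)`. `J`: `mem_J_iff` and
`lin (a l) = ∑_(v ∈ VP) C (a l v) * (X v - X (αv))` (`lin_eq_VP`). -/
def StPh (D : Dat ee V R) : Prop := ∀ H, D.Full H →
  (∀ f ∈ srIdeal R D.Δ, D.ph H f = 0) ∧ (∀ v, ∀ f : MvPolynomial V R, D.ph H (D.z v * f) = 0) ∧
  (∀ f ∈ D.J, D.ph H f = 0)

/-- PhA. Invariance, homogeneity, derivations and values of `φ_H`.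
Proof. (a) `coeff_rename_inv` and: the image under `α` of `flip H T` is `flip H (H \ T)`; substitute
`T ↦ H \ T` in the sum. (b) the degree of `ex (flip H T)` is `|flip H T| = |H|`. (c) `coeff_dmap`.
(d), (e) `xm R S = monomial (ex S) 1`, and `T ↦ flip H T` is injective on subsets of `H ⊆ VP`; `ex` is
injective. (f) all flips of `H` are faces of `card` at most (ee + 4) and have `card = |H|`. -/
def StPhA (D : Dat ee V R) : Prop := ∀ H, D.Full H →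
  (∀ f, D.ph H (rename D.α f) = D.ph H f) ∧
  (∀ n, n ≠ H.card → ∀ f : MvPolynomial V R, f.IsHomogeneous n → D.ph H f = 0) ∧
  (∀ (δ : Derivation ℤ R R) (f : MvPolynomial V R), D.ph H (dmap δ f) = δ (D.ph H f)) ∧
  (∀ T ⊆ H, D.ph H (xm R (flip D.α H T)) = 1) ∧
  (∀ S : Finset V, (∀ T ⊆ H, S ≠ flip D.α H T) → D.ph H (xm R S) = 0) ∧
  H.card ≤ ee + 4

/-- Ps. The functionals `ψ_(p,H)`.
Proof. `sr`: as in `StPh` (the exponents have support `flip H T`). `z_v f`, `v ∈ VP`, `v ≠ p`,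
`v ∈ H`: for `v ∉ T` only `X v * f` contributes, with the coefficient of
`ex (flip H T) + single (p^T) - single v` in `f`; for `v ∈ T` only `- X (αv) * f`, with the same
exponent for `T` and `T.erase v` and the same sign (the sign depends on `p ∈ T` only): cancellation.
`v ∉ H`: nothing contributes. `v = p`: for `p ∉ T` the coefficient of `ex (flip H T) + single p 1` in
`X p * f` is the coefficient of `ex (flip H T)` in `f`, and `X (αp) * f` contributes nothing; for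
`p ∈ T` only `- X (αp) * f` contributes, minus the coefficient of `ex (flip H T)` in `f`, with the sign
`-1` of `T`: plus. Third part: `lin_eq_VP` and the second part. -/
def StPs (D : Dat ee V R) : Prop := ∀ H, D.Full H → ∀ p ∈ H,
  (∀ f ∈ srIdeal R D.Δ, D.ps p H f = 0) ∧
  (∀ v ∈ D.VP, ∀ f : MvPolynomial V R, D.ps p H (D.z v * f) = if v = p then D.ph H f else 0) ∧
  (∀ l, ∀ f : MvPolynomial V R, D.ps p H (lin (D.a l) * f) = D.a l p * D.ph H f)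

/-- Ev. The Euler derivation at `v ∈ VP`.
Proof. `E v` multiplies every monomial by the number (exponent of `v`) + (exponent of `αv`): prove
this for monomials, it gives (a), (d) and (c) (each exponent `ex (flip H T)` has the number 1 if
`v ∈ H`, else 0) and (e) (`σ` is a face, so it does not contain both `v, αv`). (b) from
`lin = ∑ C (a l u) * X u`: only `u = v, αv` contribute, `a l (αv) = - a l v`, and `αv ≠ v`. -/
def StEv (D : Dat ee V R) : Prop := ∀ v ∈ D.VP,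
  (∀ f ∈ srIdeal R D.Δ, D.E v f ∈ srIdeal R D.Δ) ∧
  (∀ l, D.E v (lin (D.a l)) = C (D.a l v) * D.z v) ∧
  (∀ H, D.Full H → ∀ f, D.ph H (D.E v f) = if v ∈ H then D.ph H f else 0) ∧
  (∀ n, ∀ f : MvPolynomial V R, f.IsHomogeneous n → (D.E v f).IsHomogeneous n) ∧
  D.E v (xm R D.σ) = (if v ∈ D.σ ∨ D.α v ∈ D.σ then xm R D.σ else 0)

/-- P1. The duals `X_G`.
Proof. All by `nd` (or `tors` etc. not needed): `deg (z_v X_G g) = φ_G (z_v g) = 0` for all `g`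
(`xh_dg`, `StPh`), and `z_v X_G` is homogeneous of degree `(ee + 5) - |G|`, `|G| ≥ 1`; so `z_v X_G ∈ J`.
For `v ∈ VP \ G`: `deg (X_v X_G g) = φ_G (X_v g) = 0` (`StPhX`). For `v ∈ G`:
`deg (X_v X_G g) = φ_G (X_v g) = φ_(G - v) g = deg (X_(G-v) g)`, the difference is homogeneous of
degree `(ee + 5) - |G|`. For the last: `deg (α X_G * g) = deg (X_G * α g) = φ_G (α g) = φ_G g` (`dga`,
`rename α` is a ring homomorphism with square the identity, `StPhA`). -/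
def StP1 (D : Dat ee V R) : Prop := ∀ G, D.Full G → G.Nonempty →
  (∀ v, D.z v * D.XH G ∈ D.J) ∧
  (∀ v ∈ D.VP, v ∉ G → X v * D.XH G ∈ D.J ∧ X (D.α v) * D.XH G ∈ D.J) ∧
  (∀ v ∈ G, X v * D.XH G - D.XH (G.erase v) ∈ D.J) ∧
  rename D.α (D.XH G) - D.XH G ∈ D.J

/-- Tx. Values of `T m` from expansions; products of two elements of `J`.
Proof. `f = ∑ Θ_l g_l + s`, `s ∈ sr`: `T m (f h) = ∑_l T m (Θ_l g_l h) + T m (s h)`, and `s h ∈ sr`
(`Tlin`, `Tsr`). Second part: `mem_J_iff` for `f`, then `deg (g_m h) = 0` as `h ∈ J` (`dgJ`). -/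
def StTx (D : Dat ee V R) : Prop :=
  (∀ (f : MvPolynomial V R) (g : ℕ → MvPolynomial V R),
    f - ∑ l ∈ range (ee + 4), lin (D.a l) * g l ∈ srIdeal R D.Δ →
    ∀ m < ee + 4, ∀ h, D.T m (f * h) = D.dg (g m * h)) ∧
  (∀ f ∈ D.J, ∀ h ∈ D.J, ∀ m < ee + 4, D.T m (f * h) = 0)

/-- F3. Proof. Let `p ∈ H` (the case `p ∈ G` is the same with `G, H` exchanged). `z_v X_G ∈ J` (`StP1`),
write `z_v X_G = ∑ Θ_l g_l` modulo `sr`. By `StTx`, `T m (z_v X_G X_H) = deg (g_m X_H) = φ_H (g_m)`.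
Apply `ψ_(p,H)`: `ψ (z_v X_G) = [v = p] φ_H (X_G) = [v = p] deg (X_H X_G)` and
`ψ (∑ Θ_l g_l) = ∑_l a_(l p) φ_H (g_l)` (`StPs`). -/
def StF3 (D : Dat ee V R) : Prop := ∀ G H, D.Full G → D.Full H → G.Nonempty → H.Nonempty →
  G.card + H.card = ee + 4 → ∀ p ∈ G ∪ H, ∀ v ∈ D.VP,
  ∑ m ∈ range (ee + 4), D.a m p * D.T m (D.z v * D.XH G * D.XH H) =
    if v = p then D.dg (D.XH G * D.XH H) else 0

/-- Eul. Proof. Let `L f = ∑_m a_(m v) T_m (z_v f) - deg (E_v f)`, linear. (1) `L` vanishes on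
homogeneous elements of `J` of degree (ee + 4), indeed on all of `J`: for `f ∈ sr` by `Tsr` and `StEv`,
`dgJ`; for `f = Θ_l g`: `∑_m a_(m v) T_m (z_v Θ_l g) = a_(l v) deg (z_v g)` and
`deg (E_v (Θ_l g)) = deg (a_(l v) z_v g) + deg (Θ_l E_v g) = a_(l v) deg (z_v g)` (`mem_J_iff` gives the
general element). (2) So `L f = deg f * L (xm σ)` for `f` homogeneous of degree (ee + 4) (`dgt`), and we need
`L (xm σ) = 0`. If neither `v` nor `αv` is in `σ`: `z_v xm σ ∈ sr` (too many vertices, `card_le`), and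
`E_v (xm σ) = 0`. For `u ∈ σ` put `B m u = T_m (X_u xm σ)`. Modulo `sr`,
`Θ_l xm σ = ∑_(u ∈ σ) a_(l u) X_u xm σ` (the other products have too many vertices), so
`∑_(u ∈ σ) a_(l u) B m u = [l = m]` (`Tlin`, `dgs`). Square matrices (`|σ| = ee + 4`): hence also
`∑_m a_(m u) B m u = 1` for `u ∈ σ`. If `v ∈ σ`: `X_(αv) xm σ ∈ sr` (`no_pair`), so
`L (xm σ) = ∑ a_(m v) B m v - 1 = 0`. If `αv ∈ σ`: `z_v xm σ = - X_(αv) xm σ` modulo `sr` and
`a_(m v) = - a_(m, αv)`: `L (xm σ) = ∑ a_(m, αv) B m (αv) - 1 = 0`. -/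
def StEul (D : Dat ee V R) : Prop := ∀ v ∈ D.VP, ∀ f : MvPolynomial V R, f.IsHomogeneous (ee + 4) →
  ∑ m ∈ range (ee + 4), D.a m v * D.T m (D.z v * f) = D.dg (D.E v f)

/-- Non. Duals of meeting full sets are orthogonal.
Proof. Let `v ∈ G ∩ H`, `l = deg (X_G X_H)`. `StF3` with `p = v`: `∑_m a_(m v) T_m (z_v X_G X_H) = l`.
`StEul` for `f = X_G X_H` (homogeneous of degree (ee + 4)): the same sum is
`deg (E_v (X_G) X_H) + deg (X_G E_v (X_H)) = φ_H (E_v X_G) + φ_G (E_v X_H) = φ_H (X_G) + φ_G (X_H) = 2 l`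
(`StEv`, `xh_dg`). So `l = 2 l`, `l = 0`. -/
def StNon (D : Dat ee V R) : Prop := ∀ G H, D.Full G → D.Full H → G.card + H.card = ee + 4 →
  (G ∩ H).Nonempty → D.dg (D.XH G * D.XH H) = 0

/-- Der. Proof. `L f = deg (dmap δ f) - δ (deg f) - T_m (z_v f)` is additive and `R`-linear in `f`:
`dmap δ (r f) = δ(r) f + r dmap δ f`. It vanishes on `sr` (`dmap_sr`) and on `Θ_l g`:
`dmap δ (Θ_l) = [l = m] z_v`, so `deg (dmap δ (Θ_l g)) = [l = m] deg (z_v g) + 0`, `deg (Θ_l g) = 0`, and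
`T_m (z_v Θ_l g) = [l = m] deg (z_v g)`. So it vanishes on `J`, and for `f` homogeneous of degree (ee + 4),
`L f = deg f * L (xm σ)` by `dgt`; `dmap δ (xm σ) = 0` (`dmap_prod_zero`) and `δ 1 = 0`, so
`L (xm σ) = - T_m (z_v xm σ)`. -/
def StDer (D : Dat ee V R) : Prop := ∀ m < ee + 4, ∀ v ∈ D.VP, ∀ δ : Derivation ℤ R R,
  (∀ l < ee + 4, ∀ u, δ (D.a l u) =
    if m = l then (if u = v then 1 else if u = D.α v then -1 else 0) else 0) →
  ∀ f : MvPolynomial V R, f.IsHomogeneous (ee + 4) →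
  D.dg (dmap δ f) = δ (D.dg f) + D.T m (D.z v * f) - D.T m (D.z v * xm R D.σ) * D.dg f

/-- NonT. Proof. `δ` from `der`. `f = X_G X_H`, `deg f = 0` by `StNon`. `StDer`:
`T_m (z_v X_G X_H) = deg (dmap δ X_G * X_H) + deg (X_G * dmap δ X_H) =
φ_H (dmap δ X_G) + φ_G (dmap δ X_H) = δ (φ_H X_G) + δ (φ_G X_H) = 2 δ (deg (X_G X_H)) = 0`
(`xh_dg`, `StPhA` (c), `dmap_mul`). -/
def StNonT (D : Dat ee V R) : Prop := ∀ G H, D.Full G → D.Full H → G.card + H.card = ee + 4 →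
  (G ∩ H).Nonempty → ∀ v ∈ D.VP, ∀ m < ee + 4, D.T m (D.z v * D.XH G * D.XH H) = 0

/-- DisT. Proof. Put `t_m = T_m (z_v X_G X_H)`. By `StF3`, `∑_m a_(m p) t_m = 0` for the `ee + 4`
elements `p` of `G ∪ H` (`v ∉ G ∪ H`); `indt`. -/
def StDisT (D : Dat ee V R) : Prop := ∀ G H, D.Full G → D.Full H → G.Nonempty → H.Nonempty →
  G.card + H.card = ee + 4 → Disjoint G H → ∀ v ∈ D.VP, v ∉ G ∪ H → ∀ m < ee + 4,
  D.T m (D.z v * D.XH G * D.XH H) = 0

/-- ExA. Exactness of first and second order.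
Proof. Let `w y = ∑ Θ_l g_l` modulo `sr` (`mem_J_iff`). Four facts (they are proved in D6 `I_ExA.lean`,
the proofs do not depend on the dimension):
(1) `y_v y^2 ∈ J` for all `v`. So `X_(αv) y^2 = - X_v y^2` modulo `J`.
(2) For `v ∈ VP`: `μ_m X_v y^2 - z_v g_m y ∈ J`.
(3) `α g_l + ε g_l - ε μ_l y + w q_l ∈ J`, where `αy = ε y + ∑ Θ_l q_l` modulo `sr`.
(4) For `v ∈ VP`: `λ_v X_v y^2 - X_v (∑_l a_(l v) g_l) y ∈ J`, `λ_v = c_v + ∑ μ_l a_(l v)`.
By (1) and (2) `X_(αv) g_m y = X_v g_m y - μ_m X_v y^2` modulo `J` for `v ∈ VP`, and for `v ∉ VP` too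
(apply (2) to `αv`, and (1)). Induction on the degree `n` of a monomial `P` (equivalently for `P`
homogeneous of degree `n`; `α P = rename α P`): modulo `J`
  `αP y^2 = (-1)^n P y^2`, `αP g_m y = P g_m y - [n odd] μ_m P y^2`
(step: `P = X_v P'`; `αP g_m y = X_(αv) (P' g_m y - [n' odd] μ_m P' y^2) =
P' (X_v g_m y - μ_m X_v y^2) + [n' odd] μ_m X_v P' y^2`). Let `P` be homogeneous of degree `ee`,
`f = deg (P y^2)`, `h = deg (P g_m y)`. By `dga`: `deg (αP y^2) = deg (P (αy)^2) = f` and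
`deg (αP g_m y) = deg (P α(g_m) α(y)) = deg (P (- ε g_m + ε μ_m y - w q_m) ε y) = - h + μ_m f`.
If `ee` is odd: `f = - f`, so `f = 0` (`R` is a domain and `2 ≠ 0`), and `h = - h`, `h = 0`. If `ee` is
even: `2 h = μ_m f`, and if `P = X_v P'`, `v ∈ VP` (`ee ≥ 1`), then by (4)
`λ_v f = ∑_l a_(l v) h_l`, so `(2 λ_v - ∑ μ_l a_(l v)) f = wt v * f = 0`, and `wt v ≠ 0` (it is odd,
`wt_odd`), so `f = 0`; for `v ∉ VP` use (1); `h = 0` follows. So `deg (P y^2) = 0` for all `P`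
homogeneous of degree `ee`, and `y^2 ∈ J` (`nd 4 ee`). Finally
`T_m (M w y^2) = T_m (w y * (M y)) = deg (g_m M y)` (`StTx`); only the component of degree `ee` of `M`
matters in `T_m (M w y^2)` (`Th`), and for it the value is `h = 0`. -/
def StExA (D : Dat ee V R) : Prop := ∀ (ε : R) (y : MvPolynomial V R), ε * ε = 1 →
  y.IsHomogeneous 2 → D.w * y ∈ D.J → rename D.α y - ε • y ∈ D.J →
  y ^ 2 ∈ D.J ∧ ∀ M, ∀ m < ee + 4, D.T m (M * D.w * y ^ 2) = 0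

/-- Red. Proof: as D6 `I_Red.lean`. `x G = deg (y * xm G)` if `G ∈ FS (ee + 2)` and this is odd,
otherwise `0`. By `nd2` (`i = 2, k = ee + 2`) it suffices that `deg ((y - K) xm G')` is even for every
face `G'` with `ee + 2` elements. `StExA` gives the hypotheses of `relb`, so exchanging one `X_q` by
`X_(αq)` in a product of variables does not change `deg (... y)` modulo 2. -/
def StRed (D : Dat ee V R) : Prop := ∀ (ε : R) (y : MvPolynomial V R), ε * ε = 1 →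
  y.IsHomogeneous 2 → D.w * y ∈ D.J → rename D.α y - ε • y ∈ D.J →
  ∃ x : Finset V → R, (∀ G, x G ≠ 0 → G ∈ D.FS (ee + 2) ∧ ¬ (2 : R) ∣ x G) ∧
    ∃ u : MvPolynomial V R, u.IsHomogeneous 2 ∧ y - D.KK x - (2 : R) • u ∈ D.J

/-- Four. Proof. `y = K + 2 u` satisfies the hypotheses of `StExA`: `K` is homogeneous of
degree 2 (`xh_hom`). `M (K + 2u)^2 = M K^2 + 4 M (u K + u^2)`, the same with `w`. -/
def StFour (D : Dat ee V R) : Prop := ∀ (ε : R) (x : Finset V → R) (u : MvPolynomial V R),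
  ε * ε = 1 → u.IsHomogeneous 2 → D.w * (D.KK x + (2 : R) • u) ∈ D.J →
  rename D.α (D.KK x + (2 : R) • u) - ε • (D.KK x + (2 : R) • u) ∈ D.J →
  (∀ M, (4 : R) ∣ D.dg (M * D.KK x ^ 2)) ∧
  (∀ M, ∀ m < ee + 4, (4 : R) ∣ D.T m (M * D.w * D.KK x ^ 2))

/-- XK. Proof as D6: `X_r X_G ∈ J` for `r ∉ G`, `X_r X_G - X_(G - r) ∈ J` for `r ∈ G` (`StP1`), and
`G ↦ G - r` is a bijection from `{G ∈ FS (ee + 2) : r ∈ G}` onto
`{H ∈ FS (ee + 1) : r ∉ H, insert r H ∈ FS (ee + 2)}`; the other `H` have `x (insert r H) = 0`. Same for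
`X_(αr)`, because `z_r X_G ∈ J`. -/
def StXK (D : Dat ee V R) : Prop := ∀ x : Finset V → R,
  (∀ G, x G ≠ 0 → G ∈ D.FS (ee + 2)) → ∀ r ∈ D.VP,
  X r * D.KK x -
    ∑ H ∈ (D.FS (ee + 1)).filter (fun H => r ∉ H), C (x (insert r H)) * D.XH H ∈ D.J ∧
  X (D.α r) * D.KK x -
    ∑ H ∈ (D.FS (ee + 1)).filter (fun H => r ∉ H), C (x (insert r H)) * D.XH H ∈ D.J

/-- WK. Proof as D6. -/
def StWK (D : Dat ee V R) : Prop := ∀ x : Finset V → R, (∀ G, x G ≠ 0 → G ∈ D.FS (ee + 2)) →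
  D.wo * D.KK x -
    (2 : R) • ∑ H ∈ D.FS (ee + 1), C (∑ r ∈ D.VP \ H, D.wt r * x (insert r H)) * D.XH H ∈ D.J ∧
  D.w * D.KK x -
    ∑ H ∈ D.FS (ee + 1), C (∑ r ∈ D.VP \ H, D.wt r * x (insert r H)) * D.XH H ∈ D.J ∧
  (2 : R) • D.w = D.wo + ∑ l ∈ range (ee + 4), C (D.μ l) * lin (D.a l)

/-- Rm. Proof as D6, with sets `H` with `ee + 1` elements: `0 = deg (w (K + 2u) xm H)`. -/
def StRm (D : Dat ee V R) : Prop := ∀ (x : Finset V → R) (u : MvPolynomial V R),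
  (∀ G, x G ≠ 0 → G ∈ D.FS (ee + 2)) → D.w * (D.KK x + (2 : R) • u) ∈ D.J →
  ∀ H ⊆ D.VP, H.card = ee + 1 → (2 : R) ∣ ∑ r ∈ D.VP \ H, D.wt r * x (insert r H)

/-- the part of `x` on the sets containing `s` -/
def xs (s : V) (x : Finset V → R) : Finset V → R := fun G => if s ∈ G then x G else 0

/-- the part of `x` on the sets not containing `s` -/
def xr (s : V) (x : Finset V → R) : Finset V → R := fun G => if s ∈ G then 0 else x G

/-- MI0. Proof as D6 (`I_MI0.lean`). -/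
def StMI0 (D : Dat ee V R) : Prop := ∀ x ν : Finset V → R, (∀ G, x G ≠ 0 → G ∈ D.FS (ee + 2)) →
  (∀ H ∈ D.FS (ee + 1), 2 * ν H = - ∑ r ∈ D.VP \ H, D.wt r * x (insert r H)) →
  D.w * D.KK x + (2 : R) • D.NN ν ∈ D.J ∧
  D.wo * D.KK x + (4 : R) • D.NN ν ∈ D.J ∧
  (∀ s ∈ D.VP, D.KK x = D.KK (xs s x) + D.KK (xr s x) ∧ D.NN ν = D.NN (xs s ν) + D.NN (xr s ν) ∧
    D.wo * D.KK (xs s x) + (4 : R) • D.NN (xs s ν) - C (2 * D.wt s) * X s * D.KK (xs s x) ∈ D.J ∧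
    D.wo * D.KK (xr s x) + (4 : R) • D.NN (xr s ν) + C (2 * D.wt s) * X s * D.KK (xs s x) ∈ D.J ∧
    X s * D.KK (xr s x) ∈ D.J ∧ (∀ v, D.z v * D.KK x ∈ D.J) ∧ (∀ v, D.z v * D.NN ν ∈ D.J) ∧
    D.z s * D.KK (xs s x) ∈ D.J ∧ D.z s * D.KK (xr s x) ∈ D.J)

/-- MI2. `b` is an expansion of `αK - K`; `U` a set of `ee` vertices.
Proof (for `ee = 2`: D6 `I_MI2.lean`). `2 w = wo + ∑ μ_l Θ_l`: `2 T_m (X_U w K^2) =
T_m (X_U wo K^2) + μ_m deg (X_U K^2)`. By `Ta` and `αK = K + ∑ Θ_l b_l` modulo `sr`: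
`T_m (X_U wo K^2) = - T_m (αX_U wo (αK)^2) = - T_m (αX_U wo K^2) - 2 deg (αX_U wo K b_m)`
(`α wo = wo`). Moreover `T_m ((X_U - αX_U) wo K^2) = - 4 ∑_(s ∈ U) T_m (z_s X_(U - s) N K)`: by
induction on `U` (`Finset.induction`) the polynomial `X_U - αX_U - ∑_(s ∈ U) z_s X_(U - s)` is in the
ideal generated by the products `z_s z_v` (`X_(αu) = X_u - z_u`), and for `s ∈ U`
`T_m (z_s M wo K^2) = - 4 T_m (z_s M N K)` (as `z_s K ∈ J`, `wo K + 4 N ∈ J`), while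
`T_m (z_s z_v M N K) = 0` (as `z_s K ∈ J`, `z_v N ∈ J`). So
`2 T_m (X_U wo K^2) = - 4 ∑_s T_m (z_s X_(U - s) N K) - 2 deg (αX_U wo K b_m)`, and
`deg (αX_U wo K b_m) = - 4 deg (αX_U N b_m) = - 4 ∑_H ν(H) φ_H (αX_U b_m) = - 4 ∑_q ν(U + q) φ_q (b_m)`
over the `H = U + q ∈ FS (ee + 1)` (`StPhX`, one vertex of `U` after the other; `φ_H` of it is `0` if `U`
is not a subset of `H`). Divide by 2. -/
def StMI2 (D : Dat ee V R) : Prop := ∀ x ν : Finset V → R, (∀ G, x G ≠ 0 → G ∈ D.FS (ee + 2)) →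
  (∀ H ∈ D.FS (ee + 1), 2 * ν H = - ∑ r ∈ D.VP \ H, D.wt r * x (insert r H)) →
  ∀ b : ℕ → MvPolynomial V R,
  rename D.α (D.KK x) - D.KK x - ∑ l ∈ range (ee + 4), lin (D.a l) * b l ∈ srIdeal R D.Δ →
  ∀ U ⊆ D.VP, U.card = ee → ∀ m < ee + 4, 2 * D.T m (xm R U * D.w * D.KK x ^ 2) =
    - (2 * ∑ s ∈ U, D.T m (D.z s * xm R (U.erase s) * D.NN ν * D.KK x)) +
    4 * ∑ q ∈ D.lk U, ν (insert q U) * D.ph {q} (b m) +
    D.μ m * D.dg (xm R U * D.KK x ^ 2)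

/-- MI3. Proof as D6 with the arbitrary factor `M` in the place of `X_u`. -/
def StMI3 (D : Dat ee V R) : Prop := ∀ x ν : Finset V → R, (∀ G, x G ≠ 0 → G ∈ D.FS (ee + 2)) →
  (∀ H ∈ D.FS (ee + 1), 2 * ν H = - ∑ r ∈ D.VP \ H, D.wt r * x (insert r H)) →
  ∀ M, ∀ s ∈ D.VP, ∀ m < ee + 4,
  2 * (D.T m (D.z s * M * D.NN (xs s ν) * D.KK (xr s x)) -
    D.T m (D.z s * M * D.NN (xr s ν) * D.KK (xs s x))) =
    D.wt s * D.T m (D.z s * M * X s * D.KK (xs s x) ^ 2)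

/-- MI4. Proof (for `ee = 2`: D6 `I_MI4.lean`). Expand `N_s` in the `H ∋ s`. If `U - s` is not a subset
of `H`, then `X_(U - s) X_H ∈ J` (one variable of it kills `X_H`) and `z_s K_r ∈ J`, so the value is 0
(`StTx`). Let `H = U + q ∈ FS (ee + 1)`. `X_s K_r = ∑ Θ_l h_l` modulo `sr`, so
`T_m (X_s K_r X_(U - s) X_H) = deg (h_m X_(U - s) X_H) = φ_H (X_(U - s) h_m) = φ_(s,q) (h_m)`. Apply `α`
as in D6: `X_(αs) K_r = - ∑ Θ_l (α h_l + X_(αs) b_l)` modulo `sr`, so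
`T_m (X_(αs) K_r X_(U - s) X_H) = - φ_(s,q) (α h_m) - φ_(s,q) (X_(αs) b_m) = - φ_(s,q) (h_m) - φ_q (b_m)`.
Hence `T_m (z_s X_(U - s) X_H K_r) = 2 φ_(s,q) (h_m) + φ_q (b_m)`; sum with `ν(H)`. -/
def StMI4 (D : Dat ee V R) : Prop := ∀ x ν : Finset V → R, (∀ G, x G ≠ 0 → G ∈ D.FS (ee + 2)) →
  ∀ U ⊆ D.VP, U.card = ee → ∀ s ∈ U, ∀ b : ℕ → MvPolynomial V R,
  rename D.α (D.KK (xr s x)) - D.KK (xr s x) - ∑ l ∈ range (ee + 4), lin (D.a l) * b l ∈
    srIdeal R D.Δ →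
  ∀ m < ee + 4, ∃ ρ : R, D.T m (D.z s * xm R (U.erase s) * D.NN (xs s ν) * D.KK (xr s x)) =
    ∑ q ∈ D.lk U, ν (insert q U) * D.ph {q} (b m) + 2 * ρ

/-- MI5. Proof (for `ee = 2`: D6 `I_MI5.lean`). Expand in the pairs `G ∈ FS (ee + 2)`,
`H ∈ FS (ee + 1)`. If `U - s` is not a subset of `H`: `X_(U - s) X_H ∈ J`, `z_s X_G ∈ J`, value 0. Otherwise
`X_(U - s) X_H` may be replaced by `X_(H \ (U - s))` (`StP1`, `StTx`), and
`|G| + |H \ (U - s)| = ee + 2 + 2`. `N_s K_s`: `s ∈ G ∩ (H \ (U - s))`, `StNonT`. `N_r K_r`: `s ∉ G ∪ H`; if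
`G` meets `H \ (U - s)` `StNonT`, otherwise `StDisT` (with `v = s`). -/
def StMI5 (D : Dat ee V R) : Prop := ∀ x ν : Finset V → R, ∀ U ⊆ D.VP, U.card = ee → ∀ s ∈ U,
  ∀ m < ee + 4,
  D.T m (D.z s * xm R (U.erase s) * D.NN (xs s ν) * D.KK (xs s x)) = 0 ∧
  D.T m (D.z s * xm R (U.erase s) * D.NN (xr s ν) * D.KK (xr s x)) = 0

/-- Star. The main congruence; `b`, `bs s` are expansions for `K` and for the part of `K` without `s`.
Proof. Multiply out with MI0, MI5 for every `s ∈ U`: `T_m (z_s X_(U - s) N K) = A + B`,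
`A = T_m (z_s X_(U - s) N_s K_r)`, `B = T_m (z_s X_(U - s) N_r K_s)` (parts with respect to `s`),
`2 (A - B) = wt_s T_m (z_s X_U K_s^2)` (MI3 with `M = X_(U - s)`, `X_(U - s) X_s = X_U`), so
`2 T_m (z_s X_(U - s) N K) = 4 A - wt_s T_m (z_s X_U K_s^2)`, and
`A = ∑_q ν(U + q) φ_q (bs_s m) + 2 ρ_s` (MI4). Put this into MI2, whose left side is divisible by 8. -/
def StStar (D : Dat ee V R) : Prop := ∀ x ν : Finset V → R, (∀ G, x G ≠ 0 → G ∈ D.FS (ee + 2)) →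
  (∀ H ∈ D.FS (ee + 1), 2 * ν H = - ∑ r ∈ D.VP \ H, D.wt r * x (insert r H)) →
  (∀ M, ∀ m < ee + 4, (4 : R) ∣ D.T m (M * D.w * D.KK x ^ 2)) →
  ∀ U ⊆ D.VP, U.card = ee → ∀ (b : ℕ → MvPolynomial V R) (bs : V → ℕ → MvPolynomial V R),
  rename D.α (D.KK x) - D.KK x - ∑ l ∈ range (ee + 4), lin (D.a l) * b l ∈ srIdeal R D.Δ →
  (∀ s ∈ U, rename D.α (D.KK (xr s x)) - D.KK (xr s x) -
    ∑ l ∈ range (ee + 4), lin (D.a l) * bs s l ∈ srIdeal R D.Δ) →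
  ∀ m < ee + 4, (8 : R) ∣ ∑ s ∈ U, D.wt s * D.T m (D.z s * xm R U * D.KK (xs s x) ^ 2) +
    D.μ m * D.dg (xm R U * D.KK x ^ 2) +
    4 * ∑ q ∈ D.lk U, ν (insert q U) * (D.ph {q} (b m) - ∑ s ∈ U, D.ph {q} (bs s m))

end CSLef.DG
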