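import Mathlib
import Pool.Agent.Work.MP_38c61c_al.DG.Stmts
import Pool.Agent.Work.MP_38c61c_al.DG.StmtsX

/-!
Block DG, part V: injectivity in every degree `i`, `2 i < ee + 4`, if there is no full set with
`ee + 6 - 2 i` elements (`d + 2 - 2 i`, where `d = ee + 4`).
-/

namespace CSLef.DG

open MvPolynomial Finset

variable {ee : ℕ} {V : Type} [Fintype V] [DecidableEq V] {R : Type} [CommRing R]

/-- ExV. Exactness of first and second order in every degree `i < d / 2`; `StExA` is the case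
`i = 2`, and the proof is the same.
Proof. Let `w y = ∑ Θ_l g_l` modulo `sr` (`mem_J_iff`). Four facts (they are proved in D6 `I_ExA.lean`,
the proofs do not depend on the dimension nor on the degree of `y`):
(1) `y_v y^2 ∈ J` for all `v`. So `X_(αv) y^2 = - X_v y^2` modulo `J`.
(2) For `v ∈ VP`: `μ_m X_v y^2 - z_v g_m y ∈ J`.
(3) `α g_l + ε g_l - ε μ_l y + w q_l ∈ J`, where `αy = ε y + ∑ Θ_l q_l` modulo `sr`.
(4) For `v ∈ VP`: `λ_v X_v y^2 - X_v (∑_l a_(l v) g_l) y ∈ J`, `λ_v = c_v + ∑ μ_l a_(l v)`.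
Then as in `StExA` (file `DG/I_ExA.lean`), with `P` homogeneous of degree `n = ee + 4 - 2 i ≥ 1` in the
place of `ee`: modulo `J`, `αP y^2 = (-1)^n P y^2`, `αP g_m y = P g_m y - [n odd] μ_m P y^2`; with
`f = deg (P y^2)`, `h = deg (P g_m y)`: `deg (αP y^2) = f`, `deg (αP g_m y) = - h + μ_m f` (`dga`, (3)).
If `n` is odd: `f = - f`, so `f = 0` and `h = 0`. If `n` is even: `2 h = μ_m f`, and for `P = X_v P'`,
`v ∈ VP` (`n ≥ 1`) (4) gives `wt v * f = 0`, `f = 0`; for `v ∉ VP` use (1); `h = 0` follows. So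
`deg (P y^2) = 0` for all `P` homogeneous of degree `n`, `y^2 ∈ J` (`nd (2 i) n`), and
`T_m (M w y^2) = deg (g_m M y) = 0` (`StTx`; only the component of degree `n` of `M` matters, `Th`). -/
def StExV [IsDomain R] (D : Dat ee V R) : Prop := ∀ i, 2 * i < ee + 4 →
  ∀ (ε : R) (y : MvPolynomial V R), ε * ε = 1 →
  y.IsHomogeneous i → D.w * y ∈ D.J → rename D.α y - ε • y ∈ D.J →
  y ^ 2 ∈ D.J ∧ ∀ M, ∀ m < ee + 4, D.T m (M * D.w * y ^ 2) = 0

/-- the relations modulo 2 in every degree (the field `Ctx.relb` is the case `i = 2`) -/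
def RelV (D : Dat ee V R) : Prop := ∀ i, 1 ≤ i → 2 * i < ee + 4 →
  ∀ y : MvPolynomial V R, y.IsHomogeneous i →
  (∀ M, (2 : R) ∣ D.dg (M * y ^ 2)) →
  (∀ M, ∀ m < ee + 4, (2 : R) ∣ D.T m (M * D.w * y ^ 2)) →
  ∀ M, ∀ gs : List V, gs.length + 1 = i →
    (2 : R) ∣ D.dg (M * (gs.map (yy R D.α)).prod * y)

/-- XrelV. Proof. Substitute the equations; `IsDg ee Δ α VP D.σ D.dg` and `IsT ee Δ α VP D.dg D.T` hold
by the fields of `Ctx` (`D.J` and `D.w` unfold), so this is `StXrelb` for `D.σ` (`sg`, `sgc`), `D.dg`,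
`D.T`. -/
def StXrelV (ee : ℕ) (Δ : Finset (Finset V)) (α : Equiv.Perm V) (VP : Finset V) : Prop :=
  ∀ D : Dat ee V (RR (ee + 4) V), D.Δ = Δ → D.α = α → D.VP = VP → D.a = ga ee α VP →
  D.μ = gm ee V → D.c = gc ee → Ctx D → RelV D

/-- Shat. A function on the cube of subsets of `G` with vanishing sums over the faces of dimension
`r + 1` (a polynomial of degree at most `r`) which is not zero has a support that shatters a set with
`|G| - r` elements.
Proof. For `M ⊆ G`, `T ⊆ G \ M` let `c(M, T) = ∑_(T' ⊆ M) f (T ∪ T')`. Among the `M ⊆ G` for which there is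
`T ⊆ G \ M` with `c(M, T) ≠ 0` (`M = ∅`, `T = T0` is one) take one with the largest number of elements.
If `|M| ≥ r + 1` take `M' ⊆ M` with `r + 1` elements: `c(M, T)` is the sum of the
`c(M', T ∪ T'')`, `T'' ⊆ M \ M'`, all zero by hypothesis: contradiction. So `|M| ≤ r`. For `x ∈ G \ M`
and `T ⊆ G \ (M ∪ x)`: `0 = c(M ∪ x, T) = c(M, T) + c(M, T ∪ x)`, so `c(M, T ∪ x) = - c(M, T)`. So
`c(M, T) ≠ 0` for all `T ⊆ G \ M` (induction: change one element after the other). Take `H ⊆ G \ M` with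
`|G| - r` elements. For `T ⊆ H`: `c(M, T) ≠ 0`, so there is `T'' ⊆ M` with `f (T ∪ T'') ≠ 0`, and
`(T ∪ T'') ∩ H = T`. -/
def StShat : Prop := ∀ {V : Type} [DecidableEq V] {A : Type} [AddCommGroup A] (G : Finset V) (r : ℕ),
  r ≤ G.card → ∀ f : Finset V → A,
  (∀ M ⊆ G, M.card = r + 1 → ∀ T ⊆ G \ M, ∑ T' ∈ M.powerset, f (T ∪ T') = 0) →
  ∀ T0 ⊆ G, f T0 ≠ 0 →
  ∃ H ⊆ G, H.card + r = G.card ∧ ∀ T ⊆ H, ∃ T' ⊆ G, T' ∩ H = T ∧ f T' ≠ 0

/-- Yp. Products of the `y_q` and flips.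
Proof. For `M ⊆ G ⊆ VP` and `T ⊆ G \ M`: the flips of `G` along `T ∪ T'`, `T' ⊆ M`, are
`flip (G \ M) T ∪ flip M T'` (disjoint), and `∑_(T' ⊆ M) xm (flip M T') = ∏_(q ∈ M) (X q + X (αq))`
(`Finset.prod_add`, or induction on `M` with `Finset.sum_powerset_insert`). -/
def StYp [IsDomain R] (D : Dat ee V R) : Prop := ∀ G ⊆ D.VP, ∀ M ⊆ G, ∀ T ⊆ G \ M,
  ∑ T' ∈ M.powerset, xm R (flip D.α G (T ∪ T')) =
    xm R (flip D.α (G \ M) T) * (M.toList.map (yy R D.α)).prod

/-- RedV. If there is no full set with `ee + 6 - 2 i` elements, the relations of degree `i` imply that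
`y` is divisible by 2.
Proof. By `nd2` (`i`, `k = ee + 4 - i`) it suffices that `deg (y xm G')` is even for all faces `G'` with
`k` elements. Let `G = {v ∈ VP : v ∈ G' or αv ∈ G'}` and `T0 = {v ∈ G : αv ∈ G'}`: `G' = flip G T0`,
`|G| = k` (a face contains no pair `v, αv`). Let `A = R ⧸ (2)` and `f T` the class of
`deg (xm (flip G T) y)`. For `M ⊆ G` with `i - 1` elements and `T ⊆ G \ M`, by `StYp`
`∑_(T' ⊆ M) deg (xm (flip G (T ∪ T')) y) = deg (xm (flip (G \ M) T) * (M.toList.map yy).prod * y)`,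
which is even by hypothesis. Suppose `f T0 ≠ 0`. `StShat` with `r = i - 2` (`r ≤ k` because `2 i < ee + 4`):
there is `H ⊆ G` with `|H| + (i - 2) = ee + 4 - i`, so `|H| + 2 i = ee + 6`, such that for every `T ⊆ H`
there is `T' ⊆ G` with `T' ∩ H = T` and `deg (xm (flip G T') y)` odd; then `flip G T'` is a face
(otherwise `xm (flip G T') ∈ sr ⊆ J`), and it contains `flip H T`, a face (`hs.down`). So `H` is a full
set: contradiction. -/
def StRedV [IsDomain R] (D : Dat ee V R) : Prop := ∀ i, 2 ≤ i → 2 * i < ee + 4 →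
  (∀ H, D.Full H → H.card + 2 * i ≠ ee + 6) →
  ∀ y : MvPolynomial V R, y.IsHomogeneous i →
  (∀ M, ∀ gs : List V, gs.length + 1 = i → (2 : R) ∣ D.dg (M * (gs.map (yy R D.α)).prod * y)) →
  ∃ u : MvPolynomial V R, u.IsHomogeneous i ∧ y - (2 : R) • u ∈ D.J

/-- InjV. Port of D6 `I_Inj.lean`, in every degree `i` (there `i = 2`, and the first hypothesis was
`StCore`). -/
def StInjV [IsDomain R] (D : Dat ee V R) [IsLocalRing R] [IsNoetherianRing R] : Prop :=
  IsLocalRing.maximalIdeal R = Ideal.span {(2 : R)} → ∀ i,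
  (∀ (ε : R) (y : MvPolynomial V R), ε * ε = 1 →
    y.IsHomogeneous i → D.w * y ∈ D.J → rename D.α y - ε • y ∈ D.J →
    ∃ u : MvPolynomial V R, u.IsHomogeneous i ∧ y - (2 : R) • u ∈ D.J) →
  ∀ x : MvPolynomial V R, x.IsHomogeneous i → D.w * x ∈ D.J → x ∈ D.J

end CSLef.DG
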