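import Mathlib
import Pool.Agent.Work.MP_38c61c_al.DG.StmtsV

/-!
Block DG, item RedV: if there is no full set with `ee + 6 - 2 i` elements, the relations of degree
`i` imply that `y` is divisible by 2.
-/

set_option autoImplicit false

namespace CSLef.DG

open MvPolynomial Finset

namespace IRedV

section flips

variable {V : Type} [DecidableEq V]

/-- the part of `VP` under a set -/
def half (VP : Finset V) (α : Equiv.Perm V) (S : Finset V) : Finset V :=
  VP.filter (fun v => v ∈ S ∨ α v ∈ S)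

/-- the flip of a vertex -/
def fl (α : Equiv.Perm V) (T : Finset V) (i : V) : V := if i ∈ T then α i else i

theorem mem_flip (α : Equiv.Perm V) (G T : Finset V) (x : V) :
    x ∈ flip α G T ↔ (x ∈ G ∧ x ∉ T) ∨ ∃ t ∈ T, α t = x := by
  simp [flip]

theorem flip_eq_image (α : Equiv.Perm V) {G T : Finset V} (hT : T ⊆ G) :
    flip α G T = G.image (fl α T) := by
  ext x
  rw [mem_flip, mem_image]
  constructor
  · rintro (⟨h1, h2⟩ | ⟨t, ht, rfl⟩)
    · exact ⟨x, h1, if_neg h2⟩
    · exact ⟨t, hT ht, if_pos ht⟩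
  · rintro ⟨i, hi, rfl⟩
    unfold fl
    split_ifs with h
    · exact Or.inr ⟨i, h, rfl⟩
    · exact Or.inl ⟨hi, h⟩

variable {VP : Finset V} {α : Equiv.Perm V} (vp : ∀ v, v ∈ VP ↔ α v ∉ VP)

include vp

theorem fl_injOn {G : Finset V} (T : Finset V) (hG : G ⊆ VP) : Set.InjOn (fl α T) G := by
  intro i hi j hj hij
  have hi' := hG hi
  have hj' := hG hj
  unfold fl at hij
  split_ifs at hij with h1 h2 h2
  · exact α.injective hij
  · exact absurd (hij ▸ hj') ((vp i).1 hi')
  · exact absurd (hij ▸ hi') ((vp j).1 hj')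
  · exact hij

theorem flip_half {S : Finset V} (inv : ∀ v, α (α v) = v) (np : ∀ v ∈ S, α v ∉ S) :
    flip α (half VP α S) ((half VP α S).filter (fun v => α v ∈ S)) = S := by
  ext x
  rw [mem_flip]
  constructor
  · rintro (⟨h1, h2⟩ | ⟨t, ht, rfl⟩)
    · rw [mem_filter] at h2
      have h3 := (mem_filter.1 h1).2
      rcases h3 with h3 | h3
      · exact h3
      · exact absurd ⟨h1, h3⟩ h2
    · exact (mem_filter.1 ht).2
  · intro hx
    by_cases hv : x ∈ VP
    · left
      refine ⟨mem_filter.2 ⟨hv, Or.inl hx⟩, ?_⟩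
      rw [mem_filter]
      rintro ⟨-, h⟩
      exact np x hx h
    · right
      have h1 : α x ∈ VP := by
        by_contra h
        exact hv ((vp x).2 h)
      refine ⟨α x, mem_filter.2 ⟨mem_filter.2 ⟨h1, Or.inr ?_⟩, ?_⟩, inv x⟩
      · rw [inv]
        exact hx
      · rw [inv]
        exact hx

theorem card_flip {G T : Finset V} (hG : G ⊆ VP) (hT : T ⊆ G) : (flip α G T).card = G.card := by
  rw [flip_eq_image α hT]
  exact card_image_of_injOn (fl_injOn vp T hG)

end flips

/-- flips of a subset are contained in the flips of the set -/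
theorem flip_sub {V : Type} [DecidableEq V] (α : Equiv.Perm V) {G H T T' : Finset V} (hH : H ⊆ G)
    (hT : T' ∩ H = T) : flip α H T ⊆ flip α G T' := by
  intro x hx
  rw [mem_flip] at hx ⊢
  rcases hx with ⟨h1, h2⟩ | ⟨t, ht, rfl⟩
  · refine Or.inl ⟨hH h1, fun h3 => h2 ?_⟩
    rw [← hT]
    exact mem_inter.2 ⟨h3, h1⟩
  · rw [← hT] at ht
    exact Or.inr ⟨t, (mem_inter.1 ht).1, rfl⟩

end IRedV

/-- item RedV -/
theorem pr_RedV {ee : ℕ} {V : Type} [Fintype V] [DecidableEq V] {R : Type} [CommRing R]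
    [IsDomain R] (D : Dat ee V R) (hC : Ctx D) (h1 : StShat) (h2 : StYp D) : StRedV D := by
  classical
  intro i hi2 hi hF y hy hb
  refine hC.nd2 i (ee + 4 - i) (by omega) y hy ?_
  intro S hS hSc
  obtain ⟨G, hG⟩ : ∃ G, G = IRedV.half D.VP D.α S := ⟨_, rfl⟩
  obtain ⟨T0, hT0⟩ : ∃ T, T = G.filter (fun v => D.α v ∈ S) := ⟨_, rfl⟩
  have hGV : G ⊆ D.VP := by
    rw [hG]
    exact filter_subset _ _
  have hTG : T0 ⊆ G := by
    rw [hT0]
    exact filter_subset _ _
  have hST : flip D.α G T0 = S := by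
    rw [hT0, hG]
    exact IRedV.flip_half hC.vp hC.cs.invol (hC.cs.no_pair S hS)
  have hGc : G.card = ee + 4 - i := by
    rw [← IRedV.card_flip hC.vp hGV hTG, hST, hSc]
  by_contra hodd
  let I : Ideal R := Ideal.span {(2 : R)}
  let f : Finset V → R ⧸ I := fun T => Ideal.Quotient.mk I (D.dg (xm R (flip D.α G T) * y))
  have hmk : ∀ r : R, Ideal.Quotient.mk I r = 0 ↔ (2 : R) ∣ r := fun r => by
    rw [Ideal.Quotient.eq_zero_iff_mem, Ideal.mem_span_singleton]
  have hsum : ∀ M ⊆ G, M.card = (i - 2) + 1 → ∀ T ⊆ G \ M, ∑ T' ∈ M.powerset, f (T ∪ T') = 0 := by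
    intro M hM hMc T hT
    have e1 : ∑ T' ∈ M.powerset, f (T ∪ T') =
        Ideal.Quotient.mk I (D.dg ((∑ T' ∈ M.powerset, xm R (flip D.α G (T ∪ T'))) * y)) := by
      rw [Finset.sum_mul, map_sum, map_sum]
    rw [e1, h2 G hGV M hM T hT, hmk]
    exact hb _ _ (by rw [Finset.length_toList]; omega)
  have hf0 : f T0 ≠ 0 := by
    intro h
    have h' := (hmk _).1 h
    rw [hST, mul_comm] at h'
    exact hodd h'
  obtain ⟨H, hHG, hHc, hH⟩ := h1 G (i - 2) (by omega) f hsum T0 hTG hf0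
  refine hF H ⟨hHG.trans hGV, ?_⟩ (by omega)
  intro T hT
  obtain ⟨T', hT'G, hT', hfT⟩ := hH T (mem_powerset.1 hT)
  have hface : flip D.α G T' ∈ D.Δ := by
    by_contra hn
    apply hfT
    have h0 : D.dg (xm R (flip D.α G T') * y) = 0 := by
      apply hC.dgJ
      apply Ideal.mul_mem_right
      exact sr_le_J (ee + 4) (xm_mem_sr hn)
    change Ideal.Quotient.mk I (D.dg (xm R (flip D.α G T') * y)) = 0
    rw [h0, map_zero]
  exact hC.hs.down _ hface _ (IRedV.flip_sub D.α hHG hT')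

end CSLef.DG
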