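import Mathlib
import Pool.Agent.Work.MP_38c61c_al.DG.StmtsV

/-!
Block DG, item Shat: the support of a polynomial of degree at most `r` on a cube shatters a set with
`|G| - r` elements.
-/

namespace CSLef.DG

open MvPolynomial Finset

namespace IShat

/-- the sum over a face of the cube -/
def cc {V : Type} [DecidableEq V] {A : Type} [AddCommGroup A] (f : Finset V → A)
    (M T : Finset V) : A := ∑ T' ∈ M.powerset, f (T ∪ T')

theorem cc_insert {V : Type} [DecidableEq V] {A : Type} [AddCommGroup A] (f : Finset V → A)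
    (M T : Finset V) (x : V) (hx : x ∉ M) :
    cc f (insert x M) T = cc f M T + cc f M (insert x T) := by
  unfold cc
  rw [Finset.sum_powerset_insert hx]
  congr 1
  refine Finset.sum_congr rfl fun t _ => ?_
  rw [Finset.union_insert, Finset.insert_union]

theorem cc_zero {V : Type} [DecidableEq V] {A : Type} [AddCommGroup A] (G : Finset V) (r : ℕ)
    (f : Finset V → A)
    (h : ∀ M ⊆ G, M.card = r + 1 → ∀ T ⊆ G \ M, ∑ T' ∈ M.powerset, f (T ∪ T') = 0) :
    ∀ n : ℕ, ∀ M ⊆ G, M.card = r + 1 + n → ∀ T ⊆ G \ M, cc f M T = 0 := by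
  intro n
  induction n with
  | zero => exact fun M hM hc T hT => h M hM hc T hT
  | succ n ih =>
    intro M hM hc T hT
    have hne : M.Nonempty := Finset.card_pos.1 (by omega)
    obtain ⟨x, hx⟩ := hne
    have hx0 : x ∉ M.erase x := Finset.notMem_erase x M
    have hMe : insert x (M.erase x) = M := Finset.insert_erase hx
    have hc0 : (M.erase x).card = r + 1 + n := by
      rw [Finset.card_erase_of_mem hx]
      omega
    have hsub : M.erase x ⊆ G := (Finset.erase_subset x M).trans hM
    have hT1 : T ⊆ G \ M.erase x := by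
      intro y hy
      have h1 := Finset.mem_sdiff.1 (hT hy)
      exact Finset.mem_sdiff.2 ⟨h1.1, fun h2 => h1.2 (Finset.mem_of_mem_erase h2)⟩
    have hT2 : insert x T ⊆ G \ M.erase x := by
      intro y hy
      rcases Finset.mem_insert.1 hy with h1 | h1
      · rw [h1]
        exact Finset.mem_sdiff.2 ⟨hM hx, hx0⟩
      · exact hT1 h1
    rw [← hMe, cc_insert f _ T x hx0, ih _ hsub hc0 T hT1, ih _ hsub hc0 _ hT2, add_zero]

end IShat

open IShat in
/-- Item Shat. -/
theorem pr_Shat : StShat := by
  intro V _ A _ G r hr f h T0 hT0 hf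
  classical
  -- a largest face with a nonzero sum
  let 𝓜 : Finset (Finset V) := G.powerset.filter (fun M => ∃ T ⊆ G \ M, cc f M T ≠ 0)
  have h𝓜 : 𝓜.Nonempty := by
    refine ⟨∅, Finset.mem_filter.2 ⟨Finset.empty_mem_powerset G, T0, ?_, ?_⟩⟩
    · rw [Finset.sdiff_empty]
      exact hT0
    · unfold cc
      rw [Finset.powerset_empty, Finset.sum_singleton, Finset.union_empty]
      exact hf
  obtain ⟨M, hM, hmax⟩ := Finset.exists_max_image 𝓜 Finset.card h𝓜
  obtain ⟨hM1, T1, hT1, hc1⟩ := Finset.mem_filter.1 hM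
  have hMG : M ⊆ G := Finset.mem_powerset.1 hM1
  have hMr : M.card ≤ r := by
    by_contra hcon
    exact hc1 (cc_zero G r f h (M.card - (r + 1)) M hMG (by omega) T1 hT1)
  -- the sums over the larger faces vanish
  have hstep : ∀ x ∈ G \ M, ∀ T ⊆ G \ M, x ∉ T → cc f M T + cc f M (insert x T) = 0 := by
    intro x hx T hT hxT
    have hxM : x ∉ M := (Finset.mem_sdiff.1 hx).2
    rw [← cc_insert f M T x hxM]
    by_contra hcon
    have hmem : insert x M ∈ 𝓜 := by
      refine Finset.mem_filter.2 ⟨Finset.mem_powerset.2 ?_, T, ?_, hcon⟩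
      · exact Finset.insert_subset (Finset.mem_sdiff.1 hx).1 hMG
      · intro y hy
        have h1 := Finset.mem_sdiff.1 (hT hy)
        refine Finset.mem_sdiff.2 ⟨h1.1, fun h2 => ?_⟩
        rcases Finset.mem_insert.1 h2 with h3 | h3
        · exact hxT (h3 ▸ hy)
        · exact h1.2 h3
    have h2 := hmax _ hmem
    rw [Finset.card_insert_of_notMem hxM] at h2
    omega
  have hiff : ∀ T : Finset V, T ⊆ G \ M → (cc f M T ≠ 0 ↔ cc f M ∅ ≠ 0) := by
    intro T
    induction T using Finset.induction_on with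
    | empty => exact fun _ => Iff.rfl
    | insert x T hx ih =>
      intro hT
      have hT' : T ⊆ G \ M := (Finset.subset_insert x T).trans hT
      have h1 := hstep x (hT (Finset.mem_insert_self x T)) T hT' hx
      rw [← ih hT']
      constructor
      · intro h2 h3
        rw [h3, zero_add] at h1
        exact h2 h1
      · intro h2 h3
        rw [h3, add_zero] at h1
        exact h2 h1
  have hall : ∀ T : Finset V, T ⊆ G \ M → cc f M T ≠ 0 := fun T hT =>
    (hiff T hT).2 ((hiff T1 hT1).1 hc1)
  obtain ⟨H, hH, hHc⟩ := Finset.exists_subset_card_eq (s := G \ M) (n := G.card - r) (by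
    rw [Finset.card_sdiff_of_subset hMG]
    omega)
  refine ⟨H, hH.trans Finset.sdiff_subset, by omega, ?_⟩
  intro T hT
  obtain ⟨T'', hT'', hne⟩ := Finset.exists_ne_zero_of_sum_ne_zero (hall T (hT.trans hH))
  have hT''M : T'' ⊆ M := Finset.mem_powerset.1 hT''
  refine ⟨T ∪ T'', ?_, ?_, hne⟩
  · exact Finset.union_subset ((hT.trans hH).trans Finset.sdiff_subset) (hT''M.trans hMG)
  · ext y
    rw [Finset.mem_inter, Finset.mem_union]
    constructor
    · rintro ⟨h1 | h1, h2⟩
      · exact h1
      · exact absurd (hT''M h1) (Finset.mem_sdiff.1 (hH h2)).2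
    · exact fun h1 => ⟨Or.inl h1, hT h1⟩

end CSLef.DG
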