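import Mathlib
import Pool.Agent.Work.MP_38c61c_al.DG.StmtsV

/-!
Block DG: item Yp
-/

namespace CSLef.DG

open MvPolynomial Finset

namespace IYp

variable {V : Type} [DecidableEq V] {R : Type} [CommRing R]

theorem xm_flip {α : Equiv.Perm V} {VP : Finset V} (vp : ∀ v, v ∈ VP ↔ α v ∉ VP)
    {G T : Finset V} (hG : G ⊆ VP) (hT : T ⊆ G) :
    xm R (flip α G T) =
      (∏ v ∈ G \ T, (X v : MvPolynomial V R)) * ∏ v ∈ T, (X (α v) : MvPolynomial V R) := by
  have hd : Disjoint (G \ T) (T.image α) := by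
    rw [Finset.disjoint_left]
    intro v hv hv'
    obtain ⟨u, hu, rfl⟩ := Finset.mem_image.1 hv'
    exact (vp u).1 (hG (hT hu)) (hG (Finset.mem_sdiff.1 hv).1)
  unfold xm flip
  rw [Finset.prod_union hd, Finset.prod_image fun a _ b _ h => α.injective h]

theorem xm_split {α : Equiv.Perm V} {VP : Finset V} (vp : ∀ v, v ∈ VP ↔ α v ∉ VP)
    {G M T T' : Finset V} (hG : G ⊆ VP) (hM : M ⊆ G) (hT : T ⊆ G \ M) (hT' : T' ⊆ M) :
    xm R (flip α G (T ∪ T')) = xm R (flip α (G \ M) T) *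
      ((∏ v ∈ T', (X (α v) : MvPolynomial V R)) * ∏ v ∈ M \ T', (X v : MvPolynomial V R)) := by
  have hTG : T ⊆ G := hT.trans Finset.sdiff_subset
  have hTM : ∀ v ∈ T, v ∉ M := fun v hv => (Finset.mem_sdiff.1 (hT hv)).2
  have hd1 : Disjoint T T' := by
    rw [Finset.disjoint_left]
    intro v hv hv'
    exact hTM v hv (hT' hv')
  have hd2 : Disjoint ((G \ M) \ T) (M \ T') := by
    rw [Finset.disjoint_left]
    intro v hv hv'
    exact (Finset.mem_sdiff.1 (Finset.mem_sdiff.1 hv).1).2 (Finset.mem_sdiff.1 hv').1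
  have he : G \ (T ∪ T') = ((G \ M) \ T) ∪ (M \ T') := by
    ext v
    simp only [Finset.mem_sdiff, Finset.mem_union]
    constructor
    · rintro ⟨h1, h2⟩
      by_cases h3 : v ∈ M
      · exact Or.inr ⟨h3, fun h => h2 (Or.inr h)⟩
      · exact Or.inl ⟨⟨h1, h3⟩, fun h => h2 (Or.inl h)⟩
    · rintro (⟨⟨h1, h2⟩, h3⟩ | ⟨h1, h2⟩)
      · exact ⟨h1, fun h => h.elim h3 fun h => h2 (hT' h)⟩
      · exact ⟨hM h1, fun h => h.elim (fun h => hTM v h h1) h2⟩
  rw [xm_flip vp hG (Finset.union_subset hTG (hT'.trans hM)),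
    xm_flip vp (Finset.sdiff_subset.trans hG) hT, he, Finset.prod_union hd2,
    Finset.prod_union hd1]
  ring

end IYp

open IYp in
/-- Item Yp. -/
theorem pr_Yp {ee : ℕ} {V : Type} [Fintype V] [DecidableEq V] {R : Type} [CommRing R]
    [IsDomain R] (D : Dat ee V R) (hC : Ctx D) : StYp D := by
  intro G hG M hM T hT
  rw [Finset.sum_congr rfl fun T' hT' =>
    xm_split (R := R) hC.vp hG hM hT (Finset.mem_powerset.1 hT'), ← Finset.mul_sum,
    ← Finset.prod_add, Finset.prod_map_toList]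
  congr 1
  refine Finset.prod_congr rfl fun v _ => ?_
  rw [yy, add_comm]

end CSLef.DG
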