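import Mathlib
import Pool.Agent.Work.MP_38c61c_al.Quad.QChar2
import Pool.Agent.Work.MP_38c61c_al.DG.StmtsX
import Pool.Agent.Work.MP_38c61c_al.DG.StmtsV
import Pool.Agent.Work.MP_38c61c_al.DG.I_RbL
import Pool.Agent.Work.MP_38c61c_al.DG.I_Shat
import Pool.Agent.Work.MP_38c61c_al.DG.I_Yp
import Pool.Agent.Work.MP_38c61c_al.DG.I_RedV

/-!
Block DG, powers: the statement in characteristic 2. If there are no full sets with `n + 2`
elements, the relations for the kernel of `w ^ (k + 1)` in degree `i`, `2 i + k + n = d`, imply that
`x` is in the ideal.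
-/

namespace CSLef.DG

open MvPolynomial Finset

namespace IChar2K

variable {V : Type} [Fintype V] [DecidableEq V]

section

variable {F : Type} [Field F] [CharP F 2] {Δ : Finset (Finset V)} {d : ℕ} {α : Equiv.Perm V}
  {VP : Finset V} {p : ℕ → V ⊕ Bool → F} {D : ℕ → V ⊕ Bool → Derivation ℤ F F}
  {μ : ℕ → F} {c : V → F} {Dm : ℕ → Derivation ℤ F F} {Dc : V → Derivation ℤ F F}

omit [Fintype V] in
/-- products of the `y_q` and flips -/
theorem yp_gen {R : Type} [CommRing R] (vp : ∀ v, v ∈ VP ↔ α v ∉ VP) :
    ∀ G ⊆ VP, ∀ M ⊆ G, ∀ T ⊆ G \ M,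
    ∑ T' ∈ M.powerset, xm R (flip α G (T ∪ T')) =
      xm R (flip α (G \ M) T) * (M.toList.map (yy R α)).prod := by
  intro G hG M hM T hT
  rw [Finset.sum_congr rfl fun T' hT' =>
    IYp.xm_split (R := R) vp hG hM hT (Finset.mem_powerset.1 hT'), ← Finset.mul_sum,
    ← Finset.prod_add, Finset.prod_map_toList]
  congr 1
  refine Finset.prod_congr rfl fun v _ => ?_
  rw [yy, add_comm]

omit [Fintype V] in
/-- larger full sets contain smaller full sets -/
theorem no_larger (hdown : ∀ F ∈ Δ, ∀ G, G ⊆ F → G ∈ Δ) {m : ℕ}
    (hno : ∀ H : Finset V, H.card = m → ∃ T ⊆ H, flip α H T ∉ Δ) :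
    ∀ H : Finset V, m ≤ H.card → ∃ T ⊆ H, flip α H T ∉ Δ := by
  intro H hH
  obtain ⟨H', hH', hc⟩ := Finset.exists_subset_card_eq (s := H) (n := m) hH
  obtain ⟨T, hT, hT2⟩ := hno H' hc
  refine ⟨T, hT.trans hH', fun h => hT2 (hdown _ h _ ?_)⟩
  unfold flip
  exact Finset.union_subset_union (Finset.sdiff_subset_sdiff hH' (le_refl T)) (le_refl _)

omit [Fintype V] [DecidableEq V] [CharP F 2] in
theorem xl_hom' (L : List V) : (xl F L).IsHomogeneous L.length := by
  induction L with
  | nil => exact isHomogeneous_one V F
  | cons v L ih =>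
    rw [IRbL.xl_cons, List.length_cons, Nat.add_comm]
    exact (isHomogeneous_X F v).mul ih

/-- from the relations with `j` factors `y_q` -/
theorem shat_red (S : Setup Δ d α VP p D μ c Dm Dc) (hd : 1 ≤ d) {e j : ℕ} (hje : j + 2 * e ≤ d + e)
    {X' : MvPolynomial V F} (hX' : X'.IsHomogeneous e)
    (hrel : ∀ vs gs : List V, gs.length = j → gs.length + vs.length + e = d →
      piF Δ d p D ((vs.map X).prod * (gs.map (yy F α)).prod * X') = 0)
    (hno : 1 ≤ j → ∀ H : Finset V, H.card + j + e = d + 1 → ∃ T ⊆ H, flip α H T ∉ Δ) :
    X' ∈ Jid Δ (rows p) d := by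
  classical
  have hvp := S.vp
  apply nondeg_pi S hd (k := d - e) (by omega) hX'
  intro G' hG' hcard'
  obtain ⟨G, hG⟩ : ∃ G, G = IRedV.half VP α G' := ⟨_, rfl⟩
  obtain ⟨T0, hT0⟩ : ∃ T, T = G.filter (fun v => α v ∈ G') := ⟨_, rfl⟩
  have hGV : G ⊆ VP := by
    rw [hG]
    exact filter_subset _ _
  have hTG : T0 ⊆ G := by
    rw [hT0]
    exact filter_subset _ _
  have hST : flip α G T0 = G' := by
    rw [hT0, hG]
    exact IRedV.flip_half hvp S.cs.invol (S.cs.no_pair G' hG')
  have hGc : G.card = d - e := by
    rw [← IRedV.card_flip hvp hGV hTG, hST, hcard']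
  have hsum : ∀ M ⊆ G, M.card = j → ∀ T ⊆ G \ M,
      ∑ T' ∈ M.powerset, piF Δ d p D (xm F (flip α G (T ∪ T')) * X') = 0 := by
    intro M hM hMc T hT
    have e1 : ∑ T' ∈ M.powerset, piF Δ d p D (xm F (flip α G (T ∪ T')) * X') =
        piF Δ d p D ((∑ T' ∈ M.powerset, xm F (flip α G (T ∪ T'))) * X') := by
      rw [Finset.sum_mul, map_sum]
    rw [e1, yp_gen hvp G hGV M hM T hT]
    have hfc : (flip α (G \ M) T).card = G.card - M.card := by
      rw [IRedV.card_flip hvp (Finset.sdiff_subset.trans hGV) hT, Finset.card_sdiff_of_subset hM]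
    have h1 := hrel (flip α (G \ M) T).toList M.toList (by rw [Finset.length_toList, hMc]) (by
      rw [Finset.length_toList, Finset.length_toList, hfc, hMc, hGc]
      omega)
    rw [Finset.prod_map_toList] at h1
    exact h1
  rw [← hST]
  by_contra hne
  rcases Nat.eq_zero_or_pos j with hj | hj
  · have h1 := hsum ∅ (Finset.empty_subset _) (by rw [hj]; rfl) T0 (by
      rw [Finset.sdiff_empty]
      exact hTG)
    rw [Finset.powerset_empty, Finset.sum_singleton, Finset.union_empty] at h1
    exact hne h1
  · obtain ⟨H, hHG, hHc, hH⟩ := pr_Shat G (j - 1) (by omega)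
      (fun T => piF Δ d p D (xm F (flip α G T) * X'))
      (fun M hM hMc T hT => hsum M hM (by omega) T hT) T0 hTG hne
    obtain ⟨T, hT, hTn⟩ := hno hj H (by omega)
    obtain ⟨T', hT'G, hT', hfT⟩ := hH T hT
    have hface : flip α G T' ∈ Δ := by
      by_contra hn
      apply hfT
      exact piF_sr S.cols S.cs S.hs.down (Ideal.mul_mem_right _ _ (xm_mem_sr hn))
    exact hTn (S.hs.down _ hface _ (IRedV.flip_sub α hHG hT'))

end

end IChar2K

open IChar2K in
/-- the statement in characteristic 2 for powers -/
theorem char2_powers {V : Type} [Fintype V] [DecidableEq V] {F : Type} [Field F] [CharP F 2]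
    {Δ : Finset (Finset V)} {d : ℕ} {α : Equiv.Perm V} {VP : Finset V} {p : ℕ → V ⊕ Bool → F}
    {D : ℕ → V ⊕ Bool → Derivation ℤ F F} {μ : ℕ → F} {c : V → F} {Dm : ℕ → Derivation ℤ F F}
    {Dc : V → Derivation ℤ F F} (S : Setup Δ d α VP p D μ c Dm Dc) (hd : 1 ≤ d)
    {i k n : ℕ} (hik : i + i + k + n = d) (hn : 1 ≤ n)
    (hno : ∀ H : Finset V, H.card = n + 2 → ∃ T ⊆ H, flip α H T ∉ Δ)
    {x : MvPolynomial V F} (hx : x.IsHomogeneous i)
    (h : ∀ g : MvPolynomial V F, g.IsHomogeneous n →
      piF Δ d p D ((wel d α VP p μ c) ^ k * g * x ^ 2) = 0)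
    (h2 : Even k → ∀ g : MvPolynomial V F, g.IsHomogeneous n →
      piF Δ d p D ((wel d α VP p μ c) ^ (k + 1) * g * x ^ 2) = 0) :
    x ∈ Jid Δ (rows p) d := by
  set w := wel d α VP p μ c with hw
  have hwh : w.IsHomogeneous 1 := wel_hom
  have hwm : ∀ m, (w ^ m * x).IsHomogeneous (m + i) := by
    intro m
    have := (hwh.pow m).mul hx
    rwa [one_mul] at this
  have hno' := no_larger S.hs.down hno
  have key : ∀ t m, m + t = k / 2 → w ^ m * x ∈ Jid Δ (rows p) d := by
    intro t
    induction t with
    | zero =>
      intro m hm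
      rw [add_zero] at hm
      rcases Nat.even_or_odd k with hk | hk
      · have hk2 : k = m + m := by
          obtain ⟨t, ht⟩ := hk
          omega
        have hX1 : ∀ g : MvPolynomial V F, g.IsHomogeneous n →
            piF Δ d p D (g * (w ^ m * x) ^ 2) = 0 := by
          intro g hg
          have h3 := h g hg
          rw [hk2] at h3
          rw [← h3]
          congr 1
          ring
        have hwX : ∀ g : MvPolynomial V F, g.IsHomogeneous n →
            piF Δ d p D (w * (g * (w ^ m * x) ^ 2)) = 0 := by
          intro g hg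
          have h3 := h2 hk g hg
          rw [hk2] at h3
          rw [← h3]
          congr 1
          ring
        rcases Nat.eq_zero_or_pos (m + i) with he0 | he1
        · -- degree zero
          apply shat_red S hd (e := m + i) (j := 0) (by omega) (hwm m)
          · intro vs gs hgs hlen
            obtain rfl : gs = [] := List.eq_nil_of_length_eq_zero hgs
            rw [List.map_nil, List.prod_nil, mul_one]
            have hc := hwm m
            rw [he0] at hc
            have hC : w ^ m * x = C (coeff 0 (w ^ m * x)) :=
              totalDegree_eq_zero_iff_eq_C.mp (Nat.le_zero.mp hc.totalDegree_le)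
            have h3 := hX1 ((vs.map X).prod) (by
              have h4 := listX_hom (F := F) vs
              rwa [show vs.length = n by simp only [List.length_nil] at hlen; omega] at h4)
            rw [hC] at h3 ⊢
            generalize coeff 0 (w ^ m * x) = b at h3 ⊢
            rw [← map_pow, mul_comm, C_mul', map_smul, smul_eq_mul] at h3
            rw [mul_comm, C_mul', map_smul, smul_eq_mul]
            rcases mul_eq_zero.mp h3 with h4 | h4
            · rw [(pow_eq_zero_iff two_ne_zero).mp h4, zero_mul]
            · rw [h4, mul_zero]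
          · intro h0
            omega
        · -- the relations with `e - 1` factors
          have hrb := pr_RbL S (m + i) he1 (by omega) (w ^ m * x) (fun L hL => hX1 _ (by
              have h4 := xl_hom' (F := F) L
              rwa [show L.length = n by omega] at h4)) (fun L hL => derive_m S
              ((IRbL.con_xl L).mul (Con.sq _)) (hwX _ (by
                have h4 := xl_hom' (F := F) L
                rwa [show L.length = n by omega] at h4)) (by omega))
          apply shat_red S hd (e := m + i) (j := m + i - 1) (by omega) (hwm m)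
          · intro vs gs hgs hlen
            rcases vs with _ | ⟨q, L⟩
            · simp only [List.length_nil] at hlen
              omega
            · simp only [List.length_cons] at hlen
              have h3 := hrb L (by omega) q gs (by omega)
              have h4 : (((q :: L).map X).prod * (gs.map (yy F α)).prod * (w ^ m * x) :
                  MvPolynomial V F) = xl F L * X q * (gs.map (yy F α)).prod * (w ^ m * x) := by
                rw [List.map_cons, List.prod_cons]
                unfold xl
                ring
              rw [h4]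
              exact h3
          · intro _ H hH
            exact hno' H (by omega)
      · have hk2 : k = m + m + 1 := by
          obtain ⟨t, ht⟩ := hk
          omega
        have hr : (m + i) + (m + i) + (n + 1) = d := by omega
        have hwX : ∀ g : MvPolynomial V F, g.IsHomogeneous n →
            piF Δ d p D (w * (g * (w ^ m * x) ^ 2)) = 0 := by
          intro g hg
          have h3 := h g hg
          rw [hk2] at h3
          rw [← h3]
          congr 1
          ring
        have hX2 : ∀ u, ∀ g : MvPolynomial V F, Con g → g.IsHomogeneous (n + 1 - 1) →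
            piF Δ d p D (yy F α u * (g * (w ^ m * x) ^ 2)) = 0 := by
          intro u g hg hgh
          rw [Nat.add_sub_cancel] at hgh
          exact derive_c S (hg.mul (Con.sq _)) (hwX g hgh) u
        apply shat_red S hd (e := m + i) (j := m + i) (by omega) (hwm m)
        · intro vs gs hgs hlen
          apply rel_le S hr (by omega) hX2 _ vs gs (by omega) (by omega)
          intro v vs' hvs'
          have hcon : Con (X v * (vs'.map X).prod : MvPolynomial V F) :=
            (Con.X v).mul (Con.listX vs')
          apply derive_m S (hcon.mul (Con.sq _)) _ (by omega)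
          apply hwX
          have h4 := (isHomogeneous_X F v).mul (listX_hom (F := F) vs')
          convert h4 using 1
          omega
        · intro _ H hH
          exact hno' H (by omega)
    | succ t ih =>
      intro m hm
      have h1 := ih (m + 1) (by omega)
      obtain ⟨r, hr⟩ : ∃ r, (m + i) + (m + i) + r = d := ⟨d - 2 * (m + i), by omega⟩
      have hr3 : n + 2 ≤ r := by omega
      have hg0 : ∀ g : MvPolynomial V F, g.IsHomogeneous (r - 1) →
          piF Δ d p D (wel d α VP p μ c * (g * (w ^ m * x) ^ 2)) = 0 := by
        intro g hgh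
        apply piF_J S hd
        · have h3 : wel d α VP p μ c * (g * (w ^ m * x) ^ 2) =
            (g * (w ^ m * x)) * (w ^ (m + 1) * x) := by
            rw [← hw]; ring
          rw [h3]
          exact Ideal.mul_mem_left _ _ h1
        · have h3 := hwh.mul (hgh.mul ((hwm m).pow 2))
          rw [← hw]
          convert h3 using 1
          omega
      have hX2 : ∀ u, ∀ g : MvPolynomial V F, Con g → g.IsHomogeneous (r - 1) →
          piF Δ d p D (yy F α u * (g * (w ^ m * x) ^ 2)) = 0 := by
        intro u g hg hgh
        exact derive_c S (hg.mul (Con.sq _)) (hg0 g hgh) u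
      apply shat_red S hd (e := m + i) (j := m + i) (by omega) (hwm m)
      · intro vs gs hgs hlen
        apply rel_le S hr (by omega) hX2 _ vs gs (by omega) (by omega)
        intro v vs' hvs'
        have hcon : Con (X v * (vs'.map X).prod : MvPolynomial V F) :=
          (Con.X v).mul (Con.listX vs')
        apply derive_m S (hcon.mul (Con.sq _)) _ (by omega)
        apply hg0
        have h4 := (isHomogeneous_X F v).mul (listX_hom (F := F) vs')
        convert h4 using 1
        omega
      · intro _ H hH
        exact hno' H (by omega)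
  have h3 := key (k / 2) 0 (by omega)
  rwa [pow_zero, one_mul] at h3

end CSLef.DG
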