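import Mathlib
import Pool.Agent.Work.MP_38c61c_al.DG.Stmts

/-!
Block DG, item ExA: exactness of first and second order.
-/

namespace CSLef.DG

open MvPolynomial Finset

namespace IExA

variable {ee : ℕ} {V : Type} [Fintype V] [DecidableEq V] {R : Type} [CommRing R]

omit [Fintype V] in
/-- the derivative of the Lefschetz element in the direction of `c_u` -/
theorem dmap_welA (ee : ℕ) (α : Equiv.Perm V) (VP : Finset V) (a : ℕ → V → R) (μ : ℕ → R) (c : V → R)
    (δ : Derivation ℤ R R) (u : V) (hu : u ∈ VP) (δa : ∀ l v, δ (a l v) = 0)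
    (δμ : ∀ l, δ (μ l) = 0) (δc : ∀ v, δ (c v) = if u = v then 1 else 0) :
    dmap δ (welA (ee + 4) α VP a μ c) = yy R α u := by
  unfold welA
  rw [dmap_add, dmap_sum, dmap_sum]
  have h3 : ∀ l ∈ range (ee + 4), dmap δ (C (μ l) *
      (∑ v ∈ VP, C (a l v) * X v : MvPolynomial V R)) = 0 := by
    intro l _
    rw [dmap_mul, dmap_C, δμ, dmap_sum, map_zero, zero_mul, zero_add]
    rw [Finset.sum_eq_zero, mul_zero]
    intro v _
    rw [dmap_mul, dmap_C, δa, dmap_X, map_zero, zero_mul, mul_zero, add_zero]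
  rw [Finset.sum_eq_zero h3, zero_add]
  have h4 : ∀ v ∈ VP, dmap δ (C (c v) * yy R α v : MvPolynomial V R) =
      if u = v then yy R α v else 0 := by
    intro v _
    have h5 : dmap δ (yy R α v) = 0 := by
      unfold yy
      rw [dmap_add, dmap_X, dmap_X, add_zero]
    rw [dmap_mul, dmap_C, δc, h5, mul_zero, add_zero]
    split_ifs
    · rw [C_1, one_mul]
    · rw [C_0, zero_mul]
  rw [Finset.sum_congr rfl h4, Finset.sum_ite_eq VP u, if_pos hu]

/-- `y_v y^2 ∈ J` -/
theorem yysq [IsDomain R] (D : Dat ee V R) (hC : Ctx D) (y : MvPolynomial V R)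
    (hw : D.w * y ∈ D.J) (v : V) : yy R D.α v * y ^ 2 ∈ D.J := by
  have key : ∀ u ∈ D.VP, yy R D.α u * y ^ 2 ∈ D.J := by
    intro u hu
    obtain ⟨δ, δa, δμ, δc⟩ := hC.derc u hu
    have h1 : dmap δ (D.w * y) ∈ D.J := dmap_J hC.hs.down δ δa hw
    have h0 : dmap δ D.w = yy R D.α u := dmap_welA ee D.α D.VP D.a D.μ D.c δ u hu δa δμ δc
    rw [dmap_mul, h0] at h1
    have h2 := Ideal.mul_mem_left D.J y h1
    have h4 := Ideal.sub_mem D.J h2 (Ideal.mul_mem_right (dmap δ y) D.J hw)
    have h5 : y * (yy R D.α u * y + D.w * dmap δ y) - D.w * y * dmap δ y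
        = yy R D.α u * y ^ 2 := by ring
    rwa [h5] at h4
  by_cases hv : v ∈ D.VP
  · exact key v hv
  · have h1 : D.α v ∈ D.VP := by
      by_contra h'
      exact hv ((hC.vp v).mpr h')
    have h2 := key _ h1
    have h3 : yy R D.α (D.α v) = yy R D.α v := by
      unfold yy
      rw [hC.cs.invol]
      ring
    rwa [h3] at h2

omit [Fintype V] [DecidableEq V] in
theorem dmap_sub (δ : Derivation ℤ R R) (f g : MvPolynomial V R) :
    dmap δ (f - g) = dmap δ f - dmap δ g := by
  ext m
  simp only [coeff_dmap, coeff_sub, map_sub]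

/-- the derivation `X v ↦ X v`, the other variables to `0` -/
noncomputable def E1 (v : V) : Derivation R (MvPolynomial V R) (MvPolynomial V R) :=
  mkDerivation R (fun u => if u = v then (X u : MvPolynomial V R) else 0)

theorem E1_monomial (v : V) (m : V →₀ ℕ) (b : R) :
    E1 v (monomial m b) = ((m v : ℕ) : R) • monomial m b := by
  unfold E1
  rw [mkDerivation_monomial]
  have key : ∀ i : V, (monomial (m - Finsupp.single i 1) ((m i : ℕ) : R)) •
      (if i = v then (X i : MvPolynomial V R) else 0) =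
      (if i = v then ((m i : ℕ) : R) • monomial m (1 : R) else 0) := by
    intro i
    have h0 : (monomial (m - Finsupp.single i 1) ((m i : ℕ) : R)) •
        (X i : MvPolynomial V R) = ((m i : ℕ) : R) • monomial m (1 : R) := by
      by_cases hi : m i = 0
      · rw [hi, Nat.cast_zero, monomial_zero, zero_smul, zero_smul]
      · have hs : m - Finsupp.single i 1 + Finsupp.single i 1 = m := by
          ext u
          simp only [Finsupp.coe_add, Finsupp.coe_tsub, Pi.add_apply, Pi.sub_apply,
            Finsupp.single_apply]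
          split_ifs with h
          · subst h
            omega
          · omega
        rw [smul_eq_mul, X, monomial_mul, mul_one, hs, smul_monomial, smul_eq_mul, mul_one]
    by_cases h1 : i = v
    · rw [if_pos h1, if_pos h1]
      exact h0
    · rw [if_neg h1, if_neg h1, smul_zero]
  have h3 : (m.sum fun i k => (monomial (m - Finsupp.single i 1) ((k : ℕ) : R)) •
      (if i = v then (X i : MvPolynomial V R) else 0)) =
      ((m v : ℕ) : R) • monomial m (1 : R) := by
    rw [Finsupp.sum_fintype]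
    · rw [Finset.sum_congr rfl (fun i _ => key i),
        Finset.sum_ite_eq', if_pos (Finset.mem_univ _)]
    · intro i
      simp
  rw [h3, smul_smul, mul_comm, mul_smul, smul_monomial, smul_eq_mul, mul_one]

theorem coeff_E1 (v : V) (f : MvPolynomial V R) (m : V →₀ ℕ) :
    coeff m (E1 v f) = ((m v : ℕ) : R) * coeff m f := by
  induction f using MvPolynomial.induction_on' with
  | monomial u b =>
    rw [E1_monomial, coeff_smul, coeff_monomial, smul_eq_mul]
    split_ifs with h
    · rw [h]
    · rw [mul_zero, mul_zero]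
  | add p q hp hq => rw [map_add, coeff_add, coeff_add, hp, hq, mul_add]

theorem E1_sr {Δ : Finset (Finset V)} (hdown : ∀ F ∈ Δ, ∀ G, G ⊆ F → G ∈ Δ) (v : V)
    (f : MvPolynomial V R) (hf : f ∈ srIdeal R Δ) : E1 v f ∈ srIdeal R Δ := by
  rw [mem_sr_iff hdown] at hf ⊢
  intro m hm
  apply hf m
  intro h0
  apply hm
  rw [coeff_E1, h0, mul_zero]

omit [Fintype V] in
theorem E1_X (v u : V) : E1 v (X u : MvPolynomial V R) = if u = v then X u else 0 := by
  unfold E1
  rw [mkDerivation_X]

theorem E1_sum (v : V) (S : Finset V) (b : V → R) : E1 v (∑ u ∈ S, C (b u) * X u : MvPolynomial V R) =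
    if v ∈ S then C (b v) * X v else 0 := by
  rw [map_sum]
  have h1 : ∀ u ∈ S, E1 v (C (b u) * X u : MvPolynomial V R) =
      if u = v then C (b u) * X u else 0 := by
    intro u _
    rw [C_mul', Derivation.map_smul, E1_X]
    split_ifs
    · rfl
    · rw [smul_zero]
  rw [Finset.sum_congr rfl h1, Finset.sum_ite_eq']

theorem E1_lin (v : V) (b : V → R) : E1 v (lin b) = C (b v) * X v := by
  unfold lin
  rw [E1_sum, if_pos (Finset.mem_univ _)]

variable [IsDomain R]

theorem E1_w (D : Dat ee V R) (hC : Ctx D) {v : V} (hv : v ∈ D.VP) :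
    E1 v D.w = C (D.c v + ∑ l ∈ range (ee + 4), D.μ l * D.a l v) * X v := by
  unfold Dat.w welA
  rw [map_add, map_sum, map_sum]
  have h1 : ∀ l ∈ range (ee + 4), E1 v (C (D.μ l) * (∑ u ∈ D.VP, C (D.a l u) * X u) : MvPolynomial V R) =
      C (D.μ l * D.a l v) * X v := by
    intro l _
    rw [C_mul', Derivation.map_smul, E1_sum, if_pos hv, ← C_mul', C_mul, mul_assoc]
  have h2 : ∀ u ∈ D.VP, E1 v (C (D.c u) * yy R D.α u : MvPolynomial V R) =
      if u = v then C (D.c u) * X u else 0 := by
    intro u hu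
    unfold yy
    rw [C_mul', Derivation.map_smul, map_add, E1_X, E1_X]
    have hne : D.α u ≠ v := by
      rintro rfl
      exact (hC.vp u).1 hu hv
    rw [if_neg hne, add_zero]
    split_ifs
    · rw [C_mul']
    · rw [smul_zero]
  rw [Finset.sum_congr rfl h1, Finset.sum_congr rfl h2, Finset.sum_ite_eq', if_pos hv,
    ← Finset.sum_mul, ← map_sum, ← add_mul, ← C_add]
  rw [add_comm]

/-- derivative of the Lefschetz element -/
theorem dw (D : Dat ee V R) (hC : Ctx D) {m : ℕ} (hm : m < ee + 4) {v : V} (hv : v ∈ D.VP)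
    (δ : Derivation ℤ R R) (δa : ∀ l < ee + 4, ∀ u, δ (D.a l u) =
      if m = l then (if u = v then 1 else if u = D.α v then -1 else 0) else 0)
    (δμ : ∀ l, δ (D.μ l) = 0) (δc : ∀ u, δ (D.c u) = 0) :
    dmap δ D.w = C (D.μ m) * X v := by
  have hvpα : ∀ v ∈ D.VP, D.α v ∉ D.VP := fun v hv => (hC.vp v).mp hv
  unfold Dat.w welA
  rw [dmap_add, dmap_sum, dmap_sum]
  have h4 : ∀ u ∈ D.VP, dmap δ (C (D.c u) * yy R D.α u : MvPolynomial V R) = 0 := by
    intro u _
    have h5 : dmap δ (yy R D.α u) = 0 := by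
      unfold yy
      rw [dmap_add, dmap_X, dmap_X, add_zero]
    rw [dmap_mul, dmap_C, δc, h5, mul_zero, add_zero, map_zero, zero_mul]
  rw [Finset.sum_eq_zero h4, add_zero]
  have h3 : ∀ l' ∈ range (ee + 4), dmap δ (C (D.μ l') *
      (∑ u ∈ D.VP, C (D.a l' u) * X u : MvPolynomial V R)) =
      if m = l' then C (D.μ m) * X v else 0 := by
    intro l' hl'
    rw [dmap_mul, dmap_C, δμ, dmap_sum, map_zero, zero_mul, zero_add]
    have h6 : ∀ u ∈ D.VP, dmap δ (C (D.a l' u) * X u : MvPolynomial V R) =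
        if u = v then (if m = l' then X v else 0) else 0 := by
      intro u hu
      rw [dmap_mul, dmap_C, dmap_X, mul_zero, add_zero, δa l' (Finset.mem_range.mp hl')]
      have hne : u ≠ D.α v := fun h => hvpα v hv (h ▸ hu)
      by_cases hll : m = l'
      · by_cases huv : u = v
        · subst huv
          rw [if_pos hll, if_pos rfl, if_pos rfl, if_pos hll, map_one, one_mul]
        · rw [if_pos hll, if_neg huv, if_neg hne, if_neg huv, map_zero, zero_mul]
      · by_cases huv : u = v
        · rw [if_neg hll, if_pos huv, if_neg hll, map_zero, zero_mul]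
        · rw [if_neg hll, if_neg huv, map_zero, zero_mul]
    rw [Finset.sum_congr rfl h6, Finset.sum_ite_eq' D.VP v, if_pos hv]
    by_cases hll : m = l'
    · subst hll
      rw [if_pos rfl, if_pos rfl]
    · rw [if_neg hll, if_neg hll, mul_zero]
  rw [Finset.sum_congr rfl h3, Finset.sum_ite_eq (range (ee + 4)) m, if_pos (Finset.mem_range.mpr hm)]

/-- derivative of the linear forms -/
theorem dlin (D : Dat ee V R) (hC : Ctx D) {m : ℕ} {v : V}
    (δ : Derivation ℤ R R) (δa : ∀ l < ee + 4, ∀ u, δ (D.a l u) =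
      if m = l then (if u = v then 1 else if u = D.α v then -1 else 0) else 0)
    {l' : ℕ} (hl' : l' < ee + 4) :
    dmap δ (lin (D.a l')) = if m = l' then X v - X (D.α v) else 0 := by
  unfold lin
  rw [dmap_sum]
  have h6 : ∀ u ∈ Finset.univ, dmap δ (C (D.a l' u) * X u : MvPolynomial V R) =
      (if u = v then (if m = l' then X v else 0) else 0) -
      (if u = D.α v then (if m = l' then X (D.α v) else 0) else 0) := by
    intro u _
    rw [dmap_mul, dmap_C, dmap_X, mul_zero, add_zero, δa l' hl']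
    have hne : D.α v ≠ v := hC.cs.fpf v
    by_cases hll : m = l'
    · by_cases huv : u = v
      · subst huv
        rw [if_pos hll, if_pos rfl, if_pos rfl, if_pos hll, if_neg (Ne.symm hne), map_one,
          one_mul, sub_zero]
      · by_cases huv' : u = D.α v
        · subst huv'
          rw [if_pos hll, if_neg huv, if_pos rfl, if_neg huv, if_pos rfl, if_pos hll, map_neg,
            map_one]
          ring
        · rw [if_pos hll, if_neg huv, if_neg huv', if_neg huv, if_neg huv', map_zero, zero_mul,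
            sub_zero]
    · rw [if_neg hll, if_neg hll, if_neg hll, map_zero, zero_mul]
      simp
  rw [Finset.sum_congr rfl h6, Finset.sum_sub_distrib, Finset.sum_ite_eq', Finset.sum_ite_eq',
    if_pos (Finset.mem_univ _), if_pos (Finset.mem_univ _)]
  by_cases hll : m = l'
  · rw [if_pos hll, if_pos hll, if_pos hll]
  · rw [if_neg hll, if_neg hll, if_neg hll, sub_zero]

/-- relations from the derivations of the entries of the rows -/
theorem relz (D : Dat ee V R) (hC : Ctx D) (y : MvPolynomial V R) (hwy : D.w * y ∈ D.J)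
    (g : ℕ → MvPolynomial V R)
    (hg : D.w * y - ∑ l ∈ range (ee + 4), lin (D.a l) * g l ∈ srIdeal R D.Δ) {m : ℕ} (hm : m < ee + 4)
    (u : V) (hu : u ∈ D.VP) :
    (X u - X (D.α u)) * g m * y - C (D.μ m) * X u * y ^ 2 ∈ D.J := by
  have hΘJ : ∀ l < ee + 4, lin (D.a l) ∈ D.J := fun l hl => lin_mem_J hl
  have hsrJ : ∀ f ∈ srIdeal R D.Δ, f ∈ D.J := fun f hf => sr_le_J (ee + 4) hf
  obtain ⟨δ, δa, δμ, δc⟩ := hC.der m hm u hu
  have k1 := hsrJ _ (dmap_sr hC.hs.down δ hg)
  have k2 : dmap δ (D.w * y - ∑ l ∈ range (ee + 4), lin (D.a l) * g l) =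
      C (D.μ m) * X u * y + D.w * dmap δ y -
        ((X u - X (D.α u)) * g m + ∑ l ∈ range (ee + 4), lin (D.a l) * dmap δ (g l)) := by
    rw [dmap_sub, dmap_mul, dw D hC hm hu δ δa δμ δc, dmap_sum]
    congr 1
    have h6 : ∀ l' ∈ range (ee + 4), dmap δ (lin (D.a l') * g l') =
        (if m = l' then (X u - X (D.α u)) * g l' else 0) + lin (D.a l') * dmap δ (g l') := by
      intro l' hl'
      rw [dmap_mul, dlin D hC δ δa (Finset.mem_range.mp hl')]
      by_cases hll : m = l'
      · rw [if_pos hll, if_pos hll]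
      · rw [if_neg hll, if_neg hll, zero_mul]
    rw [Finset.sum_congr rfl h6, Finset.sum_add_distrib, Finset.sum_ite_eq (range (ee + 4)) m,
      if_pos (Finset.mem_range.mpr hm)]
  rw [k2] at k1
  have k3 := Ideal.mul_mem_left _ y k1
  have k4 : ∑ l ∈ range (ee + 4), lin (D.a l) * dmap δ (g l) ∈ D.J :=
    Ideal.sum_mem _ (fun l' hl' => Ideal.mul_mem_right _ _ (hΘJ l' (Finset.mem_range.mp hl')))
  have k5 := Ideal.mul_mem_left D.J (dmap δ y) hwy
  have k6 := Ideal.sub_mem _ k5 (Ideal.add_mem _ k3 (Ideal.mul_mem_left _ y k4))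
  have e : (X u - X (D.α u)) * g m * y - C (D.μ m) * X u * y ^ 2 =
      dmap δ y * (D.w * y) - (y * (C (D.μ m) * X u * y + D.w * dmap δ y -
        ((X u - X (D.α u)) * g m + ∑ l ∈ range (ee + 4), lin (D.a l) * dmap δ (g l))) +
        y * ∑ l ∈ range (ee + 4), lin (D.a l) * dmap δ (g l)) := by
    ring
  rw [e]
  exact k6

/-- relations from the Euler derivations -/
theorem relE (D : Dat ee V R) (hC : Ctx D) (y : MvPolynomial V R) (hwy : D.w * y ∈ D.J)
    (g : ℕ → MvPolynomial V R)
    (hg : D.w * y - ∑ l ∈ range (ee + 4), lin (D.a l) * g l ∈ srIdeal R D.Δ) (v : V) (hv : v ∈ D.VP) :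
    C (D.c v + ∑ l ∈ range (ee + 4), D.μ l * D.a l v) * X v * y ^ 2 -
      ∑ l ∈ range (ee + 4), C (D.a l v) * (X v * g l * y) ∈ D.J := by
  have hΘJ : ∀ l < ee + 4, lin (D.a l) ∈ D.J := fun l hl => lin_mem_J hl
  have hsrJ : ∀ f ∈ srIdeal R D.Δ, f ∈ D.J := fun f hf => sr_le_J (ee + 4) hf
  have k1 := hsrJ _ (E1_sr hC.hs.down v _ hg)
  have k2 : E1 v (D.w * y - ∑ l ∈ range (ee + 4), lin (D.a l) * g l) =
      D.w * E1 v y + y * (C (D.c v + ∑ l ∈ range (ee + 4), D.μ l * D.a l v) * X v) -
        (∑ l ∈ range (ee + 4), lin (D.a l) * E1 v (g l) + ∑ l ∈ range (ee + 4), C (D.a l v) * (X v * g l)) := by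
    rw [map_sub, Derivation.leibniz, E1_w D hC hv, map_sum, smul_eq_mul, smul_eq_mul]
    congr 1
    rw [← Finset.sum_add_distrib]
    apply Finset.sum_congr rfl
    intro l _
    rw [Derivation.leibniz, E1_lin, smul_eq_mul, smul_eq_mul]
    ring
  rw [k2] at k1
  have k4 : ∑ l ∈ range (ee + 4), lin (D.a l) * E1 v (g l) ∈ D.J :=
    Ideal.sum_mem _ (fun l' hl' => Ideal.mul_mem_right _ _ (hΘJ l' (Finset.mem_range.mp hl')))
  have k3 := Ideal.mul_mem_left _ y k1
  have k5 := Ideal.mul_mem_left D.J (E1 v y) hwy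
  have k6 := Ideal.sub_mem _ (Ideal.add_mem _ k3 (Ideal.mul_mem_left _ y k4)) k5
  have e0 : ∑ l ∈ range (ee + 4), C (D.a l v) * (X v * g l * y) =
      y * ∑ l ∈ range (ee + 4), C (D.a l v) * (X v * g l) := by
    rw [Finset.mul_sum]
    apply Finset.sum_congr rfl
    intro l _
    ring
  rw [e0]
  generalize (∑ l ∈ range (ee + 4), C (D.a l v) * (X v * g l)) = S at *
  generalize (∑ l ∈ range (ee + 4), lin (D.a l) * E1 v (g l)) = S' at *
  generalize (C (D.c v + ∑ l ∈ range (ee + 4), D.μ l * D.a l v) : MvPolynomial V R) = L at *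
  have e : L * X v * y ^ 2 - y * S =
      y * (D.w * E1 v y + y * (L * X v) - (S' + S)) + y * S' - E1 v y * (D.w * y) := by ring
  rw [e]
  exact k6

/-- relations from the involution -/
theorem relA (D : Dat ee V R) (hC : Ctx D) (ε : R) (y : MvPolynomial V R)
    (hαy : rename D.α y - ε • y ∈ D.J)
    (g : ℕ → MvPolynomial V R)
    (hg : D.w * y - ∑ l ∈ range (ee + 4), lin (D.a l) * g l ∈ srIdeal R D.Δ) (q : ℕ → MvPolynomial V R)
    (hq : rename D.α y - ε • y - ∑ l ∈ range (ee + 4), lin (D.a l) * q l ∈ srIdeal R D.Δ)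
    {m : ℕ} (hm : m < ee + 4) :
    rename D.α (g m) + C ε * g m - C ε * C (D.μ m) * y + D.w * q m ∈ D.J := by
  have hαw : rename D.α D.w = D.w + - ∑ l ∈ range (ee + 4), C (D.μ l) * lin (D.a l) :=
    rename_welA_eq hC.cs.invol hC.vp hC.anti D.μ D.c
  have k1 := rename_sr hC.cs hg
  have k2 : ∑ l ∈ range (ee + 4), rename D.α (lin (D.a l) * g l) =
      - ∑ l ∈ range (ee + 4), lin (D.a l) * rename D.α (g l) := by
    rw [← Finset.sum_neg_distrib]
    apply Finset.sum_congr rfl
    intro l _
    rw [map_mul, rename_lin_neg hC.cs.invol hC.anti]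
    ring
  rw [map_sub, map_mul, map_sum, hαw, k2] at k1
  have k3 := Ideal.sub_mem _ (Ideal.sub_mem _ k1 (Ideal.mul_mem_left _ (C ε) hg))
    (Ideal.mul_mem_left _ D.w hq)
  have k4 : ∑ l ∈ range (ee + 4), lin (D.a l) * ((rename D.α (g l) + C ε * g l -
      C ε * C (D.μ l) * y + D.w * q l) - C (D.μ l) * (rename D.α y - ε • y)) ∈
      srIdeal R D.Δ := by
    have e : ∑ l ∈ range (ee + 4), lin (D.a l) * ((rename D.α (g l) + C ε * g l -
        C ε * C (D.μ l) * y + D.w * q l) - C (D.μ l) * (rename D.α y - ε • y)) =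
        (D.w + - ∑ l ∈ range (ee + 4), C (D.μ l) * lin (D.a l)) * rename D.α y -
          - ∑ l ∈ range (ee + 4), lin (D.a l) * rename D.α (g l) -
        C ε * (D.w * y - ∑ l ∈ range (ee + 4), lin (D.a l) * g l) -
        D.w * (rename D.α y - ε • y - ∑ l ∈ range (ee + 4), lin (D.a l) * q l) := by
      have e1 : ∑ l ∈ range (ee + 4), lin (D.a l) * ((rename D.α (g l) + C ε * g l -
          C ε * C (D.μ l) * y + D.w * q l) - C (D.μ l) * (rename D.α y - ε • y)) =
          ∑ l ∈ range (ee + 4), lin (D.a l) * rename D.α (g l) +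
          C ε * ∑ l ∈ range (ee + 4), lin (D.a l) * g l -
          (∑ l ∈ range (ee + 4), C (D.μ l) * lin (D.a l)) * (C ε * y) +
          D.w * ∑ l ∈ range (ee + 4), lin (D.a l) * q l -
          (∑ l ∈ range (ee + 4), C (D.μ l) * lin (D.a l)) * (rename D.α y - ε • y) := by
        simp only [Finset.mul_sum, Finset.sum_mul]
        rw [← Finset.sum_add_distrib, ← Finset.sum_sub_distrib, ← Finset.sum_add_distrib,
          ← Finset.sum_sub_distrib]
        apply Finset.sum_congr rfl
        intro l _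
        ring
      rw [e1, smul_eq_C_mul]
      ring
    rw [e]
    exact k3
  have k5 := hC.syz _ k4 m hm
  have k6 := Ideal.add_mem _ k5 (Ideal.mul_mem_left D.J (C (D.μ m)) hαy)
  rwa [sub_add_cancel] at k6

/-- the Lefschetz element is homogeneous of degree one -/
theorem w_hom (D : Dat ee V R) : (D.w).IsHomogeneous 1 := by
  unfold Dat.w welA
  refine IsHomogeneous.add (IsHomogeneous.sum _ _ _ fun l _ => ?_)
    (IsHomogeneous.sum _ _ _ fun v _ => ?_)
  · have h1 : (∑ v ∈ D.VP, C (D.a l v) * X v : MvPolynomial V R).IsHomogeneous 1 := by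
      refine IsHomogeneous.sum _ _ _ fun v _ => ?_
      have h2 := (isHomogeneous_C V (D.a l v)).mul (isHomogeneous_X R v)
      rwa [zero_add] at h2
    have h3 := (isHomogeneous_C V (D.μ l)).mul h1
    rwa [zero_add] at h3
  · have h1 : (yy R D.α v).IsHomogeneous 1 := by
      unfold yy
      exact (isHomogeneous_X R v).add (isHomogeneous_X R (D.α v))
    have h3 := (isHomogeneous_C V (D.c v)).mul h1
    rwa [zero_add] at h3

/-- the sign -/
def sgn (n : ℕ) : R := (-1) ^ n

/-- parity -/
def par (n : ℕ) : R := if n % 2 = 1 then 1 else 0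

omit [IsDomain R] in
theorem par_succ (n : ℕ) : (par (n + 1) : R) = 1 - par n := by
  unfold par
  rcases Nat.mod_two_eq_zero_or_one n with h | h
  · rw [if_pos (by omega), if_neg (by omega), sub_zero]
  · rw [if_neg (by omega), if_pos h, sub_self]

/-- the two congruences for a polynomial `P` of degree `n` -/
def QQ (D : Dat ee V R) (y : MvPolynomial V R) (g : ℕ → MvPolynomial V R) (n : ℕ)
    (P : MvPolynomial V R) : Prop :=
  rename D.α P * y ^ 2 - C ((-1) ^ n) * P * y ^ 2 ∈ D.J ∧
  ∀ m < ee + 4, rename D.α P * g m * y - (P * g m * y - C (par n * D.μ m) * P * y ^ 2) ∈ D.J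

/-- exchange of one variable -/
theorem exch (D : Dat ee V R) (hC : Ctx D) (y : MvPolynomial V R) (hwy : D.w * y ∈ D.J)
    (g : ℕ → MvPolynomial V R)
    (hg : D.w * y - ∑ l ∈ range (ee + 4), lin (D.a l) * g l ∈ srIdeal R D.Δ) (v : V) :
    X (D.α v) * y ^ 2 + X v * y ^ 2 ∈ D.J ∧
    ∀ m < ee + 4, X (D.α v) * g m * y - (X v * g m * y - C (D.μ m) * X v * y ^ 2) ∈ D.J := by
  have h1 : X (D.α v) * y ^ 2 + X v * y ^ 2 ∈ D.J := by
    have h2 := yysq D hC y hwy v
    have e : X (D.α v) * y ^ 2 + X v * y ^ 2 = yy R D.α v * y ^ 2 := by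
      unfold yy
      ring
    rw [e]
    exact h2
  refine ⟨h1, fun m hm => ?_⟩
  by_cases hv : v ∈ D.VP
  · have h2 := relz D hC y hwy g hg hm v hv
    have e : X (D.α v) * g m * y - (X v * g m * y - C (D.μ m) * X v * y ^ 2) =
        - ((X v - X (D.α v)) * g m * y - C (D.μ m) * X v * y ^ 2) := by ring
    rw [e]
    exact D.J.neg_mem h2
  · have hv' : D.α v ∈ D.VP := by
      by_contra h'
      exact hv ((hC.vp v).mpr h')
    have h2 := relz D hC y hwy g hg hm (D.α v) hv'
    rw [hC.cs.invol] at h2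
    have e : X (D.α v) * g m * y - (X v * g m * y - C (D.μ m) * X v * y ^ 2) =
        ((X (D.α v) - X v) * g m * y - C (D.μ m) * X (D.α v) * y ^ 2) +
          C (D.μ m) * (X (D.α v) * y ^ 2 + X v * y ^ 2) := by ring
    rw [e]
    exact D.J.add_mem h2 (D.J.mul_mem_left _ h1)

theorem QQ_step (D : Dat ee V R) (hC : Ctx D) (y : MvPolynomial V R) (hwy : D.w * y ∈ D.J)
    (g : ℕ → MvPolynomial V R)
    (hg : D.w * y - ∑ l ∈ range (ee + 4), lin (D.a l) * g l ∈ srIdeal R D.Δ) (n : ℕ)
    (P : MvPolynomial V R) (hP : QQ D y g n P) (v : V) : QQ D y g (n + 1) (X v * P) := by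
  obtain ⟨e1, e2⟩ := exch D hC y hwy g hg v
  obtain ⟨h1, h2⟩ := hP
  have hr : rename D.α (X v * P) = X (D.α v) * rename D.α P := by
    rw [map_mul, rename_X]
  refine ⟨?_, fun m hm => ?_⟩
  · rw [hr]
    have e : X (D.α v) * rename D.α P * y ^ 2 - C ((-1) ^ (n + 1)) * (X v * P) * y ^ 2 =
        rename D.α P * (X (D.α v) * y ^ 2 + X v * y ^ 2) -
          X v * (rename D.α P * y ^ 2 - C ((-1) ^ n) * P * y ^ 2) := by
      have hpow : ((-1 : R)) ^ (n + 1) = - (-1) ^ n := by rw [pow_succ, mul_neg_one]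
      rw [hpow, C_neg]
      ring
    rw [e]
    exact D.J.sub_mem (D.J.mul_mem_left _ e1) (D.J.mul_mem_left _ h1)
  · rw [hr]
    have e : X (D.α v) * rename D.α P * g m * y -
        (X v * P * g m * y - C (par (n + 1) * D.μ m) * (X v * P) * y ^ 2) =
        X (D.α v) * (rename D.α P * g m * y - (P * g m * y - C (par n * D.μ m) * P * y ^ 2)) +
          P * (X (D.α v) * g m * y - (X v * g m * y - C (D.μ m) * X v * y ^ 2)) -
          C (par n * D.μ m) * P * (X (D.α v) * y ^ 2 + X v * y ^ 2) := by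
      rw [par_succ, sub_mul, one_mul, C_sub]
      ring
    rw [e]
    exact D.J.sub_mem (D.J.add_mem (D.J.mul_mem_left _ (h2 m hm)) (D.J.mul_mem_left _ (e2 m hm)))
      (D.J.mul_mem_left _ e1)

omit [Fintype V] [IsDomain R] in
theorem mono_step (s : V →₀ ℕ) (n : ℕ) (hs : s.degree = n + 1) :
    ∃ (v : V) (t : V →₀ ℕ), t.degree = n ∧
      (monomial s (1 : R)) = X v * monomial t (1 : R) := by
  have h0 : s ≠ 0 := by
    rintro rfl
    rw [map_zero] at hs
    omega
  obtain ⟨v, hv⟩ := Finsupp.ne_iff.1 h0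
  have hv1 : Finsupp.single v 1 ≤ s := by
    rw [Finsupp.single_le_iff]
    have : s v ≠ 0 := hv
    omega
  obtain ⟨t, rfl⟩ := exists_add_of_le hv1
  refine ⟨v, t, ?_, ?_⟩
  · rw [map_add, Finsupp.degree_single] at hs
    omega
  · rw [X, monomial_mul, one_mul]

theorem QQ_mono (D : Dat ee V R) (hC : Ctx D) (y : MvPolynomial V R) (hwy : D.w * y ∈ D.J)
    (g : ℕ → MvPolynomial V R)
    (hg : D.w * y - ∑ l ∈ range (ee + 4), lin (D.a l) * g l ∈ srIdeal R D.Δ) (n : ℕ) :
    ∀ s : V →₀ ℕ, s.degree = n → QQ D y g n (monomial s 1) := by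
  induction n with
  | zero =>
    intro s hs
    have h0 : s = 0 := (Finsupp.degree_eq_zero_iff s).1 hs
    subst h0
    have e1 : (monomial (0 : V →₀ ℕ) (1 : R)) = 1 := rfl
    rw [e1]
    refine ⟨?_, fun m _ => ?_⟩
    · rw [map_one, pow_zero, C_1]
      have e : (1 : MvPolynomial V R) * y ^ 2 - 1 * 1 * y ^ 2 = 0 := by ring
      rw [e]
      exact D.J.zero_mem
    · have hp : (par 0 : R) = 0 := by
        unfold par
        rw [if_neg (by omega)]
      rw [map_one, hp, zero_mul, C_0]
      have e : (1 : MvPolynomial V R) * g m * y - (1 * g m * y - 0 * 1 * y ^ 2) = 0 := by ring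
      rw [e]
      exact D.J.zero_mem
  | succ n ih =>
    intro s hs
    obtain ⟨v, t, ht, he⟩ := mono_step (R := R) s n hs
    rw [he]
    exact QQ_step D hC y hwy g hg n _ (ih t ht) v

end IExA

open IExA in
theorem pr_ExA {ee : ℕ} {V : Type} [Fintype V] [DecidableEq V] {R : Type} [CommRing R]
    [IsDomain R] (D : Dat ee V R) (hC : Ctx D) (h1 : StTx D) : StExA D := by
  intro ε y hε hy hwy hαy
  obtain ⟨g, hg⟩ := (mem_J_iff (ee + 4) _).mp hwy
  obtain ⟨q, hq⟩ := (mem_J_iff (ee + 4) _).mp hαy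
  have h20 : (2 : R) ≠ 0 := hC.two.ne_zero
  -- `(αy)^2 = y^2`
  have hsq : ∀ P : MvPolynomial V R, P * rename D.α y ^ 2 - P * y ^ 2 ∈ D.J := by
    intro P
    have e2 : (1 - C ε * C ε : MvPolynomial V R) = 0 := by
      rw [← map_mul, hε, map_one, sub_self]
    have e : P * rename D.α y ^ 2 - P * y ^ 2 =
        P * (rename D.α y + C ε * y) * (rename D.α y - ε • y) - (1 - C ε * C ε) * (P * y ^ 2) := by
      rw [smul_eq_C_mul]
      ring
    rw [e, e2, zero_mul, sub_zero]
    exact D.J.mul_mem_left _ hαy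
  have dgJ' : ∀ F G : MvPolynomial V R, F - G ∈ D.J → D.dg F = D.dg G := by
    intro F G h
    have h2 := hC.dgJ _ h
    rw [map_sub] at h2
    exact sub_eq_zero.1 h2
  -- value of `deg (αP y^2)`
  have fa : ∀ s : V →₀ ℕ, s.degree = ee →
      D.dg (monomial s 1 * y ^ 2) = (-1) ^ ee * D.dg (monomial s 1 * y ^ 2) := by
    intro s hs
    obtain ⟨q1, -⟩ := QQ_mono D hC y hwy g hg ee s hs
    have k1 := dgJ' _ _ q1
    have k2 := dgJ' _ _ (hsq (rename D.α (monomial s 1)))
    have k3 := hC.dga (monomial s 1 * y ^ 2)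
    rw [map_mul (rename D.α), map_pow (rename D.α)] at k3
    rw [mul_assoc, ← smul_eq_C_mul, map_smul, smul_eq_mul] at k1
    rw [← k1, ← k2, k3]
  -- value of `deg (αP g y)`
  have fh : ∀ s : V →₀ ℕ, s.degree = ee → ∀ m < ee + 4,
      D.dg (monomial s 1 * g m * y) = - (D.dg (monomial s 1 * g m * y) -
        par ee * D.μ m * D.dg (monomial s 1 * y ^ 2)) +
        D.μ m * D.dg (monomial s 1 * y ^ 2) := by
    intro s hs m hm
    obtain ⟨q1, q2⟩ := QQ_mono D hC y hwy g hg ee s hs
    obtain ⟨P', hP'⟩ : ∃ P', P' = rename D.α (monomial s (1 : R)) := ⟨_, rfl⟩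
    have hinv := relA D hC ε y hαy g hg q hq hm
    have k1 : P' * rename D.α (g m) * rename D.α y - (- (P' * g m * y) +
        C (D.μ m) * (P' * y ^ 2)) ∈ D.J := by
      have e2 : (1 - C ε * C ε : MvPolynomial V R) = 0 := by
        rw [← map_mul, hε, map_one, sub_self]
      have e1 : P' * rename D.α (g m) * rename D.α y - (- (P' * g m * y) +
          C (D.μ m) * (P' * y ^ 2)) =
          P' * C ε * y * (rename D.α (g m) + C ε * g m - C ε * C (D.μ m) * y +
            D.w * q m) + P' * rename D.α (g m) * (rename D.α y - ε • y) -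
          P' * C ε * q m * (D.w * y) +
          (1 - C ε * C ε) * (P' * g m * y - C (D.μ m) * (P' * y ^ 2)) := by
        rw [smul_eq_C_mul]
        ring
      rw [e1, e2, zero_mul, add_zero]
      exact Ideal.sub_mem _ (Ideal.add_mem _ (Ideal.mul_mem_left _ _ hinv)
        (Ideal.mul_mem_left _ _ hαy)) (Ideal.mul_mem_left _ _ hwy)
    have k2 := dgJ' _ _ k1
    have k3 := hC.dga (monomial s 1 * g m * y)
    rw [map_mul (rename D.α), map_mul (rename D.α), ← hP'] at k3
    have k4 := dgJ' _ _ (q2 m hm)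
    rw [← hP', map_sub, mul_assoc (C (par ee * D.μ m)), ← smul_eq_C_mul, map_smul,
      smul_eq_mul] at k4
    have k5 := dgJ' _ _ q1
    have k6 := fa s hs
    rw [← hP', mul_assoc, ← smul_eq_C_mul, map_smul, smul_eq_mul, ← k6] at k5
    have k7 := k3.symm.trans k2
    rw [map_add, map_neg, ← smul_eq_C_mul, map_smul, smul_eq_mul, k4, k5] at k7
    exact k7
  -- both values are zero
  have key : ∀ s : V →₀ ℕ, s.degree = ee → D.dg (monomial s 1 * y ^ 2) = 0 ∧
      ∀ m < ee + 4, D.dg (monomial s 1 * g m * y) = 0 := by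
    have half : ∀ s : V →₀ ℕ, s.degree = ee → D.dg (monomial s 1 * y ^ 2) = 0 →
        ∀ m < ee + 4, D.dg (monomial s 1 * g m * y) = 0 := by
      intro s hs h0 m hm
      have k1 := fh s hs m hm
      rw [h0, mul_zero, mul_zero, sub_zero, add_zero] at k1
      have k2 : 2 * D.dg (monomial s 1 * g m * y) = 0 := by linear_combination k1
      exact (mul_eq_zero.mp k2).resolve_left h20
    rcases Nat.even_or_odd ee with hee | hee
    · -- even
      have hp : (par ee : R) = 0 := by
        unfold par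
        rw [if_neg]
        have := Nat.even_iff.1 hee
        omega
      have hh : ∀ s : V →₀ ℕ, s.degree = ee → ∀ m < ee + 4,
          2 * D.dg (monomial s 1 * g m * y) = D.μ m * D.dg (monomial s 1 * y ^ 2) := by
        intro s hs m hm
        have k1 := fh s hs m hm
        rw [hp, zero_mul, zero_mul, sub_zero] at k1
        linear_combination k1
      obtain ⟨n, hn⟩ : ∃ n, ee = n + 1 := ⟨ee - 1, by have := hC.he; omega⟩
      have hVP : ∀ (v : V) (t : V →₀ ℕ), v ∈ D.VP → t.degree = n →
          D.dg (X v * monomial t (1 : R) * y ^ 2) = 0 := by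
        intro v t hv ht
        have hm1 : (X v * monomial t (1 : R)) = monomial (Finsupp.single v 1 + t) (1 : R) := by
          rw [X, monomial_mul, one_mul]
        have hdeg : (Finsupp.single v 1 + t).degree = ee := by
          rw [map_add, Finsupp.degree_single, ht]
          omega
        have hh' := hh _ hdeg
        rw [← hm1] at hh'
        obtain ⟨P, hP⟩ : ∃ P, P = monomial t (1 : R) := ⟨_, rfl⟩
        rw [← hP] at hh' ⊢
        have k1 := hC.dgJ _ (Ideal.mul_mem_left D.J P (relE D hC y hwy g hg v hv))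
        have e : P * (C (D.c v + ∑ l ∈ range (ee + 4), D.μ l * D.a l v) * X v * y ^ 2 -
            ∑ l ∈ range (ee + 4), C (D.a l v) * (X v * g l * y)) =
            (D.c v + ∑ l ∈ range (ee + 4), D.μ l * D.a l v) • (X v * P * y ^ 2) -
            ∑ l ∈ range (ee + 4), D.a l v • (X v * P * g l * y) := by
          rw [mul_sub, smul_eq_C_mul, Finset.mul_sum]
          congr 1
          · ring
          · apply Finset.sum_congr rfl
            intro l _
            rw [smul_eq_C_mul]
            ring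
        rw [e, map_sub, map_smul, smul_eq_mul, map_sum] at k1
        have k2 : ∑ l ∈ range (ee + 4), D.dg (D.a l v • (X v * P * g l * y)) * 2 =
            (∑ l ∈ range (ee + 4), D.μ l * D.a l v) * D.dg (X v * P * y ^ 2) := by
          rw [Finset.sum_mul]
          apply Finset.sum_congr rfl
          intro l hl
          rw [map_smul, smul_eq_mul]
          have := hh' l (Finset.mem_range.mp hl)
          linear_combination (D.a l v) * this
        rw [← Finset.sum_mul] at k2
        have k3 : D.wt v * D.dg (X v * P * y ^ 2) = 0 := by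
          unfold Dat.wt
          linear_combination 2 * k1 + k2
        rcases mul_eq_zero.mp k3 with h | h
        · exfalso
          apply hC.wt_odd v hv
          unfold Dat.wt at h
          exact ⟨- D.c v, by linear_combination h⟩
        · exact h
      have hall : ∀ s : V →₀ ℕ, s.degree = ee → D.dg (monomial s 1 * y ^ 2) = 0 := by
        intro s hs
        obtain ⟨v, t, ht, he⟩ := mono_step (R := R) s n (hs.trans hn)
        rw [he]
        by_cases hv : v ∈ D.VP
        · exact hVP v t hv ht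
        · have hv' : D.α v ∈ D.VP := by
            by_contra h'
            exact hv ((hC.vp v).mpr h')
          have k1 := hVP (D.α v) t hv' ht
          have k2 := hC.dgJ _ (Ideal.mul_mem_left D.J (monomial t (1 : R))
            (exch D hC y hwy g hg v).1)
          have e : monomial t (1 : R) * (X (D.α v) * y ^ 2 + X v * y ^ 2) =
              X (D.α v) * monomial t (1 : R) * y ^ 2 + X v * monomial t (1 : R) * y ^ 2 := by
            ring
          rw [e, map_add, k1, zero_add] at k2
          exact k2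
      exact fun s hs => ⟨hall s hs, half s hs (hall s hs)⟩
    · -- odd
      intro s hs
      have k1 := fa s hs
      rw [hee.neg_one_pow] at k1
      have k2 : 2 * D.dg (monomial s 1 * y ^ 2) = 0 := by linear_combination k1
      have k3 := (mul_eq_zero.mp k2).resolve_left h20
      exact ⟨k3, half s hs k3⟩
  refine ⟨?_, ?_⟩
  · refine hC.nd 4 ee (by omega) _ ?_ ?_
    · have h2 := hy.pow 2
      exact h2
    · intro P hP
      have e : y ^ 2 * P = ∑ s ∈ P.support, coeff s P • (monomial s (1 : R) * y ^ 2) := by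
        conv_lhs => rw [P.as_sum, Finset.mul_sum]
        apply Finset.sum_congr rfl
        intro s _
        rw [← smul_mul_assoc, smul_monomial, smul_eq_mul, mul_one, mul_comm]
      rw [e, map_sum]
      apply Finset.sum_eq_zero
      intro s hs
      have hdeg : s.degree = ee := by
        rw [Finsupp.degree_apply]
        exact (hP.degree_eq_sum_deg_support hs).symm
      rw [map_smul, (key s hdeg).1, smul_zero]
  · intro M m hm
    have e : M * D.w * y ^ 2 = ∑ s ∈ M.support, coeff s M • (monomial s (1 : R) * D.w * y ^ 2) := by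
      conv_lhs => rw [M.as_sum, Finset.sum_mul, Finset.sum_mul]
      apply Finset.sum_congr rfl
      intro s _
      rw [← smul_mul_assoc, ← smul_mul_assoc, smul_monomial, smul_eq_mul, mul_one]
    rw [e, map_sum]
    apply Finset.sum_eq_zero
    intro s _
    rw [map_smul]
    by_cases hs : s.degree = ee
    · have hfin := h1.1 (D.w * y) g hg m hm (monomial s 1 * y)
      have e1 : monomial s (1 : R) * D.w * y ^ 2 = D.w * y * (monomial s 1 * y) := by ring
      have e2 : g m * (monomial s (1 : R) * y) = monomial s 1 * g m * y := by ring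
      rw [e1, hfin, e2, (key s hs).2 m hm, smul_zero]
    · have h2 : (monomial s (1 : R) * D.w * y ^ 2).IsHomogeneous (s.degree + 1 + 2 * 2) :=
        ((isHomogeneous_monomial 1 rfl).mul (w_hom D)).mul (hy.pow 2)
      rw [hC.Th m _ (by omega) _ h2, smul_zero]

end CSLef.DG
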