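import Mathlib
import Pool.Agent.Work.MP_38c61c_al.DG.StmtsV
import Pool.Agent.Work.MP_38c61c_al.DG.I_ExA

/-!
Block DG, powers: exactness of first and second order for the kernel of a power of the Lefschetz
element. The proof is that of `I_ExA.lean` and `I_ExV.lean`, with `(k + 1) w^k y^2` in the place of
`y^2`.
-/

namespace CSLef.DG

open MvPolynomial Finset

namespace IExK

open IExA

variable {ee : ℕ} {V : Type} [Fintype V] [DecidableEq V] {R : Type} [CommRing R] [IsDomain R]

/-- `(k + 1) w^k y` -/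
noncomputable def Qy (D : Dat ee V R) (k : ℕ) (y : MvPolynomial V R) : MvPolynomial V R :=
  ((k + 1 : ℕ) : MvPolynomial V R) * D.w ^ k * y

theorem yysq (D : Dat ee V R) (hC : Ctx D) (k : ℕ) (y : MvPolynomial V R)
    (hw : D.w ^ (k + 1) * y ∈ D.J) (v : V) : yy R D.α v * (Qy D k y * y) ∈ D.J := by
  have key : ∀ u ∈ D.VP, yy R D.α u * (Qy D k y * y) ∈ D.J := by
    intro u hu
    obtain ⟨δ, δa, δμ, δc⟩ := hC.derc u hu
    have h1 : dmap δ (D.w ^ (k + 1) * y) ∈ D.J := dmap_J hC.hs.down δ δa hw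
    have h0 : dmap δ D.w = yy R D.α u := dmap_welA ee D.α D.VP D.a D.μ D.c δ u hu δa δμ δc
    rw [dmap_mul, dmap_pow, h0] at h1
    have h2 := Ideal.mul_mem_left D.J y h1
    have h4 := Ideal.sub_mem D.J h2 (Ideal.mul_mem_right (dmap δ y) D.J hw)
    have h5 : y * (((k + 1 : ℕ) : MvPolynomial V R) * (D.w ^ k * yy R D.α u) * y +
        D.w ^ (k + 1) * dmap δ y) - D.w ^ (k + 1) * y * dmap δ y
        = yy R D.α u * (Qy D k y * y) := by
      unfold Qy
      ring
    rwa [h5] at h4
  by_cases hv : v ∈ D.VP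
  · exact key v hv
  · have h1 : D.α v ∈ D.VP := by
      by_contra h'
      exact hv ((hC.vp v).mpr h')
    have h2 := key _ h1
    have h3 : yy R D.α (D.α v) = yy R D.α v := by
      unfold yy
      rw [hC.cs.invol]
      ring
    rwa [h3] at h2

theorem relz (D : Dat ee V R) (hC : Ctx D) (k : ℕ) (y : MvPolynomial V R)
    (hwy : D.w ^ (k + 1) * y ∈ D.J) (g : ℕ → MvPolynomial V R)
    (hg : D.w ^ (k + 1) * y - ∑ l ∈ range (ee + 4), lin (D.a l) * g l ∈ srIdeal R D.Δ)
    {m : ℕ} (hm : m < ee + 4) (u : V) (hu : u ∈ D.VP) :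
    (X u - X (D.α u)) * g m * y - C (D.μ m) * X u * (Qy D k y * y) ∈ D.J := by
  have hΘJ : ∀ l < ee + 4, lin (D.a l) ∈ D.J := fun l hl => lin_mem_J hl
  have hsrJ : ∀ f ∈ srIdeal R D.Δ, f ∈ D.J := fun f hf => sr_le_J (ee + 4) hf
  obtain ⟨δ, δa, δμ, δc⟩ := hC.der m hm u hu
  have k1 := hsrJ _ (dmap_sr hC.hs.down δ hg)
  have k2 : dmap δ (D.w ^ (k + 1) * y - ∑ l ∈ range (ee + 4), lin (D.a l) * g l) =
      C (D.μ m) * X u * Qy D k y + D.w ^ (k + 1) * dmap δ y -
        ((X u - X (D.α u)) * g m + ∑ l ∈ range (ee + 4), lin (D.a l) * dmap δ (g l)) := by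
    rw [dmap_sub, dmap_mul, dmap_pow, dw D hC hm hu δ δa δμ δc, dmap_sum]
    congr 1
    · unfold Qy
      ring
    have h6 : ∀ l' ∈ range (ee + 4), dmap δ (lin (D.a l') * g l') =
        (if m = l' then (X u - X (D.α u)) * g l' else 0) + lin (D.a l') * dmap δ (g l') := by
      intro l' hl'
      rw [dmap_mul, dlin D hC δ δa (Finset.mem_range.mp hl')]
      by_cases hll : m = l'
      · rw [if_pos hll, if_pos hll]
      · rw [if_neg hll, if_neg hll, zero_mul]
    rw [Finset.sum_congr rfl h6, Finset.sum_add_distrib, Finset.sum_ite_eq (range (ee + 4)) m,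
      if_pos (Finset.mem_range.mpr hm)]
  rw [k2] at k1
  have k3 := Ideal.mul_mem_left _ y k1
  have k4 : ∑ l ∈ range (ee + 4), lin (D.a l) * dmap δ (g l) ∈ D.J :=
    Ideal.sum_mem _ (fun l' hl' => Ideal.mul_mem_right _ _ (hΘJ l' (Finset.mem_range.mp hl')))
  have k5 := Ideal.mul_mem_left D.J (dmap δ y) hwy
  have k6 := Ideal.sub_mem _ k5 (Ideal.add_mem _ k3 (Ideal.mul_mem_left _ y k4))
  have e : (X u - X (D.α u)) * g m * y - C (D.μ m) * X u * (Qy D k y * y) =
      dmap δ y * (D.w ^ (k + 1) * y) - (y * (C (D.μ m) * X u * Qy D k y +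
        D.w ^ (k + 1) * dmap δ y -
        ((X u - X (D.α u)) * g m + ∑ l ∈ range (ee + 4), lin (D.a l) * dmap δ (g l))) +
        y * ∑ l ∈ range (ee + 4), lin (D.a l) * dmap δ (g l)) := by
    ring
  rw [e]
  exact k6

theorem relE (D : Dat ee V R) (hC : Ctx D) (k : ℕ) (y : MvPolynomial V R)
    (hwy : D.w ^ (k + 1) * y ∈ D.J) (g : ℕ → MvPolynomial V R)
    (hg : D.w ^ (k + 1) * y - ∑ l ∈ range (ee + 4), lin (D.a l) * g l ∈ srIdeal R D.Δ)
    (v : V) (hv : v ∈ D.VP) :
    C (D.c v + ∑ l ∈ range (ee + 4), D.μ l * D.a l v) * X v * (Qy D k y * y) -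
      ∑ l ∈ range (ee + 4), C (D.a l v) * (X v * g l * y) ∈ D.J := by
  have hΘJ : ∀ l < ee + 4, lin (D.a l) ∈ D.J := fun l hl => lin_mem_J hl
  have hsrJ : ∀ f ∈ srIdeal R D.Δ, f ∈ D.J := fun f hf => sr_le_J (ee + 4) hf
  have k1 := hsrJ _ (E1_sr hC.hs.down v _ hg)
  have k2 : E1 v (D.w ^ (k + 1) * y - ∑ l ∈ range (ee + 4), lin (D.a l) * g l) =
      D.w ^ (k + 1) * E1 v y +
        Qy D k y * (C (D.c v + ∑ l ∈ range (ee + 4), D.μ l * D.a l v) * X v) -
        (∑ l ∈ range (ee + 4), lin (D.a l) * E1 v (g l) +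
          ∑ l ∈ range (ee + 4), C (D.a l v) * (X v * g l)) := by
    rw [map_sub, Derivation.leibniz, Derivation.leibniz_pow, E1_w D hC hv, map_sum, smul_eq_mul,
      smul_eq_mul]
    congr 1
    · unfold Qy
      rw [nsmul_eq_mul, Nat.add_sub_cancel, smul_eq_mul]
      ring
    rw [← Finset.sum_add_distrib]
    apply Finset.sum_congr rfl
    intro l _
    rw [Derivation.leibniz, E1_lin, smul_eq_mul, smul_eq_mul]
    ring
  rw [k2] at k1
  have k4 : ∑ l ∈ range (ee + 4), lin (D.a l) * E1 v (g l) ∈ D.J :=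
    Ideal.sum_mem _ (fun l' hl' => Ideal.mul_mem_right _ _ (hΘJ l' (Finset.mem_range.mp hl')))
  have k3 := Ideal.mul_mem_left _ y k1
  have k5 := Ideal.mul_mem_left D.J (E1 v y) hwy
  have k6 := Ideal.sub_mem _ (Ideal.add_mem _ k3 (Ideal.mul_mem_left _ y k4)) k5
  have e0 : ∑ l ∈ range (ee + 4), C (D.a l v) * (X v * g l * y) =
      y * ∑ l ∈ range (ee + 4), C (D.a l v) * (X v * g l) := by
    rw [Finset.mul_sum]
    apply Finset.sum_congr rfl
    intro l _
    ring
  rw [e0]
  generalize (∑ l ∈ range (ee + 4), C (D.a l v) * (X v * g l)) = S at *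
  generalize (∑ l ∈ range (ee + 4), lin (D.a l) * E1 v (g l)) = S' at *
  generalize (C (D.c v + ∑ l ∈ range (ee + 4), D.μ l * D.a l v) : MvPolynomial V R) = L at *
  have e : L * X v * (Qy D k y * y) - y * S =
      y * (D.w ^ (k + 1) * E1 v y + Qy D k y * (L * X v) - (S' + S)) + y * S' -
        E1 v y * (D.w ^ (k + 1) * y) := by ring
  rw [e]
  exact k6

theorem relA (D : Dat ee V R) (hC : Ctx D) (k : ℕ) (ε : R) (y : MvPolynomial V R)
    (hαy : rename D.α y - ε • y ∈ D.J) (g : ℕ → MvPolynomial V R)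
    (hg : D.w ^ (k + 1) * y - ∑ l ∈ range (ee + 4), lin (D.a l) * g l ∈ srIdeal R D.Δ)
    (q : ℕ → MvPolynomial V R)
    (hq : rename D.α y - ε • y - ∑ l ∈ range (ee + 4), lin (D.a l) * q l ∈ srIdeal R D.Δ)
    {m : ℕ} (hm : m < ee + 4) :
    rename D.α (g m) + C ε * g m - C ε * C (D.μ m) * Qy D k y + D.w ^ (k + 1) * q m ∈ D.J := by
  have hαw : rename D.α D.w = D.w + - ∑ l ∈ range (ee + 4), C (D.μ l) * lin (D.a l) :=
    rename_welA_eq hC.cs.invol hC.vp hC.anti D.μ D.c
  obtain ⟨ϑ, hϑ⟩ : ∃ ϑ, ϑ = ∑ l ∈ range (ee + 4), C (D.μ l) * lin (D.a l) := ⟨_, rfl⟩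
  have hϑJ : ϑ ∈ D.J := by
    rw [hϑ]
    exact Ideal.sum_mem _ (fun l hl => Ideal.mul_mem_left _ _ (lin_mem_J (Finset.mem_range.mp hl)))
  obtain ⟨S, hS⟩ : ∃ S, (D.w + - ϑ) ^ (k + 1) = D.w ^ (k + 1) +
      ((k + 1 : ℕ) : MvPolynomial V R) * D.w ^ k * (- ϑ) + S * (- ϑ) ^ 2 := by
    obtain ⟨S, hS⟩ := Polynomial.powAddExpansion D.w (- ϑ) (k + 1)
    exact ⟨S, by rw [hS, Nat.add_sub_cancel]⟩
  have k1 := rename_sr hC.cs hg
  have k2 : ∑ l ∈ range (ee + 4), rename D.α (lin (D.a l) * g l) =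
      - ∑ l ∈ range (ee + 4), lin (D.a l) * rename D.α (g l) := by
    rw [← Finset.sum_neg_distrib]
    apply Finset.sum_congr rfl
    intro l _
    rw [map_mul, rename_lin_neg hC.cs.invol hC.anti]
    ring
  rw [map_sub, map_mul, map_pow, map_sum, hαw, ← hϑ, k2, hS] at k1
  have k3 := Ideal.sub_mem _ (Ideal.sub_mem _ k1 (Ideal.mul_mem_left _ (C ε) hg))
    (Ideal.mul_mem_left _ (D.w ^ (k + 1)) hq)
  have k4 : ∑ l ∈ range (ee + 4), lin (D.a l) * ((rename D.α (g l) + C ε * g l -
      C ε * C (D.μ l) * Qy D k y + D.w ^ (k + 1) * q l) -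
      C (D.μ l) * (((k + 1 : ℕ) : MvPolynomial V R) * D.w ^ k * (rename D.α y - ε • y)) +
      C (D.μ l) * (S * ϑ * rename D.α y)) ∈
      srIdeal R D.Δ := by
    have e : ∑ l ∈ range (ee + 4), lin (D.a l) * ((rename D.α (g l) + C ε * g l -
      C ε * C (D.μ l) * Qy D k y + D.w ^ (k + 1) * q l) -
      C (D.μ l) * (((k + 1 : ℕ) : MvPolynomial V R) * D.w ^ k * (rename D.α y - ε • y)) +
      C (D.μ l) * (S * ϑ * rename D.α y)) =
        (D.w ^ (k + 1) + ((k + 1 : ℕ) : MvPolynomial V R) * D.w ^ k * (- ϑ) + S * (- ϑ) ^ 2) *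
          rename D.α y -
          - ∑ l ∈ range (ee + 4), lin (D.a l) * rename D.α (g l) -
        C ε * (D.w ^ (k + 1) * y - ∑ l ∈ range (ee + 4), lin (D.a l) * g l) -
        D.w ^ (k + 1) * (rename D.α y - ε • y - ∑ l ∈ range (ee + 4), lin (D.a l) * q l) := by
      have e1 : ∑ l ∈ range (ee + 4), lin (D.a l) * ((rename D.α (g l) + C ε * g l -
          C ε * C (D.μ l) * Qy D k y + D.w ^ (k + 1) * q l) -
          C (D.μ l) * (((k + 1 : ℕ) : MvPolynomial V R) * D.w ^ k * (rename D.α y - ε • y)) +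
          C (D.μ l) * (S * ϑ * rename D.α y)) =
          ∑ l ∈ range (ee + 4), lin (D.a l) * rename D.α (g l) +
          C ε * ∑ l ∈ range (ee + 4), lin (D.a l) * g l -
          (∑ l ∈ range (ee + 4), C (D.μ l) * lin (D.a l)) * (C ε * Qy D k y) +
          D.w ^ (k + 1) * ∑ l ∈ range (ee + 4), lin (D.a l) * q l -
          (∑ l ∈ range (ee + 4), C (D.μ l) * lin (D.a l)) *
            (((k + 1 : ℕ) : MvPolynomial V R) * D.w ^ k * (rename D.α y - ε • y)) +
          (∑ l ∈ range (ee + 4), C (D.μ l) * lin (D.a l)) * (S * ϑ * rename D.α y) := by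
        simp only [Finset.mul_sum, Finset.sum_mul]
        rw [← Finset.sum_add_distrib, ← Finset.sum_sub_distrib, ← Finset.sum_add_distrib,
          ← Finset.sum_sub_distrib, ← Finset.sum_add_distrib]
        apply Finset.sum_congr rfl
        intro l _
        ring
      rw [e1, ← hϑ, smul_eq_C_mul]
      unfold Qy
      ring
    rw [e]
    exact k3
  have k5 := hC.syz _ k4 m hm
  have k6 := Ideal.add_mem _ k5 (Ideal.mul_mem_left D.J
    (C (D.μ m) * (((k + 1 : ℕ) : MvPolynomial V R) * D.w ^ k)) hαy)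
  have k7 := Ideal.sub_mem _ k6 (Ideal.mul_mem_left D.J (C (D.μ m) * (S * rename D.α y)) hϑJ)
  have e2 : (rename D.α (g m) + C ε * g m - C ε * C (D.μ m) * Qy D k y + D.w ^ (k + 1) * q m) =
      ((rename D.α (g m) + C ε * g m -
      C ε * C (D.μ m) * Qy D k y + D.w ^ (k + 1) * q m) -
      C (D.μ m) * (((k + 1 : ℕ) : MvPolynomial V R) * D.w ^ k * (rename D.α y - ε • y)) +
      C (D.μ m) * (S * ϑ * rename D.α y)) +
      (C (D.μ m) * (((k + 1 : ℕ) : MvPolynomial V R) * D.w ^ k)) * (rename D.α y - ε • y) -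
      (C (D.μ m) * (S * rename D.α y)) * ϑ := by
    ring
  rw [e2]
  exact k7

/-- the two congruences for a polynomial `P` of degree `n` -/
def QQ (D : Dat ee V R) (k : ℕ) (y : MvPolynomial V R) (g : ℕ → MvPolynomial V R) (n : ℕ)
    (P : MvPolynomial V R) : Prop :=
  rename D.α P * (Qy D k y * y) - C ((-1) ^ n) * P * (Qy D k y * y) ∈ D.J ∧
  ∀ m < ee + 4, rename D.α P * g m * y -
    (P * g m * y - C (par n * D.μ m) * P * (Qy D k y * y)) ∈ D.J

theorem exch (D : Dat ee V R) (hC : Ctx D) (k : ℕ) (y : MvPolynomial V R)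
    (hwy : D.w ^ (k + 1) * y ∈ D.J) (g : ℕ → MvPolynomial V R)
    (hg : D.w ^ (k + 1) * y - ∑ l ∈ range (ee + 4), lin (D.a l) * g l ∈ srIdeal R D.Δ) (v : V) :
    X (D.α v) * (Qy D k y * y) + X v * (Qy D k y * y) ∈ D.J ∧
    ∀ m < ee + 4, X (D.α v) * g m * y -
      (X v * g m * y - C (D.μ m) * X v * (Qy D k y * y)) ∈ D.J := by
  have h1 : X (D.α v) * (Qy D k y * y) + X v * (Qy D k y * y) ∈ D.J := by
    have h2 := yysq D hC k y hwy v
    have e : X (D.α v) * (Qy D k y * y) + X v * (Qy D k y * y) =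
        yy R D.α v * (Qy D k y * y) := by
      unfold yy
      ring
    rw [e]
    exact h2
  refine ⟨h1, fun m hm => ?_⟩
  by_cases hv : v ∈ D.VP
  · have h2 := relz D hC k y hwy g hg hm v hv
    have e : X (D.α v) * g m * y - (X v * g m * y - C (D.μ m) * X v * (Qy D k y * y)) =
        - ((X v - X (D.α v)) * g m * y - C (D.μ m) * X v * (Qy D k y * y)) := by ring
    rw [e]
    exact D.J.neg_mem h2
  · have hv' : D.α v ∈ D.VP := by
      by_contra h'
      exact hv ((hC.vp v).mpr h')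
    have h2 := relz D hC k y hwy g hg hm (D.α v) hv'
    rw [hC.cs.invol] at h2
    have e : X (D.α v) * g m * y - (X v * g m * y - C (D.μ m) * X v * (Qy D k y * y)) =
        ((X (D.α v) - X v) * g m * y - C (D.μ m) * X (D.α v) * (Qy D k y * y)) +
          C (D.μ m) * (X (D.α v) * (Qy D k y * y) + X v * (Qy D k y * y)) := by ring
    rw [e]
    exact D.J.add_mem h2 (D.J.mul_mem_left _ h1)

theorem QQ_step (D : Dat ee V R) (hC : Ctx D) (k : ℕ) (y : MvPolynomial V R)
    (hwy : D.w ^ (k + 1) * y ∈ D.J) (g : ℕ → MvPolynomial V R)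
    (hg : D.w ^ (k + 1) * y - ∑ l ∈ range (ee + 4), lin (D.a l) * g l ∈ srIdeal R D.Δ) (n : ℕ)
    (P : MvPolynomial V R) (hP : QQ D k y g n P) (v : V) : QQ D k y g (n + 1) (X v * P) := by
  obtain ⟨e1, e2⟩ := exch D hC k y hwy g hg v
  obtain ⟨h1, h2⟩ := hP
  have hr : rename D.α (X v * P) = X (D.α v) * rename D.α P := by
    rw [map_mul, rename_X]
  refine ⟨?_, fun m hm => ?_⟩
  · rw [hr]
    have e : X (D.α v) * rename D.α P * (Qy D k y * y) -
        C ((-1) ^ (n + 1)) * (X v * P) * (Qy D k y * y) =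
        rename D.α P * (X (D.α v) * (Qy D k y * y) + X v * (Qy D k y * y)) -
          X v * (rename D.α P * (Qy D k y * y) - C ((-1) ^ n) * P * (Qy D k y * y)) := by
      have hpow : ((-1 : R)) ^ (n + 1) = - (-1) ^ n := by rw [pow_succ, mul_neg_one]
      rw [hpow, C_neg]
      ring
    rw [e]
    exact D.J.sub_mem (D.J.mul_mem_left _ e1) (D.J.mul_mem_left _ h1)
  · rw [hr]
    have e : X (D.α v) * rename D.α P * g m * y -
        (X v * P * g m * y - C (par (n + 1) * D.μ m) * (X v * P) * (Qy D k y * y)) =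
        X (D.α v) * (rename D.α P * g m * y -
          (P * g m * y - C (par n * D.μ m) * P * (Qy D k y * y))) +
          P * (X (D.α v) * g m * y - (X v * g m * y - C (D.μ m) * X v * (Qy D k y * y))) -
          C (par n * D.μ m) * P * (X (D.α v) * (Qy D k y * y) + X v * (Qy D k y * y)) := by
      rw [par_succ, sub_mul, one_mul, C_sub]
      ring
    rw [e]
    exact D.J.sub_mem (D.J.add_mem (D.J.mul_mem_left _ (h2 m hm)) (D.J.mul_mem_left _ (e2 m hm)))
      (D.J.mul_mem_left _ e1)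

theorem QQ_mono (D : Dat ee V R) (hC : Ctx D) (k : ℕ) (y : MvPolynomial V R)
    (hwy : D.w ^ (k + 1) * y ∈ D.J) (g : ℕ → MvPolynomial V R)
    (hg : D.w ^ (k + 1) * y - ∑ l ∈ range (ee + 4), lin (D.a l) * g l ∈ srIdeal R D.Δ) (n : ℕ) :
    ∀ s : V →₀ ℕ, s.degree = n → QQ D k y g n (monomial s 1) := by
  induction n with
  | zero =>
    intro s hs
    have h0 : s = 0 := (Finsupp.degree_eq_zero_iff s).1 hs
    subst h0
    have e1 : (monomial (0 : V →₀ ℕ) (1 : R)) = 1 := rfl
    rw [e1]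
    refine ⟨?_, fun m _ => ?_⟩
    · rw [map_one, pow_zero, C_1]
      have e : (1 : MvPolynomial V R) * (Qy D k y * y) - 1 * 1 * (Qy D k y * y) = 0 := by ring
      rw [e]
      exact D.J.zero_mem
    · have hp : (par 0 : R) = 0 := by
        unfold par
        rw [if_neg (by omega)]
      rw [map_one, hp, zero_mul, C_0]
      have e : (1 : MvPolynomial V R) * g m * y -
        (1 * g m * y - 0 * 1 * (Qy D k y * y)) = 0 := by ring
      rw [e]
      exact D.J.zero_mem
  | succ n ih =>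
    intro s hs
    obtain ⟨v, t, ht, he⟩ := mono_step (R := R) s n hs
    rw [he]
    exact QQ_step D hC k y hwy g hg n _ (ih t ht) v

/-- positive integers are not zero -/
theorem nat_ne_zero (h2 : Prime (2 : R)) (n : ℕ) (hn : n ≠ 0) : (n : R) ≠ 0 := by
  have h20 : (2 : R) ≠ 0 := h2.ne_zero
  induction n using Nat.strong_induction_on with
  | _ n ih =>
    rcases Nat.even_or_odd n with ⟨m, hm⟩ | ⟨m, hm⟩
    · have hm0 : m ≠ 0 := by omega
      have h3 := ih m (by omega) hm0
      rw [hm]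
      push_cast
      rw [← two_mul]
      exact mul_ne_zero h20 h3
    · intro h
      apply h2.not_isUnit
      rw [hm] at h
      push_cast at h
      exact IsUnit.of_mul_eq_one (- (m : R)) (by linear_combination - h)

end IExK

open IExA IExK in
/-- exactness for the kernel of the power `w ^ (k + 1)` in degree `i`, with polynomials of degree
`N = ee + 4 - 2 i - k ≥ 1` -/
theorem pr_ExK {ee : ℕ} {V : Type} [Fintype V] [DecidableEq V] {R : Type} [CommRing R]
    [IsDomain R] (D : Dat ee V R) (hC : Ctx D) (h1 : StTx D) (i k N : ℕ)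
    (hN : 2 * i + k + N = ee + 4) (hN1 : 1 ≤ N) (ε : R) (y : MvPolynomial V R) (hε : ε * ε = 1)
    (hy : y.IsHomogeneous i) (hwy : D.w ^ (k + 1) * y ∈ D.J) (hαy : rename D.α y - ε • y ∈ D.J) :
    (∀ M : MvPolynomial V R, D.dg (M * D.w ^ k * y ^ 2) = 0) ∧
    ∀ M : MvPolynomial V R, ∀ m < ee + 4, D.T m (M * D.w ^ (k + 1) * y ^ 2) = 0 := by
  obtain ⟨g, hg⟩ := (mem_J_iff (ee + 4) _).mp hwy
  obtain ⟨q, hq⟩ := (mem_J_iff (ee + 4) _).mp hαy
  have h20 : (2 : R) ≠ 0 := hC.two.ne_zero
  have hαw : rename D.α D.w - D.w ∈ D.J := rename_welA hC.cs.invol hC.vp hC.anti D.μ D.c D.Δ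
  obtain ⟨Q, hQ⟩ : ∃ Q, Q = Qy D k y * y := ⟨_, rfl⟩
  -- `αQ = Q`
  have hsq : ∀ P : MvPolynomial V R, P * rename D.α Q - P * Q ∈ D.J := by
    intro P
    have e2 : (1 - C ε * C ε : MvPolynomial V R) = 0 := by
      rw [← map_mul, hε, map_one, sub_self]
    have hpow : rename D.α D.w ^ k - D.w ^ k ∈ D.J := by
      obtain ⟨t, ht⟩ := sub_dvd_pow_sub_pow (rename D.α D.w) D.w k
      rw [ht]
      exact Ideal.mul_mem_right _ _ hαw
    have hr : rename D.α Q = ((k + 1 : ℕ) : MvPolynomial V R) * rename D.α D.w ^ k *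
        rename D.α y ^ 2 := by
      rw [hQ]
      unfold Qy
      rw [map_mul, map_mul, map_mul, map_pow, map_natCast]
      ring
    have e : P * rename D.α Q - P * Q =
        (P * ((k + 1 : ℕ) : MvPolynomial V R) * rename D.α y ^ 2) *
          (rename D.α D.w ^ k - D.w ^ k) +
        (P * ((k + 1 : ℕ) : MvPolynomial V R) * D.w ^ k * (rename D.α y + C ε * y)) *
          (rename D.α y - ε • y) -
        (1 - C ε * C ε) * (P * Q) := by
      rw [hr, smul_eq_C_mul, hQ]
      unfold Qy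
      ring
    rw [e, e2, zero_mul, sub_zero]
    exact D.J.add_mem (D.J.mul_mem_left _ hpow) (D.J.mul_mem_left _ hαy)
  have dgJ' : ∀ F G : MvPolynomial V R, F - G ∈ D.J → D.dg F = D.dg G := by
    intro F G h
    have h2 := hC.dgJ _ h
    rw [map_sub] at h2
    exact sub_eq_zero.1 h2
  -- value of `deg (αP Q)`
  have fa : ∀ s : V →₀ ℕ, s.degree = N →
      D.dg (monomial s 1 * Q) = (-1) ^ N * D.dg (monomial s 1 * Q) := by
    intro s hs
    obtain ⟨q1, -⟩ := IExK.QQ_mono D hC k y hwy g hg N s hs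
    rw [← hQ] at q1
    have k1 := dgJ' _ _ q1
    have k2 := dgJ' _ _ (hsq (rename D.α (monomial s 1)))
    have k3 := hC.dga (monomial s 1 * Q)
    rw [map_mul (rename D.α)] at k3
    rw [mul_assoc, ← smul_eq_C_mul, map_smul, smul_eq_mul] at k1
    rw [← k1, ← k2, k3]
  -- value of `deg (αP g y)`
  have fh : ∀ s : V →₀ ℕ, s.degree = N → ∀ m < ee + 4,
      D.dg (monomial s 1 * g m * y) = - (D.dg (monomial s 1 * g m * y) -
        par N * D.μ m * D.dg (monomial s 1 * Q)) +
        D.μ m * D.dg (monomial s 1 * Q) := by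
    intro s hs m hm
    obtain ⟨q1, q2⟩ := IExK.QQ_mono D hC k y hwy g hg N s hs
    rw [← hQ] at q1
    have q3 := q2 m hm
    rw [← hQ] at q3
    obtain ⟨P', hP'⟩ : ∃ P', P' = rename D.α (monomial s (1 : R)) := ⟨_, rfl⟩
    have hinv := IExK.relA D hC k ε y hαy g hg q hq hm
    have k1 : P' * rename D.α (g m) * rename D.α y - (- (P' * g m * y) +
        C (D.μ m) * (P' * Q)) ∈ D.J := by
      have e2 : (1 - C ε * C ε : MvPolynomial V R) = 0 := by
        rw [← map_mul, hε, map_one, sub_self]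
      have e1 : P' * rename D.α (g m) * rename D.α y - (- (P' * g m * y) +
          C (D.μ m) * (P' * Q)) =
          P' * C ε * y * (rename D.α (g m) + C ε * g m - C ε * C (D.μ m) * Qy D k y +
            D.w ^ (k + 1) * q m) + P' * rename D.α (g m) * (rename D.α y - ε • y) -
          P' * C ε * q m * (D.w ^ (k + 1) * y) +
          (1 - C ε * C ε) * (P' * g m * y - C (D.μ m) * (P' * Q)) := by
        rw [smul_eq_C_mul, hQ]
        ring
      rw [e1, e2, zero_mul, add_zero]
      exact Ideal.sub_mem _ (Ideal.add_mem _ (Ideal.mul_mem_left _ _ hinv)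
        (Ideal.mul_mem_left _ _ hαy)) (Ideal.mul_mem_left _ _ hwy)
    have k2 := dgJ' _ _ k1
    have k3 := hC.dga (monomial s 1 * g m * y)
    rw [map_mul (rename D.α), map_mul (rename D.α), ← hP'] at k3
    have k4 := dgJ' _ _ q3
    rw [← hP', map_sub, mul_assoc (C (par N * D.μ m)), ← smul_eq_C_mul, map_smul,
      smul_eq_mul] at k4
    have k5 := dgJ' _ _ q1
    have k6 := fa s hs
    rw [← hP', mul_assoc, ← smul_eq_C_mul, map_smul, smul_eq_mul, ← k6] at k5
    have k7 := k3.symm.trans k2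
    rw [map_add, map_neg, ← smul_eq_C_mul, map_smul, smul_eq_mul, k4, k5] at k7
    exact k7
  -- both values are zero
  have key : ∀ s : V →₀ ℕ, s.degree = N → D.dg (monomial s 1 * Q) = 0 ∧
      ∀ m < ee + 4, D.dg (monomial s 1 * g m * y) = 0 := by
    have half : ∀ s : V →₀ ℕ, s.degree = N → D.dg (monomial s 1 * Q) = 0 →
        ∀ m < ee + 4, D.dg (monomial s 1 * g m * y) = 0 := by
      intro s hs h0 m hm
      have k1 := fh s hs m hm
      rw [h0, mul_zero, mul_zero, sub_zero, add_zero] at k1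
      have k2 : 2 * D.dg (monomial s 1 * g m * y) = 0 := by linear_combination k1
      exact (mul_eq_zero.mp k2).resolve_left h20
    rcases Nat.even_or_odd N with hee | hee
    · -- even
      have hp : (par N : R) = 0 := by
        unfold par
        rw [if_neg]
        have := Nat.even_iff.1 hee
        omega
      have hh : ∀ s : V →₀ ℕ, s.degree = N → ∀ m < ee + 4,
          2 * D.dg (monomial s 1 * g m * y) = D.μ m * D.dg (monomial s 1 * Q) := by
        intro s hs m hm
        have k1 := fh s hs m hm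
        rw [hp, zero_mul, zero_mul, sub_zero] at k1
        linear_combination k1
      obtain ⟨n, hn⟩ : ∃ n, N = n + 1 := ⟨N - 1, by omega⟩
      have hVP : ∀ (v : V) (t : V →₀ ℕ), v ∈ D.VP → t.degree = n →
          D.dg (X v * monomial t (1 : R) * Q) = 0 := by
        intro v t hv ht
        have hm1 : (X v * monomial t (1 : R)) = monomial (Finsupp.single v 1 + t) (1 : R) := by
          rw [X, monomial_mul, one_mul]
        have hdeg : (Finsupp.single v 1 + t).degree = N := by
          rw [map_add, Finsupp.degree_single, ht]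
          omega
        have hh' := hh _ hdeg
        rw [← hm1] at hh'
        obtain ⟨P, hP⟩ : ∃ P, P = monomial t (1 : R) := ⟨_, rfl⟩
        rw [← hP] at hh' ⊢
        have k0 := IExK.relE D hC k y hwy g hg v hv
        rw [← hQ] at k0
        have k1 := hC.dgJ _ (Ideal.mul_mem_left D.J P k0)
        have e : P * (C (D.c v + ∑ l ∈ range (ee + 4), D.μ l * D.a l v) * X v * Q -
            ∑ l ∈ range (ee + 4), C (D.a l v) * (X v * g l * y)) =
            (D.c v + ∑ l ∈ range (ee + 4), D.μ l * D.a l v) • (X v * P * Q) -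
            ∑ l ∈ range (ee + 4), D.a l v • (X v * P * g l * y) := by
          rw [mul_sub, smul_eq_C_mul, Finset.mul_sum]
          congr 1
          · ring
          · apply Finset.sum_congr rfl
            intro l _
            rw [smul_eq_C_mul]
            ring
        rw [e, map_sub, map_smul, smul_eq_mul, map_sum] at k1
        have k2 : ∑ l ∈ range (ee + 4), D.dg (D.a l v • (X v * P * g l * y)) * 2 =
            (∑ l ∈ range (ee + 4), D.μ l * D.a l v) * D.dg (X v * P * Q) := by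
          rw [Finset.sum_mul]
          apply Finset.sum_congr rfl
          intro l hl
          rw [map_smul, smul_eq_mul]
          have := hh' l (Finset.mem_range.mp hl)
          linear_combination (D.a l v) * this
        rw [← Finset.sum_mul] at k2
        have k3 : D.wt v * D.dg (X v * P * Q) = 0 := by
          unfold Dat.wt
          linear_combination 2 * k1 + k2
        rcases mul_eq_zero.mp k3 with h | h
        · exfalso
          apply hC.wt_odd v hv
          unfold Dat.wt at h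
          exact ⟨- D.c v, by linear_combination h⟩
        · exact h
      have hall : ∀ s : V →₀ ℕ, s.degree = N → D.dg (monomial s 1 * Q) = 0 := by
        intro s hs
        obtain ⟨v, t, ht, he⟩ := mono_step (R := R) s n (hs.trans hn)
        rw [he]
        by_cases hv : v ∈ D.VP
        · exact hVP v t hv ht
        · have hv' : D.α v ∈ D.VP := by
            by_contra h'
            exact hv ((hC.vp v).mpr h')
          have k1 := hVP (D.α v) t hv' ht
          have k0 := (IExK.exch D hC k y hwy g hg v).1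
          rw [← hQ] at k0
          have k2 := hC.dgJ _ (Ideal.mul_mem_left D.J (monomial t (1 : R)) k0)
          have e : monomial t (1 : R) * (X (D.α v) * Q + X v * Q) =
              X (D.α v) * monomial t (1 : R) * Q + X v * monomial t (1 : R) * Q := by
            ring
          rw [e, map_add, k1, zero_add] at k2
          exact k2
      exact fun s hs => ⟨hall s hs, half s hs (hall s hs)⟩
    · -- odd
      intro s hs
      have k1 := fa s hs
      rw [hee.neg_one_pow] at k1
      have k2 : 2 * D.dg (monomial s 1 * Q) = 0 := by linear_combination k1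
      have k3 := (mul_eq_zero.mp k2).resolve_left h20
      exact ⟨k3, half s hs k3⟩
  refine ⟨?_, ?_⟩
  · intro M
    have e : M * D.w ^ k * y ^ 2 =
        ∑ s ∈ M.support, coeff s M • (monomial s (1 : R) * D.w ^ k * y ^ 2) := by
      conv_lhs => rw [M.as_sum, Finset.sum_mul, Finset.sum_mul]
      apply Finset.sum_congr rfl
      intro s _
      rw [← smul_mul_assoc, ← smul_mul_assoc, smul_monomial, smul_eq_mul, mul_one]
    rw [e, map_sum]
    apply Finset.sum_eq_zero
    intro s _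
    rw [map_smul]
    by_cases hs : s.degree = N
    · have k1 := (key s hs).1
      have e1 : monomial s (1 : R) * Q =
          ((k + 1 : ℕ) : R) • (monomial s (1 : R) * D.w ^ k * y ^ 2) := by
        rw [smul_eq_C_mul, map_natCast, hQ]
        unfold Qy
        ring
      rw [e1, map_smul, smul_eq_mul] at k1
      rw [(mul_eq_zero.mp k1).resolve_left (nat_ne_zero hC.two (k + 1) (Nat.succ_ne_zero k)),
        smul_zero]
    · have h2 : (monomial s (1 : R) * D.w ^ k * y ^ 2).IsHomogeneous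
          (s.degree + 1 * k + i * 2) :=
        ((isHomogeneous_monomial 1 rfl).mul ((w_hom D).pow k)).mul (hy.pow 2)
      rw [hC.dgh _ (by omega) _ h2, smul_zero]
  · intro M m hm
    have e : M * D.w ^ (k + 1) * y ^ 2 =
        ∑ s ∈ M.support, coeff s M • (monomial s (1 : R) * D.w ^ (k + 1) * y ^ 2) := by
      conv_lhs => rw [M.as_sum, Finset.sum_mul, Finset.sum_mul]
      apply Finset.sum_congr rfl
      intro s _
      rw [← smul_mul_assoc, ← smul_mul_assoc, smul_monomial, smul_eq_mul, mul_one]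
    rw [e, map_sum]
    apply Finset.sum_eq_zero
    intro s _
    rw [map_smul]
    by_cases hs : s.degree = N
    · have hfin := h1.1 (D.w ^ (k + 1) * y) g hg m hm (monomial s 1 * y)
      have e1 : monomial s (1 : R) * D.w ^ (k + 1) * y ^ 2 =
          D.w ^ (k + 1) * y * (monomial s 1 * y) := by ring
      have e2 : g m * (monomial s (1 : R) * y) = monomial s 1 * g m * y := by ring
      rw [e1, hfin, e2, (key s hs).2 m hm, smul_zero]
    · have h2 : (monomial s (1 : R) * D.w ^ (k + 1) * y ^ 2).IsHomogeneous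
          (s.degree + 1 * (k + 1) + i * 2) :=
        ((isHomogeneous_monomial 1 rfl).mul ((w_hom D).pow (k + 1))).mul (hy.pow 2)
      rw [hC.Th m _ (by omega) _ h2, smul_zero]

end CSLef.DG
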