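import Mathlib
import Pool.Agent.Work.MP_38c61c_al.DG.StmtsX

/-!
Block DG, item Dwn: injectivity over the generic ring goes down to smaller degrees.
-/

namespace CSLef.DG

open MvPolynomial Finset

theorem pr_Dwn (ee : ℕ) {V : Type} [Fintype V] [DecidableEq V] (Δ : Finset (Finset V))
    (α : Equiv.Perm V) (VP : Finset V) (hG : HG ee Δ α VP) : StDwn ee Δ α VP := by
  intro i hi4 hinj i' hi' x hx hw
  have H := locHyp hG.hs hG.cs hG.vp
  have key : ∀ m : ℕ, ∀ g : MvPolynomial V (RR (ee + 4) V), g.IsHomogeneous (i - i' + m) →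
      g * x ∈ Jid Δ (ga ee α VP) (ee + 4) := by
    intro m
    induction m with
    | zero =>
      intro g hg
      apply hinj
      · have h1 := hg.mul hx
        have h2 : i - i' + 0 + i' = i := by omega
        rwa [h2] at h1
      · rw [mul_left_comm]
        exact Ideal.mul_mem_left _ _ hw
    | succ m ih =>
      intro g hg
      obtain ⟨g', hg'1, hg'2⟩ := hom_split (show g.IsHomogeneous (i - i' + m + 1) from hg)
      rw [hg'2, Finset.sum_mul]
      apply Ideal.sum_mem
      intro v _
      rw [mul_assoc]
      exact Ideal.mul_mem_left _ _ (ih _ (hg'1 v))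
  apply nondeg_R (red (ee + 4) V) H (i := i') (k := i - i' + (ee + 4 - i)) (by omega) hx
  intro g hg
  exact key (ee + 4 - i) g hg

end CSLef.DG
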