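import Mathlib
import Pool.Agent.Work.MP_38c61c_al.DG.StmtsV
import Pool.Agent.Work.MP_38c61c_al.DG.I_ExA

/-!
Block DG, part V, item ExV: exactness of first and second order in every degree below the middle.
-/

namespace CSLef.DG

open MvPolynomial Finset

open IExA in
theorem pr_ExV {ee : ℕ} {V : Type} [Fintype V] [DecidableEq V] {R : Type} [CommRing R]
    [IsDomain R] (D : Dat ee V R) (hC : Ctx D) (h1 : StTx D) : StExV D := by
  intro i hi ε y hε hy hwy hαy
  obtain ⟨N, hN⟩ : ∃ N, N = ee + 4 - 2 * i := ⟨_, rfl⟩
  obtain ⟨g, hg⟩ := (mem_J_iff (ee + 4) _).mp hwy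
  obtain ⟨q, hq⟩ := (mem_J_iff (ee + 4) _).mp hαy
  have h20 : (2 : R) ≠ 0 := hC.two.ne_zero
  -- `(αy)^2 = y^2`
  have hsq : ∀ P : MvPolynomial V R, P * rename D.α y ^ 2 - P * y ^ 2 ∈ D.J := by
    intro P
    have e2 : (1 - C ε * C ε : MvPolynomial V R) = 0 := by
      rw [← map_mul, hε, map_one, sub_self]
    have e : P * rename D.α y ^ 2 - P * y ^ 2 =
        P * (rename D.α y + C ε * y) * (rename D.α y - ε • y) - (1 - C ε * C ε) * (P * y ^ 2) := by
      rw [smul_eq_C_mul]
      ring
    rw [e, e2, zero_mul, sub_zero]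
    exact D.J.mul_mem_left _ hαy
  have dgJ' : ∀ F G : MvPolynomial V R, F - G ∈ D.J → D.dg F = D.dg G := by
    intro F G h
    have h2 := hC.dgJ _ h
    rw [map_sub] at h2
    exact sub_eq_zero.1 h2
  -- value of `deg (αP y^2)`
  have fa : ∀ s : V →₀ ℕ, s.degree = N →
      D.dg (monomial s 1 * y ^ 2) = (-1) ^ N * D.dg (monomial s 1 * y ^ 2) := by
    intro s hs
    obtain ⟨q1, -⟩ := QQ_mono D hC y hwy g hg N s hs
    have k1 := dgJ' _ _ q1
    have k2 := dgJ' _ _ (hsq (rename D.α (monomial s 1)))
    have k3 := hC.dga (monomial s 1 * y ^ 2)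
    rw [map_mul (rename D.α), map_pow (rename D.α)] at k3
    rw [mul_assoc, ← smul_eq_C_mul, map_smul, smul_eq_mul] at k1
    rw [← k1, ← k2, k3]
  -- value of `deg (αP g y)`
  have fh : ∀ s : V →₀ ℕ, s.degree = N → ∀ m < ee + 4,
      D.dg (monomial s 1 * g m * y) = - (D.dg (monomial s 1 * g m * y) -
        par N * D.μ m * D.dg (monomial s 1 * y ^ 2)) +
        D.μ m * D.dg (monomial s 1 * y ^ 2) := by
    intro s hs m hm
    obtain ⟨q1, q2⟩ := QQ_mono D hC y hwy g hg N s hs
    obtain ⟨P', hP'⟩ : ∃ P', P' = rename D.α (monomial s (1 : R)) := ⟨_, rfl⟩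
    have hinv := relA D hC ε y hαy g hg q hq hm
    have k1 : P' * rename D.α (g m) * rename D.α y - (- (P' * g m * y) +
        C (D.μ m) * (P' * y ^ 2)) ∈ D.J := by
      have e2 : (1 - C ε * C ε : MvPolynomial V R) = 0 := by
        rw [← map_mul, hε, map_one, sub_self]
      have e1 : P' * rename D.α (g m) * rename D.α y - (- (P' * g m * y) +
          C (D.μ m) * (P' * y ^ 2)) =
          P' * C ε * y * (rename D.α (g m) + C ε * g m - C ε * C (D.μ m) * y +
            D.w * q m) + P' * rename D.α (g m) * (rename D.α y - ε • y) -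
          P' * C ε * q m * (D.w * y) +
          (1 - C ε * C ε) * (P' * g m * y - C (D.μ m) * (P' * y ^ 2)) := by
        rw [smul_eq_C_mul]
        ring
      rw [e1, e2, zero_mul, add_zero]
      exact Ideal.sub_mem _ (Ideal.add_mem _ (Ideal.mul_mem_left _ _ hinv)
        (Ideal.mul_mem_left _ _ hαy)) (Ideal.mul_mem_left _ _ hwy)
    have k2 := dgJ' _ _ k1
    have k3 := hC.dga (monomial s 1 * g m * y)
    rw [map_mul (rename D.α), map_mul (rename D.α), ← hP'] at k3
    have k4 := dgJ' _ _ (q2 m hm)
    rw [← hP', map_sub, mul_assoc (C (par N * D.μ m)), ← smul_eq_C_mul, map_smul,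
      smul_eq_mul] at k4
    have k5 := dgJ' _ _ q1
    have k6 := fa s hs
    rw [← hP', mul_assoc, ← smul_eq_C_mul, map_smul, smul_eq_mul, ← k6] at k5
    have k7 := k3.symm.trans k2
    rw [map_add, map_neg, ← smul_eq_C_mul, map_smul, smul_eq_mul, k4, k5] at k7
    exact k7
  -- both values are zero
  have key : ∀ s : V →₀ ℕ, s.degree = N → D.dg (monomial s 1 * y ^ 2) = 0 ∧
      ∀ m < ee + 4, D.dg (monomial s 1 * g m * y) = 0 := by
    have half : ∀ s : V →₀ ℕ, s.degree = N → D.dg (monomial s 1 * y ^ 2) = 0 →
        ∀ m < ee + 4, D.dg (monomial s 1 * g m * y) = 0 := by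
      intro s hs h0 m hm
      have k1 := fh s hs m hm
      rw [h0, mul_zero, mul_zero, sub_zero, add_zero] at k1
      have k2 : 2 * D.dg (monomial s 1 * g m * y) = 0 := by linear_combination k1
      exact (mul_eq_zero.mp k2).resolve_left h20
    rcases Nat.even_or_odd N with hee | hee
    · -- even
      have hp : (par N : R) = 0 := by
        unfold par
        rw [if_neg]
        have := Nat.even_iff.1 hee
        omega
      have hh : ∀ s : V →₀ ℕ, s.degree = N → ∀ m < ee + 4,
          2 * D.dg (monomial s 1 * g m * y) = D.μ m * D.dg (monomial s 1 * y ^ 2) := by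
        intro s hs m hm
        have k1 := fh s hs m hm
        rw [hp, zero_mul, zero_mul, sub_zero] at k1
        linear_combination k1
      obtain ⟨n, hn⟩ : ∃ n, N = n + 1 := ⟨N - 1, by omega⟩
      have hVP : ∀ (v : V) (t : V →₀ ℕ), v ∈ D.VP → t.degree = n →
          D.dg (X v * monomial t (1 : R) * y ^ 2) = 0 := by
        intro v t hv ht
        have hm1 : (X v * monomial t (1 : R)) = monomial (Finsupp.single v 1 + t) (1 : R) := by
          rw [X, monomial_mul, one_mul]
        have hdeg : (Finsupp.single v 1 + t).degree = N := by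
          rw [map_add, Finsupp.degree_single, ht]
          omega
        have hh' := hh _ hdeg
        rw [← hm1] at hh'
        obtain ⟨P, hP⟩ : ∃ P, P = monomial t (1 : R) := ⟨_, rfl⟩
        rw [← hP] at hh' ⊢
        have k1 := hC.dgJ _ (Ideal.mul_mem_left D.J P (relE D hC y hwy g hg v hv))
        have e : P * (C (D.c v + ∑ l ∈ range (ee + 4), D.μ l * D.a l v) * X v * y ^ 2 -
            ∑ l ∈ range (ee + 4), C (D.a l v) * (X v * g l * y)) =
            (D.c v + ∑ l ∈ range (ee + 4), D.μ l * D.a l v) • (X v * P * y ^ 2) -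
            ∑ l ∈ range (ee + 4), D.a l v • (X v * P * g l * y) := by
          rw [mul_sub, smul_eq_C_mul, Finset.mul_sum]
          congr 1
          · ring
          · apply Finset.sum_congr rfl
            intro l _
            rw [smul_eq_C_mul]
            ring
        rw [e, map_sub, map_smul, smul_eq_mul, map_sum] at k1
        have k2 : ∑ l ∈ range (ee + 4), D.dg (D.a l v • (X v * P * g l * y)) * 2 =
            (∑ l ∈ range (ee + 4), D.μ l * D.a l v) * D.dg (X v * P * y ^ 2) := by
          rw [Finset.sum_mul]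
          apply Finset.sum_congr rfl
          intro l hl
          rw [map_smul, smul_eq_mul]
          have := hh' l (Finset.mem_range.mp hl)
          linear_combination (D.a l v) * this
        rw [← Finset.sum_mul] at k2
        have k3 : D.wt v * D.dg (X v * P * y ^ 2) = 0 := by
          unfold Dat.wt
          linear_combination 2 * k1 + k2
        rcases mul_eq_zero.mp k3 with h | h
        · exfalso
          apply hC.wt_odd v hv
          unfold Dat.wt at h
          exact ⟨- D.c v, by linear_combination h⟩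
        · exact h
      have hall : ∀ s : V →₀ ℕ, s.degree = N → D.dg (monomial s 1 * y ^ 2) = 0 := by
        intro s hs
        obtain ⟨v, t, ht, he⟩ := mono_step (R := R) s n (hs.trans hn)
        rw [he]
        by_cases hv : v ∈ D.VP
        · exact hVP v t hv ht
        · have hv' : D.α v ∈ D.VP := by
            by_contra h'
            exact hv ((hC.vp v).mpr h')
          have k1 := hVP (D.α v) t hv' ht
          have k2 := hC.dgJ _ (Ideal.mul_mem_left D.J (monomial t (1 : R))
            (exch D hC y hwy g hg v).1)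
          have e : monomial t (1 : R) * (X (D.α v) * y ^ 2 + X v * y ^ 2) =
              X (D.α v) * monomial t (1 : R) * y ^ 2 + X v * monomial t (1 : R) * y ^ 2 := by
            ring
          rw [e, map_add, k1, zero_add] at k2
          exact k2
      exact fun s hs => ⟨hall s hs, half s hs (hall s hs)⟩
    · -- odd
      intro s hs
      have k1 := fa s hs
      rw [hee.neg_one_pow] at k1
      have k2 : 2 * D.dg (monomial s 1 * y ^ 2) = 0 := by linear_combination k1
      have k3 := (mul_eq_zero.mp k2).resolve_left h20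
      exact ⟨k3, half s hs k3⟩
  refine ⟨?_, ?_⟩
  · refine hC.nd (i * 2) N (by omega) _ ?_ ?_
    · have h2 := hy.pow 2
      exact h2
    · intro P hP
      have e : y ^ 2 * P = ∑ s ∈ P.support, coeff s P • (monomial s (1 : R) * y ^ 2) := by
        conv_lhs => rw [P.as_sum, Finset.mul_sum]
        apply Finset.sum_congr rfl
        intro s _
        rw [← smul_mul_assoc, smul_monomial, smul_eq_mul, mul_one, mul_comm]
      rw [e, map_sum]
      apply Finset.sum_eq_zero
      intro s hs
      have hdeg : s.degree = N := by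
        rw [Finsupp.degree_apply]
        exact (hP.degree_eq_sum_deg_support hs).symm
      rw [map_smul, (key s hdeg).1, smul_zero]
  · intro M m hm
    have e : M * D.w * y ^ 2 = ∑ s ∈ M.support, coeff s M • (monomial s (1 : R) * D.w * y ^ 2) := by
      conv_lhs => rw [M.as_sum, Finset.sum_mul, Finset.sum_mul]
      apply Finset.sum_congr rfl
      intro s _
      rw [← smul_mul_assoc, ← smul_mul_assoc, smul_monomial, smul_eq_mul, mul_one]
    rw [e, map_sum]
    apply Finset.sum_eq_zero
    intro s _
    rw [map_smul]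
    by_cases hs : s.degree = N
    · have hfin := h1.1 (D.w * y) g hg m hm (monomial s 1 * y)
      have e1 : monomial s (1 : R) * D.w * y ^ 2 = D.w * y * (monomial s 1 * y) := by ring
      have e2 : g m * (monomial s (1 : R) * y) = monomial s 1 * g m * y := by ring
      rw [e1, hfin, e2, (key s hs).2 m hm, smul_zero]
    · have h2 : (monomial s (1 : R) * D.w * y ^ 2).IsHomogeneous (s.degree + 1 + i * 2) :=
        ((isHomogeneous_monomial 1 rfl).mul (w_hom D)).mul (hy.pow 2)
      rw [hC.Th m _ (by omega) _ h2, smul_zero]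

end CSLef.DG
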