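import Mathlib
import Pool.Agent.Work.MP_38c61c_al.DG.StmtsX

/-!
Block DG, item Gen (helper73): from injectivity over the generic ring in the degrees of a finite
set to generic parameters over every field.
-/

namespace CSLef.DG

open MvPolynomial Finset

universe u

namespace IGen

variable {V : Type} [Fintype V] [DecidableEq V] {ee : ℕ} {Δ : Finset (Finset V)} {α : Equiv.Perm V}
  {VP : Finset V}

theorem hwKmap : MvPolynomial.map (phiP (ee + 4) V) (wP (ee + 4) α VP) =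
    MvPolynomial.map (algebraMap (RR (ee + 4) V) (KK (ee + 4) V))
      (welA (ee + 4) α VP (ga ee α VP) (gm ee V) (gc ee)) := by
  rw [map_welA]
  unfold wP
  rw [map_welA]
  rfl

/-- injectivity over the fraction field -/
theorem injK (hG : HG ee Δ α VP) {i : ℕ}
    (hinj : ∀ x : MvPolynomial V (RR (ee + 4) V), x.IsHomogeneous i →
      welA (ee + 4) α VP (ga ee α VP) (gm ee V) (gc ee) * x ∈ Jid Δ (ga ee α VP) (ee + 4) →
      x ∈ Jid Δ (ga ee α VP) (ee + 4))
    {x : MvPolynomial V (KK (ee + 4) V)} (hx : x.IsHomogeneous i)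
    (hw : (MvPolynomial.map (phiP (ee + 4) V) (wP (ee + 4) α VP)) ^ 1 * x ∈
      Jid Δ (fun l v => phiP (ee + 4) V (aP (ee + 4) α VP l v)) (ee + 4)) :
    x ∈ Jid Δ (fun l v => phiP (ee + 4) V (aP (ee + 4) α VP l v)) (ee + 4) := by
  have H := locHyp hG.hs hG.cs hG.vp
  have htors : ∀ s : RR (ee + 4) V, s ≠ 0 → ∀ f : MvPolynomial V (RR (ee + 4) V),
      s • f ∈ Jid Δ (ga ee α VP) (ee + 4) → f ∈ Jid Δ (ga ee α VP) (ee + 4) :=
    fun s hs f hf => tors (red (ee + 4) V) H hs hf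
  rw [hwKmap] at hw
  exact k_inj (den_R (ee + 4) V) hG.hs.down htors
    (fun x hx hw => hinj x hx (by rwa [pow_one] at hw)) hx hw

/-- nondegeneracy over the fraction field -/
theorem ndK (hG : HG ee Δ α VP) {i k : ℕ} (hik : i + k = ee + 4)
    {y : MvPolynomial V (KK (ee + 4) V)} (hy : y.IsHomogeneous i)
    (h0 : ∀ g : MvPolynomial V (KK (ee + 4) V), g.IsHomogeneous k →
      g * y ∈ Jid Δ (fun l v => phiP (ee + 4) V (aP (ee + 4) α VP l v)) (ee + 4)) :
    y ∈ Jid Δ (fun l v => phiP (ee + 4) V (aP (ee + 4) α VP l v)) (ee + 4) := by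
  have H := locHyp hG.hs hG.cs hG.vp
  have htors : ∀ s : RR (ee + 4) V, s ≠ 0 → ∀ f : MvPolynomial V (RR (ee + 4) V),
      s • f ∈ Jid Δ (ga ee α VP) (ee + 4) → f ∈ Jid Δ (ga ee α VP) (ee + 4) :=
    fun s hs f hf => tors (red (ee + 4) V) H hs hf
  exact k_nondeg (den_R (ee + 4) V) hG.hs.down htors
    (fun f hf hg => nondeg_R (red (ee + 4) V) H hik hf hg) hy h0

/-- surjectivity over the fraction field from degree `j` to degree `j + 1` -/
theorem surjK (hG : HG ee Δ α VP) (h3 : StXeK ee Δ α VP) (h4 : D6.StSurjF) {i j : ℕ}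
    (hij : i + j = ee + 3)
    (hinj : ∀ x : MvPolynomial V (RR (ee + 4) V), x.IsHomogeneous i →
      welA (ee + 4) α VP (ga ee α VP) (gm ee V) (gc ee) * x ∈ Jid Δ (ga ee α VP) (ee + 4) →
      x ∈ Jid Δ (ga ee α VP) (ee + 4))
    (y : MvPolynomial V (KK (ee + 4) V)) (hy : y.IsHomogeneous (j + 1)) :
    ∃ x : MvPolynomial V (KK (ee + 4) V), x.IsHomogeneous j ∧
      MvPolynomial.map (phiP (ee + 4) V) (wP (ee + 4) α VP) * x - y ∈
        Jid Δ (fun l v => phiP (ee + 4) V (aP (ee + 4) α VP l v)) (ee + 4) := by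
  obtain ⟨e, he1, he2⟩ := h3
  have hw1 : (MvPolynomial.map (phiP (ee + 4) V) (wP (ee + 4) α VP)).IsHomogeneous 1 :=
    (welA_hom (d := ee + 4) (α := α) VP (aP (ee + 4) α VP) muP cP).map (phiP (ee + 4) V)
  have hJ : ∀ g ∈ Jid Δ (fun l v => phiP (ee + 4) V (aP (ee + 4) α VP l v)) (ee + 4),
    e g = 0 := he1
  have htop : ∀ h : MvPolynomial V (KK (ee + 4) V), h.IsHomogeneous (ee + 4) → e h = 0 →
      h ∈ Jid Δ (fun l v => phiP (ee + 4) V (aP (ee + 4) α VP l v)) (ee + 4) := he2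
  refine h4 (Jid Δ (fun l v => phiP (ee + 4) V (aP (ee + 4) α VP l v)) (ee + 4)) e
    (MvPolynomial.map (phiP (ee + 4) V) (wP (ee + 4) α VP)) i j hw1 hJ ?_ ?_ ?_ y hy
  · intro g hg h0
    have e1 : i + 1 + j = ee + 4 := by omega
    have e2 : j + (i + 1) = ee + 4 := by omega
    apply ndK hG (i := i + 1) (k := j) e1 hg
    intro f hf
    have hfg := hf.mul hg
    rw [e2] at hfg
    exact htop _ hfg (h0 f hf)
  · intro g hg h0
    exact injK hG hinj hg (by rwa [pow_one])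
  · intro z hz h0
    have e1 : j + 1 + i = ee + 4 := by omega
    have e2 : i + (j + 1) = ee + 4 := by omega
    apply ndK hG (i := j + 1) (k := i) e1 hz
    intro f hf
    have hfz := hf.mul hz
    rw [e2] at hfz
    apply htop _ hfz
    rw [mul_comm]
    exact h0 f hf

end IGen

open IGen

/-- Item Gen. -/
theorem pr_Gen {V : Type} [Fintype V] [DecidableEq V] (ee : ℕ) (Δ : Finset (Finset V))
    (α : Equiv.Perm V) (VP : Finset V) (hG : HG ee Δ α VP) (h1 : D5.StHCmap.{u}) (h2 : D5.StHCex)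
    (h3 : StXeK ee Δ α VP) (h4 : D6.StSurjF) (h5 : D6.StSCex.{u}) :
    StGen.{u} ee Δ α VP := by
  classical
  intro N hN
  have hcert : ∀ i, ∃ g : PR (ee + 4) V, g ≠ 0 ∧ (i ∈ N →
      ∃ L : (V →₀ ℕ) → MvPolynomial V (PR (ee + 4) V),
        D5.HCert Δ (aP (ee + 4) α VP) (ee + 4) (wP (ee + 4) α VP) i 1 g L) := by
    intro i
    by_cases h : i ∈ N
    · obtain ⟨g, hg, L, hL⟩ := h2 (phiP (ee + 4) V) (den_P (ee + 4) V) Δ hG.hs.down
        (aP (ee + 4) α VP) (ee + 4) (wP (ee + 4) α VP) i 1 (by omega) (welA_hom _ _ _ _)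
        (fun x hx hw => injK hG (hN i h).2 hx hw)
      exact ⟨g, hg, fun _ => ⟨L, hL⟩⟩
    · exact ⟨1, one_ne_zero, fun h' => absurd h' h⟩
  choose g hg hL using hcert
  have hsur : ∀ i, ∃ g : PR (ee + 4) V, g ≠ 0 ∧ (i ∈ N → ∀ {B : Type u} [Field B]
      (ψ : PR (ee + 4) V →+* B), ψ g ≠ 0 →
      ∀ j, i + j = ee + 3 → ∀ y : MvPolynomial V B, y.IsHomogeneous (j + 1) →
        ∃ x : MvPolynomial V B, x.IsHomogeneous j ∧
          MvPolynomial.map ψ (wP (ee + 4) α VP) * x - y ∈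
            Jid Δ (fun l v => ψ (aP (ee + 4) α VP l v)) (ee + 4)) := by
    intro i
    by_cases h : i ∈ N
    · have hi := (hN i h).1
      have hij : i + (ee + 3 - i) = ee + 3 := by omega
      obtain ⟨gS, hgS, hLS⟩ := h5 (phiP (ee + 4) V) (den_P (ee + 4) V) Δ hG.hs.down
        (aP (ee + 4) α VP) (ee + 4) (wP (ee + 4) α VP) (ee + 3 - i) (welA_hom _ _ _ _)
        (fun y hy => surjK hG h3 h4 hij (hN i h).2 y hy)
      refine ⟨gS, hgS, fun _ => ?_⟩
      intro B _ ψ hψ j hj y hy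
      obtain rfl : j = ee + 3 - i := by omega
      exact hLS ψ hψ y hy
    · exact ⟨1, one_ne_zero, fun h' => absurd h' h⟩
  choose gS hgS hLS using hsur
  obtain ⟨s, hs, hlarge⟩ := descend_finset (den_P (ee + 4) V) hG.hs.down
    (a := aP (ee + 4) α VP) (j := ee + 4)
    (Mon V (ee + 4 + 1)) (fun n => monomial n 1) (by
      intro n hn
      apply k_large (den_R (ee + 4) V) hG.hs.down (a := fun l v =>
        algebraMap (PR (ee + 4) V) (RR (ee + 4) V) (aP (ee + 4) α VP l v)) (n := ee + 4 + 1)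
      · intro f hf
        exact large_R (red (ee + 4) V) (locHyp hG.hs hG.cs hG.vp) (Nat.lt_succ_self (ee + 4)) hf
      · exact (monomial_hom hn 1).map _)
  refine ⟨(∏ i ∈ N, g i) * s * ∏ i ∈ N, gS i, mul_ne_zero
    (mul_ne_zero (Finset.prod_ne_zero_iff.mpr (fun i _ => hg i)) hs)
    (Finset.prod_ne_zero_iff.mpr (fun i _ => hgS i)), ?_⟩
  intro k _ ψ hψ
  rw [map_mul, map_mul, map_prod, map_prod] at hψ
  have hψS : ∀ i ∈ N, ψ (gS i) ≠ 0 := Finset.prod_ne_zero_iff.mp (right_ne_zero_of_mul hψ)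
  have hψs : ψ s ≠ 0 := right_ne_zero_of_mul (left_ne_zero_of_mul hψ)
  have hψg : ∀ i ∈ N, ψ (g i) ≠ 0 :=
    Finset.prod_ne_zero_iff.mp (left_ne_zero_of_mul (left_ne_zero_of_mul hψ))
  refine ⟨?_, ?_⟩
  · intro i hi
    refine ⟨?_, ?_⟩
    · intro x hx hw
      obtain ⟨L, hLc⟩ := hL i hi
      exact h1 ψ Δ hG.hs.down (aP (ee + 4) α VP) (ee + 4) (wP (ee + 4) α VP) i 1 (g i) L hLc
        (by omega) (welA_hom _ _ _ _) (hψg i hi) x hx (by rwa [pow_one])
    · intro j hj y hy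
      exact hLS i hi ψ (hψS i hi) j hj y hy
  · have hbase : ∀ f : MvPolynomial V k, f.IsHomogeneous (ee + 4 + 1) →
        f ∈ Jid Δ (fun l v => ψ (aP (ee + 4) α VP l v)) (ee + 4) := by
      intro f hf
      rw [hom_sum_Mon hf]
      apply Ideal.sum_mem
      intro m hm
      apply Ideal.mul_mem_left
      have h1 := map_J ψ hG.hs.down (hlarge m hm)
      rw [map_mul, map_C, map_mon_one] at h1
      have h2 := Ideal.mul_mem_left _ (C (ψ s)⁻¹) h1
      rw [← mul_assoc, ← map_mul, inv_mul_cancel₀ hψs, map_one, one_mul] at h2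
      exact h2
    intro n hn
    obtain ⟨m, rfl⟩ : ∃ m, n = ee + 4 + 1 + m := ⟨n - (ee + 4 + 1), by omega⟩
    clear hn
    induction m with
    | zero => intro f hf; exact hbase f hf
    | succ m ih =>
      intro f hf
      obtain ⟨f', hf'1, hf'2⟩ := hom_split (show f.IsHomogeneous (ee + 4 + 1 + m + 1) from hf)
      rw [hf'2]
      apply Ideal.sum_mem
      intro v _
      exact Ideal.mul_mem_left _ _ (ih _ (hf'1 v))

end CSLef.DG
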