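import Mathlib
import Pool.Agent.Work.MP_38c61c_al.DG.StmtsV

/-!
Block DG, item InjV: injectivity of the multiplication by the Lefschetz element in degree `i` over
the local ring, from divisibility by 2 of the eigenvectors in the kernel.
-/

namespace CSLef.DG

open MvPolynomial Finset

theorem pr_InjV {ee : ℕ} {V : Type} [Fintype V] [DecidableEq V] {R : Type} [CommRing R] [IsDomain R]
    (D : Dat ee V R) (hC : Ctx D) [IsLocalRing R] [IsNoetherianRing R] :
    StInjV D := by
  intro hmax i h1 x hx hw
  have hwα : rename D.α D.w - D.w ∈ D.J := rename_welA hC.cs.invol hC.vp hC.anti D.μ D.c D.Δ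
  have hren : ∀ {f : MvPolynomial V R}, f ∈ D.J → rename D.α f ∈ D.J :=
    fun hf => rename_J hC.cs hC.anti hf
  -- main claim
  have main : ∀ ε : R, ε * ε = 1 → ∀ y : MvPolynomial V R, y.IsHomogeneous i →
      D.w * y ∈ D.J → rename D.α y - ε • y ∈ D.J → y ∈ D.J := by
    intro ε hε y0 hy0 hwy0 hαy0
    let N : Submodule R (MvPolynomial V R) := D.J.restrictScalars R
    let U : Submodule R (MvPolynomial V R) :=
      { carrier := {x | x.IsHomogeneous i ∧ D.w * x ∈ D.J ∧ rename D.α x - ε • x ∈ D.J}
        add_mem' := by
          rintro x y ⟨h1, h2, h3⟩ ⟨h4, h5, h6⟩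
          refine ⟨h1.add h4, by rw [mul_add]; exact Ideal.add_mem _ h2 h5, ?_⟩
          have h7 := Ideal.add_mem _ h3 h6
          have h8 : rename D.α (x + y) - ε • (x + y) =
              (rename D.α x - ε • x) + (rename D.α y - ε • y) := by
            rw [map_add, smul_add]
            ring
          rw [h8]
          exact h7
        zero_mem' := ⟨isHomogeneous_zero _ _ _, by rw [mul_zero]; exact Ideal.zero_mem _,
          by rw [map_zero, smul_zero, sub_zero]; exact Ideal.zero_mem _⟩
        smul_mem' := by
          rintro r x ⟨h1, h2, h3⟩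
          refine ⟨?_, ?_, ?_⟩
          · rw [smul_eq_C_mul]
            have h4 := (isHomogeneous_C V r).mul h1
            rwa [zero_add] at h4
          · rw [smul_eq_C_mul, mul_left_comm]
            exact Ideal.mul_mem_left _ _ h2
          · have h7 := Ideal.mul_mem_left _ (C r) h3
            have h8 : rename D.α (r • x) - ε • (r • x) = C r * (rename D.α x - ε • x) := by
              rw [map_smul, mul_sub, smul_eq_C_mul, smul_eq_C_mul, smul_eq_C_mul, smul_eq_C_mul]
              ring
            rw [h8]
            exact h7 }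
    have hUN : U ≤ N := by
      apply nak hmax (n := i) N U (fun x hx => (mem_homogeneousSubmodule i x).mpr hx.1)
      rintro y ⟨hy1, hy2, hy3⟩
      obtain ⟨u, hu, he⟩ := h1 ε y hε hy1 hy2 hy3
      refine ⟨y - (2 : R) • u, he, u, ⟨hu, ?_, ?_⟩, by ring⟩
      · apply hC.tors
        have h4 : (2 : R) • (D.w * u) = D.w * y - D.w * (y - (2 : R) • u) := by
          rw [mul_sub, mul_smul_comm]; ring
        rw [h4]
        exact Ideal.sub_mem _ hy2 (Ideal.mul_mem_left _ _ he)
      · apply hC.tors
        have h4 : (2 : R) • (rename D.α u - ε • u) =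
            (rename D.α y - ε • y) -
              (rename D.α (y - (2 : R) • u) - ε • (y - (2 : R) • u)) := by
          rw [map_sub, map_smul, smul_sub, smul_sub, smul_comm (2 : R) ε u]
          ring
        rw [h4]
        apply Ideal.sub_mem _ hy3
        apply Ideal.sub_mem _ (hren he)
        rw [smul_eq_C_mul]
        exact Ideal.mul_mem_left _ _ he
    exact hUN ⟨hy0, hwy0, hαy0⟩
  -- splitting into eigenvectors
  have hwαx : D.w * rename D.α x ∈ D.J := by
    have h2 := hren hw
    rw [map_mul] at h2
    have h3 := Ideal.sub_mem _ h2 (Ideal.mul_mem_right (rename D.α x) _ hwα)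
    have h4 : D.w * rename D.α x =
        rename D.α D.w * rename D.α x - (rename D.α D.w - D.w) * rename D.α x := by ring
    rw [h4]
    exact h3
  have hαx : (rename D.α x).IsHomogeneous i := hx.rename_isHomogeneous
  have h2 : x + rename D.α x ∈ D.J := by
    apply main 1 (one_mul 1) _ (hx.add hαx)
    · rw [mul_add]; exact Ideal.add_mem _ hw hwαx
    · rw [map_add, rename_rename_inv hC.cs.invol, one_smul, add_comm, sub_self]
      exact Ideal.zero_mem _
  have h3 : x - rename D.α x ∈ D.J := by
    apply main (-1) (by ring) _ (hx.sub hαx)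
    · rw [mul_sub]; exact Ideal.sub_mem _ hw hwαx
    · rw [map_sub, rename_rename_inv hC.cs.invol, neg_smul, one_smul, sub_neg_eq_add,
        sub_add_sub_cancel, sub_self]
      exact Ideal.zero_mem _
  apply hC.tors
  have h4 : (2 : R) • x = (x + rename D.α x) + (x - rename D.α x) := by
    rw [two_smul]
    ring
  rw [h4]
  exact Ideal.add_mem _ h2 h3

end CSLef.DG
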