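import Mathlib
import Pool.Agent.Work.MP_38c61c_al.DG.StmtsX

/-! Block DG, item Pmm (helper12): permanents and ring homomorphisms. -/

namespace CSLef.DG

open MvPolynomial Finset

theorem pr_Pmm : StPmm := by
  intro V _ _ A B _ _ f VP a L S
  unfold pmA
  rw [← MvPolynomial.coeff_map, map_prod]
  simp only [map_sum, map_mul, MvPolynomial.map_C, MvPolynomial.map_X]

end CSLef.DG
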