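import Mathlib
import Pool.Agent.Work.MP_38c61c_al.DG.StmtsX

/-!
Block DG, item Sp: specialization to integers.
-/

namespace CSLef.DG

open MvPolynomial Finset

theorem pr_Sp (ee : ℕ) {V : Type} [Fintype V] [DecidableEq V] : StSp ee (V := V) := by
  intro P χ h
  have h1 : algebraMap (PR (ee + 4) V) (RR (ee + 4) V) P ∈
      IsLocalRing.maximalIdeal (RR (ee + 4) V) := by
    rw [max_eq, Ideal.mem_span_singleton]
    exact h
  rw [IsLocalization.AtPrime.to_map_mem_maximal_iff (RR (ee + 4) V)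
    (Ideal.span {(2 : PR (ee + 4) V)}), Ideal.mem_span_singleton] at h1
  obtain ⟨Q, rfl⟩ := h1
  refine ⟨χ Q, ?_⟩
  rw [map_mul, map_ofNat]

end CSLef.DG
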