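import Mathlib
import Pool.Agent.Work.MP_38c61c_al.DG.StmtsX

/-!
Block DG, item XT: the functionals in degree (ee + 5) over the generic ring.
-/

namespace CSLef.DG

open MvPolynomial Finset

namespace IXT

variable {V : Type} [Fintype V] [DecidableEq V]

theorem homComp_rename {R : Type} [CommRing R] {α : Equiv.Perm V} (hinv : ∀ v, α (α v) = v)
    (n : ℕ) (g : MvPolynomial V R) :
    homogeneousComponent n (rename α g) = rename α (homogeneousComponent n g) := by
  ext m
  rw [coeff_homogeneousComponent, coeff_rename_inv hinv,
    coeff_rename_inv hinv, coeff_homogeneousComponent]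
  have : (m.mapDomain α).degree = m.degree := Finsupp.degree_mapDomain _ _
  rw [this]

/-- a functional which vanishes in the degrees other than `n` sees the component of degree `n` -/
theorem eq_homComp {R : Type} [CommRing R] {n : ℕ} {e : MvPolynomial V R →ₗ[R] R}
    (h : ∀ n', n' ≠ n → ∀ f : MvPolynomial V R, f.IsHomogeneous n' → e f = 0)
    (f : MvPolynomial V R) : e (homogeneousComponent n f) = e f := by
  conv_rhs => rw [← sum_homogeneousComponent f]
  rw [map_sum]
  by_cases hn : n < f.totalDegree + 1
  · rw [Finset.sum_eq_single n]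
    · intro b _ hb
      exact h b hb _ (homogeneousComponent_isHomogeneous b f)
    · intro hb
      exact absurd (Finset.mem_range.mpr hn) hb
  · rw [homogeneousComponent_eq_zero n f (by omega), map_zero]
    symm
    apply Finset.sum_eq_zero
    intro b hb
    have hb' := Finset.mem_range.mp hb
    exact h b (by omega) _ (homogeneousComponent_isHomogeneous b f)

/-- expression of the component of degree (ee + 5) -/
def Exp6 (ee : ℕ) {R : Type} [CommRing R] (Δ : Finset (Finset V)) (a : ℕ → V → R)
    (f : MvPolynomial V R) (g : ℕ → MvPolynomial V R) : Prop :=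
  homogeneousComponent (ee + 5) f - ∑ l ∈ range (ee + 4), lin (a l) * g l ∈ srIdeal R Δ

end IXT

open IXT

/-- item XT -/
theorem pr_XT (ee : ℕ) {V : Type} [Fintype V] [DecidableEq V] (Δ : Finset (Finset V)) (α : Equiv.Perm V)
    (VP : Finset V) (hG : HG ee Δ α VP) : StXT ee Δ α VP := by
  intro σ hσ hσ6 dg hdg hdga
  have H : LocHyp (red (ee + 4) V) Δ (ee + 4) (ga ee α VP) := locHyp hG.hs hG.cs hG.vp
  have hdown := hG.hs.down
  have ha : ∀ l v, ga ee α VP l (α v) = - ga ee α VP l v := by
    intro l v
    unfold ga
    rw [aP_inv hG.cs.invol hG.vp, map_neg]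
  have hex : ∀ f : MvPolynomial V (RR (ee + 4) V), ∃ g : ℕ → MvPolynomial V (RR (ee + 4) V),
      Exp6 ee Δ (ga ee α VP) f g := by
    intro f
    have h1 : homogeneousComponent (ee + 5) f ∈ Jid Δ (ga ee α VP) (ee + 4) :=
      large_R (red (ee + 4) V) H (by omega) (homogeneousComponent_isHomogeneous (ee + 5) f)
    exact (mem_J_iff (ee + 4) _).mp h1
  choose G hGx using hex
  -- independence of the choice
  have huniq : ∀ (f : MvPolynomial V (RR (ee + 4) V)) (g : ℕ → MvPolynomial V (RR (ee + 4) V)),
      Exp6 ee Δ (ga ee α VP) f g → ∀ m < (ee + 4), dg (G f m) = dg (g m) := by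
    intro f g hg m hm
    have h1 := Ideal.sub_mem _ hg (hGx f)
    have h2 : ∑ l ∈ range (ee + 4), lin (ga ee α VP l) * (G f l - g l) ∈ srIdeal (RR (ee + 4) V) Δ := by
      have e : ∑ l ∈ range (ee + 4), lin (ga ee α VP l) * (G f l - g l) =
          (homogeneousComponent (ee + 5) f - ∑ l ∈ range (ee + 4), lin (ga ee α VP l) * g l) -
          (homogeneousComponent (ee + 5) f - ∑ l ∈ range (ee + 4), lin (ga ee α VP l) * G f l) := by
        simp only [mul_sub, Finset.sum_sub_distrib]
        ring
      rw [e]
      exact h1
    have h3 := syz_J H (ee + 4) le_rfl _ h2 m hm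
    have h4 := hdg.J _ h3
    rw [map_sub] at h4
    exact sub_eq_zero.mp h4
  have hval : ∀ (m : ℕ), m < (ee + 4) → ∀ (f : MvPolynomial V (RR (ee + 4) V)) (g : ℕ → MvPolynomial V (RR (ee + 4) V)),
      Exp6 ee Δ (ga ee α VP) f g → dg (G f m) = dg (g m) := fun m hm f g hg => huniq f g hg m hm
  let T : ℕ → MvPolynomial V (RR (ee + 4) V) →ₗ[RR (ee + 4) V] RR (ee + 4) V := fun m =>
    if hm : m < (ee + 4) then
      { toFun := fun f => dg (G f m)
        map_add' := by
          intro f f'
          rw [hval m hm (f + f') (fun l => G f l + G f' l) (by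
            have h1 := Ideal.add_mem _ (hGx f) (hGx f')
            unfold Exp6
            have e : homogeneousComponent (ee + 5) (f + f') -
                ∑ l ∈ range (ee + 4), lin (ga ee α VP l) * (G f l + G f' l) =
                (homogeneousComponent (ee + 5) f - ∑ l ∈ range (ee + 4), lin (ga ee α VP l) * G f l) +
                (homogeneousComponent (ee + 5) f' - ∑ l ∈ range (ee + 4), lin (ga ee α VP l) * G f' l) := by
              simp only [map_add, mul_add, Finset.sum_add_distrib]
              ring
            rw [e]
            exact h1), map_add]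
        map_smul' := by
          intro r f
          rw [hval m hm (r • f) (fun l => r • G f l) (by
            have h1 := Ideal.mul_mem_left _ (C r) (hGx f)
            unfold Exp6
            have e : homogeneousComponent (ee + 5) (r • f) -
                ∑ l ∈ range (ee + 4), lin (ga ee α VP l) * (r • G f l) =
                C r * (homogeneousComponent (ee + 5) f - ∑ l ∈ range (ee + 4), lin (ga ee α VP l) * G f l) := by
              rw [map_smul, mul_sub, Finset.mul_sum, smul_eq_C_mul]
              congr 1
              apply Finset.sum_congr rfl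
              intro l _
              rw [smul_eq_C_mul]
              ring
            rw [e]
            exact h1), map_smul]
          rfl }
    else 0
  have hT : ∀ m < (ee + 4), ∀ f, T m f = dg (G f m) := by
    intro m hm f
    simp only [T, dif_pos hm]
    rfl
  have hT0 : ∀ m, ¬ m < (ee + 4) → T m = 0 := by
    intro m hm
    simp only [T, dif_neg hm]
  refine ⟨T, ?_, ?_, ?_, ?_⟩
  · intro m f hf
    by_cases hm : m < (ee + 4)
    · rw [hT m hm, hval m hm f (fun _ => 0) ?_, map_zero]
      unfold Exp6
      simp only [mul_zero, Finset.sum_const_zero, sub_zero]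
      exact homComp_sr hdown (ee + 5) hf
    · rw [hT0 m hm]
      rfl
  · intro m hm l hl f
    rw [hT m hm, hval m hm _ (fun l' => if l' = l then homogeneousComponent (ee + 4) f else 0) ?_]
    · by_cases hlm : l = m
      · subst hlm
        rw [if_pos rfl, if_pos rfl]
        exact eq_homComp hdg.h f
      · rw [if_neg hlm, if_neg (fun h => hlm h.symm), map_zero]
    · unfold Exp6
      have h1 : homogeneousComponent (ee + 5) (lin (ga ee α VP l) * f) =
          lin (ga ee α VP l) * homogeneousComponent (ee + 4) f := homComp_lin_mul (ee + 4) _ f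
      have h2 : ∑ l' ∈ range (ee + 4), lin (ga ee α VP l') *
          (if l' = l then homogeneousComponent (ee + 4) f else 0) =
          lin (ga ee α VP l) * homogeneousComponent (ee + 4) f := by
        rw [Finset.sum_eq_single l]
        · rw [if_pos rfl]
        · intro b _ hb
          rw [if_neg hb, mul_zero]
        · intro hb
          exact absurd (Finset.mem_range.mpr hl) hb
      rw [h1, h2, sub_self]
      exact Ideal.zero_mem _
  · intro m n hn f hf
    by_cases hm : m < (ee + 4)
    · rw [hT m hm, hval m hm f (fun _ => 0) ?_, map_zero]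
      unfold Exp6
      simp only [mul_zero, Finset.sum_const_zero, sub_zero]
      rw [homogeneousComponent_of_mem ((mem_homogeneousSubmodule n f).mpr hf), if_neg hn.symm]
      exact Ideal.zero_mem _
    · rw [hT0 m hm]
      rfl
  · intro m hm f
    rw [hT m hm, hT m hm, hval m hm _ (fun l => - rename α (G f l)) ?_, map_neg, hdga]
    unfold Exp6
    rw [homComp_rename hG.cs.invol]
    have h1 := rename_sr hG.cs (hGx f)
    rw [map_sub, map_sum] at h1
    have e : ∑ l ∈ range (ee + 4), lin (ga ee α VP l) * (- rename α (G f l)) =
        ∑ l ∈ range (ee + 4), rename α (lin (ga ee α VP l) * G f l) := by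
      apply Finset.sum_congr rfl
      intro l _
      rw [map_mul, rename_lin_neg hG.cs.invol ha]
      ring
    rw [e]
    exact h1

end CSLef.DG
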