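import Mathlib
import Pool.Agent.Work.MP_38c61c_al.DG.Stmts

/-!
Block D6, item PhX: values of the functionals `φ_H` on multiples of a variable.
-/

namespace CSLef.DG

open MvPolynomial Finset

namespace IPhX

variable {ee : ℕ} {V : Type} [Fintype V] [DecidableEq V] {R : Type} [CommRing R]

theorem ex_apply (S : Finset V) (w : V) : ex S w = if w ∈ S then 1 else 0 := by
  unfold ex
  rw [Finsupp.finset_sum_apply]
  simp only [Finsupp.single_apply]
  rw [Finset.sum_ite_eq']

theorem ex_erase (S : Finset V) (u : V) : ex S - Finsupp.single u 1 = ex (S.erase u) := by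
  ext w
  rw [Finsupp.tsub_apply, ex_apply, ex_apply, Finsupp.single_apply]
  by_cases h1 : u = w
  · subst h1
    by_cases h2 : u ∈ S <;> simp [h2]
  · have h1' : ¬ w = u := fun h => h1 h.symm
    by_cases h2 : w ∈ S <;> simp [h1, h1', h2]

theorem coeff_X (S : Finset V) (u : V) (f : MvPolynomial V R) :
    coeff (ex S) (X u * f) = if u ∈ S then coeff (ex (S.erase u)) f else 0 := by
  rw [coeff_X_mul', ex_erase]
  have h : u ∈ (ex S).support ↔ u ∈ S := by
    rw [Finsupp.mem_support_iff, ex_apply]
    by_cases h2 : u ∈ S <;> simp [h2]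
  by_cases h2 : u ∈ S
  · rw [if_pos h2, if_pos (h.2 h2)]
  · rw [if_neg h2, if_neg (fun h3 => h2 (h.1 h3))]

theorem mem_flip (α : Equiv.Perm V) (G T : Finset V) (x : V) :
    x ∈ flip α G T ↔ (x ∈ G ∧ x ∉ T) ∨ ∃ t ∈ T, α t = x := by
  unfold flip
  simp only [mem_union, mem_sdiff, mem_image]

theorem ph_X (D : Dat ee V R) (H : Finset V) (u : V) (f : MvPolynomial V R) :
    D.ph H (X u * f) = ∑ T ∈ H.powerset,
      if u ∈ flip D.α H T then coeff (ex ((flip D.α H T).erase u)) f else 0 := by
  unfold Dat.ph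
  rw [LinearMap.sum_apply]
  exact Finset.sum_congr rfl fun T _ => coeff_X _ _ _

theorem ph_eq (D : Dat ee V R) (H : Finset V) (f : MvPolynomial V R) :
    D.ph H f = ∑ T ∈ H.powerset, coeff (ex (flip D.α H T)) f := by
  unfold Dat.ph
  rw [LinearMap.sum_apply]
  rfl

end IPhX

theorem pr_PhX {ee : ℕ} {V : Type} [Fintype V] [DecidableEq V] {R : Type} [CommRing R] [IsDomain R]
    (D : Dat ee V R) (hC : Ctx D) : StPhX D := by
  have hα : ∀ t ∈ D.VP, D.α t ∉ D.VP := fun t ht => (hC.vp t).1 ht
  refine ⟨?_, ?_⟩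
  · intro H hH v hv f
    refine ⟨fun hvH => ?_, fun hvH => ?_⟩
    · obtain ⟨K, hK, hvK⟩ : ∃ K, H = insert v K ∧ v ∉ K :=
        ⟨H.erase v, (Finset.insert_erase hvH).symm, Finset.notMem_erase v H⟩
      have hKVP : K ⊆ D.VP := fun x hx => hH (hK ▸ Finset.mem_insert_of_mem hx)
      have hHe : H.erase v = K := by rw [hK, Finset.erase_insert hvK]
      have hαv : D.α v ∉ D.VP := hα v hv
      rw [hHe, IPhX.ph_X, IPhX.ph_X, IPhX.ph_eq, hK, Finset.sum_powerset_insert hvK,
        Finset.sum_powerset_insert hvK]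
      refine ⟨?_, ?_⟩
      · rw [Finset.sum_eq_zero (s := K.powerset) (f := fun T =>
          if v ∈ flip D.α (insert v K) (insert v T) then
            coeff (ex ((flip D.α (insert v K) (insert v T)).erase v)) f else 0), add_zero]
        · refine Finset.sum_congr rfl fun T hT => ?_
          have hT' : T ⊆ K := Finset.mem_powerset.1 hT
          have hvT : v ∉ T := fun h => hvK (hT' h)
          rw [if_pos ((IPhX.mem_flip _ _ _ _).2 (Or.inl ⟨Finset.mem_insert_self _ _, hvT⟩))]
          congr 2
          ext x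
          rw [Finset.mem_erase, IPhX.mem_flip, IPhX.mem_flip]
          constructor
          · rintro ⟨hx, ⟨h1, h2⟩ | h1⟩
            · exact Or.inl ⟨(Finset.mem_insert.1 h1).resolve_left hx, h2⟩
            · exact Or.inr h1
          · rintro (⟨h1, h2⟩ | ⟨t, ht, rfl⟩)
            · exact ⟨fun h => hvK (h ▸ h1), Or.inl ⟨Finset.mem_insert_of_mem h1, h2⟩⟩
            · exact ⟨fun h => hα t (hKVP (hT' ht)) (h ▸ hv), Or.inr ⟨t, ht, rfl⟩⟩
        · intro T hT
          have hT' : T ⊆ K := Finset.mem_powerset.1 hT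
          rw [if_neg]
          rw [IPhX.mem_flip]
          rintro (⟨-, h2⟩ | ⟨t, ht, h2⟩)
          · exact h2 (Finset.mem_insert_self _ _)
          · have h3 : t ∈ D.VP := by
              rcases Finset.mem_insert.1 ht with h4 | h4
              · rw [h4]; exact hv
              · exact hKVP (hT' h4)
            exact hα t h3 (h2 ▸ hv)
      · rw [Finset.sum_eq_zero (s := K.powerset) (f := fun T =>
          if D.α v ∈ flip D.α (insert v K) T then
            coeff (ex ((flip D.α (insert v K) T).erase (D.α v))) f else 0), zero_add]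
        · refine Finset.sum_congr rfl fun T hT => ?_
          have hT' : T ⊆ K := Finset.mem_powerset.1 hT
          have hvT : v ∉ T := fun h => hvK (hT' h)
          rw [if_pos ((IPhX.mem_flip _ _ _ _).2
            (Or.inr ⟨v, Finset.mem_insert_self _ _, rfl⟩))]
          congr 2
          ext x
          rw [Finset.mem_erase, IPhX.mem_flip, IPhX.mem_flip]
          constructor
          · rintro ⟨hx, ⟨h1, h2⟩ | ⟨t, ht, rfl⟩⟩
            · have hxv : x ≠ v := fun h => h2 (h ▸ Finset.mem_insert_self _ _)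
              exact Or.inl ⟨(Finset.mem_insert.1 h1).resolve_left hxv,
                fun h => h2 (Finset.mem_insert_of_mem h)⟩
            · have htv : t ≠ v := fun h => hx (h ▸ rfl)
              exact Or.inr ⟨t, (Finset.mem_insert.1 ht).resolve_left htv, rfl⟩
          · rintro (⟨h1, h2⟩ | ⟨t, ht, rfl⟩)
            · refine ⟨fun h => hαv (h ▸ hKVP h1), Or.inl ⟨Finset.mem_insert_of_mem h1, ?_⟩⟩
              intro h3
              rcases Finset.mem_insert.1 h3 with h4 | h4
              · exact hvK (h4 ▸ h1)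
              · exact h2 h4
            · exact ⟨fun h => hvT ((D.α.injective h) ▸ ht),
                Or.inr ⟨t, Finset.mem_insert_of_mem ht, rfl⟩⟩
        · intro T hT
          have hT' : T ⊆ K := Finset.mem_powerset.1 hT
          rw [if_neg]
          rw [IPhX.mem_flip]
          rintro (⟨h1, -⟩ | ⟨t, ht, h2⟩)
          · rcases Finset.mem_insert.1 h1 with h4 | h4
            · exact hC.cs.fpf v h4
            · exact hαv (hKVP h4)
          · exact hvK ((D.α.injective h2) ▸ hT' ht)
    · rw [IPhX.ph_X, IPhX.ph_X]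
      refine ⟨Finset.sum_eq_zero fun T hT => ?_, Finset.sum_eq_zero fun T hT => ?_⟩
      · have hT' : T ⊆ H := Finset.mem_powerset.1 hT
        rw [if_neg]
        rw [IPhX.mem_flip]
        rintro (⟨h1, -⟩ | ⟨t, ht, h2⟩)
        · exact hvH h1
        · exact hα t (hH (hT' ht)) (h2 ▸ hv)
      · have hT' : T ⊆ H := Finset.mem_powerset.1 hT
        rw [if_neg]
        rw [IPhX.mem_flip]
        rintro (⟨h1, -⟩ | ⟨t, ht, h2⟩)
        · exact hα v hv (hH h1)
        · exact hvH ((D.α.injective h2) ▸ hT' ht)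
  · rintro H ⟨hH1, hH2⟩ H' hH'
    refine ⟨hH'.trans hH1, fun T hT => ?_⟩
    have hT' : T ⊆ H' := Finset.mem_powerset.1 hT
    refine hC.hs.down _ (hH2 T (Finset.mem_powerset.2 (hT'.trans hH'))) _ ?_
    intro x hx
    rw [IPhX.mem_flip] at hx ⊢
    rcases hx with ⟨h1, h2⟩ | h1
    · exact Or.inl ⟨hH' h1, h2⟩
    · exact Or.inr h1

end CSLef.DG
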