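import Mathlib
import Pool.Agent.Work.MP_38c61c_al.DG.StmtsX
import Pool.Agent.Work.MP_38c61c_al.DG.I_PhX
import Pool.Agent.Work.MP_38c61c_al.DG.I_Ph
import Pool.Agent.Work.MP_38c61c_al.DG.I_PhA

/-!
Block DG, item Xall: the context exists over the generic ring. The facts about the functionals
`ph H` are proved again from the combinatorial part of the context only (structure `C0`).
-/

namespace CSLef.DG

open MvPolynomial Finset

namespace IXall

section

variable {ee : ℕ} {V : Type} [Fintype V] [DecidableEq V] {R : Type} [CommRing R] [IsDomain R]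

/-- the combinatorial part of the context -/
structure C0 (D : Dat ee V R) : Prop where
  hs : IsHomSphere D.Δ (ee + 4)
  cs : IsCS D.Δ D.α
  vp : ∀ v, v ∈ D.VP ↔ D.α v ∉ D.VP
  anti : ∀ l v, D.a l (D.α v) = - D.a l v

theorem phX (D : Dat ee V R) (hC : C0 D) : StPhX D := by
  have hα : ∀ t ∈ D.VP, D.α t ∉ D.VP := fun t ht => (hC.vp t).1 ht
  refine ⟨?_, ?_⟩
  · intro H hH v hv f
    refine ⟨fun hvH => ?_, fun hvH => ?_⟩
    · obtain ⟨K, hK, hvK⟩ : ∃ K, H = insert v K ∧ v ∉ K :=
        ⟨H.erase v, (Finset.insert_erase hvH).symm, Finset.notMem_erase v H⟩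
      have hKVP : K ⊆ D.VP := fun x hx => hH (hK ▸ Finset.mem_insert_of_mem hx)
      have hHe : H.erase v = K := by rw [hK, Finset.erase_insert hvK]
      have hαv : D.α v ∉ D.VP := hα v hv
      rw [hHe, IPhX.ph_X, IPhX.ph_X, IPhX.ph_eq, hK, Finset.sum_powerset_insert hvK,
        Finset.sum_powerset_insert hvK]
      refine ⟨?_, ?_⟩
      · rw [Finset.sum_eq_zero (s := K.powerset) (f := fun T =>
          if v ∈ flip D.α (insert v K) (insert v T) then
            coeff (ex ((flip D.α (insert v K) (insert v T)).erase v)) f else 0), add_zero]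
        · refine Finset.sum_congr rfl fun T hT => ?_
          have hT' : T ⊆ K := Finset.mem_powerset.1 hT
          have hvT : v ∉ T := fun h => hvK (hT' h)
          rw [if_pos ((IPhX.mem_flip _ _ _ _).2 (Or.inl ⟨Finset.mem_insert_self _ _, hvT⟩))]
          congr 2
          ext x
          rw [Finset.mem_erase, IPhX.mem_flip, IPhX.mem_flip]
          constructor
          · rintro ⟨hx, ⟨h1, h2⟩ | h1⟩
            · exact Or.inl ⟨(Finset.mem_insert.1 h1).resolve_left hx, h2⟩
            · exact Or.inr h1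
          · rintro (⟨h1, h2⟩ | ⟨t, ht, rfl⟩)
            · exact ⟨fun h => hvK (h ▸ h1), Or.inl ⟨Finset.mem_insert_of_mem h1, h2⟩⟩
            · exact ⟨fun h => hα t (hKVP (hT' ht)) (h ▸ hv), Or.inr ⟨t, ht, rfl⟩⟩
        · intro T hT
          have hT' : T ⊆ K := Finset.mem_powerset.1 hT
          rw [if_neg]
          rw [IPhX.mem_flip]
          rintro (⟨-, h2⟩ | ⟨t, ht, h2⟩)
          · exact h2 (Finset.mem_insert_self _ _)
          · have h3 : t ∈ D.VP := by
              rcases Finset.mem_insert.1 ht with h4 | h4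
              · rw [h4]; exact hv
              · exact hKVP (hT' h4)
            exact hα t h3 (h2 ▸ hv)
      · rw [Finset.sum_eq_zero (s := K.powerset) (f := fun T =>
          if D.α v ∈ flip D.α (insert v K) T then
            coeff (ex ((flip D.α (insert v K) T).erase (D.α v))) f else 0), zero_add]
        · refine Finset.sum_congr rfl fun T hT => ?_
          have hT' : T ⊆ K := Finset.mem_powerset.1 hT
          have hvT : v ∉ T := fun h => hvK (hT' h)
          rw [if_pos ((IPhX.mem_flip _ _ _ _).2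
            (Or.inr ⟨v, Finset.mem_insert_self _ _, rfl⟩))]
          congr 2
          ext x
          rw [Finset.mem_erase, IPhX.mem_flip, IPhX.mem_flip]
          constructor
          · rintro ⟨hx, ⟨h1, h2⟩ | ⟨t, ht, rfl⟩⟩
            · have hxv : x ≠ v := fun h => h2 (h ▸ Finset.mem_insert_self _ _)
              exact Or.inl ⟨(Finset.mem_insert.1 h1).resolve_left hxv,
                fun h => h2 (Finset.mem_insert_of_mem h)⟩
            · have htv : t ≠ v := fun h => hx (h ▸ rfl)
              exact Or.inr ⟨t, (Finset.mem_insert.1 ht).resolve_left htv, rfl⟩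
          · rintro (⟨h1, h2⟩ | ⟨t, ht, rfl⟩)
            · refine ⟨fun h => hαv (h ▸ hKVP h1), Or.inl ⟨Finset.mem_insert_of_mem h1, ?_⟩⟩
              intro h3
              rcases Finset.mem_insert.1 h3 with h4 | h4
              · exact hvK (h4 ▸ h1)
              · exact h2 h4
            · exact ⟨fun h => hvT ((D.α.injective h) ▸ ht),
                Or.inr ⟨t, Finset.mem_insert_of_mem ht, rfl⟩⟩
        · intro T hT
          have hT' : T ⊆ K := Finset.mem_powerset.1 hT
          rw [if_neg]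
          rw [IPhX.mem_flip]
          rintro (⟨h1, -⟩ | ⟨t, ht, h2⟩)
          · rcases Finset.mem_insert.1 h1 with h4 | h4
            · exact hC.cs.fpf v h4
            · exact hαv (hKVP h4)
          · exact hvK ((D.α.injective h2) ▸ hT' ht)
    · rw [IPhX.ph_X, IPhX.ph_X]
      refine ⟨Finset.sum_eq_zero fun T hT => ?_, Finset.sum_eq_zero fun T hT => ?_⟩
      · have hT' : T ⊆ H := Finset.mem_powerset.1 hT
        rw [if_neg]
        rw [IPhX.mem_flip]
        rintro (⟨h1, -⟩ | ⟨t, ht, h2⟩)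
        · exact hvH h1
        · exact hα t (hH (hT' ht)) (h2 ▸ hv)
      · have hT' : T ⊆ H := Finset.mem_powerset.1 hT
        rw [if_neg]
        rw [IPhX.mem_flip]
        rintro (⟨h1, -⟩ | ⟨t, ht, h2⟩)
        · exact hα v hv (hH h1)
        · exact hvH ((D.α.injective h2) ▸ hT' ht)
  · rintro H ⟨hH1, hH2⟩ H' hH'
    refine ⟨hH'.trans hH1, fun T hT => ?_⟩
    have hT' : T ⊆ H' := Finset.mem_powerset.1 hT
    refine hC.hs.down _ (hH2 T (Finset.mem_powerset.2 (hT'.trans hH'))) _ ?_
    intro x hx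
    rw [IPhX.mem_flip] at hx ⊢
    rcases hx with ⟨h1, h2⟩ | h1
    · exact Or.inl ⟨hH' h1, h2⟩
    · exact Or.inr h1

theorem phJ (D : Dat ee V R) (hC : C0 D) (h1 : StPhX D) : StPh D := by
  intro H hH
  have hz1 : ∀ v ∈ D.VP, ∀ f : MvPolynomial V R, D.ph H (D.z v * f) = 0 := by
    intro v hv f
    obtain ⟨h2, h3⟩ := h1.1 H hH.1 v hv f
    have e : D.z v * f = X v * f - X (D.α v) * f := by
      unfold Dat.z
      ring
    rw [e, map_sub]
    by_cases hvH : v ∈ H
    · rw [(h2 hvH).1, (h2 hvH).2, sub_self]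
    · rw [(h3 hvH).1, (h3 hvH).2, sub_self]
  have hz : ∀ v, ∀ f : MvPolynomial V R, D.ph H (D.z v * f) = 0 := by
    intro v f
    by_cases hv : v ∈ D.VP
    · exact hz1 v hv f
    · have h4 : D.α v ∈ D.VP := by
        rw [hC.vp (D.α v), hC.cs.invol]
        exact hv
      have e : D.z v * f = -(D.z (D.α v) * f) := by
        unfold Dat.z
        rw [hC.cs.invol]
        ring
      rw [e, map_neg, hz1 _ h4, neg_zero]
  refine ⟨fun f hf => IPh.ph_sr hC.hs.down hH hf, hz, ?_⟩
  intro f hf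
  obtain ⟨g, hg⟩ := (mem_J_iff (ee + 4) f).1 hf
  have e1 : f = (f - ∑ l ∈ range (ee + 4), lin (D.a l) * g l) + ∑ l ∈ range (ee + 4), lin (D.a l) * g l := by
    ring
  rw [e1, map_add, IPh.ph_sr hC.hs.down hH hg, zero_add, map_sum]
  refine Finset.sum_eq_zero fun l _ => ?_
  rw [lin_eq_VP hC.cs.invol hC.vp (hC.anti l), Finset.sum_mul, map_sum]
  refine Finset.sum_eq_zero fun v _ => ?_
  have e2 : C (D.a l v) * (X v - X (D.α v)) * g l = D.z v * (C (D.a l v) * g l) := by
    unfold Dat.z
    ring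
  rw [e2]
  exact hz v _


theorem phA (D : Dat ee V R) (hC : C0 D) (H : Finset V) (hH : D.Full H) :
    (∀ n, n ≠ H.card → ∀ f : MvPolynomial V R, f.IsHomogeneous n → D.ph H f = 0) ∧
      H.card ≤ ee + 4 := by
  obtain ⟨hH1, hF⟩ := hH
  refine ⟨?_, ?_⟩
  · intro n hn f hf
    rw [IPhA.ph_apply]
    refine Finset.sum_eq_zero fun T hT => ?_
    apply hf.coeff_eq_zero
    rw [IPhA.ex_degree, IPhA.card_flip hC.vp hH1 (Finset.mem_powerset.1 hT)]
    exact hn.symm
  · have h1 := hF ∅ (Finset.empty_mem_powerset H)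
    have h2 := hC.hs.card_le _ h1
    rwa [IPhA.card_flip hC.vp hH1 (Finset.empty_subset H)] at h2

/-- from homogeneous `g` of the right degree to all `g` -/
theorem ext_all (dg lam : MvPolynomial V R →ₗ[R] R) (f : MvPolynomial V R) (h : ℕ) (hh : h ≤ ee + 4)
    (hf : f.IsHomogeneous (ee + 4 - h))
    (hdg : ∀ n, n ≠ ee + 4 → ∀ g : MvPolynomial V R, g.IsHomogeneous n → dg g = 0)
    (hlam : ∀ n, n ≠ h → ∀ g : MvPolynomial V R, g.IsHomogeneous n → lam g = 0)
    (he : ∀ g : MvPolynomial V R, g.IsHomogeneous h → dg (f * g) = lam g)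
    (g : MvPolynomial V R) : dg (f * g) = lam g := by
  have hg : g = ∑ n ∈ range (g.totalDegree + 1), homogeneousComponent n g :=
    (sum_homogeneousComponent g).symm
  rw [hg, Finset.mul_sum, map_sum, map_sum]
  refine Finset.sum_congr rfl fun n _ => ?_
  have hn := homogeneousComponent_isHomogeneous n g
  by_cases h1 : n = h
  · subst h1
    exact he _ hn
  · rw [hlam n h1 _ hn]
    exact hdg (ee + 4 - h + n) (by omega) _ (hf.mul hn)

end

end IXall

open IXall in
/-- Item Xall. -/
theorem pr_Xall (ee : ℕ) {V : Type} [Fintype V] [DecidableEq V] (Δ : Finset (Finset V))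
    (α : Equiv.Perm V) (VP : Finset V) (hG : HG ee Δ α VP) (h1 : StXdg ee Δ α VP)
    (h2 : StXdga ee Δ α VP) (h3 : StXT ee Δ α VP) (h4 : StXnd ee Δ α VP)
    (h5 : StXrelb ee Δ α VP) (h6 : StXindT ee α VP) (h7 : StXindP ee α VP)
    (h8 : StXindW ee α VP) (h9 : StXindO ee α VP) (h10 : StXder ee α VP)
    (h11 : StXcube ee V) (h12 : StXdual ee Δ α VP) (h13 : StXtate ee Δ α VP) :
    StXall ee Δ α VP := by
  classical
  intro he
  obtain ⟨σ, hσ, -, hσ6⟩ := exists_facet hG.hs ∅ hG.hs.empty_mem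
  obtain ⟨dg, hdg⟩ := h1 σ hσ hσ6
  have hdga := h2 σ hσ hσ6 dg hdg
  obtain ⟨T, hT1, hT2, hT3, hT4⟩ := h3 σ hσ hσ6 dg hdg hdga
  obtain ⟨hnd, hnd2⟩ := h4 σ hσ hσ6 dg hdg
  have HL : LocHyp (red (ee + 4) V) Δ (ee + 4)
      (fun l v => algebraMap (PR (ee + 4) V) (RR (ee + 4) V) (aP (ee + 4) α VP l v)) :=
    locHyp hG.hs hG.cs hG.vp
  have hanti : ∀ l v, ga ee α VP l (α v) = - ga ee α VP l v := by
    intro l v
    unfold ga
    rw [aP_inv hG.cs.invol hG.vp l v, map_neg]
  have htwo : Prime (2 : RR (ee + 4) V) := by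
    rw [← Ideal.span_singleton_prime HL.two_ne, ← HL.max]
    exact (IsLocalRing.maximalIdeal.isMaximal (RR (ee + 4) V)).isPrime
  let D0 : Dat ee V (RR (ee + 4) V) :=
    ⟨Δ, α, VP, ga ee α VP, gm ee V, gc ee, σ, dg, T, fun _ => 0⟩
  have hC0 : C0 D0 := ⟨hG.hs, hG.cs, hG.vp, hanti⟩
  have hPhX := phX D0 hC0
  have hPh := phJ D0 hC0 hPhX
  have hX : ∀ H, ∃ f : MvPolynomial V (RR (ee + 4) V), D0.Full H →
      f.IsHomogeneous (ee + 4 - H.card) ∧ ∀ g, dg (f * g) = D0.ph H g := by
    intro H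
    by_cases hH : D0.Full H
    · obtain ⟨hb, hc⟩ := phA D0 hC0 H hH
      obtain ⟨f, hf1, hf2⟩ := h12 σ hσ hσ6 dg hdg H.card hc (D0.ph H)
        (fun g hg _ => (hPh H hH).2.2 g hg)
      exact ⟨f, fun _ => ⟨hf1, fun g => ext_all dg (D0.ph H) f H.card hc hf1 hdg.h hb hf2 g⟩⟩
    · exact ⟨0, fun h => absurd h hH⟩
  choose XH hXH using hX
  refine ⟨⟨Δ, α, VP, ga ee α VP, gm ee V, gc ee, σ, dg, T, XH⟩, rfl, rfl, rfl, rfl, rfl, rfl, ?_⟩
  exact
    { he := he
      hs := hG.hs
      cs := hG.cs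
      vp := hG.vp
      anti := hanti
      two := htwo
      sg := hσ
      sgc := hσ6
      tors := (tors_reg (red (ee + 4) V) HL (ee + 4) le_rfl).1
      syz := fun h hh => syz_J HL (ee + 4) le_rfl h hh
      dgJ := hdg.J
      dgh := hdg.h
      dgt := hdg.t
      dgs := hdg.s
      dga := hdga
      nd := hnd
      nd2 := hnd2
      Tsr := hT1
      Tlin := hT2
      Th := hT3
      Ta := hT4
      indt := h6
      indp := h7
      indw := h8
      der := h10.1
      derc := h10.2
      xh_hom := fun H hH => (hXH H hH).1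
      xh_dg := fun H hH => (hXH H hH).2
      wt_odd := h9
      nocube := h11
      relb := by
        intro y hy ha hb M q
        have h14 := h5 σ hσ hσ6 dg hdg T ⟨hT1, hT2, hT3, hT4⟩ 2 (by omega) (by omega) y hy ha hb
          M [q] rfl
        rw [List.map_singleton, List.prod_singleton] at h14
        exact h14
      tate := h13 }

end CSLef.DG
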