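import Mathlib
import Pool.Agent.Work.MP_38c61c_al.DG.StmtsX

/-!
Block DG, part X, item Xder (helper4): the derivations of the generic ring.
-/

namespace CSLef.DG

open MvPolynomial Finset

theorem pr_Xder (ee : ℕ) {V : Type} [Fintype V] [DecidableEq V] (Δ : Finset (Finset V))
    (α : Equiv.Perm V) (VP : Finset V) (hG : HG ee Δ α VP) : StXder ee α VP := by
  constructor
  · intro m hm v hv
    refine ⟨LD (DP α VP m (Sum.inl v)), ?_, ?_, ?_⟩
    · intro l hl u
      unfold ga
      rw [liftD_algebraMap]
      unfold aP
      rw [DP_pP hG.cs.invol hG.vp]
      unfold relW sgn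
      by_cases hll : m = l
      · by_cases huv : u = v
        · subst huv
          rw [if_pos ⟨hll, hm, Or.inl rfl⟩, if_pos hll, if_pos rfl]
          simp [hv]
        · by_cases huv' : u = α v
          · subst huv'
            rw [if_pos ⟨hll, hm, Or.inr rfl⟩, if_pos hll, if_neg huv, if_pos rfl]
            simp [(hG.vp v).mp hv]
          · rw [if_neg, if_pos hll, if_neg huv, if_neg huv', map_zero]
            rintro ⟨_, _, h | h⟩
            · exact huv h.symm
            · exact huv' h
      · rw [if_neg (fun h => hll h.1), if_neg hll, map_zero]
    · intro l'
      unfold gm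
      rw [liftD_algebraMap]
      have : DP α VP m (Sum.inl v) (muP l' : PR (ee + 4) V) = 0 := by
        unfold DP muP
        split_ifs
        all_goals first
          | (rw [pderiv_X, Pi.single_eq_of_ne (by simp)])
          | simp
      rw [this, map_zero]
    · intro v'
      unfold gc
      rw [liftD_algebraMap]
      have : DP α VP m (Sum.inl v) (cP v' : PR (ee + 4) V) = 0 := by
        unfold DP cP
        split_ifs
        all_goals first
          | (rw [pderiv_X, Pi.single_eq_of_ne (by simp)])
          | simp
      rw [this, map_zero]
  · intro v _
    refine ⟨LD (DcP v), ?_, ?_, ?_⟩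
    · intro l u
      unfold ga
      rw [liftD_algebraMap]
      have : DcP v (pP α VP l (Sum.inl u) : PR (ee + 4) V) = 0 := by
        by_cases hl' : l < (ee + 4)
        · rw [pP_eq α VP l hl']
          unfold DcP
          rw [Derivation.leibniz, Derivation.map_intCast, smul_zero, add_zero, pderiv_X,
              Pi.single_eq_of_ne (by simp), smul_zero]
        · unfold pP
          rw [dif_neg hl', map_zero]
      unfold aP
      rw [this, map_zero]
    · intro l
      unfold gm
      rw [liftD_algebraMap]
      have : DcP v (muP l : PR (ee + 4) V) = 0 := by
        unfold DcP muP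
        split_ifs
        · rw [pderiv_X, Pi.single_eq_of_ne (by simp)]
        · simp
      rw [this, map_zero]
    · intro v'
      unfold gc
      rw [liftD_algebraMap]
      have : DcP v (cP v' : PR (ee + 4) V) = if v = v' then 1 else 0 := by
        unfold DcP cP
        rw [pderiv_X]
        by_cases h : v = v'
        · subst h; simp
        · rw [if_neg h, Pi.single_eq_of_ne]
          intro heq
          apply h
          simp only [Sum.inr.injEq] at heq
          exact heq.symm
      rw [this]
      split_ifs <;> simp

end CSLef.DG
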