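import Mathlib
import Pool.Agent.Work.MP_38c61c_al.DG.StmtsX

/-!
Block DG, item Xdg (helper37): the degree functional over the generic ring.
-/

namespace CSLef.DG

open MvPolynomial Finset

namespace IXdg

variable {V : Type} [Fintype V] [DecidableEq V] {Δ : Finset (Finset V)} {α : Equiv.Perm V}
  {VP : Finset V}

theorem hyp {ee : ℕ} (hG : HG ee Δ α VP) : LocHyp (red (ee + 4) V) Δ (ee + 4) (ga ee α VP) := locHyp hG.hs hG.cs hG.vp

theorem map_xm {ee : ℕ} (σ : Finset V) : MvPolynomial.map (red (ee + 4) V) (xm (RR (ee + 4) V) σ) = xm (FF (ee + 4) V) σ := by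
  simp [xm, map_prod]

theorem xm_not_mem {ee : ℕ} (hG : HG ee Δ α VP) {σ : Finset V} (hσ : σ ∈ Δ) (hσd : σ.card = (ee + 4)) :
    xm (FF (ee + 4) V) σ ∉ Jid Δ (fun l v => red (ee + 4) V (ga ee α VP l v)) (ee + 4) := by
  have S := setupF hG.hs hG.cs hG.vp
  intro hmem
  have hxσ : (xm (FF (ee + 4) V) σ).IsHomogeneous (ee + 4) := hσd ▸ xm_hom σ
  exact piF_facet_ne S.cols S.cs hσ hσd (piF_J S (by norm_num) hmem hxσ)

/-- uniqueness -/
theorem uniq {ee : ℕ} (hG : HG ee Δ α VP) {σ : Finset V} (hσ : σ ∈ Δ) (hσd : σ.card = (ee + 4)) {r : RR (ee + 4) V}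
    (hr : r • xm (RR (ee + 4) V) σ ∈ Jid Δ (ga ee α VP) (ee + 4)) : r = 0 := by
  by_contra h0
  have h1 := tors (red (ee + 4) V) (hyp hG) h0 hr
  have h2 := map_J (red (ee + 4) V) hG.hs.down h1
  rw [map_xm] at h2
  exact xm_not_mem hG hσ hσd h2

theorem top {ee : ℕ} (hG : HG ee Δ α VP) {σ : Finset V} (hσ : σ ∈ Δ) (hσd : σ.card = (ee + 4))
    (f : MvPolynomial V (RR (ee + 4) V)) :
    ∃ r : RR (ee + 4) V, homogeneousComponent (ee + 4) f - r • xm (RR (ee + 4) V) σ ∈ Jid Δ (ga ee α VP) (ee + 4) :=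
  top_gen (red (ee + 4) V) (hyp hG) hσd (xm_not_mem hG hσ hσd) (homogeneousComponent_isHomogeneous (ee + 4) f)

end IXdg

open IXdg in
/-- Item Xdg. -/
theorem pr_Xdg (ee : ℕ) {V : Type} [Fintype V] [DecidableEq V] (Δ : Finset (Finset V)) (α : Equiv.Perm V)
    (VP : Finset V) (hG : HG ee Δ α VP) : StXdg ee Δ α VP := by
  intro σ hσ hσd
  choose r hr using top hG hσ hσd
  have hun : ∀ (f : MvPolynomial V (RR (ee + 4) V)) (s : RR (ee + 4) V),
      homogeneousComponent (ee + 4) f - s • xm (RR (ee + 4) V) σ ∈ Jid Δ (ga ee α VP) (ee + 4) → r f = s := by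
    intro f s hs
    have h1 := Ideal.sub_mem _ hs (hr f)
    have h2 : homogeneousComponent (ee + 4) f - s • xm (RR (ee + 4) V) σ -
        (homogeneousComponent (ee + 4) f - r f • xm (RR (ee + 4) V) σ) = (r f - s) • xm (RR (ee + 4) V) σ := by
      rw [sub_smul]
      ring
    rw [h2] at h1
    exact sub_eq_zero.1 (uniq hG hσ hσd h1)
  let dg : MvPolynomial V (RR (ee + 4) V) →ₗ[RR (ee + 4) V] RR (ee + 4) V :=
    { toFun := r
      map_add' := by
        intro f g
        apply hun
        have h1 := Ideal.add_mem _ (hr f) (hr g)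
        have h2 : homogeneousComponent (ee + 4) (f + g) - (r f + r g) • xm (RR (ee + 4) V) σ =
            homogeneousComponent (ee + 4) f - r f • xm (RR (ee + 4) V) σ +
              (homogeneousComponent (ee + 4) g - r g • xm (RR (ee + 4) V) σ) := by
          rw [map_add, add_smul]
          ring
        rw [h2]
        exact h1
      map_smul' := by
        intro c f
        apply hun
        have h1 := Ideal.mul_mem_left _ (C c) (hr f)
        have h2 : homogeneousComponent (ee + 4) (c • f) - (c * r f) • xm (RR (ee + 4) V) σ =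
            C c * (homogeneousComponent (ee + 4) f - r f • xm (RR (ee + 4) V) σ) := by
          rw [map_smul, mul_sub, ← smul_eq_C_mul, ← smul_eq_C_mul, mul_smul]
        simp only [RingHom.id_apply, smul_eq_mul]
        rw [h2]
        exact h1 }
  have hdg : ∀ f, dg f = r f := fun f => rfl
  have hxσ : (xm (RR (ee + 4) V) σ).IsHomogeneous (ee + 4) := hσd ▸ xm_hom σ
  refine ⟨dg, ⟨?_, ?_, ?_, ?_⟩⟩
  · intro f hf
    rw [hdg]
    apply hun
    rw [zero_smul, sub_zero]
    exact homComp_mem_J hG.hs.down (ee + 4) hf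
  · intro n hn f hf
    rw [hdg]
    apply hun
    rw [zero_smul, sub_zero, homogeneousComponent_of_mem ((mem_homogeneousSubmodule n f).2 hf),
      if_neg hn.symm]
    exact Ideal.zero_mem _
  · intro f hf
    have h1 := hr f
    rw [homComp_self hf] at h1
    rw [hdg, ← smul_eq_C_mul]
    exact h1
  · rw [hdg]
    apply hun
    rw [one_smul, homComp_self hxσ, sub_self]
    exact Ideal.zero_mem _

end CSLef.DG
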