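import Mathlib
import Pool.Agent.Work.MP_38c61c_al.DG.StmtsX

/-!
Block DG, item XeK (helper66): the degree functional over the fraction field.
-/

namespace CSLef.DG

open MvPolynomial Finset

namespace IXeK

variable {V : Type} [Fintype V] [DecidableEq V]

/-- base change of a functional -/
noncomputable def ext {A K : Type*} [CommRing A] [Field K] (φ : A →+* K)
    (dg : MvPolynomial V A →ₗ[A] A) : MvPolynomial V K →ₗ[K] K :=
  (MvPolynomial.basisMonomials V K).constr K (fun m => φ (dg (monomial m 1)))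

theorem ext_monomial {A K : Type*} [CommRing A] [Field K] (φ : A →+* K)
    (dg : MvPolynomial V A →ₗ[A] A) (m : V →₀ ℕ) :
    ext φ dg (monomial m 1) = φ (dg (monomial m 1)) := by
  have h := (MvPolynomial.basisMonomials V K).constr_basis K
    (fun m => φ (dg (monomial m 1))) m
  rw [MvPolynomial.coe_basisMonomials] at h
  exact h

theorem ext_map {A K : Type*} [CommRing A] [Field K] (φ : A →+* K)
    (dg : MvPolynomial V A →ₗ[A] A) (f : MvPolynomial V A) :
    ext φ dg (MvPolynomial.map φ f) = φ (dg f) := by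
  induction f using MvPolynomial.induction_on' with
  | monomial u a =>
    have e1 : monomial u a = a • monomial u (1 : A) := by
      rw [smul_monomial, smul_eq_mul, mul_one]
    have e2 : monomial u (φ a) = φ a • monomial u (1 : K) := by
      rw [smul_monomial, smul_eq_mul, mul_one]
    rw [map_monomial, e2, map_smul, ext_monomial, e1, map_smul, smul_eq_mul, smul_eq_mul, map_mul]
  | add p q hp hq => rw [map_add, map_add, hp, hq, map_add, map_add]

end IXeK

open IXeK in
/-- Item XeK. -/
theorem pr_XeK (ee : ℕ) {V : Type} [Fintype V] [DecidableEq V] (Δ : Finset (Finset V)) (α : Equiv.Perm V)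
    (VP : Finset V) (hG : HG ee Δ α VP) (h1 : StXdg ee Δ α VP) : StXeK ee Δ α VP := by
  have H : LocHyp (red (ee + 4) V) Δ (ee + 4) (ga ee α VP) := locHyp hG.hs hG.cs hG.vp
  have hφ : Den (algebraMap (RR (ee + 4) V) (KK (ee + 4) V)) := den_R (ee + 4) V
  have htors : ∀ s : RR (ee + 4) V, s ≠ 0 → ∀ f : MvPolynomial V (RR (ee + 4) V),
      s • f ∈ Jid Δ (ga ee α VP) (ee + 4) → f ∈ Jid Δ (ga ee α VP) (ee + 4) :=
    fun s hs f hf => tors (red (ee + 4) V) H hs hf
  obtain ⟨σ, hσ, -, hσd⟩ := exists_facet hG.hs ∅ hG.hs.empty_mem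
  obtain ⟨dg, hdg⟩ := h1 σ hσ hσd
  refine ⟨ext (algebraMap (RR (ee + 4) V) (KK (ee + 4) V)) dg, ?_, ?_⟩
  · intro g hg
    obtain ⟨s, hs, h⟩ := den_poly hφ {()} (fun _ => g)
    obtain ⟨f', hf'⟩ := h () (Finset.mem_singleton_self _)
    have h2 : f' ∈ Jid Δ (ga ee α VP) (ee + 4) := by
      apply descend_tors hφ hG.hs.down htors
      rw [← hf']
      exact Ideal.mul_mem_left _ _ hg
    have h3 := congrArg (ext (algebraMap (RR (ee + 4) V) (KK (ee + 4) V)) dg) hf'
    rw [ext_map, hdg.J f' h2, map_zero, ← smul_eq_C_mul, map_smul, smul_eq_mul] at h3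
    exact (mul_eq_zero.1 h3).resolve_left (Den.ne hφ hs)
  · intro f hf h0
    obtain ⟨s, hs, f', hf', hff⟩ := clear_hom hφ hf
    have h3 := congrArg (ext (algebraMap (RR (ee + 4) V) (KK (ee + 4) V)) dg) hff
    rw [ext_map, ← smul_eq_C_mul, map_smul, h0, smul_zero] at h3
    have h4 : dg f' = 0 := hφ.inj (by rw [← h3, map_zero])
    have h5 := hdg.t f' hf'
    rw [h4, map_zero, zero_mul, sub_zero] at h5
    apply unscale hφ hs
    rw [hff]
    exact map_J _ hG.hs.down h5

end CSLef.DG
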