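import Mathlib
import Pool.Agent.Work.MP_38c61c_al.DG.StmtsX

/-!
Block DG, item XindP: the permanent of the generic rows and `ee + 4` different columns is odd.
-/

namespace CSLef.DG

open MvPolynomial Finset

namespace IXindP

theorem eval_aP {ee : ℕ} {V : Type} [Fintype V] [DecidableEq V] (α : Equiv.Perm V) (VP : Finset V)
    (φ : Om (ee + 4) V → ℤ) (l : Fin (ee + 4)) (v : V) (hv : v ∈ VP) :
    MvPolynomial.eval φ (aP (ee + 4) α VP (l : ℕ) v) = φ (Sum.inl (l, Sum.inl v)) := by
  unfold aP pP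
  rw [dif_pos l.2]
  simp only [hv, if_true, MvPolynomial.eval_X]

theorem prod_X {V : Type} [Fintype V] [DecidableEq V] (S : Finset V) :
    (∏ v ∈ S, (X v : MvPolynomial V ℤ)) = monomial (ex S) 1 := by
  unfold ex
  rw [MvPolynomial.monomial_sum_one]
  rfl

/-- the permanent of a permutation matrix -/
theorem pm_one {n : ℕ} {V : Type} [Fintype V] [DecidableEq V] (VP S : Finset V) (hS : S ⊆ VP)
    (e : S ≃ Fin n) (a : ℕ → V → ℤ)
    (ha : ∀ (l : Fin n), ∀ v ∈ VP, a l v = if v = (e.symm l : V) then 1 else 0) :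
    pmA VP a (range n) S = 1 := by
  unfold pmA
  rw [Finset.prod_range]
  have h1 : ∀ l : Fin n, ∑ v ∈ VP, C (a l v) * (X v : MvPolynomial V ℤ) =
      X ((e.symm l : S) : V) := by
    intro l
    rw [Finset.sum_eq_single ((e.symm l : S) : V)]
    · rw [ha l _ (hS (e.symm l).2), if_pos rfl, C_1, one_mul]
    · intro v hv hne
      rw [ha l v hv, if_neg hne, C_0, zero_mul]
    · intro h
      exact absurd (hS (e.symm l).2) h
  simp only [h1]
  rw [Equiv.prod_comp e.symm (fun v : S => (X (v : V) : MvPolynomial V ℤ)),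
    Finset.prod_coe_sort S (fun v => (X v : MvPolynomial V ℤ)), prod_X, coeff_monomial,
    if_pos rfl]

end IXindP

open IXindP in
theorem pr_XindP (ee : ℕ) {V : Type} [Fintype V] [DecidableEq V] (α : Equiv.Perm V)
    (VP : Finset V) (h1 : StSp ee (V := V)) (h2 : StPmm) : StXindP ee α VP := by
  intro S hS hc hdvd
  have e : S ≃ Fin (ee + 4) := S.equivFinOfCardEq hc
  let φ : Om (ee + 4) V → ℤ := fun s => match s with
    | Sum.inl (l, Sum.inl v) => if v = (e.symm l : V) then 1 else 0
    | _ => 0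
  have h3 : pmA VP (ga ee α VP) (range (ee + 4)) S =
      algebraMap (PR (ee + 4) V) (RR (ee + 4) V)
        (pmA VP (fun l v => aP (ee + 4) α VP l v) (range (ee + 4)) S) := by
    rw [h2 (algebraMap (PR (ee + 4) V) (RR (ee + 4) V)) VP (fun l v => aP (ee + 4) α VP l v)]
    rfl
  rw [h3] at hdvd
  have h4 := h1 _ (MvPolynomial.eval φ) hdvd
  rw [h2 (MvPolynomial.eval φ), pm_one VP S hS e _ (fun l v hv => by
    rw [eval_aP α VP φ l v hv])] at h4
  omega

end CSLef.DG
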