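import Mathlib
import Pool.Agent.Work.MP_38c61c_al.DG.StmtsX

/-! Block DG, item XindT: distinct columns in the half are independent (helper37). -/

set_option autoImplicit false

namespace CSLef.DG

open MvPolynomial Finset

namespace IXindT

theorem eval_aP {V : Type} [Fintype V] [DecidableEq V] {n : ℕ} (α : Equiv.Perm V)
    (VP : Finset V) (φ : Om n V → ℤ) (l : Fin n) (v : V) (hv : v ∈ VP) :
    MvPolynomial.eval φ (aP n α VP (l : ℕ) v) = φ (Sum.inl (l, Sum.inl v)) := by
  unfold aP pP
  rw [dif_pos l.2]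
  simp only [hv, if_true, MvPolynomial.eval_X]

theorem det_ne {ee : ℕ} {V : Type} [Fintype V] [DecidableEq V] (α : Equiv.Perm V)
    (VP : Finset V) (h1 : StSp ee (V := V)) (c : Fin (ee + 4) → V)
    (hc : Function.Injective c) (hVP : ∀ i, c i ∈ VP) :
    Matrix.det (fun i l : Fin (ee + 4) => ga ee α VP l (c i)) ≠ 0 := by
  intro h0
  let φ : Om (ee + 4) V → ℤ := fun s => match s with
    | Sum.inl (l, Sum.inl v) => if v = c l then 1 else 0
    | _ => 0
  have h2 : Matrix.det (fun i l : Fin (ee + 4) => ga ee α VP l (c i)) =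
      algebraMap (PR (ee + 4) V) (RR (ee + 4) V)
        (Matrix.det (fun i l : Fin (ee + 4) => aP (ee + 4) α VP l (c i))) := by
    rw [RingHom.map_det]
    rfl
  have h3 := h1 (Matrix.det (fun i l : Fin (ee + 4) => aP (ee + 4) α VP l (c i)))
    (MvPolynomial.eval φ) (by rw [← h2, h0]; exact dvd_zero _)
  have h4 : MvPolynomial.eval φ
      (Matrix.det (fun i l : Fin (ee + 4) => aP (ee + 4) α VP l (c i))) = 1 := by
    rw [RingHom.map_det]
    have h5 : (MvPolynomial.eval φ).mapMatrix
        (fun i l : Fin (ee + 4) => aP (ee + 4) α VP l (c i)) =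
        (1 : Matrix (Fin (ee + 4)) (Fin (ee + 4)) ℤ) := by
      ext i l
      rw [Matrix.one_apply]
      show MvPolynomial.eval φ (aP (ee + 4) α VP (l : ℕ) (c i)) = _
      rw [eval_aP α VP φ l (c i) (hVP i)]
      show (if c i = c l then (1 : ℤ) else 0) = _
      simp only [hc.eq_iff]
    rw [h5, Matrix.det_one]
  rw [h4] at h3
  omega

end IXindT

theorem pr_XindT (ee : ℕ) {V : Type} [Fintype V] [DecidableEq V] (α : Equiv.Perm V)
    (VP : Finset V) (h1 : StSp ee (V := V)) : StXindT ee α VP := by
  intro S hS hcard t ht m hm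
  let e := S.equivFinOfCardEq hcard
  have hdet := IXindT.det_ne α VP h1 (fun i => (e.symm i : V))
    (fun i j hij => e.symm.injective (Subtype.ext hij)) (fun i => hS (e.symm i).2)
  have h2 := Matrix.eq_zero_of_mulVec_eq_zero (v := fun l : Fin (ee + 4) => t l) hdet (by
    funext i
    have h3 := ht (e.symm i : V) (e.symm i).2
    rw [Finset.sum_range] at h3
    exact h3)
  exact congrFun h2 ⟨m, hm⟩

end CSLef.DG
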