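import Mathlib
import Pool.Agent.Work.MP_38c61c_al.DG.StmtsX

/-!
Block DG, item XindW: one more genericity condition, by evaluation at integers.
-/

namespace CSLef.DG

open MvPolynomial Finset

namespace IXindW

/-- the evaluation -/
def ev {ee : ℕ} {V : Type} [DecidableEq V] (s : V) (c : Fin (ee + 4) → V) : Om (ee + 4) V → ℤ :=
  fun x => match x with
  | Sum.inl (l, Sum.inl v) => if v = c l ∨ (l = 0 ∧ v = s) then 1 else 0
  | Sum.inr (Sum.inl l) => if l = 0 then 1 else 0
  | _ => 0

theorem eval_aP {d : ℕ} {V : Type} [Fintype V] [DecidableEq V] (α : Equiv.Perm V) (VP : Finset V)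
    (φ : Om d V → ℤ) (l : Fin d) (v : V) (hv : v ∈ VP) :
    MvPolynomial.eval φ (aP d α VP (l : ℕ) v) = φ (Sum.inl (l, Sum.inl v)) := by
  unfold aP pP
  rw [dif_pos l.2]
  simp only [hv, if_true, MvPolynomial.eval_X]

/-- value of a weight -/
theorem wt_eval {ee : ℕ} {V : Type} [Fintype V] [DecidableEq V] (α : Equiv.Perm V)
    (VP : Finset V) (s : V) (c : Fin (ee + 4) → V) (v : V) (hv : v ∈ VP) :
    MvPolynomial.eval (ev s c) (∑ l ∈ range (ee + 4), muP l * aP (ee + 4) α VP l v) =
      if v = c 0 ∨ v = s then 1 else 0 := by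
  rw [map_sum, ← Fin.sum_univ_eq_sum_range
    (fun l => MvPolynomial.eval (ev s c) (muP l * aP (ee + 4) α VP l v)) (ee + 4)]
  have h4 : ∀ l : Fin (ee + 4),
      MvPolynomial.eval (ev s c) (muP (l : ℕ) * aP (ee + 4) α VP (l : ℕ) v) =
      if l = 0 then (if v = c 0 ∨ v = s then 1 else 0) else 0 := by
    intro l
    rw [map_mul, eval_aP α VP (ev s c) l v hv]
    unfold muP
    rw [dif_pos l.2, MvPolynomial.eval_X]
    show (if l = 0 then (1 : ℤ) else 0) * (if v = c l ∨ (l = 0 ∧ v = s) then 1 else 0) = _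
    by_cases hl : l = 0
    · subst hl
      simp only [if_true, one_mul, true_and]
    · simp only [hl, if_false, zero_mul]
  simp only [h4]
  rw [Finset.sum_ite_eq' Finset.univ (0 : Fin (ee + 4)) (fun _ => if v = c 0 ∨ v = s then (1 : ℤ) else 0)]
  simp only [mem_univ, if_true]

/-- the linear form of the row `l` after evaluation -/
theorem row {ee : ℕ} {V : Type} [Fintype V] [DecidableEq V] (α : Equiv.Perm V)
    (VP : Finset V) (s : V) (c : Fin (ee + 4) → V) (hs : s ∈ VP) (hc : ∀ i, c i ∈ VP)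
    (hcs : c 0 ≠ s) (l : Fin (ee + 4)) :
    ∑ v ∈ VP, C (MvPolynomial.eval (ev s c) (aP (ee + 4) α VP (l : ℕ) v)) * X v =
      (if l = 0 then X (c 0) + X s else X (c l) : MvPolynomial V ℤ) := by
  have h1 : ∀ v ∈ VP, C (MvPolynomial.eval (ev s c) (aP (ee + 4) α VP (l : ℕ) v)) * X v =
      (if v = c l then X v else 0) + (if l = 0 then (if v = s then X v else 0) else 0 :
        MvPolynomial V ℤ) := by
    intro v hv
    rw [eval_aP α VP (ev s c) l v hv]
    show C (if v = c l ∨ (l = 0 ∧ v = s) then (1 : ℤ) else 0) * X v = _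
    by_cases hl : l = 0
    · subst hl
      by_cases h2 : v = c 0
      · have h3 : v ≠ s := fun h => hcs (h2.symm.trans h)
        rw [if_pos (Or.inl h2), if_pos h2, if_pos rfl, if_neg h3, C_1, one_mul, add_zero]
      · by_cases h3 : v = s
        · rw [if_pos (Or.inr ⟨rfl, h3⟩), if_neg h2, if_pos rfl, if_pos h3, C_1, one_mul, zero_add]
        · have h4 : ¬ (v = c 0 ∨ ((0 : Fin (ee + 4)) = 0 ∧ v = s)) := by
            rintro (h | h)
            · exact h2 h
            · exact h3 h.2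
          rw [if_neg h4, if_neg h2, if_pos rfl, if_neg h3, C_0, zero_mul, add_zero]
    · rw [if_neg hl, add_zero]
      by_cases h2 : v = c l
      · rw [if_pos (Or.inl h2), if_pos h2, C_1, one_mul]
      · have h4 : ¬ (v = c l ∨ (l = 0 ∧ v = s)) := by
          rintro (h | h)
          · exact h2 h
          · exact hl h.1
        rw [if_neg h4, if_neg h2, C_0, zero_mul]
  rw [Finset.sum_congr rfl h1, Finset.sum_add_distrib, Finset.sum_ite_eq' VP (c l) X,
    if_pos (hc l)]
  by_cases hl : l = 0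
  · subst hl
    simp only [if_true]
    rw [Finset.sum_ite_eq' VP s X, if_pos hs]
  · simp only [hl, if_false, Finset.sum_const_zero, add_zero]

/-- value of the permanent -/
theorem pm_eval {ee : ℕ} {V : Type} [Fintype V] [DecidableEq V] (α : Equiv.Perm V)
    (VP : Finset V) (s : V) (c : Fin (ee + 4) → V) (S : Finset V) (hs : s ∈ VP)
    (hc : ∀ i, c i ∈ VP) (hcs : c 0 ≠ s) (hsS : s ∉ S)
    (hS : ex S = ∑ i : Fin (ee + 4), Finsupp.single (c i) 1) :
    pmA VP (fun l v => MvPolynomial.eval (ev s c) (aP (ee + 4) α VP l v)) (range (ee + 4)) S =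
      1 := by
  unfold pmA
  rw [← Fin.prod_univ_eq_prod_range (fun l => ∑ v ∈ VP,
    C (MvPolynomial.eval (ev s c) (aP (ee + 4) α VP l v)) * (X v : MvPolynomial V ℤ)) (ee + 4)]
  rw [Finset.prod_congr rfl (fun l _ => row α VP s c hs hc hcs l)]
  rw [← Finset.mul_prod_erase Finset.univ _ (Finset.mem_univ (0 : Fin (ee + 4)))]
  have h1 : ∏ l ∈ Finset.univ.erase (0 : Fin (ee + 4)),
      (if l = 0 then X (c 0) + X s else X (c l) : MvPolynomial V ℤ) =
      ∏ l ∈ Finset.univ.erase (0 : Fin (ee + 4)), X (c l) := by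
    refine Finset.prod_congr rfl fun l hl => ?_
    rw [if_neg (Finset.ne_of_mem_erase hl)]
  rw [h1, if_pos rfl, add_mul, coeff_add]
  have h2 : coeff (ex S) ((X s : MvPolynomial V ℤ) *
      ∏ l ∈ Finset.univ.erase (0 : Fin (ee + 4)), X (c l)) = 0 := by
    rw [coeff_X_mul']
    have h3 : s ∉ (ex S).support := by
      rw [Finsupp.notMem_support_iff]
      unfold ex
      rw [Finsupp.finsetSum_apply]
      refine Finset.sum_eq_zero fun v hv => ?_
      exact Finsupp.single_eq_of_ne (fun h => hsS (h ▸ hv))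
    rw [if_neg h3]
  rw [h2, add_zero, Finset.mul_prod_erase Finset.univ (fun l => (X (c l) : MvPolynomial V ℤ))
    (Finset.mem_univ (0 : Fin (ee + 4)))]
  have h4 : ∏ l : Fin (ee + 4), (X (c l) : MvPolynomial V ℤ) =
      monomial (∑ i : Fin (ee + 4), Finsupp.single (c i) 1) 1 := by
    rw [MvPolynomial.monomial_sum_one]
    rfl
  rw [h4, hS, coeff_monomial, if_pos rfl]

/-- an enumeration with a prescribed first element -/
theorem enum {ee : ℕ} {V : Type} [DecidableEq V] (S : Finset V) (hS : S.card = ee + 4) (t : V)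
    (ht : t ∈ S) : ∃ c : Fin (ee + 4) → V, c 0 = t ∧ (∀ i, c i ∈ S) ∧
      ex S = ∑ i : Fin (ee + 4), Finsupp.single (c i) 1 := by
  let e0 : Fin (ee + 4) ≃ S := (S.equivFinOfCardEq hS).symm
  let E : Fin (ee + 4) ≃ S := (Equiv.swap 0 (e0.symm ⟨t, ht⟩)).trans e0
  refine ⟨fun i => (E i : V), ?_, fun i => (E i).2, ?_⟩
  · have : E 0 = ⟨t, ht⟩ := by
      show e0 (Equiv.swap 0 (e0.symm ⟨t, ht⟩) 0) = _
      rw [Equiv.swap_apply_left, Equiv.apply_symm_apply]
    exact congrArg Subtype.val this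
  · unfold ex
    rw [← Finset.sum_coe_sort S (fun v => Finsupp.single v 1)]
    exact (Equiv.sum_comp E (fun v : S => Finsupp.single (v : V) 1)).symm

end IXindW

open IXindW in
/-- **XindW**: one more genericity condition. -/
theorem pr_XindW (ee : ℕ) {V : Type} [Fintype V] [DecidableEq V] (α : Equiv.Perm V)
    (VP : Finset V) (h1 : StSp ee (V := V)) (h2 : StPmm) : StXindW ee α VP := by
  intro U P hUP hPV hU hUc hPc hdvd
  obtain ⟨s, hsU⟩ := hU
  have hsP : s ∈ P := hUP hsU
  have hex : ∃ t ∈ P, t ∉ U := by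
    by_contra hno
    push Not at hno
    have := Finset.card_le_card (show P ⊆ U from hno)
    omega
  obtain ⟨t, htP, htU⟩ := hex
  have hts : t ≠ s := fun h => htU (h ▸ hsU)
  have hcard : (P.erase s).card = ee + 4 := by
    rw [Finset.card_erase_of_mem hsP, hPc]
    rfl
  obtain ⟨c, hc0, hcS, hcex⟩ := enum (P.erase s) hcard t (Finset.mem_erase.2 ⟨hts, htP⟩)
  have hcV : ∀ i, c i ∈ VP := fun i => hPV (Finset.mem_of_mem_erase (hcS i))
  -- the sum comes from the polynomial ring
  have e : ∑ u ∈ U, (∑ l ∈ range (ee + 4), gm ee V l * ga ee α VP l u) *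
      pmA VP (ga ee α VP) (range (ee + 4)) (P.erase u) =
      algebraMap (PR (ee + 4) V) (RR (ee + 4) V) (∑ u ∈ U,
        (∑ l ∈ range (ee + 4), muP l * aP (ee + 4) α VP l u) *
          pmA VP (fun l v => aP (ee + 4) α VP l v) (range (ee + 4)) (P.erase u)) := by
    rw [map_sum]
    refine Finset.sum_congr rfl fun u _ => ?_
    rw [map_mul, map_sum, h2 (algebraMap (PR (ee + 4) V) (RR (ee + 4) V))]
    have e1 : ∑ l ∈ range (ee + 4), gm ee V l * ga ee α VP l u =
        ∑ l ∈ range (ee + 4), algebraMap (PR (ee + 4) V) (RR (ee + 4) V)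
          (muP l * aP (ee + 4) α VP l u) := by
      refine Finset.sum_congr rfl fun l _ => ?_
      rw [map_mul]
      rfl
    rw [e1]
    rfl
  rw [e] at hdvd
  have h3 := h1 _ (MvPolynomial.eval (ev s c)) hdvd
  rw [map_sum] at h3
  have h4 : ∀ u ∈ U, MvPolynomial.eval (ev s c)
      ((∑ l ∈ range (ee + 4), muP l * aP (ee + 4) α VP l u) *
          pmA VP (fun l v => aP (ee + 4) α VP l v) (range (ee + 4)) (P.erase u)) =
      if u = s then 1 else 0 := by
    intro u hu
    rw [map_mul, wt_eval α VP s c u (hPV (hUP hu)), h2 (MvPolynomial.eval (ev s c))]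
    by_cases hus : u = s
    · subst hus
      rw [if_pos (Or.inr rfl), if_pos rfl, one_mul]
      exact pm_eval α VP u c (P.erase u) (hPV hsP) hcV (by rw [hc0]; exact hts)
        (Finset.notMem_erase _ _) hcex
    · have h5 : ¬ (u = c 0 ∨ u = s) := by
        rintro (h | h)
        · rw [hc0] at h
          exact htU (h ▸ hu)
        · exact hus h
      rw [if_neg h5, if_neg hus, zero_mul]
  rw [Finset.sum_congr rfl h4, Finset.sum_ite_eq' U s (fun _ => (1 : ℤ)), if_pos hsU] at h3
  omega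

end CSLef.DG
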