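import Mathlib
import Pool.Agent.Work.MP_38c61c_al.DG.StmtsV

/-!
Block DG, item XrelV: the relations modulo 2 in every degree for the generic datum.
-/

namespace CSLef.DG

open MvPolynomial Finset

theorem pr_XrelV (ee : ℕ) {V : Type} [Fintype V] [DecidableEq V] (Δ : Finset (Finset V))
    (α : Equiv.Perm V) (VP : Finset V) (h1 : StXrelb ee Δ α VP) : StXrelV ee Δ α VP := by
  rintro D rfl rfl rfl e4 e5 e6 hC
  have hJ : D.J = Jid D.Δ (ga ee D.α D.VP) (ee + 4) := by
    unfold Dat.J
    rw [e4]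
  have hw : D.w = welA (ee + 4) D.α D.VP (ga ee D.α D.VP) (gm ee V) (gc ee) := by
    unfold Dat.w
    rw [e4, e5, e6]
  have hdg : IsDg ee D.Δ D.α D.VP D.σ D.dg :=
    { J := fun f hf => hC.dgJ f (by rw [hJ]; exact hf)
      h := hC.dgh
      t := fun f hf => by
        have h := hC.dgt f hf
        rwa [hJ] at h
      s := hC.dgs }
  have hT : IsT ee D.Δ D.α D.VP D.dg D.T :=
    { sr := hC.Tsr
      lin := fun m hm l hl f => by
        have h := hC.Tlin m hm l hl f
        rwa [e4] at h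
      h := hC.Th
      a := hC.Ta }
  intro i hi hi2 y hy hy2 hTy
  rw [hw] at hTy
  exact h1 D.σ hC.sg hC.sgc D.dg hdg D.T hT i hi hi2 y hy hy2 hTy

end CSLef.DG
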