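import Mathlib
import Pool.Agent.Work.MP_38c61c_al.DG.StmtsX

/-!
Block DG, item Xrelb: the relations modulo 2, in every degree.
-/

namespace CSLef.DG

open MvPolynomial Finset

namespace IXrelb

variable {V : Type} [Fintype V] [DecidableEq V]

/-- reduction of the Lefschetz element -/
theorem map_w (ee : ℕ) (α : Equiv.Perm V) (VP : Finset V) :
    MvPolynomial.map (red (ee + 4) V) (welA (ee + 4) α VP (ga ee α VP) (gm ee V) (gc ee)) =
      wel (ee + 4) α VP (fun l w => toF (pP α VP l w)) (fun l => toF (muP l))
        (fun v => toF (cP v)) := by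
  unfold welA wel
  rw [map_add, map_sum, map_sum]
  congr 1
  · apply Finset.sum_congr rfl
    intro l _
    rw [map_mul, map_C, map_sum]
    congr 1
    apply Finset.sum_congr rfl
    intro v _
    rw [map_mul, map_C, map_X]
    rfl
  · apply Finset.sum_congr rfl
    intro v _
    rw [map_mul, map_C]
    unfold yy
    rw [map_add, map_X, map_X]
    rfl

theorem xl_nil (F : Type) [CommRing F] : xl F ([] : List V) = 1 := rfl

theorem xl_cons (F : Type) [CommRing F] (v : V) (L : List V) :
    xl F (v :: L) = X v * xl F L := by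
  unfold xl
  rw [List.map_cons, List.prod_cons]

theorem xl_hom (F : Type) [CommRing F] (L : List V) : (xl F L).IsHomogeneous L.length := by
  induction L with
  | nil => exact isHomogeneous_one V F
  | cons v L ih =>
    rw [xl_cons, List.length_cons, Nat.add_comm]
    exact (isHomogeneous_X F v).mul ih

theorem map_xl {A B : Type} [CommRing A] [CommRing B] (f : A →+* B) (L : List V) :
    MvPolynomial.map f (xl A L) = xl B L := by
  induction L with
  | nil => exact map_one _
  | cons v L ih => rw [xl_cons, xl_cons, map_mul, ih, map_X]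

theorem xl_con {F : Type} [Field F] (L : List V) : Con (xl F L) := by
  induction L with
  | nil => exact Con.one
  | cons v L ih => rw [xl_cons]; exact (Con.X v).mul ih

theorem yl_hom (F : Type) [CommRing F] (α : Equiv.Perm V) (L : List V) :
    ((L.map (yy F α)).prod).IsHomogeneous L.length := by
  induction L with
  | nil => exact isHomogeneous_one V F
  | cons v L ih =>
    rw [List.map_cons, List.prod_cons, List.length_cons, Nat.add_comm]
    exact ((isHomogeneous_X F v).add (isHomogeneous_X F _)).mul ih

theorem map_yl {A B : Type} [CommRing A] [CommRing B] (f : A →+* B) (α : Equiv.Perm V)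
    (L : List V) : MvPolynomial.map f (L.map (yy A α)).prod = (L.map (yy B α)).prod := by
  induction L with
  | nil => exact map_one _
  | cons v L ih =>
    rw [List.map_cons, List.prod_cons, List.map_cons, List.prod_cons, map_mul, ih]
    congr 1
    unfold yy
    rw [map_add, map_X, map_X]

/-- from monomials to polynomials -/
theorem all_of_lists {A : Type} [CommRing A] (dg : MvPolynomial V A →ₗ[A] A) (t : A)
    (f : MvPolynomial V A) (h : ∀ L : List V, t ∣ dg (xl A L * f)) (M : MvPolynomial V A) :
    t ∣ dg (M * f) := by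
  have key : ∀ M : MvPolynomial V A, ∀ L : List V, t ∣ dg (M * (xl A L * f)) := by
    intro M
    induction M using MvPolynomial.induction_on with
    | C r =>
      intro L
      rw [C_mul', map_smul, smul_eq_mul]
      exact Dvd.dvd.mul_left (h L) r
    | add p q hp hq =>
      intro L
      rw [add_mul, map_add]
      exact dvd_add (hp L) (hq L)
    | mul_X p v hp =>
      intro L
      have e : p * X v * (xl A L * f) = p * (xl A (v :: L) * f) := by
        rw [xl_cons]
        ring
      rw [e]
      exact hp (v :: L)
  have h1 := key M []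
  rw [xl_nil, one_mul] at h1
  exact h1

end IXrelb

open IXrelb in
/-- Item Xrelb. -/
theorem pr_Xrelb (ee : ℕ) {V : Type} [Fintype V] [DecidableEq V] (Δ : Finset (Finset V))
    (α : Equiv.Perm V) (VP : Finset V) (hG : HG ee Δ α VP) (h1 : StXpi ee Δ α VP)
    (h2 : StXpiT ee Δ α VP) (h3 : StRbL) : StXrelb ee Δ α VP := by
  intro σ hσ hσd dg hdg T hT i hi1 hi2 y hy hev hTev M gs hgs
  have hα := hG.cs
  have hvp := hG.vp
  have S := setupF (d := ee + 4) hG.hs hα hvp
  have hy2 : (y ^ 2).IsHomogeneous (i * 2) := hy.pow 2
  have hw := welA_hom (d := ee + 4) (α := α) VP (ga ee α VP) (gm ee V) (gc (V := V) ee)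
  -- the two hypotheses of the relations
  have e1 : ∀ L : List V, L.length + 2 * i = ee + 4 →
      gpi ee Δ α VP (xl (FF (ee + 4) V) L * (MvPolynomial.map (red (ee + 4) V) y) ^ 2) = 0 := by
    intro L hL
    have hom : (xl (RR (ee + 4) V) L * y ^ 2).IsHomogeneous (ee + 4) := by
      have h := (xl_hom (RR (ee + 4) V) L).mul hy2
      rwa [show L.length + i * 2 = ee + 4 by omega] at h
    have h := ((h1 σ hσ hσd dg hdg).2.2 _ hom).2 (hev _)
    rw [map_mul, map_xl, map_pow] at h
    exact h
  have e2 : ∀ L : List V, L.length + 2 * i = ee + 4 → gpi ee Δ α VP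
      (wel (ee + 4) α VP (fun l w => toF (pP α VP l w)) (fun l => toF (muP l))
        (fun v => toF (cP v)) *
        (xl (FF (ee + 4) V) L * (MvPolynomial.map (red (ee + 4) V) y) ^ 2)) = 0 := by
    intro L hL
    have hom : (xl (RR (ee + 4) V) L * welA (ee + 4) α VP (ga ee α VP) (gm ee V) (gc ee) *
        y ^ 2).IsHomogeneous (ee + 5) := by
      have h := ((xl_hom (RR (ee + 4) V) L).mul hw).mul hy2
      rwa [show L.length + 1 + i * 2 = ee + 5 by omega] at h
    have h := h2 σ hσ hσd dg hdg T hT _ hom (fun m hm => hTev _ m hm)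
    have hm : MvPolynomial.map (red (ee + 4) V)
        (xl (RR (ee + 4) V) L * welA (ee + 4) α VP (ga ee α VP) (gm ee V) (gc ee) * y ^ 2) =
        wel (ee + 4) α VP (fun l w => toF (pP α VP l w)) (fun l => toF (muP l))
          (fun v => toF (cP v)) *
          (xl (FF (ee + 4) V) L * (MvPolynomial.map (red (ee + 4) V) y) ^ 2) := by
      rw [map_mul, map_mul, map_xl, map_pow, map_w]
      ring
    rw [hm] at h
    exact h
  have e3 : ∀ L : List V, L.length + 2 * i = ee + 4 →
      ∑ v' ∈ VP, (fun l w => toF (pP α VP l w)) 0 (Sum.inl v') *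
      piF Δ (ee + 4) (fun l w => toF (pP α VP l w)) (fun l w => FD (DP α VP l w))
        (X v' * (xl (FF (ee + 4) V) L * (MvPolynomial.map (red (ee + 4) V) y) ^ 2)) = 0 := by
    intro L hL
    exact derive_m S ((xl_con L).mul (Con.sq _)) (e2 L hL) (by omega)
  have e4 := h3 S i hi1 (by omega) (MvPolynomial.map (red (ee + 4) V) y) e1 e3
  rw [mul_assoc]
  refine all_of_lists dg 2 _ ?_ M
  intro L'
  have hom0 : (xl (RR (ee + 4) V) L' * ((gs.map (yy (RR (ee + 4) V) α)).prod * y)).IsHomogeneous
      (L'.length + (gs.length + i)) :=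
    (xl_hom _ L').mul ((yl_hom _ α gs).mul hy)
  by_cases hdeg : L'.length + (gs.length + i) = ee + 4
  · cases L' with
    | nil =>
      simp only [List.length_nil] at hdeg
      omega
    | cons q L =>
      have hL : L.length + 2 * i = ee + 4 := by
        simp only [List.length_cons] at hdeg
        omega
      rw [hdeg] at hom0
      refine ((h1 σ hσ hσd dg hdg).2.2 _ hom0).1 ?_
      have h5 : MvPolynomial.map (red (ee + 4) V)
          (xl (RR (ee + 4) V) (q :: L) * ((gs.map (yy (RR (ee + 4) V) α)).prod * y)) =
          xl (FF (ee + 4) V) L * X q * (gs.map (yy (FF (ee + 4) V) α)).prod *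
            MvPolynomial.map (red (ee + 4) V) y := by
        rw [map_mul, map_mul, map_xl, map_yl, xl_cons]
        ring
      rw [h5]
      exact e4 L hL q gs hgs
  · rw [hdg.h _ hdeg _ hom0]
    exact dvd_zero _

end CSLef.DG
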