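import Mathlib
import Pool.Agent.Work.MP_38c61c_al.Transfer

/-!
Block DG: transfer to generic antisymmetric parameters and the sum of all variables, one step
multiplications in a finite set of degrees, any dimension.
-/

namespace CSLef.DG

open MvPolynomial Finset

variable {d : ℕ} {V : Type} [Fintype V] [DecidableEq V] {k : Type*} [Field k] [CharZero k]
  {Δ : Finset (Finset V)} {α : Equiv.Perm V} {VP : Finset V}

/-- transfer of injectivity in the degrees of `N` and surjectivity in the dual degrees -/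
theorem transD (hα : IsCS Δ α) (hvp : ∀ v, v ∈ VP ↔ α v ∉ VP) (N : Finset ℕ) {g : PR d V}
    (hg : g ≠ 0)
    (H : ∀ ψ : PR d V →+* k, ψ g ≠ 0 →
      (∀ i ∈ N,
        (∀ x : MvPolynomial V k, x.IsHomogeneous i →
          MvPolynomial.map ψ (wP d α VP) * x ∈ Jid Δ (fun l v => ψ (aP d α VP l v)) d →
          x ∈ Jid Δ (fun l v => ψ (aP d α VP l v)) d) ∧
        (∀ j, i + j + 1 = d → ∀ y : MvPolynomial V k, y.IsHomogeneous (j + 1) →
          ∃ x : MvPolynomial V k, x.IsHomogeneous j ∧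
            MvPolynomial.map ψ (wP d α VP) * x - y ∈ Jid Δ (fun l v => ψ (aP d α VP l v)) d)) ∧
      (∀ n, d < n → ∀ f : MvPolynomial V k, f.IsHomogeneous n →
        f ∈ Jid Δ (fun l v => ψ (aP d α VP l v)) d)) :
    ∃ Φ : MvPolynomial (Fin d × V) k,
      (∃ A : Fin d → V → k, (∀ l v, A l (α v) = - A l v) ∧ eval (fun q => A q.1 q.2) Φ ≠ 0) ∧
      ∀ A : Fin d → V → k, (∀ l v, A l (α v) = - A l v) → eval (fun q => A q.1 q.2) Φ ≠ 0 →
        (∀ i ∈ N, (∀ x ∈ gr (Jid Δ (rowN A) d) i,
            Ideal.Quotient.mk _ (wsum V k) * x = 0 → x = 0) ∧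
          (∀ j, i + j + 1 = d → ∀ y ∈ gr (Jid Δ (rowN A) d) (j + 1),
            ∃ x ∈ gr (Jid Δ (rowN A) d) j, Ideal.Quotient.mk _ (wsum V k) * x = y)) ∧
        (∀ n, d < n → ∀ f : MvPolynomial V k, f.IsHomogeneous n →
          f ∈ Jid Δ (rowN A) d) := by
  have hinv := hα.invol
  obtain ⟨p, hpg, hps⟩ := exists_param (k := k) VP hg
  have hs0 : ∀ v, s0 α VP p v ≠ 0 := by
    intro v
    unfold s0
    split_ifs with hv
    · exact hps v hv
    · apply hps
      by_contra h
      exact hv ((hvp v).mpr h)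
  refine ⟨PsiP VP p g, ⟨A0 α VP p, A0_anti hinv hvp p, ?_⟩, ?_⟩
  · have h1 := psiA_A0 (α := α) p hps
    have h2 := RingHom.congr_fun h1 g
    unfold psiA at h2
    rw [RingHom.comp_apply] at h2
    rw [h2]
    exact hpg
  · intro A hA hne
    have h1 := H (psiA VP p A) hne
    have hJ : Jid Δ (fun l v => psiA VP p A (aP d α VP l v)) d =
        Jid Δ (fun l v => rowN A l v * s0 α VP p v) d := by
      congr 1
      funext l v
      exact psiA_aP hvp p hA l v
    rw [hJ] at h1
    obtain ⟨hin, h2⟩ := h1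
    have hbig : ∀ n, d < n → ∀ f : MvPolynomial V k, f.IsHomogeneous n →
        f ∈ Jid Δ (rowN A) d := by
      intro n hn f hf
      rw [← scale_J_iff (s0 α VP p) hs0]
      exact h2 n hn _ (scale_hom _ hf)
    refine ⟨?_, hbig⟩
    set J' := Jid Δ (fun l v => rowN A l v * s0 α VP p v) d with hJ'
    set w' := MvPolynomial.map (psiA VP p A) (wP d α VP) with hw'
    have hcmp : ∀ x : MvPolynomial V k,
        C 2 * (w' * x) - (scale (s0 α VP p) (wsum V k)) * x ∈ J' := by
      intro x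
      rw [← mul_assoc, ← sub_mul]
      exact Ideal.mul_mem_right _ _ (two_wP hinv hvp p hA)
    have hC2 : (C 2 : MvPolynomial V k) * C (2⁻¹) = 1 := by
      rw [← map_mul, mul_inv_cancel₀ two_ne_zero, map_one]
    intro i hi
    constructor
    · intro x0 hx0 hw
      obtain ⟨x, hx, rfl⟩ := mem_gr.mp hx0
      rw [← map_mul, Ideal.Quotient.eq_zero_iff_mem] at hw
      rw [Ideal.Quotient.eq_zero_iff_mem]
      rw [← scale_J_iff (s0 α VP p) hs0] at hw ⊢
      apply (hin i hi).1 _ (scale_hom _ hx)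
      rw [map_mul] at hw
      have h3 := Ideal.add_mem _ (hcmp (scale (s0 α VP p) x)) hw
      rw [sub_add_cancel] at h3
      have h4 := Ideal.mul_mem_left _ (C (2⁻¹)) h3
      rw [← mul_assoc, mul_comm (C (2⁻¹)), hC2, one_mul] at h4
      exact h4
    · intro j hj y0 hy0
      obtain ⟨y, hy, rfl⟩ := mem_gr.mp hy0
      obtain ⟨x', hx'1, hx'2⟩ := (hin i hi).2 j hj _ (scale_hom (s0 α VP p) hy)
      have hssi : ∀ f : MvPolynomial V k,
          scale (s0 α VP p) (scale (fun v => (s0 α VP p v)⁻¹) f) = f :=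
        scale_scale _ _ (fun v => mul_inv_cancel₀ (hs0 v))
      have h : ∃ x : MvPolynomial V k, x.IsHomogeneous j ∧
          wsum V k * x - y ∈ Jid Δ (rowN A) d := by
        refine ⟨scale (fun v => (s0 α VP p v)⁻¹) (C (2⁻¹) * x'), ?_, ?_⟩
        · apply scale_hom
          have := (isHomogeneous_C V (2⁻¹ : k)).mul hx'1
          rwa [zero_add] at this
        · rw [← scale_J_iff (s0 α VP p) hs0, map_sub, map_mul, hssi]
          have h3 := Ideal.add_mem _ hx'2
            ((Ideal.neg_mem_iff _).mpr (hcmp (C (2⁻¹) * x')))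
          have h4 : C 2 * (w' * (C (2⁻¹) * x')) = w' * x' := by
            have h5 : C 2 * (w' * (C (2⁻¹) * x')) = (C 2 * C (2⁻¹)) * (w' * x') := by ring
            rw [h5, hC2, one_mul]
          rw [h4] at h3
          have h6 : w' * x' - scale (s0 α VP p) y +
              -(w' * x' - scale (s0 α VP p) (wsum V k) * (C (2⁻¹) * x')) =
              scale (s0 α VP p) (wsum V k) * (C (2⁻¹) * x') - scale (s0 α VP p) y := by ring
          rw [h6] at h3
          exact h3
      obtain ⟨x, hx1, hx2⟩ := h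
      refine ⟨Ideal.Quotient.mk _ x, mem_gr.mpr ⟨x, hx1, rfl⟩, ?_⟩
      rw [← map_mul, Ideal.Quotient.mk_eq_mk_iff_sub_mem]
      exact hx2

end CSLef.DG
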