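import Mathlib
import Pool.Agent.Work.MP_38c61c_al.Quad.QGeneric
import Pool.Agent.Work.MP_38c61c_al.Quad.Shatter
import Pool.Agent.Work.MP_38c61c_al.Oct.Gen4
import Pool.Agent.Work.MP_38c61c_al.DG.TransD

/-!
Block DG: the cases `d ≤ 4` in the form needed for the main theorem.
-/

namespace CSLef.DG

open MvPolynomial Finset

/-- injectivity in the degrees of `N`, surjectivity in the dual degrees, for generic
antisymmetric parameters -/
def ConclN {V : Type} [Fintype V] [DecidableEq V] (Δ : Finset (Finset V)) (α : Equiv.Perm V)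
    (d : ℕ) (N : Finset ℕ) (k : Type*) [Field k] : Prop :=
  ∃ Φ : MvPolynomial (Fin d × V) k,
    (∃ A : Fin d → V → k, (∀ l v, A l (α v) = - A l v) ∧ eval (fun q => A q.1 q.2) Φ ≠ 0) ∧
    ∀ A : Fin d → V → k, (∀ l v, A l (α v) = - A l v) → eval (fun q => A q.1 q.2) Φ ≠ 0 →
      (∀ i ∈ N, (∀ x ∈ gr (Jid Δ (rowN A) d) i,
          Ideal.Quotient.mk _ (wsum V k) * x = 0 → x = 0) ∧
        (∀ j, i + j + 1 = d → ∀ y ∈ gr (Jid Δ (rowN A) d) (j + 1),
          ∃ x ∈ gr (Jid Δ (rowN A) d) j, Ideal.Quotient.mk _ (wsum V k) * x = y)) ∧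
      (∀ n, d < n → ∀ f : MvPolynomial V k, f.IsHomogeneous n → f ∈ Jid Δ (rowN A) d)

variable {d : ℕ} {V : Type} [Fintype V] [DecidableEq V] {k : Type*} [Field k] [CharZero k]
  {Δ : Finset (Finset V)} {α : Equiv.Perm V} {VP : Finset V}

/-- from the bijectivity of the powers to the one step multiplications -/
theorem low_of_bij (hα : IsCS Δ α) (hvp : ∀ v, v ∈ VP ↔ α v ∉ VP) (N : Finset ℕ)
    (hN : ∀ i ∈ N, 2 * i + 1 ≤ d) {g : PR d V} (hg : g ≠ 0)
    (H : ∀ ψ : PR d V →+* k, ψ g ≠ 0 →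
      (∀ i e, i + e + i = d →
        (∀ x : MvPolynomial V k, x.IsHomogeneous i →
          (MvPolynomial.map ψ (wP d α VP)) ^ e * x ∈ Jid Δ (fun l v => ψ (aP d α VP l v)) d →
          x ∈ Jid Δ (fun l v => ψ (aP d α VP l v)) d) ∧
        (∀ y : MvPolynomial V k, y.IsHomogeneous (i + e) → ∃ x : MvPolynomial V k,
          x.IsHomogeneous i ∧ (MvPolynomial.map ψ (wP d α VP)) ^ e * x - y ∈
            Jid Δ (fun l v => ψ (aP d α VP l v)) d)) ∧
      (∀ n, d < n → ∀ f : MvPolynomial V k, f.IsHomogeneous n →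
        f ∈ Jid Δ (fun l v => ψ (aP d α VP l v)) d)) : ConclN Δ α d N k := by
  apply transD hα hvp N hg
  intro ψ hψ
  obtain ⟨h1, h2⟩ := H ψ hψ
  refine ⟨fun i hi => ?_, h2⟩
  have hi2 := hN i hi
  obtain ⟨e, he⟩ : ∃ e, i + (e + 1) + i = d := ⟨d - (2 * i + 1), by omega⟩
  obtain ⟨h3, h4⟩ := h1 i (e + 1) he
  have hw : (MvPolynomial.map ψ (wP d α VP)).IsHomogeneous 1 := (welA_hom (d := d) (α := α) VP _ _ _).map ψ
  constructor
  · intro x hx hwx
    apply h3 x hx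
    rw [pow_succ, mul_assoc]
    exact Ideal.mul_mem_left _ _ hwx
  · intro j hj y hy
    have hj' : j + 1 = i + (e + 1) := by omega
    rw [hj'] at hy
    obtain ⟨x, hx, hxy⟩ := h4 y hy
    refine ⟨(MvPolynomial.map ψ (wP d α VP)) ^ e * x, ?_, ?_⟩
    · have h5 := (hw.pow e).mul hx
      have h6 : 1 * e + i = j := by omega
      rwa [h6] at h5
    · rwa [← mul_assoc, ← pow_succ']

/-- dimensions at most two -/
theorem low_le_three (hd : 1 ≤ d) (hd' : d ≤ 3) (hΔ : IsHomSphere Δ d) (hα : IsCS Δ α)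
    (hvp : ∀ v, v ∈ VP ↔ α v ∉ VP) (N : Finset ℕ) (hN : ∀ i ∈ N, 2 * i + 1 ≤ d) :
    ConclN Δ α d N k := by
  have hquad : CondQuad Δ α d := by
    intro G hG hc 𝓣 h1 h2 h3 h4
    by_contra hne
    have hP : ∀ P ⊆ G, P.card ≤ 2 → Even (𝓣.filter (fun T => P ⊆ T)).card := by
      intro P hP hPc
      have hcases : P.card = 0 ∨ P.card = 1 ∨ P.card = 2 := by omega
      rcases hcases with h0 | h0 | h0
      · rw [Finset.card_eq_zero] at h0
        subst h0
        simpa using h2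
      · obtain ⟨u, rfl⟩ := Finset.card_eq_one.mp h0
        simp only [Finset.singleton_subset_iff] at hP ⊢
        exact h3 u hP
      · obtain ⟨u, u', _, rfl⟩ := Finset.card_eq_two.mp h0
        simp only [Finset.insert_subset_iff, Finset.singleton_subset_iff] at hP ⊢
        exact h4 u hP.1 u' hP.2
    obtain ⟨S, hS, hSc, _⟩ := shatter_of_even G 2 𝓣 (fun T hT => (h1 T hT).1)
      (Finset.nonempty_iff_ne_empty.mpr hne) hP
    have := Finset.card_le_card hS
    omega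
  obtain ⟨g, hg, H⟩ := generic_bij_q hΔ hα hvp hd hquad
  exact low_of_bij hα hvp N hN hg (fun ψ hψ => H ψ hψ)

/-- dimension three -/
theorem low_four (hΔ : IsHomSphere Δ 4) (hα : IsCS Δ α) (hvp : ∀ v, v ∈ VP ↔ α v ∉ VP)
    (N : Finset ℕ) (hN : ∀ i ∈ N, 2 * i + 1 ≤ 4) : ConclN Δ α 4 N k := by
  obtain ⟨g, hg, H⟩ := Oct.bij_of_inj hΔ hα hvp (by norm_num)
    (fun i k hik x hx hw => Oct.inj4 hΔ hα hvp i k hik x hx hw)
  exact low_of_bij hα hvp N hN hg (fun ψ hψ => H ψ hψ)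

end CSLef.DG
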