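import Mathlib
import Pool.Agent.Work.MP_38c61c_al.DG.Stmts
import Pool.Agent.Work.MP_38c61c_al.D5.Stmts2

/-!
Block DG, part 2: Tate classes, permanents, the congruence modulo 4, the final argument, for full
sets with `ee + 2` elements and a fixed set `U` of `ee` vertices. Generalization of
`D5/Stmts2.lean` (`ee = 1`) and `D6/Stmts2.lean` (`ee = 2`).
Notation as in `Stmts.lean`; `W_I` is the product of the `D.W i`, `i ∈ I`; `ω = D.om`; even means
divisible by `2` in `R`, and `2` is prime; `U + q = insert q U`, `U + p + q = insert p (insert q U)`.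
-/

namespace CSLef.DG

open MvPolynomial Finset

variable {ee : ℕ} {V : Type} [Fintype V] [DecidableEq V] {R : Type} [CommRing R] [IsDomain R]

/-- Wa. Port of D6 `I_Wa.lean`. -/
def StWa (D : Dat ee V R) : Prop :=
  (∀ l, rename D.α (D.W l) = D.W l - lin (D.a l)) ∧
  (∀ I : Finset ℕ, (∏ i ∈ I, D.W i).IsHomogeneous I.card) ∧
  (∀ I ⊆ range (ee + 4), rename D.α (∏ i ∈ I, D.W i) - ∏ i ∈ I, D.W i ∈ D.J)

/-- Sym. Port of D6 `I_Sym.lean`. -/
def StSym (D : Dat ee V R) : Prop := ∀ M : MvPolynomial V R, rename D.α M - M ∈ D.J → ∀ g,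
  D.dg ((g + rename D.α g) * M) = 2 * D.dg (g * M)

/-- WW. Port of D6 `I_WW.lean`. -/
def StWW (D : Dat ee V R) : Prop := ∀ I ⊆ range (ee + 4), ∀ K ⊆ range (ee + 4), (I ∩ K).Nonempty →
  (2 : R) ∣ D.dg ((∏ i ∈ I, D.W i) * ∏ i ∈ K, D.W i)

/-- Om. Port of D6 `I_Om.lean`. -/
def StOm (D : Dat ee V R) : Prop := ¬ (2 : R) ∣ D.om

/-- the sum over the ordered pairs of `I` of `a l r * a i q` -/
noncomputable def p2 (D : Dat ee V R) (q r : V) (I : Finset ℕ) : R :=
  ∑ l ∈ I, ∑ i ∈ I.erase l, D.a l r * D.a i q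

/-- PhW. Values of `φ_H` on multiples of `W_l`. Port of D6 `I_PhW.lean` (the part with four vertices
there is replaced by the general last part).
Proof of the last part: `φ_H (W_L) = ∑_T coeff (ex (flip H T)) W_L`, and for nonempty `T` the exponent
contains a vertex not in `VP`, which does not occur in `W_L`. -/
def StPhW (D : Dat ee V R) : Prop :=
  (∀ H ⊆ D.VP, ∀ l, ∀ f : MvPolynomial V R,
    D.ph H (D.W l * f) = ∑ p ∈ H, D.a l p * D.ph (H.erase p) f) ∧
  D.ph ∅ 1 = 1 ∧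
  (∀ q ∈ D.VP, ∀ i, D.ph {q} (D.W i) = D.a i q) ∧
  (∀ q ∈ D.VP, ∀ r ∈ D.VP, q ≠ r → ∀ I : Finset ℕ, I.card = 2 →
    D.ph {q, r} (∏ i ∈ I, D.W i) = p2 D q r I) ∧
  (∀ H ⊆ D.VP, ∀ L : Finset ℕ, D.ph H (∏ l ∈ L, D.W l) = pmA D.VP D.a L H)

/-- PmR. Row and column expansion of the permanent.
Proof. Row expansion: write the product as `W_l * W_(L - l)` and compare the coefficients of `ex S`:
the coefficient of `ex S` in `X v * f` is that of `ex (S.erase v)` in `f` if `v ∈ S`, else `0`. Column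
expansion: the coefficient of `ex S` in `∏_(l ∈ L) W_l`; by induction on `L`: for `L = {l} ∪ L'`
expand along the row `l`: `∑_(v ∈ S) a l v pmA L' (S.erase v)`; the term `v = p` is the term `l` of the
claim, for `v ≠ p` use the induction hypothesis for `L'`, `S.erase v` and `p`, exchange the sums and
use the row expansion of `pmA (L.erase l') (S.erase p)` along `l` for every `l' ∈ L'`. -/
def StPmR : Prop := ∀ {V : Type} [Fintype V] [DecidableEq V] {R : Type} [CommRing R]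
  (VP : Finset V) (a : ℕ → V → R) (L : Finset ℕ) (S : Finset V), S ⊆ VP →
  (∀ l ∈ L, pmA VP a L S = ∑ v ∈ S, a l v * pmA VP a (L.erase l) (S.erase v)) ∧
  (∀ p ∈ S, pmA VP a L S = ∑ l ∈ L, a l p * pmA VP a (L.erase l) (S.erase p))

/-- the Laplace sum for the set `G` and two more columns `q, r` -/
noncomputable def PM (D : Dat ee V R) (G : Finset V) (q r : V) : R :=
  ∑ I ∈ (range (ee + 4)).powersetCard 2, pmA D.VP D.a (range (ee + 4) \ I) G * p2 D q r I

/-- Lpl. Laplace expansion. `G ⊆ VP` with `ee + 2` elements, `q, r ∈ VP`.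
Proof. Rewrite `PM G q r = ∑_(l ≠ i) a l r * a i q * pmA (L - l - i) G`, sum over the ordered pairs of
distinct `l, i ∈ L = range (ee + 4)` (a set `I` with two elements has two orderings; this is `p2`).
First part: column expansion (`StPmR`) of `pmA L (G + q + r)` along `r` and then along `q`. Second
part: if `q = r`, the sum is symmetric in `l, i`, so it is even (pair `(l, i)` with `(i, l)`). If `q ∈ G`:
for fixed `l` the sum over `i` is `∑_(i ∈ L - l) a i q * pmA (L - l - i) G`, expand `pmA` along the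
column `q`: `∑_(i ≠ j) a i q * a j q * pmA (L - l - i - j) (G - q)`, symmetric in `i, j`, even. If `r ∈ G`:
the same with `r, l`. -/
def StLpl (D : Dat ee V R) : Prop := ∀ G ⊆ D.VP, G.card = ee + 2 → ∀ q ∈ D.VP, ∀ r ∈ D.VP,
  (q ≠ r → q ∉ G → r ∉ G → PM D G q r = D.pm (insert q (insert r G))) ∧
  ((q = r ∨ q ∈ G ∨ r ∈ G) → (2 : R) ∣ PM D G q r)

/-- Cr. One column more than rows.
Proof. `∑_(p ∈ P) (∑_m μ_m a_(m p)) pm (P - p) = ∑_m μ_m ∑_(p ∈ P) a_(m p) pmA L (P - p)`, `L = range (ee + 4)`;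
expand `pmA L (P - p)` along the row `m` (`StPmR`):
`∑_(p ≠ p') a_(m p) a_(m p') pmA (L - m) (P - p - p')`, symmetric in `p, p'`, so even. -/
def StCr (D : Dat ee V R) : Prop := ∀ P ⊆ D.VP,
  (2 : R) ∣ ∑ p ∈ P, (∑ m ∈ range (ee + 4), D.μ m * D.a m p) * D.pm (P.erase p)

/-- Beta. Port of D6 `I_Beta.lean`. -/
def StBeta (D : Dat ee V R) : Prop := ∀ G ∈ D.FS (ee + 2),
  ∃ (β : Finset ℕ → R) (g v : MvPolynomial V R),
  D.XH G - ∑ I ∈ (range (ee + 4)).powersetCard 2, C (β I) * ∏ i ∈ I, D.W i -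
    (g + rename D.α g) - (2 : R) • v ∈ D.J ∧
  ∀ I ∈ (range (ee + 4)).powersetCard 2,
    (2 : R) ∣ D.om * β I - D.ph G (∏ i ∈ range (ee + 4) \ I, D.W i)

/-- TA1. Proof as D6 `I_TA1.lean`: `deg (X_G X_(q r)) = φ_(q r) (X_G)`, insert `StBeta`: modulo 2 this is
`∑_I β_I φ_(q r) (W_I) = ∑_I β_I p2 q r I`, and `ω β_I = φ_G (W_(range \ I)) = pmA (range \ I) G` modulo 2
(`StPhW`). -/
def StTA1 (D : Dat ee V R) : Prop := ∀ G ∈ D.FS (ee + 2), ∀ q r, q ≠ r →
  ({q, r} : Finset V) ∈ D.FS 2 →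
  (2 : R) ∣ D.om * D.dg (D.XH G * D.XH {q, r}) - PM D G q r

/-- TA2. Proof as D6 `I_TA2.lean`. -/
def StTA2 (D : Dat ee V R) : Prop := ∀ G ∈ D.FS (ee + 2), ∀ b : ℕ → MvPolynomial V R,
  rename D.α (D.XH G) - D.XH G - ∑ l ∈ range (ee + 4), lin (D.a l) * b l ∈ srIdeal R D.Δ →
  ∀ q, D.Full {q} → ∀ r,
  (2 : R) ∣ D.om * ∑ m ∈ range (ee + 4), D.a m r * D.ph {q} (b m) - PM D G q r

/-- Int. Two full sets with `ee + 2` elements have at least `ee` common elements.
Proof. Suppose `|G ∩ G'| < ee`. `G' \ G` has at least three elements; take `H ⊆ G' \ G` with two elements;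
`G' \ H` contains an element `h ∉ G`. By `StP1`, modulo `J`, `X_H` is the product of `X_(G')` and the
variables `X_p`, `p ∈ G' \ H` (remove them one after the other), one of them is `X_h`, and
`X_h X_G ∈ J`, so `deg (X_G X_H) = 0`. By `StTA1` and `StLpl`, `pm` of the `ee + 4` elements of `G ∪ H` is
even, against `indp`. -/
def StInt (D : Dat ee V R) : Prop := ∀ G ∈ D.FS (ee + 2), ∀ G' ∈ D.FS (ee + 2), ee ≤ (G ∩ G').card

/-- the coefficient functions in question -/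
structure Gd (D : Dat ee V R) (x : Finset V → R) : Prop where
  supp : ∀ G, x G ≠ 0 → G ∈ D.FS (ee + 2) ∧ ¬ (2 : R) ∣ x G
  four : ∀ M, (4 : R) ∣ D.dg (M * D.KK x ^ 2)
  fourT : ∀ M, ∀ m < ee + 4, (4 : R) ∣ D.T m (M * D.w * D.KK x ^ 2)
  rm : ∀ H ⊆ D.VP, H.card = ee + 1 → (2 : R) ∣ ∑ r ∈ D.VP \ H, D.wt r * x (insert r H)

/-- Clo. Port of D6 `I_Clo.lean`. -/
def StClo (D : Dat ee V R) : Prop := ∀ x, Gd D x → ∀ G, x G ≠ 0 → ∀ H ⊆ G, H.card = ee + 1 →
  ∃ G', x G' ≠ 0 ∧ G' ≠ G ∧ H ⊆ G'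

/-- a set `U` of `ee` vertices and four other vertices that contain the link of `U` -/
structure HQ (D : Dat ee V R) (x : Finset V → R) (U : Finset V) (q : Fin 4 → V) : Prop where
  U_sub : U ⊆ D.VP
  U_card : U.card = ee
  q_mem : ∀ i, q i ∈ D.VP
  q_inj : Function.Injective q
  q_ne : ∀ i, q i ∉ U
  link : ∀ G, x G ≠ 0 → U ⊆ G → ∃ i j, i ≠ j ∧ G = insert (q i) (insert (q j) U)

/-- the value `x` at `U + q i + q j` -/
def xq (x : Finset V → R) (U : Finset V) (q : Fin 4 → V) (i j : Fin 4) : R :=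
  x (insert (q i) (insert (q j) U))

/-- `deg (X_U X_(U + i + j) X_(U + k + l))` -/
noncomputable def lam (D : Dat ee V R) (U : Finset V) (q : Fin 4 → V) (i j k l : Fin 4) : R :=
  D.dg (xm R U * D.XH (insert (q i) (insert (q j) U)) * D.XH (insert (q k) (insert (q l) U)))

/-- half of `deg (X_U K^2)` -/
noncomputable def E4 (D : Dat ee V R) (x : Finset V → R) (U : Finset V) (q : Fin 4 → V) : R :=
  xq x U q 0 1 * xq x U q 2 3 * lam D U q 0 1 2 3 +
  xq x U q 0 2 * xq x U q 1 3 * lam D U q 0 2 1 3 +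
  xq x U q 0 3 * xq x U q 1 2 * lam D U q 0 3 1 2

/-- the sum over the three perfect matchings -/
def P4 (x : Finset V → R) (U : Finset V) (q : Fin 4 → V) : R :=
  xq x U q 0 1 * xq x U q 2 3 + xq x U q 0 2 * xq x U q 1 3 + xq x U q 0 3 * xq x U q 1 2

/-- the weighted vertex sum at `q k` -/
noncomputable def S4 (D : Dat ee V R) (x : Finset V → R) (U : Finset V) (q : Fin 4 → V)
    (k : Fin 4) : R :=
  ∑ l ∈ Finset.univ.erase k, D.wt (q l) * xq x U q k l

/-- the quadratic expression for the triangle `0, 1, 2` -/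
noncomputable def C4 (D : Dat ee V R) (x : Finset V → R) (U : Finset V) (q : Fin 4 → V) : R :=
  D.wt (q 0) * xq x U q 0 1 * xq x U q 0 2 + D.wt (q 1) * xq x U q 0 1 * xq x U q 1 2 +
  D.wt (q 2) * xq x U q 0 2 * xq x U q 1 2

/-- Ve. Proof as D6 `I_Ve.lean`: the terms of the sum for `U + q i` with `r` not of the form `q l`
vanish by `HQ.link`; `Gd.rm`; if `S4 i ≠ 0` then some `x (U + q i + q l) ≠ 0` and the subsets of this full
set are full (`StPhX`); for `q'` not of the form `q i` all the terms vanish. -/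
def StVe (D : Dat ee V R) : Prop := ∀ x U q, Gd D x → HQ D x U q →
  (∀ i, ∑ r ∈ D.VP \ insert (q i) U, D.wt r * x (insert r (insert (q i) U)) = S4 D x U q i) ∧
  (∀ i, (2 : R) ∣ S4 D x U q i) ∧
  (∀ i, S4 D x U q i ≠ 0 → insert (q i) U ∈ D.FS (ee + 1) ∧ D.Full {q i}) ∧
  (∀ q' ∈ D.VP, q' ∉ U → (∀ i, q' ≠ q i) →
    ∑ r ∈ D.VP \ insert q' U, D.wt r * x (insert r (insert q' U)) = 0)

/-- Es. Only the pairs of sets with intersection `U` contribute to `deg (X_U K^2)`.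
Proof as D6 `I_Es.lean`. If `U` is not a subset of `G` then `X_U X_G ∈ J` (one variable kills `X_G`); for
`U ⊆ G'`: `X_U X_(G') = X_(G' \ U)` modulo `J` (`StP1`, one vertex after the other; `G' \ U` has two
elements). So `deg (X_U X_G X_(G'))` is `0` unless `U ⊆ G ∩ G'`, and then it is `deg (X_G X_(G' \ U))`,
which is `0` by `StNon` if `G` meets `G' \ U`. Expand the square. -/
def StEs (D : Dat ee V R) : Prop := ∀ x : Finset V → R, (∀ G, x G ≠ 0 → G ∈ D.FS (ee + 2)) →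
  ∀ U ⊆ D.VP, U.card = ee →
  (∀ G ∈ D.FS (ee + 2), ∀ G' ∈ D.FS (ee + 2), U ⊆ G → U ⊆ G' →
    D.dg (xm R U * D.XH G * D.XH G') = D.dg (D.XH G * D.XH (G' \ U)) ∧
    (G ∩ G' ≠ U → D.dg (xm R U * D.XH G * D.XH G') = 0)) ∧
  D.dg (xm R U * D.KK x ^ 2) =
    ∑ G ∈ (D.FS (ee + 2)).filter (fun G => U ⊆ G),
      ∑ G' ∈ (D.FS (ee + 2)).filter (fun G' => U ⊆ G' ∧ G ∩ G' = U),
      x G * x G' * D.dg (xm R U * D.XH G * D.XH G')

/-- E4. Proof as D6 `I_E4.lean`. -/
def StE4 (D : Dat ee V R) : Prop := ∀ x U q, Gd D x → HQ D x U q →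
  D.dg (xm R U * D.KK x ^ 2) = 2 * E4 D x U q ∧ (2 : R) ∣ E4 D x U q

/-- T4. Proof as D6 `I_T4.lean`. Expand: `T_m (z_s X_U X_G X_(G'))`, `s ∈ G, G'`. If `U` is not a subset of
`G'` then `X_U X_(G') ∈ J`, and `z_s X_G ∈ J`, so the value is 0 (`StTx`); by symmetry also if `U` is not a
subset of `G`. If `U ⊆ G ∩ G'`: replace `X_U X_(G')` by `X_(G' \ U)`; if `G` meets this set the value is 0
(`StNonT`), otherwise the union is `U ∪ {q 0, q 1, q 2, q 3}`, `p = q r` is in it, and `StF3` with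
`v = s ≠ p` gives 0 (after the sum over `m`). -/
def StT4 (D : Dat ee V R) : Prop := ∀ x U q, Gd D x → HQ D x U q → ∀ s ∈ U, ∀ r : Fin 4,
  ∑ m ∈ range (ee + 4), D.a m (q r) * D.T m (D.z s * xm R U * D.KK (xs s x) ^ 2) = 0

/-- Dag1. The main congruence contracted with the column `q 3`.
Proof as D6 `I_Dag1.lean`. Choose `ν` by `Gd.rm`, and for every `G ∈ FS (ee + 2)` an expansion `bG` of
`αX_G - X_G` (`StP1`, `mem_J_iff`). Use `StStar` with `b m = ∑_G C (x G) * bG G m`,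
`bs s m = ∑_G C (xr s x G) * bG G m`. So the coefficient of `x(G) φ_(q') (bG G m)` in the last sum is
`1 - |U \ G|`: `1` if `U ⊆ G`, `0` if `|U \ G| = 1`. Put
`Y i j k = ∑_m a_(m, q 3) φ_(q k) (bG (U + q i + q j) m)`; (1) is `StTA2`. (2): multiply the congruences
by `a_(m, q 3)` and add: `StT4` kills the first terms, the next is
`(∑_m μ_m a_(m, q 3)) * 2 E4` (`StE4`), the last is
`4 ∑_(q' ∈ lk U) ν(U + q') ∑_G (1 - |U \ G|) x(G) Z(G, q')`, `Z(G, q') = ∑_m a_(m, q 3) φ_(q') (bG G m)`. By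
`StVe`, `ν(U + q') = 0` unless `q'` is some `q k`, and `2 ν(U + q k) = - S4 k` (also if `q k ∉ lk U`, then
`S4 k = 0`). The `G` with `x G ≠ 0` and `|U \ G| ≥ 2`: if `S4 k ≠ 0` some `G0 = U + q k + q l` has
`x G0 ≠ 0`; `|G ∩ G0| ≥ ee` and `|G0| = ee + 2` (`StInt`), so `|U \ G| = 2` and `q k ∈ G`, and `Z(G, q k)` is
even: `ω Z` is `PM G (q k) (q 3)` modulo 2 (`StTA2`), even by `StLpl`, and `ω` is odd (`StOm`). As
`S4 k` is even, these `G` contribute `0` modulo 8. So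
`8 ∣ 2 (∑ μ a) E4 - 2 ∑_k S4 k ∑_(i<j) x_ij Y i j k`. -/
def StDag1 (D : Dat ee V R) : Prop := ∀ x U q, Gd D x → HQ D x U q →
  ∃ Y : Fin 4 → Fin 4 → Fin 4 → R,
  (∀ i j k, i ≠ j → xq x U q i j ≠ 0 → D.Full {q k} →
    (2 : R) ∣ D.om * Y i j k - PM D (insert (q i) (insert (q j) U)) (q k) (q 3)) ∧
  (4 : R) ∣ (∑ m ∈ range (ee + 4), D.μ m * D.a m (q 3)) * E4 D x U q -
    ∑ k, S4 D x U q k * ∑ i, ∑ j ∈ Finset.univ.filter (fun j => i < j),
      xq x U q i j * Y i j k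

/-- Dag2. Proof (as D6 `I_Dag2.lean`, without signs). Multiply `StDag1` by `ω`. In the sum, for each `k`
with `S4 k ≠ 0` (then `q k` is full and `2 ∣ S4 k`, `StVe`) and `i < j` with `x_ij ≠ 0` replace `ω Y i j k` by
`PM (U + q i + q j) (q k) (q 3)` modulo 2; by `StLpl` this is even if `k ∈ {i, j}` or `3 ∈ {i, j}` or `k = 3`,
and for `{i, j, k} = {0, 1, 2}` it is `pm (U ∪ {q 0, q 1, q 2, q 3})`. There remains
`pm * (S4 0 x_12 + S4 1 x_02 + S4 2 x_01) = pm * (wt (q 3) P4 + 2 C4)`. And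
`(∑ μ a (q 3)) E4 = (wt (q 3) - 2 c (q 3)) E4`, `E4` even. -/
def StDag2 (D : Dat ee V R) : Prop := ∀ x U q, Gd D x → HQ D x U q →
  (4 : R) ∣ D.om * D.wt (q 3) * E4 D x U q -
    D.pm (U ∪ Finset.univ.image q) * (D.wt (q 3) * P4 x U q + 2 * C4 D x U q)

/-- Leq. Proof (as D6 `I_Leq.lean`). If all three products vanish, `P4 = E4 = 0`. Otherwise say
`x_ij x_kl ≠ 0` with complementary pairs; let `s ∈ U` (`1 ≤ ee`), `U' = U - s`: by `StClo` the set
`H = U' + q i + q j` (`ee + 1` elements) is in another set `H + t` of the support, `t ≠ s`; it has `ee`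
common elements with `U + q k + q l` (`StInt`), so `t = q k` or `t = q l`: a full set
`T = U' + q i' + q j' + q k'`, omitting one index `m`. Put `L = deg (X_T X_(s, q m))`. For a complementary
pair `{m, j}`, `{k, l}` with `x_mj x_kl ≠ 0`: `lam = deg (X_(U + m + j) X_(k l))` (`StEs`), modulo `J`
`X_(k l)` is `X_T` times the variables of `T \ {k, l} = U' + j` (`StP1`), and these variables times
`X_(U + m + j)` give `X_(s m)`, so `lam = deg (X_(s m) X_T) = L`. Hence `E4 = P4 * L`, and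
`2 ∣ ω L - PM T s (q m)` by `StTA1`, `PM T s (q m) = pm (U ∪ {q 0, ..., q 3})` by `StLpl`. -/
def StLeq (D : Dat ee V R) : Prop := ∀ x U q, Gd D x → HQ D x U q →
  ∃ L : R, E4 D x U q = P4 x U q * L ∧
    (P4 x U q = 0 ∨ (2 : R) ∣ D.om * L - D.pm (U ∪ Finset.univ.image q))

/-- C4. Proof as D6 `I_C4.lean` (`pm (U ∪ {q 0, ..., q 3})` is odd by `indp`). -/
def StC4 (D : Dat ee V R) : Prop := ∀ x U q, Gd D x → HQ D x U q → (2 : R) ∣ C4 D x U q

/-- L4. Proof as D6 `I_L4.lean` (with `D5.StK4`). -/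
def StL4 (D : Dat ee V R) : Prop := ∀ x U q, Gd D x → HQ D x U q → ∀ G, U ⊆ G → x G = 0

/-- L5. The link of `U` is not a 5-cycle.
Proof as D6 `I_L5.lean`. Let `e_i = x (U + c i + c (i+1))`, odd. `Gd.rm` for `U + c i`:
`wt (c (i+1)) e_i + wt (c (i-1)) e_(i-1)` is even. `Gd.four` for `M = X_U` and `StEs`: half of
`deg (X_U K^2)`, which is `∑_k e_(k+1) e_(k+3) λ_k`, `λ_k = deg (X_U X_(U + c(k+1) + c(k+2))
X_(U + c(k+3) + c(k+4)))`, is even, and `ω λ_k = pm (U + c(k+1) + ... + c(k+4))` modulo 2 (`StEs`, `StTA1`,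
`StLpl`). From the first relations `e_(k+1) e_(k+3)` is proportional to `wt (c k)`, the same factor for all
`k` (as in D6), so `∑_k wt (c k) pm (U + c(k+1) + ... + c(k+4))` is even. With `P = U ∪ {c 0, ..., c 4}`
(`ee + 5` elements) `StCr` gives that `∑_(u ∈ U) (∑ μ a u) pm (P - u)` is even, against `indw`. -/
def StL5 (D : Dat ee V R) : Prop := ∀ x, Gd D x → ∀ U ⊆ D.VP, U.card = ee → ∀ c : Fin 5 → V,
  Function.Injective c → (∀ i, c i ∉ U) →
  (∀ G, (x G ≠ 0 ∧ U ⊆ G) ↔ ∃ i : Fin 5, G = insert (c i) (insert (c (i + 1)) U)) → False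

/-- VPn. Port of D6 `I_VP6.lean`. -/
def StVPn (D : Dat ee V R) : Prop := ee + 4 ≤ D.VP.card

/-- Fin. Proof (as D6 `I_Fin.lean`). Suppose `x G1 ≠ 0`, take `U' ⊆ G1` with `ee - 1` elements and let `G0`
be the set of the `G \ U'`, `x G ≠ 0`, `U' ⊆ G`: triples. `D5.StCL` applies: two of them meet, because two
sets of the support have `ee` common elements (`StInt`); a pair `H` of such a triple `G \ U'`: `U' ∪ H` has
`ee + 1` elements, so `StClo` gives `G' ≠ G` in the support that contains it, and `G' \ U' ≠ G \ U'` contains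
`H`. First case: `s` and `Q` with `|Q| ≤ 4`; `U = U' + s`; replace `Q` by `(Q ∩ VP) \ U` and enlarge it to
exactly 4 elements inside `VP \ U` (at least 4 elements by `StVPn`), enumerate it by `q`: `HQ D x U q`,
and `StL4` contradicts that `s` is covered. Second case: `StL5` with `U = U' + s`
(`G \ U' = {s, c i, c (i+1)}` iff `G = U + c i + c (i+1)` for `U' ⊆ G`; `c i ∉ U'` because `c i` is in
some `G \ U'`). -/
def StFin (D : Dat ee V R) : Prop := ∀ x, Gd D x → ∀ G, x G = 0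

/-- Core. Port of D6 `I_Core.lean`. -/
def StCore (D : Dat ee V R) : Prop := ∀ (ε : R) (y : MvPolynomial V R), ε * ε = 1 →
  y.IsHomogeneous 2 → D.w * y ∈ D.J → rename D.α y - ε • y ∈ D.J →
  ∃ u : MvPolynomial V R, u.IsHomogeneous 2 ∧ y - (2 : R) • u ∈ D.J

/-- Inj. Port of D6 `I_Inj.lean`. -/
def StInj (D : Dat ee V R) [IsLocalRing R] [IsNoetherianRing R] : Prop :=
  IsLocalRing.maximalIdeal R = Ideal.span {(2 : R)} →
  ∀ x : MvPolynomial V R, x.IsHomogeneous 2 → D.w * x ∈ D.J → x ∈ D.J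

end CSLef.DG
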