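import Mathlib
import Pool.Agent.Work.MP_38c61c_al.D5.I_HCmap
import Pool.Agent.Work.MP_38c61c_al.D5.I_HCex
import Pool.Agent.Work.MP_38c61c_al.D5.I_XdualF
import Pool.Agent.Work.MP_38c61c_al.D5.I_TateF
import Pool.Agent.Work.MP_38c61c_al.D6.I_SurjF
import Pool.Agent.Work.MP_38c61c_al.D6.I_SCex
import Pool.Agent.Work.MP_38c61c_al.DG.StmtsV
import Pool.Agent.Work.MP_38c61c_al.DG.Stmts2
import Pool.Agent.Work.MP_38c61c_al.DG.LowD
import Pool.Agent.Work.MP_38c61c_al.DG.I_Tx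
import Pool.Agent.Work.MP_38c61c_al.DG.I_ExV
import Pool.Agent.Work.MP_38c61c_al.DG.I_Shat
import Pool.Agent.Work.MP_38c61c_al.DG.I_Yp
import Pool.Agent.Work.MP_38c61c_al.DG.I_RedV
import Pool.Agent.Work.MP_38c61c_al.DG.I_InjV
import Pool.Agent.Work.MP_38c61c_al.DG.I_XrelV
import Pool.Agent.Work.MP_38c61c_al.DG.I_Xdg
import Pool.Agent.Work.MP_38c61c_al.DG.I_Xdga
import Pool.Agent.Work.MP_38c61c_al.DG.I_XT
import Pool.Agent.Work.MP_38c61c_al.DG.I_Xnd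
import Pool.Agent.Work.MP_38c61c_al.DG.I_Xpi
import Pool.Agent.Work.MP_38c61c_al.DG.I_XpiT
import Pool.Agent.Work.MP_38c61c_al.DG.I_RbL
import Pool.Agent.Work.MP_38c61c_al.DG.I_Xrelb
import Pool.Agent.Work.MP_38c61c_al.DG.I_Sp
import Pool.Agent.Work.MP_38c61c_al.DG.I_Pmm
import Pool.Agent.Work.MP_38c61c_al.DG.I_XindT
import Pool.Agent.Work.MP_38c61c_al.DG.I_XindP
import Pool.Agent.Work.MP_38c61c_al.DG.I_XindW
import Pool.Agent.Work.MP_38c61c_al.DG.I_XindO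
import Pool.Agent.Work.MP_38c61c_al.DG.I_Xder
import Pool.Agent.Work.MP_38c61c_al.DG.I_Xcube
import Pool.Agent.Work.MP_38c61c_al.DG.I_Xdual
import Pool.Agent.Work.MP_38c61c_al.DG.I_Xtate
import Pool.Agent.Work.MP_38c61c_al.DG.I_Xall
import Pool.Agent.Work.MP_38c61c_al.DG.I_XeK
import Pool.Agent.Work.MP_38c61c_al.DG.I_Dwn
import Pool.Agent.Work.MP_38c61c_al.DG.I_Gen

/-!
Block DG, assembly of parts X and V: from `Ctx D → StCore D` to generic antisymmetric parameters.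
-/

namespace CSLef.DG

open MvPolynomial Finset

universe u

/-- injectivity over the generic ring in degree `i` -/
def InjRR (ee : ℕ) {V : Type} [Fintype V] [DecidableEq V] (Δ : Finset (Finset V))
    (α : Equiv.Perm V) (VP : Finset V) (i : ℕ) : Prop :=
  ∀ x : MvPolynomial V (RR (ee + 4) V), x.IsHomogeneous i →
    welA (ee + 4) α VP (ga ee α VP) (gm ee V) (gc ee) * x ∈ Jid Δ (ga ee α VP) (ee + 4) →
    x ∈ Jid Δ (ga ee α VP) (ee + 4)

section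

variable {ee : ℕ} {V : Type} [Fintype V] [DecidableEq V] {Δ : Finset (Finset V)}
  {α : Equiv.Perm V} {VP : Finset V}

/-- the context exists, with the relations in every degree -/
theorem exists_ctx (he : 1 ≤ ee) (hG : HG ee Δ α VP) : ∃ D : Dat ee V (RR (ee + 4) V),
    D.Δ = Δ ∧ D.α = α ∧ D.VP = VP ∧ D.a = ga ee α VP ∧ D.μ = gm ee V ∧ D.c = gc ee ∧ Ctx D ∧
    RelV D := by
  have xpi := pr_Xpi ee Δ α VP hG
  have xpit := pr_XpiT ee Δ α VP hG xpi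
  have xrelb := pr_Xrelb ee Δ α VP hG xpi xpit pr_RbL
  have sp := pr_Sp ee (V := V)
  obtain ⟨D, h1, h2, h3, h4, h5, h6, hC⟩ := pr_Xall ee Δ α VP hG (pr_Xdg ee Δ α VP hG)
    (pr_Xdga ee Δ α VP hG) (pr_XT ee Δ α VP hG) (pr_Xnd ee Δ α VP hG xpi) xrelb
    (pr_XindT ee α VP sp) (pr_XindP ee α VP sp pr_Pmm) (pr_XindW ee α VP sp pr_Pmm)
    (pr_XindO ee α VP sp) (pr_Xder ee Δ α VP hG) (pr_Xcube ee)
    (pr_Xdual ee Δ α VP hG xpi D5.pr_XdualF) (pr_Xtate ee Δ α VP hG D5.pr_TateF) he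
  exact ⟨D, h1, h2, h3, h4, h5, h6, hC, pr_XrelV ee Δ α VP xrelb D h1 h2 h3 h4 h5 h6 hC⟩

/-- injectivity in degree `i` from divisibility by 2 -/
theorem injRR_of_core (hG : HG ee Δ α VP) (D : Dat ee V (RR (ee + 4) V)) (h1 : D.Δ = Δ)
    (h2 : D.α = α) (h3 : D.VP = VP) (h4 : D.a = ga ee α VP) (h5 : D.μ = gm ee V)
    (h6 : D.c = gc ee) (hC : Ctx D) (i : ℕ)
    (core : ∀ (ε : RR (ee + 4) V) (y : MvPolynomial V (RR (ee + 4) V)), ε * ε = 1 →
      y.IsHomogeneous i → D.w * y ∈ D.J → rename D.α y - ε • y ∈ D.J →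
      ∃ u : MvPolynomial V (RR (ee + 4) V), u.IsHomogeneous i ∧
        y - (2 : RR (ee + 4) V) • u ∈ D.J) : InjRR ee Δ α VP i := by
  intro x hx hw
  have hJ : D.J = Jid Δ (ga ee α VP) (ee + 4) := by
    unfold Dat.J
    rw [h1, h4]
  have hW : D.w = welA (ee + 4) α VP (ga ee α VP) (gm ee V) (gc ee) := by
    unfold Dat.w
    rw [h2, h3, h4, h5, h6]
  rw [← hJ]
  apply pr_InjV D hC (max_eq (ee + 4) V) i core x hx
  rw [hW, hJ]
  exact hw

/-- Part V: injectivity over the generic ring in degree `i` if there is no full set with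
`ee + 6 - 2 i` elements -/
theorem injRR_V (he : 1 ≤ ee) (hG : HG ee Δ α VP) (i : ℕ) (hi : 2 ≤ i) (hi2 : 2 * i < ee + 4)
    (hno : ∀ H : Finset V, H.card + 2 * i = ee + 6 → ∃ T ⊆ H, flip α H T ∉ Δ) :
    InjRR ee Δ α VP i := by
  obtain ⟨D, h1, h2, h3, h4, h5, h6, hC, hR⟩ := exists_ctx he hG
  refine injRR_of_core hG D h1 h2 h3 h4 h5 h6 hC i (fun ε y hε hy hwy hαy => ?_)
  obtain ⟨hy2, hT⟩ := pr_ExV D hC (pr_Tx D hC) i hi2 ε y hε hy hwy hαy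
  refine pr_RedV D hC pr_Shat (pr_Yp D hC) i hi hi2 ?_ y hy
    (hR i (by omega) hi2 y hy (fun M => ?_) (fun M m hm => ?_))
  · intro H hH hc
    obtain ⟨T, hT1, hT2⟩ := hno H hc
    apply hT2
    have h := hH.2 T (Finset.mem_powerset.mpr hT1)
    rwa [h1, h2] at h
  · rw [hC.dgJ _ (Ideal.mul_mem_left _ M hy2)]
    exact dvd_zero _
  · rw [hT M m hm]
    exact dvd_zero _

/-- the degrees of the main theorem -/
def Good (Δ : Finset (Finset V)) (α : Equiv.Perm V) (d i : ℕ) : Prop :=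
  2 * i + 1 ≤ d ∧ (i ≤ 2 ∨ ∀ H : Finset V, H.card + 2 * i = d + 2 → ∃ T ⊆ H, flip α H T ∉ Δ)

/-- the main theorem in dimension at least four, from `Ctx D → StCore D` -/
theorem mainN {k : Type u} [Field k] [CharZero k] (he : 1 ≤ ee) (hG : HG ee Δ α VP)
    (core : ∀ D : Dat ee V (RR (ee + 4) V), Ctx D → StCore D) (N : Finset ℕ)
    (hN : ∀ i ∈ N, Good Δ α (ee + 4) i) : ConclN Δ α (ee + 4) N k := by
  have h2 : InjRR ee Δ α VP 2 := by
    obtain ⟨D, h1, h2, h3, h4, h5, h6, hC, _⟩ := exists_ctx he hG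
    exact injRR_of_core hG D h1 h2 h3 h4 h5 h6 hC 2 (core D hC)
  have hinj : ∀ i ∈ N, i + 1 ≤ ee + 4 ∧ InjRR ee Δ α VP i := by
    intro i hi
    obtain ⟨h3, h4⟩ := hN i hi
    refine ⟨by omega, ?_⟩
    by_cases hi2 : i ≤ 2
    · exact pr_Dwn ee Δ α VP hG 2 (by omega) h2 i hi2
    · rcases h4 with h4 | h4
      · exact absurd h4 hi2
      · exact injRR_V he hG i (by omega) (by omega) (fun H hH => h4 H (by omega))
  obtain ⟨g, hg, H⟩ := pr_Gen.{u} ee Δ α VP hG D5.pr_HCmap D5.pr_HCex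
    (pr_XeK ee Δ α VP hG (pr_Xdg ee Δ α VP hG)) (D6.pr_SurjF D5.pr_XdualF) D6.pr_SCex N hinj
  refine transD hG.cs hG.vp N hg (fun ψ hψ => ?_)
  obtain ⟨h3, h4⟩ := H ψ hψ
  refine ⟨fun i hi => ⟨(h3 i hi).1, fun j hj => (h3 i hi).2 j (by omega)⟩, h4⟩

end

end CSLef.DG
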