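import Mathlib
import Pool.Agent.Work.MP_38c61c_al.DG.ExK
import Pool.Agent.Work.MP_38c61c_al.DG.Char2K
import Pool.Agent.Work.MP_38c61c_al.DG.MainX
import Pool.Agent.Work.MP_38c61c_al.DG.I_Xtate

/-!
Block DG, powers: injectivity of the powers of the Lefschetz element over the generic ring.
-/

namespace CSLef.DG

open MvPolynomial Finset

/-- injectivity over the generic ring of the power `K` in degree `i` -/
def InjK (ee : ℕ) {V : Type} [Fintype V] [DecidableEq V] (Δ : Finset (Finset V))
    (α : Equiv.Perm V) (VP : Finset V) (i K : ℕ) : Prop :=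
  ∀ x : MvPolynomial V (RR (ee + 4) V), x.IsHomogeneous i →
    welA (ee + 4) α VP (ga ee α VP) (gm ee V) (gc ee) ^ K * x ∈ Jid Δ (ga ee α VP) (ee + 4) →
    x ∈ Jid Δ (ga ee α VP) (ee + 4)

namespace IInjK

/-- the argument of `I_InjV.lean` for the power `K` -/
theorem nakK {ee : ℕ} {V : Type} [Fintype V] [DecidableEq V] {R : Type} [CommRing R] [IsDomain R]
    (D : Dat ee V R) (hC : Ctx D) [IsLocalRing R] [IsNoetherianRing R]
    (hmax : IsLocalRing.maximalIdeal R = Ideal.span {(2 : R)}) (i K : ℕ)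
    (h1 : ∀ (ε : R) (y : MvPolynomial V R), ε * ε = 1 →
      y.IsHomogeneous i → D.w ^ K * y ∈ D.J → rename D.α y - ε • y ∈ D.J →
      ∃ u : MvPolynomial V R, u.IsHomogeneous i ∧ y - (2 : R) • u ∈ D.J)
    (x : MvPolynomial V R) (hx : x.IsHomogeneous i) (hw : D.w ^ K * x ∈ D.J) : x ∈ D.J := by
  have hwα0 : rename D.α D.w - D.w ∈ D.J := rename_welA hC.cs.invol hC.vp hC.anti D.μ D.c D.Δ
  have hwα : rename D.α D.w ^ K - D.w ^ K ∈ D.J := by
    obtain ⟨t, ht⟩ := sub_dvd_pow_sub_pow (rename D.α D.w) D.w K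
    rw [ht]
    exact Ideal.mul_mem_right _ _ hwα0
  have hren : ∀ {f : MvPolynomial V R}, f ∈ D.J → rename D.α f ∈ D.J :=
    fun hf => rename_J hC.cs hC.anti hf
  -- main claim
  have main : ∀ ε : R, ε * ε = 1 → ∀ y : MvPolynomial V R, y.IsHomogeneous i →
      D.w ^ K * y ∈ D.J → rename D.α y - ε • y ∈ D.J → y ∈ D.J := by
    intro ε hε y0 hy0 hwy0 hαy0
    let N : Submodule R (MvPolynomial V R) := D.J.restrictScalars R
    let U : Submodule R (MvPolynomial V R) :=
      { carrier := {x | x.IsHomogeneous i ∧ D.w ^ K * x ∈ D.J ∧ rename D.α x - ε • x ∈ D.J}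
        add_mem' := by
          rintro x y ⟨h1, h2, h3⟩ ⟨h4, h5, h6⟩
          refine ⟨h1.add h4, by rw [mul_add]; exact Ideal.add_mem _ h2 h5, ?_⟩
          have h7 := Ideal.add_mem _ h3 h6
          have h8 : rename D.α (x + y) - ε • (x + y) =
              (rename D.α x - ε • x) + (rename D.α y - ε • y) := by
            rw [map_add, smul_add]
            ring
          rw [h8]
          exact h7
        zero_mem' := ⟨isHomogeneous_zero _ _ _, by rw [mul_zero]; exact Ideal.zero_mem _,
          by rw [map_zero, smul_zero, sub_zero]; exact Ideal.zero_mem _⟩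
        smul_mem' := by
          rintro r x ⟨h1, h2, h3⟩
          refine ⟨?_, ?_, ?_⟩
          · rw [smul_eq_C_mul]
            have h4 := (isHomogeneous_C V r).mul h1
            rwa [zero_add] at h4
          · rw [smul_eq_C_mul, mul_left_comm]
            exact Ideal.mul_mem_left _ _ h2
          · have h7 := Ideal.mul_mem_left _ (C r) h3
            have h8 : rename D.α (r • x) - ε • (r • x) = C r * (rename D.α x - ε • x) := by
              rw [map_smul, mul_sub, smul_eq_C_mul, smul_eq_C_mul, smul_eq_C_mul, smul_eq_C_mul]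
              ring
            rw [h8]
            exact h7 }
    have hUN : U ≤ N := by
      apply nak hmax (n := i) N U (fun x hx => (mem_homogeneousSubmodule i x).mpr hx.1)
      rintro y ⟨hy1, hy2, hy3⟩
      obtain ⟨u, hu, he⟩ := h1 ε y hε hy1 hy2 hy3
      refine ⟨y - (2 : R) • u, he, u, ⟨hu, ?_, ?_⟩, by ring⟩
      · apply hC.tors
        have h4 : (2 : R) • (D.w ^ K * u) = D.w ^ K * y - D.w ^ K * (y - (2 : R) • u) := by
          rw [mul_sub, mul_smul_comm]; ring
        rw [h4]
        exact Ideal.sub_mem _ hy2 (Ideal.mul_mem_left _ _ he)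
      · apply hC.tors
        have h4 : (2 : R) • (rename D.α u - ε • u) =
            (rename D.α y - ε • y) -
              (rename D.α (y - (2 : R) • u) - ε • (y - (2 : R) • u)) := by
          rw [map_sub, map_smul, smul_sub, smul_sub, smul_comm (2 : R) ε u]
          ring
        rw [h4]
        apply Ideal.sub_mem _ hy3
        apply Ideal.sub_mem _ (hren he)
        rw [smul_eq_C_mul]
        exact Ideal.mul_mem_left _ _ he
    exact hUN ⟨hy0, hwy0, hαy0⟩
  -- splitting into eigenvectors
  have hwαx : D.w ^ K * rename D.α x ∈ D.J := by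
    have h2 := hren hw
    rw [map_mul, map_pow] at h2
    have h3 := Ideal.sub_mem _ h2 (Ideal.mul_mem_right (rename D.α x) _ hwα)
    have h4 : D.w ^ K * rename D.α x =
        rename D.α D.w ^ K * rename D.α x - (rename D.α D.w ^ K - D.w ^ K) * rename D.α x := by
      ring
    rw [h4]
    exact h3
  have hαx : (rename D.α x).IsHomogeneous i := hx.rename_isHomogeneous
  have h2 : x + rename D.α x ∈ D.J := by
    apply main 1 (one_mul 1) _ (hx.add hαx)
    · rw [mul_add]; exact Ideal.add_mem _ hw hwαx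
    · rw [map_add, rename_rename_inv hC.cs.invol, one_smul, add_comm, sub_self]
      exact Ideal.zero_mem _
  have h3 : x - rename D.α x ∈ D.J := by
    apply main (-1) (by ring) _ (hx.sub hαx)
    · rw [mul_sub]; exact Ideal.sub_mem _ hw hwαx
    · rw [map_sub, rename_rename_inv hC.cs.invol, neg_smul, one_smul, sub_neg_eq_add,
        sub_add_sub_cancel, sub_self]
      exact Ideal.zero_mem _
  apply hC.tors
  have h4 : (2 : R) • x = (x + rename D.α x) + (x - rename D.α x) := by
    rw [two_smul]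
    ring
  rw [h4]
  exact Ideal.add_mem _ h2 h3

end IInjK

/-- injectivity of the power `k + 1` in degree `i`, if there are no full sets with `n + 2`
elements, `2 i + k + n = ee + 4` -/
theorem injK_main {ee : ℕ} {V : Type} [Fintype V] [DecidableEq V] {Δ : Finset (Finset V)}
    {α : Equiv.Perm V} {VP : Finset V} (he : 1 ≤ ee) (hG : HG ee Δ α VP) {i k n : ℕ}
    (hik : i + i + k + n = ee + 4) (hn : 1 ≤ n)
    (hno : ∀ H : Finset V, H.card = n + 2 → ∃ T ⊆ H, flip α H T ∉ Δ) :
    InjK ee Δ α VP i (k + 1) := by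
  obtain ⟨D, h1, h2, h3, h4, h5, h6, hC, -⟩ := exists_ctx he hG
  subst h1 h2 h3
  have xpi := pr_Xpi ee D.Δ D.α D.VP hG
  have xpit := pr_XpiT ee D.Δ D.α D.VP hG xpi
  have S := setupF (d := ee + 4) hG.hs hG.cs hG.vp
  have hJ : D.J = Jid D.Δ (ga ee D.α D.VP) (ee + 4) := by
    unfold Dat.J
    rw [h4]
  have hw : D.w = welA (ee + 4) D.α D.VP (ga ee D.α D.VP) (gm ee V) (gc ee) := by
    unfold Dat.w
    rw [h4, h5, h6]
  have hdg : IsDg ee D.Δ D.α D.VP D.σ D.dg :=
    { J := fun f hf => hC.dgJ f (by rw [hJ]; exact hf)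
      h := hC.dgh
      t := fun f hf => by
        have h := hC.dgt f hf
        rwa [hJ] at h
      s := hC.dgs }
  have hT : IsT ee D.Δ D.α D.VP D.dg D.T :=
    { sr := hC.Tsr
      lin := fun m hm l hl f => by
        have h := hC.Tlin m hm l hl f
        rwa [h4] at h
      h := hC.Th
      a := hC.Ta }
  have H := IXnd.loc hG
  have hwh := IExA.w_hom D
  have hmapw : MvPolynomial.map (red (ee + 4) V) D.w =
      wel (ee + 4) D.α D.VP (fun l w => toF (pP D.α D.VP l w)) (fun l => toF (muP l))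
        (fun v => toF (cP v)) := by
    rw [hw]
    exact IXrelb.map_w ee D.α D.VP
  intro x hx hwx
  rw [← hw, ← hJ] at hwx
  rw [← hJ]
  refine IInjK.nakK D hC (max_eq (ee + 4) V) i (k + 1) (fun ε y hε hy hwy hαy => ?_) x hx hwx
  obtain ⟨e1, e2⟩ := pr_ExK D hC (pr_Tx D hC) i k n (by omega) hn ε y hε hy hwy hαy
  have hmap : MvPolynomial.map (red (ee + 4) V) y ∈
      Jid D.Δ (fun l v => red (ee + 4) V (ga ee D.α D.VP l v)) (ee + 4) := by
    refine char2_powers S (by omega) hik hn hno (hy.map (red (ee + 4) V)) ?_ ?_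
    · intro g hg
      obtain ⟨G, hGh, rfl⟩ := IXtate.hom_lift (red (ee + 4) V) H.surj hg
      have hom : (G * D.w ^ k * y ^ 2).IsHomogeneous (ee + 4) := by
        have h7 := (hGh.mul (hwh.pow k)).mul (hy.pow 2)
        rwa [show n + 1 * k + i * 2 = ee + 4 by omega] at h7
      have h8 := ((xpi D.σ hC.sg hC.sgc D.dg hdg).2.2 _ hom).2 (by rw [e1]; exact dvd_zero _)
      have h9 : MvPolynomial.map (red (ee + 4) V) (G * D.w ^ k * y ^ 2) =
          wel (ee + 4) D.α D.VP (fun l w => toF (pP D.α D.VP l w)) (fun l => toF (muP l))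
            (fun v => toF (cP v)) ^ k * MvPolynomial.map (red (ee + 4) V) G *
            MvPolynomial.map (red (ee + 4) V) y ^ 2 := by
        rw [map_mul, map_mul, map_pow, map_pow, hmapw]
        ring
      rw [h9] at h8
      exact h8
    · intro _ g hg
      obtain ⟨G, hGh, rfl⟩ := IXtate.hom_lift (red (ee + 4) V) H.surj hg
      have hom : (G * D.w ^ (k + 1) * y ^ 2).IsHomogeneous (ee + 5) := by
        have h7 := (hGh.mul (hwh.pow (k + 1))).mul (hy.pow 2)
        rwa [show n + 1 * (k + 1) + i * 2 = ee + 5 by omega] at h7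
      have h8 := xpit D.σ hC.sg hC.sgc D.dg hdg D.T hT _ hom
        (fun m hm => by rw [e2 _ m hm]; exact dvd_zero _)
      have h9 : MvPolynomial.map (red (ee + 4) V) (G * D.w ^ (k + 1) * y ^ 2) =
          wel (ee + 4) D.α D.VP (fun l w => toF (pP D.α D.VP l w)) (fun l => toF (muP l))
            (fun v => toF (cP v)) ^ (k + 1) * MvPolynomial.map (red (ee + 4) V) G *
            MvPolynomial.map (red (ee + 4) V) y ^ 2 := by
        rw [map_mul, map_mul, map_pow, map_pow, hmapw]
        ring
      rw [h9] at h8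
      exact h8
  obtain ⟨e, he, _, u, hu, hfu⟩ := lift_J_hom (red (ee + 4) V) H.hs.down H.surj H.ker hy hmap
  refine ⟨u, hu, ?_⟩
  rw [hfu, add_sub_cancel_right, hJ]
  exact he

/-- injectivity in degree at most two, in the form of this file -/
theorem injK_two {ee : ℕ} {V : Type} [Fintype V] [DecidableEq V] {Δ : Finset (Finset V)}
    {α : Equiv.Perm V} {VP : Finset V} (he : 1 ≤ ee) (hG : HG ee Δ α VP)
    (core : ∀ D : Dat ee V (RR (ee + 4) V), Ctx D → StCore D) {i : ℕ} (hi : i ≤ 2) :
    InjK ee Δ α VP i 1 := by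
  have h2 : InjRR ee Δ α VP 2 := by
    obtain ⟨D, h1, h2, h3, h4, h5, h6, hC, _⟩ := exists_ctx he hG
    exact injRR_of_core hG D h1 h2 h3 h4 h5 h6 hC 2 (core D hC)
  intro x hx hw
  rw [pow_one] at hw
  exact pr_Dwn ee Δ α VP hG 2 (by omega) h2 i hi x hx hw

end CSLef.DG
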