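import Mathlib
import Pool.Agent.Work.MP_38c61c_al.DG.InjK

/-!
Block DG, powers: from injectivity of powers of the Lefschetz element over the generic ring to
generic antisymmetric parameters over a field; the dual surjectivity; dimensions at most three.
-/

namespace CSLef.DG

open MvPolynomial Finset

universe u

/-- injectivity of `w ^ K` in degree `i` for the pairs `(i, K)` of `N`, surjectivity of `w ^ K` in
the dual degrees, for generic antisymmetric parameters -/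
def ConclK {V : Type} [Fintype V] [DecidableEq V] (Δ : Finset (Finset V)) (α : Equiv.Perm V)
    (d : ℕ) (N : Finset (ℕ × ℕ)) (k : Type*) [Field k] : Prop :=
  ∃ Φ : MvPolynomial (Fin d × V) k,
    (∃ A : Fin d → V → k, (∀ l v, A l (α v) = - A l v) ∧ eval (fun q => A q.1 q.2) Φ ≠ 0) ∧
    ∀ A : Fin d → V → k, (∀ l v, A l (α v) = - A l v) → eval (fun q => A q.1 q.2) Φ ≠ 0 →
      (∀ q ∈ N, (∀ x ∈ gr (Jid Δ (rowN A) d) q.1,
          Ideal.Quotient.mk _ (wsum V k) ^ q.2 * x = 0 → x = 0) ∧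
        (∀ j, q.1 + j + q.2 = d → ∀ y ∈ gr (Jid Δ (rowN A) d) (j + q.2),
          ∃ x ∈ gr (Jid Δ (rowN A) d) j, Ideal.Quotient.mk _ (wsum V k) ^ q.2 * x = y)) ∧
      (∀ n, d < n → ∀ f : MvPolynomial V k, f.IsHomogeneous n → f ∈ Jid Δ (rowN A) d)

section Low

variable {d : ℕ} {V : Type} [Fintype V] [DecidableEq V] {k : Type*} [Field k] [CharZero k]
  {Δ : Finset (Finset V)} {α : Equiv.Perm V} {VP : Finset V}

/-- transfer to antisymmetric parameters and the sum of the variables -/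
theorem transK (hα : IsCS Δ α) (hvp : ∀ v, v ∈ VP ↔ α v ∉ VP) (N : Finset (ℕ × ℕ)) {g : PR d V}
    (hg : g ≠ 0)
    (H : ∀ ψ : PR d V →+* k, ψ g ≠ 0 →
      (∀ q ∈ N,
        (∀ x : MvPolynomial V k, x.IsHomogeneous q.1 →
          (MvPolynomial.map ψ (wP d α VP)) ^ q.2 * x ∈ Jid Δ (fun l v => ψ (aP d α VP l v)) d →
          x ∈ Jid Δ (fun l v => ψ (aP d α VP l v)) d) ∧
        (∀ j, q.1 + j + q.2 = d → ∀ y : MvPolynomial V k, y.IsHomogeneous (j + q.2) →
          ∃ x : MvPolynomial V k, x.IsHomogeneous j ∧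
            (MvPolynomial.map ψ (wP d α VP)) ^ q.2 * x - y ∈
              Jid Δ (fun l v => ψ (aP d α VP l v)) d)) ∧
      (∀ n, d < n → ∀ f : MvPolynomial V k, f.IsHomogeneous n →
        f ∈ Jid Δ (fun l v => ψ (aP d α VP l v)) d)) :
    ConclK Δ α d N k := by
  have hinv := hα.invol
  obtain ⟨p, hpg, hps⟩ := exists_param (k := k) VP hg
  have hs0 : ∀ v, s0 α VP p v ≠ 0 := by
    intro v
    unfold s0
    split_ifs with hv
    · exact hps v hv
    · apply hps
      by_contra h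
      exact hv ((hvp v).mpr h)
  refine ⟨PsiP VP p g, ⟨A0 α VP p, A0_anti hinv hvp p, ?_⟩, ?_⟩
  · have h1 := psiA_A0 (α := α) p hps
    have h2 := RingHom.congr_fun h1 g
    unfold psiA at h2
    rw [RingHom.comp_apply] at h2
    rw [h2]
    exact hpg
  · intro A hA hne
    have h1 := H (psiA VP p A) hne
    have hJ : Jid Δ (fun l v => psiA VP p A (aP d α VP l v)) d =
        Jid Δ (fun l v => rowN A l v * s0 α VP p v) d := by
      congr 1
      funext l v
      exact psiA_aP hvp p hA l v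
    rw [hJ] at h1
    obtain ⟨hin, h2⟩ := h1
    have hbig : ∀ n, d < n → ∀ f : MvPolynomial V k, f.IsHomogeneous n →
        f ∈ Jid Δ (rowN A) d := by
      intro n hn f hf
      rw [← scale_J_iff (s0 α VP p) hs0]
      exact h2 n hn _ (scale_hom _ hf)
    refine ⟨?_, hbig⟩
    set J' := Jid Δ (fun l v => rowN A l v * s0 α VP p v) d with hJ'
    set w' := MvPolynomial.map (psiA VP p A) (wP d α VP) with hw'
    have hcmp : ∀ e (x : MvPolynomial V k),
        C 2 ^ e * (w' ^ e * x) - (scale (s0 α VP p) (wsum V k)) ^ e * x ∈ J' := by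
      intro e x
      rw [← mul_assoc, ← mul_pow, ← sub_mul]
      apply Ideal.mul_mem_right
      obtain ⟨c, hc⟩ := sub_dvd_pow_sub_pow (C 2 * w') (scale (s0 α VP p) (wsum V k)) e
      rw [hc]
      exact Ideal.mul_mem_right _ _ (two_wP hinv hvp p hA)
    have hC2 : ∀ e, (C 2 : MvPolynomial V k) ^ e * C (2⁻¹ ^ e) = 1 := by
      intro e
      rw [← map_pow, ← map_mul, ← mul_pow, mul_inv_cancel₀ two_ne_zero, one_pow, map_one]
    intro q hq
    constructor
    · intro x0 hx0 hw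
      obtain ⟨x, hx, rfl⟩ := mem_gr.mp hx0
      rw [← map_pow, ← map_mul, Ideal.Quotient.eq_zero_iff_mem] at hw
      rw [Ideal.Quotient.eq_zero_iff_mem]
      rw [← scale_J_iff (s0 α VP p) hs0] at hw ⊢
      apply (hin q hq).1 _ (scale_hom _ hx)
      rw [map_mul, map_pow] at hw
      have h3 := Ideal.add_mem _ (hcmp q.2 (scale (s0 α VP p) x)) hw
      rw [sub_add_cancel] at h3
      have h4 := Ideal.mul_mem_left _ (C (2⁻¹ ^ q.2)) h3
      rw [← mul_assoc, mul_comm (C (2⁻¹ ^ q.2)), hC2, one_mul] at h4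
      exact h4
    · intro j hj y0 hy0
      obtain ⟨y, hy, rfl⟩ := mem_gr.mp hy0
      obtain ⟨x', hx'1, hx'2⟩ := (hin q hq).2 j hj _ (scale_hom (s0 α VP p) hy)
      have hssi : ∀ f : MvPolynomial V k,
          scale (s0 α VP p) (scale (fun v => (s0 α VP p v)⁻¹) f) = f :=
        scale_scale _ _ (fun v => mul_inv_cancel₀ (hs0 v))
      have h : ∃ x : MvPolynomial V k, x.IsHomogeneous j ∧
          wsum V k ^ q.2 * x - y ∈ Jid Δ (rowN A) d := by
        refine ⟨scale (fun v => (s0 α VP p v)⁻¹) (C (2⁻¹ ^ q.2) * x'), ?_, ?_⟩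
        · apply scale_hom
          have := (isHomogeneous_C V ((2⁻¹ : k) ^ q.2)).mul hx'1
          rwa [zero_add] at this
        · rw [← scale_J_iff (s0 α VP p) hs0, map_sub, map_mul, map_pow, hssi]
          have h3 := Ideal.add_mem _ hx'2
            ((Ideal.neg_mem_iff _).mpr (hcmp q.2 (C (2⁻¹ ^ q.2) * x')))
          have h4 : C 2 ^ q.2 * (w' ^ q.2 * (C (2⁻¹ ^ q.2) * x')) = w' ^ q.2 * x' := by
            have h5 : C 2 ^ q.2 * (w' ^ q.2 * (C (2⁻¹ ^ q.2) * x')) =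
              (C 2 ^ q.2 * C (2⁻¹ ^ q.2)) * (w' ^ q.2 * x') := by ring
            rw [h5, hC2, one_mul]
          rw [h4] at h3
          have h6 : w' ^ q.2 * x' - scale (s0 α VP p) y +
              -(w' ^ q.2 * x' - scale (s0 α VP p) (wsum V k) ^ q.2 * (C (2⁻¹ ^ q.2) * x')) =
              scale (s0 α VP p) (wsum V k) ^ q.2 * (C (2⁻¹ ^ q.2) * x') -
                scale (s0 α VP p) y := by ring
          rw [h6] at h3
          exact h3
      obtain ⟨x, hx1, hx2⟩ := h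
      refine ⟨Ideal.Quotient.mk _ x, mem_gr.mpr ⟨x, hx1, rfl⟩, ?_⟩
      rw [← map_pow, ← map_mul, Ideal.Quotient.mk_eq_mk_iff_sub_mem]
      exact hx2

/-- from the bijectivity of the powers between dual degrees to all powers -/
theorem lowK_of_bij (hα : IsCS Δ α) (hvp : ∀ v, v ∈ VP ↔ α v ∉ VP) (N : Finset (ℕ × ℕ))
    (hN : ∀ q ∈ N, 2 * q.1 + q.2 ≤ d) {g : PR d V} (hg : g ≠ 0)
    (H : ∀ ψ : PR d V →+* k, ψ g ≠ 0 →
      (∀ i e, i + e + i = d →
        (∀ x : MvPolynomial V k, x.IsHomogeneous i →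
          (MvPolynomial.map ψ (wP d α VP)) ^ e * x ∈ Jid Δ (fun l v => ψ (aP d α VP l v)) d →
          x ∈ Jid Δ (fun l v => ψ (aP d α VP l v)) d) ∧
        (∀ y : MvPolynomial V k, y.IsHomogeneous (i + e) → ∃ x : MvPolynomial V k,
          x.IsHomogeneous i ∧ (MvPolynomial.map ψ (wP d α VP)) ^ e * x - y ∈
            Jid Δ (fun l v => ψ (aP d α VP l v)) d)) ∧
      (∀ n, d < n → ∀ f : MvPolynomial V k, f.IsHomogeneous n →
        f ∈ Jid Δ (fun l v => ψ (aP d α VP l v)) d)) : ConclK Δ α d N k := by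
  apply transK hα hvp N hg
  intro ψ hψ
  obtain ⟨h1, h2⟩ := H ψ hψ
  refine ⟨fun q hq => ?_, h2⟩
  have hi2 := hN q hq
  obtain ⟨e, he⟩ : ∃ e, q.1 + (e + q.2) + q.1 = d := ⟨d - (2 * q.1 + q.2), by omega⟩
  obtain ⟨h3, h4⟩ := h1 q.1 (e + q.2) he
  have hw : (MvPolynomial.map ψ (wP d α VP)).IsHomogeneous 1 :=
    (welA_hom (d := d) (α := α) VP _ _ _).map ψ
  constructor
  · intro x hx hwx
    apply h3 x hx
    rw [pow_add, mul_assoc]
    exact Ideal.mul_mem_left _ _ hwx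
  · intro j hj y hy
    have hj' : j + q.2 = q.1 + (e + q.2) := by omega
    rw [hj'] at hy
    obtain ⟨x, hx, hxy⟩ := h4 y hy
    refine ⟨(MvPolynomial.map ψ (wP d α VP)) ^ e * x, ?_, ?_⟩
    · have h5 := (hw.pow e).mul hx
      have h6 : 1 * e + q.1 = j := by omega
      rwa [h6] at h5
    · rwa [← mul_assoc, ← pow_add, add_comm q.2 e]

/-- dimensions at most two -/
theorem lowK_le_three (hd : 1 ≤ d) (hd' : d ≤ 3) (hΔ : IsHomSphere Δ d) (hα : IsCS Δ α)
    (hvp : ∀ v, v ∈ VP ↔ α v ∉ VP) (N : Finset (ℕ × ℕ)) (hN : ∀ q ∈ N, 2 * q.1 + q.2 ≤ d) :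
    ConclK Δ α d N k := by
  have hquad : CondQuad Δ α d := by
    intro G hG hc 𝓣 h1 h2 h3 h4
    by_contra hne
    have hP : ∀ P ⊆ G, P.card ≤ 2 → Even (𝓣.filter (fun T => P ⊆ T)).card := by
      intro P hP hPc
      have hcases : P.card = 0 ∨ P.card = 1 ∨ P.card = 2 := by omega
      rcases hcases with h0 | h0 | h0
      · rw [Finset.card_eq_zero] at h0
        subst h0
        simpa using h2
      · obtain ⟨u, rfl⟩ := Finset.card_eq_one.mp h0
        simp only [Finset.singleton_subset_iff] at hP ⊢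
        exact h3 u hP
      · obtain ⟨u, u', _, rfl⟩ := Finset.card_eq_two.mp h0
        simp only [Finset.insert_subset_iff, Finset.singleton_subset_iff] at hP ⊢
        exact h4 u hP.1 u' hP.2
    obtain ⟨S, hS, hSc, _⟩ := shatter_of_even G 2 𝓣 (fun T hT => (h1 T hT).1)
      (Finset.nonempty_iff_ne_empty.mpr hne) hP
    have := Finset.card_le_card hS
    omega
  obtain ⟨g, hg, H⟩ := generic_bij_q hΔ hα hvp hd hquad
  exact lowK_of_bij hα hvp N hN hg (fun ψ hψ => H ψ hψ)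

/-- dimension three -/
theorem lowK_four (hΔ : IsHomSphere Δ 4) (hα : IsCS Δ α) (hvp : ∀ v, v ∈ VP ↔ α v ∉ VP)
    (N : Finset (ℕ × ℕ)) (hN : ∀ q ∈ N, 2 * q.1 + q.2 ≤ 4) : ConclK Δ α 4 N k := by
  obtain ⟨g, hg, H⟩ := Oct.bij_of_inj hΔ hα hvp (by norm_num)
    (fun i k hik x hx hw => Oct.inj4 hΔ hα hvp i k hik x hx hw)
  exact lowK_of_bij hα hvp N hN hg (fun ψ hψ => H ψ hψ)

end Low

namespace IGenK

/-- surjectivity from injectivity in the dual degree, `w` of degree `K` -/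
theorem surjF (h1 : D5.StXdualF) {F : Type} [Field F] {V : Type} [Fintype V] [DecidableEq V]
    (I : Ideal (MvPolynomial V F)) (e : MvPolynomial V F →ₗ[F] F) (w : MvPolynomial V F)
    (h k K : ℕ) (hw : w.IsHomogeneous K) (he : ∀ g ∈ I, e g = 0)
    (n1 : ∀ g : MvPolynomial V F, g.IsHomogeneous (h + K) →
      (∀ f : MvPolynomial V F, f.IsHomogeneous k → e (f * g) = 0) → g ∈ I)
    (inj : ∀ g : MvPolynomial V F, g.IsHomogeneous h → w * g ∈ I → g ∈ I)
    (n2 : ∀ y : MvPolynomial V F, y.IsHomogeneous (k + K) →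
      (∀ g : MvPolynomial V F, g.IsHomogeneous h → e (y * g) = 0) → y ∈ I)
    (y : MvPolynomial V F) (hy : y.IsHomogeneous (k + K)) :
    ∃ x : MvPolynomial V F, x.IsHomogeneous k ∧ w * x - y ∈ I := by
  have hnd : ∀ g : MvPolynomial V F, g.IsHomogeneous h →
      (∀ f : MvPolynomial V F, f.IsHomogeneous k →
        (e ∘ₗ LinearMap.mulLeft F w) (f * g) = 0) → g ∈ I := by
    intro g hg hf
    refine inj g hg (n1 (w * g) ?_ ?_)
    · have h2 := hw.mul hg
      rwa [add_comm] at h2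
    · intro f hfk
      have h2 := hf f hfk
      rw [LinearMap.comp_apply, LinearMap.mulLeft_apply] at h2
      rw [← h2]
      congr 1
      ring
  have hlam : ∀ g ∈ I, g.IsHomogeneous h → (e ∘ₗ LinearMap.mulLeft F y) g = 0 := by
    intro g hg _
    rw [LinearMap.comp_apply, LinearMap.mulLeft_apply]
    exact he _ (I.mul_mem_left y hg)
  obtain ⟨x, hx, hxg⟩ := h1 I (e ∘ₗ LinearMap.mulLeft F w) (e ∘ₗ LinearMap.mulLeft F y) h k
    hnd hlam
  refine ⟨x, hx, n2 _ ?_ ?_⟩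
  · have h2 := hw.mul hx
    rw [add_comm] at h2
    exact h2.sub hy
  · intro g hg
    have h2 := hxg g hg
    rw [LinearMap.comp_apply, LinearMap.comp_apply, LinearMap.mulLeft_apply,
      LinearMap.mulLeft_apply] at h2
    rw [sub_mul, map_sub, mul_assoc, h2, sub_self]

/-- surjectivity from a certificate -/
theorem surjC {V : Type} [Fintype V] [DecidableEq V] {B : Type u} [Field B]
    (J : Ideal (MvPolynomial V B)) (w : MvPolynomial V B) (i K : ℕ) (g : B) (hg : g ≠ 0)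
    (L : (V →₀ ℕ) → MvPolynomial V B) (hL : ∀ n, (L n).IsHomogeneous i)
    (hc : ∀ n ∈ Mon V (i + K), w * L n - C g * monomial n 1 ∈ J) (y : MvPolynomial V B)
    (hy : y.IsHomogeneous (i + K)) :
    ∃ x : MvPolynomial V B, x.IsHomogeneous i ∧ w * x - y ∈ J := by
  refine ⟨C g⁻¹ * Lam L (i + K) y, ?_, ?_⟩
  · have := (isHomogeneous_C V g⁻¹).mul (Lam_hom hL (i + K) y)
    rwa [zero_add] at this
  · have h1 : w * Lam L (i + K) y - C g * y ∈ J := by
      have e0 : w * Lam L (i + K) y - C g * y =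
          ∑ m ∈ Mon V (i + K), C (coeff m y) * (w * L m - C g * monomial m 1) := by
        have e1 : C g * y = ∑ m ∈ Mon V (i + K), C g * (C (coeff m y) * monomial m 1) := by
          rw [← Finset.mul_sum, ← hom_sum_Mon hy]
        rw [e1]
        unfold Lam
        rw [Finset.mul_sum, ← Finset.sum_sub_distrib]
        refine Finset.sum_congr rfl (fun m _ => ?_)
        ring
      rw [e0]
      exact Ideal.sum_mem _ (fun m hm => Ideal.mul_mem_left _ _ (hc m hm))
    have h2 := Ideal.mul_mem_left _ (C g⁻¹) h1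
    have e2 : (C g⁻¹ * C g : MvPolynomial V B) = 1 := by
      rw [← map_mul, inv_mul_cancel₀ hg, map_one]
    have e3 : w * (C g⁻¹ * Lam L (i + K) y) - y = C g⁻¹ * (w * Lam L (i + K) y - C g * y) := by
      linear_combination y * e2
    rw [e3]
    exact h2

/-- surjectivity specializes, `w` arbitrary -/
theorem scex {V : Type} [Fintype V] [DecidableEq V] {A K : Type} [CommRing A] [IsDomain A]
    [Field K] (φ : A →+* K) (hφ : Den φ) (Δ : Finset (Finset V))
    (hdown : ∀ F ∈ Δ, ∀ G, G ⊆ F → G ∈ Δ) (a : ℕ → V → A) (d : ℕ) (w : MvPolynomial V A)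
    (i n0 : ℕ)
    (hsurj : ∀ y : MvPolynomial V K, y.IsHomogeneous (i + n0) → ∃ x : MvPolynomial V K,
      x.IsHomogeneous i ∧ MvPolynomial.map φ w * x - y ∈ Jid Δ (fun l v => φ (a l v)) d) :
    ∃ g : A, g ≠ 0 ∧ ∀ {B : Type u} [Field B] (ψ : A →+* B), ψ g ≠ 0 →
      ∀ y : MvPolynomial V B, y.IsHomogeneous (i + n0) → ∃ x : MvPolynomial V B,
        x.IsHomogeneous i ∧ MvPolynomial.map ψ w * x - y ∈ Jid Δ (fun l v => ψ (a l v)) d := by
  have hx : ∀ n : V →₀ ℕ, ∃ x : MvPolynomial V K, x.IsHomogeneous i ∧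
      (n ∈ Mon V (i + n0) → MvPolynomial.map φ w * x - monomial n 1 ∈
        Jid Δ (fun l v => φ (a l v)) d) := by
    intro n
    by_cases hn : n ∈ Mon V (i + n0)
    · obtain ⟨x, h1, h2⟩ := hsurj (monomial n 1) (monomial_hom hn 1)
      exact ⟨x, h1, fun _ => h2⟩
    · exact ⟨0, isHomogeneous_zero _ _ _, fun h => absurd h hn⟩
  choose x hx1 hx2 using hx
  obtain ⟨s0, hs0, hL⟩ := den_poly hφ (Mon V (i + n0)) x
  have hL' : ∀ n : V →₀ ℕ, ∃ f' : MvPolynomial V A, f'.IsHomogeneous i ∧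
      (n ∈ Mon V (i + n0) → C (φ s0) * x n = MvPolynomial.map φ f') := by
    intro n
    by_cases hn : n ∈ Mon V (i + n0)
    · obtain ⟨f', hf'⟩ := hL n hn
      refine ⟨f', ?_, fun _ => hf'⟩
      apply map_hom_iff hφ
      rw [← hf']
      have := (isHomogeneous_C V (φ s0)).mul (hx1 n)
      rwa [zero_add] at this
    · exact ⟨0, isHomogeneous_zero _ _ _, fun h => absurd h hn⟩
  choose L0 hL0 hL0' using hL'
  obtain ⟨s1, hs1, h1⟩ := descend_finset hφ hdown (a := a) (j := d) (Mon V (i + n0))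
    (fun n => w * L0 n - C s0 * monomial n 1) (by
      intro n hn
      have h3 := Ideal.mul_mem_left _ (C (φ s0)) (hx2 n hn)
      have e : MvPolynomial.map φ (w * L0 n - C s0 * monomial n 1) =
          C (φ s0) * (MvPolynomial.map φ w * x n - monomial n 1) := by
        rw [map_sub, map_mul, map_mul, map_C, map_mon_one, ← hL0' n hn]
        ring
      rw [e]
      exact h3)
  refine ⟨s1 * s0, mul_ne_zero hs1 hs0, ?_⟩
  intro B _ ψ hψ y hy
  refine surjC (Jid Δ (fun l v => ψ (a l v)) d) (MvPolynomial.map ψ w) i n0 (ψ (s1 * s0)) hψ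
    (fun n => MvPolynomial.map ψ (C s1 * L0 n)) (fun n => ?_) (fun n hn => ?_) y hy
  · have := (isHomogeneous_C V s1).mul (hL0 n)
    rw [zero_add] at this
    exact this.map ψ
  · have h3 := map_J ψ hdown (h1 n hn)
    have e : MvPolynomial.map ψ w * MvPolynomial.map ψ (C s1 * L0 n) -
        C (ψ (s1 * s0)) * monomial n 1 =
        MvPolynomial.map ψ (C s1 * (w * L0 n - C s0 * monomial n 1)) := by
      simp only [map_mul, map_sub, map_C, map_mon_one]
      ring
    rw [e]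
    exact h3

variable {V : Type} [Fintype V] [DecidableEq V] {ee : ℕ} {Δ : Finset (Finset V)} {α : Equiv.Perm V}
  {VP : Finset V}

/-- injectivity over the fraction field -/
theorem injF (hG : HG ee Δ α VP) {i K : ℕ} (hinj : InjK ee Δ α VP i K)
    {x : MvPolynomial V (KK (ee + 4) V)} (hx : x.IsHomogeneous i)
    (hw : (MvPolynomial.map (phiP (ee + 4) V) (wP (ee + 4) α VP)) ^ K * x ∈
      Jid Δ (fun l v => phiP (ee + 4) V (aP (ee + 4) α VP l v)) (ee + 4)) :
    x ∈ Jid Δ (fun l v => phiP (ee + 4) V (aP (ee + 4) α VP l v)) (ee + 4) := by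
  have H := locHyp hG.hs hG.cs hG.vp
  have htors : ∀ s : RR (ee + 4) V, s ≠ 0 → ∀ f : MvPolynomial V (RR (ee + 4) V),
      s • f ∈ Jid Δ (ga ee α VP) (ee + 4) → f ∈ Jid Δ (ga ee α VP) (ee + 4) :=
    fun s hs f hf => tors (red (ee + 4) V) H hs hf
  rw [IGen.hwKmap] at hw
  exact k_inj (den_R (ee + 4) V) hG.hs.down htors hinj hx hw

/-- surjectivity over the fraction field -/
theorem surjK (hG : HG ee Δ α VP) (h3 : StXeK ee Δ α VP) (h4 : D5.StXdualF) {i j K : ℕ}
    (hij : i + j + K = ee + 4) (hinj : InjK ee Δ α VP i K)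
    (y : MvPolynomial V (KK (ee + 4) V)) (hy : y.IsHomogeneous (j + K)) :
    ∃ x : MvPolynomial V (KK (ee + 4) V), x.IsHomogeneous j ∧
      (MvPolynomial.map (phiP (ee + 4) V) (wP (ee + 4) α VP)) ^ K * x - y ∈
        Jid Δ (fun l v => phiP (ee + 4) V (aP (ee + 4) α VP l v)) (ee + 4) := by
  obtain ⟨e, he1, he2⟩ := h3
  have hw1 : (MvPolynomial.map (phiP (ee + 4) V) (wP (ee + 4) α VP)).IsHomogeneous 1 :=
    (welA_hom (d := ee + 4) (α := α) VP (aP (ee + 4) α VP) muP cP).map (phiP (ee + 4) V)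
  have hwK : ((MvPolynomial.map (phiP (ee + 4) V) (wP (ee + 4) α VP)) ^ K).IsHomogeneous K := by
    have := hw1.pow K
    rwa [one_mul] at this
  have hJ : ∀ g ∈ Jid Δ (fun l v => phiP (ee + 4) V (aP (ee + 4) α VP l v)) (ee + 4),
    e g = 0 := he1
  have htop : ∀ h : MvPolynomial V (KK (ee + 4) V), h.IsHomogeneous (ee + 4) → e h = 0 →
      h ∈ Jid Δ (fun l v => phiP (ee + 4) V (aP (ee + 4) α VP l v)) (ee + 4) := he2
  refine surjF h4 (Jid Δ (fun l v => phiP (ee + 4) V (aP (ee + 4) α VP l v)) (ee + 4)) e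
    ((MvPolynomial.map (phiP (ee + 4) V) (wP (ee + 4) α VP)) ^ K) i j K hwK hJ ?_ ?_ ?_ y hy
  · intro g hg h0
    have e1 : i + K + j = ee + 4 := by omega
    have e2 : j + (i + K) = ee + 4 := by omega
    apply IGen.ndK hG (i := i + K) (k := j) e1 hg
    intro f hf
    have hfg := hf.mul hg
    rw [e2] at hfg
    exact htop _ hfg (h0 f hf)
  · intro g hg h0
    exact injF hG hinj hg h0
  · intro z hz h0
    have e1 : j + K + i = ee + 4 := by omega
    have e2 : i + (j + K) = ee + 4 := by omega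
    apply IGen.ndK hG (i := j + K) (k := i) e1 hz
    intro f hf
    have hfz := hf.mul hz
    rw [e2] at hfz
    apply htop _ hfz
    rw [mul_comm]
    exact h0 f hf

end IGenK

open IGenK

/-- generic injectivity and surjectivity of the powers -/
theorem genK {ee : ℕ} {V : Type} [Fintype V] [DecidableEq V] {Δ : Finset (Finset V)}
    {α : Equiv.Perm V} {VP : Finset V} (hG : HG ee Δ α VP) (N : Finset (ℕ × ℕ))
    (hN : ∀ q ∈ N, 1 ≤ q.2 ∧ q.1 + q.2 ≤ ee + 4 ∧ InjK ee Δ α VP q.1 q.2) :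
    ∃ g : PR (ee + 4) V, g ≠ 0 ∧ ∀ {k : Type u} [Field k] (ψ : PR (ee + 4) V →+* k), ψ g ≠ 0 →
      (∀ q ∈ N,
        (∀ x : MvPolynomial V k, x.IsHomogeneous q.1 →
          (MvPolynomial.map ψ (wP (ee + 4) α VP)) ^ q.2 * x ∈
            Jid Δ (fun l v => ψ (aP (ee + 4) α VP l v)) (ee + 4) →
          x ∈ Jid Δ (fun l v => ψ (aP (ee + 4) α VP l v)) (ee + 4)) ∧
        (∀ j, q.1 + j + q.2 = ee + 4 → ∀ y : MvPolynomial V k, y.IsHomogeneous (j + q.2) →
          ∃ x : MvPolynomial V k, x.IsHomogeneous j ∧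
            (MvPolynomial.map ψ (wP (ee + 4) α VP)) ^ q.2 * x - y ∈
              Jid Δ (fun l v => ψ (aP (ee + 4) α VP l v)) (ee + 4))) ∧
      (∀ n, ee + 4 < n → ∀ f : MvPolynomial V k, f.IsHomogeneous n →
        f ∈ Jid Δ (fun l v => ψ (aP (ee + 4) α VP l v)) (ee + 4)) := by
  classical
  have h1 : D5.StHCmap.{u} := D5.pr_HCmap
  have h2 : D5.StHCex := D5.pr_HCex
  have h3 := pr_XeK ee Δ α VP hG (pr_Xdg ee Δ α VP hG)
  have h4 : D5.StXdualF := D5.pr_XdualF
  have hcert : ∀ q : ℕ × ℕ, ∃ g : PR (ee + 4) V, g ≠ 0 ∧ (q ∈ N →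
      ∃ L : (V →₀ ℕ) → MvPolynomial V (PR (ee + 4) V),
        D5.HCert Δ (aP (ee + 4) α VP) (ee + 4) (wP (ee + 4) α VP) q.1 q.2 g L) := by
    intro q
    by_cases h : q ∈ N
    · obtain ⟨g, hg, L, hL⟩ := h2 (phiP (ee + 4) V) (den_P (ee + 4) V) Δ hG.hs.down
        (aP (ee + 4) α VP) (ee + 4) (wP (ee + 4) α VP) q.1 q.2
        (by have := (hN q h).1; omega) (welA_hom _ _ _ _)
        (fun x hx hw => injF hG (hN q h).2.2 hx hw)
      exact ⟨g, hg, fun _ => ⟨L, hL⟩⟩
    · exact ⟨1, one_ne_zero, fun h' => absurd h' h⟩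
  choose g hg hL using hcert
  have hsur : ∀ q : ℕ × ℕ, ∃ g : PR (ee + 4) V, g ≠ 0 ∧ (q ∈ N → ∀ {B : Type u} [Field B]
      (ψ : PR (ee + 4) V →+* B), ψ g ≠ 0 →
      ∀ j, q.1 + j + q.2 = ee + 4 → ∀ y : MvPolynomial V B, y.IsHomogeneous (j + q.2) →
        ∃ x : MvPolynomial V B, x.IsHomogeneous j ∧
          (MvPolynomial.map ψ (wP (ee + 4) α VP)) ^ q.2 * x - y ∈
            Jid Δ (fun l v => ψ (aP (ee + 4) α VP l v)) (ee + 4)) := by
    intro q
    by_cases h : q ∈ N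
    · have hi := (hN q h).2.1
      have hij : q.1 + (ee + 4 - q.1 - q.2) + q.2 = ee + 4 := by omega
      obtain ⟨gS, hgS, hLS⟩ := scex.{u} (phiP (ee + 4) V) (den_P (ee + 4) V) Δ hG.hs.down
        (aP (ee + 4) α VP) (ee + 4) (wP (ee + 4) α VP ^ q.2) (ee + 4 - q.1 - q.2) q.2
        (fun y hy => by
          obtain ⟨x, hx, hxy⟩ := surjK hG h3 h4 hij (hN q h).2.2 y hy
          refine ⟨x, hx, ?_⟩
          rw [map_pow]
          exact hxy)
      refine ⟨gS, hgS, fun _ => ?_⟩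
      intro B _ ψ hψ j hj y hy
      obtain rfl : j = ee + 4 - q.1 - q.2 := by omega
      obtain ⟨x, hx, hxy⟩ := hLS ψ hψ y hy
      refine ⟨x, hx, ?_⟩
      rw [map_pow] at hxy
      exact hxy
    · exact ⟨1, one_ne_zero, fun h' => absurd h' h⟩
  choose gS hgS hLS using hsur
  obtain ⟨s, hs, hlarge⟩ := descend_finset (den_P (ee + 4) V) hG.hs.down
    (a := aP (ee + 4) α VP) (j := ee + 4)
    (Mon V (ee + 4 + 1)) (fun n => monomial n 1) (by
      intro n hn
      apply k_large (den_R (ee + 4) V) hG.hs.down (a := fun l v =>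
        algebraMap (PR (ee + 4) V) (RR (ee + 4) V) (aP (ee + 4) α VP l v)) (n := ee + 4 + 1)
      · intro f hf
        exact large_R (red (ee + 4) V) (locHyp hG.hs hG.cs hG.vp) (Nat.lt_succ_self (ee + 4)) hf
      · exact (monomial_hom hn 1).map _)
  refine ⟨(∏ q ∈ N, g q) * s * ∏ q ∈ N, gS q, mul_ne_zero
    (mul_ne_zero (Finset.prod_ne_zero_iff.mpr (fun i _ => hg i)) hs)
    (Finset.prod_ne_zero_iff.mpr (fun i _ => hgS i)), ?_⟩
  intro k _ ψ hψ
  rw [map_mul, map_mul, map_prod, map_prod] at hψ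
  have hψS : ∀ q ∈ N, ψ (gS q) ≠ 0 := Finset.prod_ne_zero_iff.mp (right_ne_zero_of_mul hψ)
  have hψs : ψ s ≠ 0 := right_ne_zero_of_mul (left_ne_zero_of_mul hψ)
  have hψg : ∀ q ∈ N, ψ (g q) ≠ 0 :=
    Finset.prod_ne_zero_iff.mp (left_ne_zero_of_mul (left_ne_zero_of_mul hψ))
  refine ⟨?_, ?_⟩
  · intro q hq
    refine ⟨?_, ?_⟩
    · intro x hx hw
      obtain ⟨L, hLc⟩ := hL q hq
      exact h1 ψ Δ hG.hs.down (aP (ee + 4) α VP) (ee + 4) (wP (ee + 4) α VP) q.1 q.2 (g q) L hLc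
        (by have := (hN q hq).1; omega) (welA_hom _ _ _ _) (hψg q hq) x hx hw
    · intro j hj y hy
      exact hLS q hq ψ (hψS q hq) j hj y hy
  · have hbase : ∀ f : MvPolynomial V k, f.IsHomogeneous (ee + 4 + 1) →
        f ∈ Jid Δ (fun l v => ψ (aP (ee + 4) α VP l v)) (ee + 4) := by
      intro f hf
      rw [hom_sum_Mon hf]
      apply Ideal.sum_mem
      intro m hm
      apply Ideal.mul_mem_left
      have h1 := map_J ψ hG.hs.down (hlarge m hm)
      rw [map_mul, map_C, map_mon_one] at h1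
      have h2 := Ideal.mul_mem_left _ (C (ψ s)⁻¹) h1
      rw [← mul_assoc, ← map_mul, inv_mul_cancel₀ hψs, map_one, one_mul] at h2
      exact h2
    intro n hn
    obtain ⟨m, rfl⟩ : ∃ m, n = ee + 4 + 1 + m := ⟨n - (ee + 4 + 1), by omega⟩
    clear hn
    induction m with
    | zero => intro f hf; exact hbase f hf
    | succ m ih =>
      intro f hf
      obtain ⟨f', hf'1, hf'2⟩ := hom_split (show f.IsHomogeneous (ee + 4 + 1 + m + 1) from hf)
      rw [hf'2]
      apply Ideal.sum_mem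
      intro v _
      exact Ideal.mul_mem_left _ _ (ih _ (hf'1 v))

/-- from injectivity of the powers over the generic ring to generic antisymmetric parameters -/
theorem conclK_of_injK {ee : ℕ} {V : Type} [Fintype V] [DecidableEq V] {Δ : Finset (Finset V)}
    {α : Equiv.Perm V} {VP : Finset V} {k : Type u} [Field k] [CharZero k]
    (hG : HG ee Δ α VP) (N : Finset (ℕ × ℕ))
    (hN : ∀ q ∈ N, 1 ≤ q.2 ∧ q.1 + q.2 ≤ ee + 4 ∧ InjK ee Δ α VP q.1 q.2) :
    ConclK Δ α (ee + 4) N k := by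
  obtain ⟨g, hg, H⟩ := genK.{u} hG N hN
  exact transK hG.cs hG.vp N hg (fun ψ hψ => H ψ hψ)

end CSLef.DG
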