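import Mathlib
import Pool.Agent.Work.MP_38c61c_al.DG.InjK

/-!
Block DG: injectivity in degree `i ≥ 2` if the complex of the full sets has no nonzero cycle
modulo 2 consisting of sets with `d + 2 - 2 i` elements.
-/

namespace CSLef.DG

open MvPolynomial Finset

/-- there is no nonempty family of full sets with `m` elements such that every set with `m - 1`
elements is contained in an even number of members -/
def NoCyc {V : Type} [DecidableEq V] (Δ : Finset (Finset V)) (α : Equiv.Perm V) (VP : Finset V)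
    (m : ℕ) : Prop :=
  ∀ 𝒢 : Finset (Finset V), (∀ G ∈ 𝒢, G ⊆ VP ∧ G.card = m ∧ ∀ T ⊆ G, flip α G T ∈ Δ) →
    (∀ H ⊆ VP, H.card + 1 = m → Even (𝒢.filter (fun G => H ⊆ G)).card) → 𝒢 = ∅

namespace IInjCyc

/-- supersets with one more element -/
theorem sum_insert_one {V : Type} [DecidableEq V] {A : Type*} [AddCommMonoid A] (VP H : Finset V)
    (hH : H ⊆ VP) (f : Finset V → A)
    (hf : ∀ G ⊆ VP, H ⊆ G → f G ≠ 0 → G.card = H.card + 1) :
    ∑ G ∈ VP.powerset.filter (fun G => H ⊆ G), f G = ∑ p ∈ VP \ H, f (insert p H) := by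
  have hinj : Set.InjOn (fun p => insert p H) (↑(VP \ H) : Set V) := by
    intro p hp q hq hpq
    have hp' := (Finset.mem_sdiff.mp hp).2
    have h1 : p ∈ insert q H := by
      have h2 : p ∈ insert p H := Finset.mem_insert_self _ _
      simp only at hpq
      rwa [hpq] at h2
    rcases Finset.mem_insert.mp h1 with h2 | h2
    · exact h2
    · exact absurd h2 hp'
  rw [← Finset.sum_image (f := f) hinj]
  symm
  apply Finset.sum_subset
  · intro G hG
    obtain ⟨p, hp, rfl⟩ := Finset.mem_image.mp hG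
    rw [Finset.mem_filter, Finset.mem_powerset]
    exact ⟨Finset.insert_subset (Finset.mem_sdiff.mp hp).1 hH, Finset.subset_insert _ _⟩
  · intro G hG hGn
    by_contra hne
    rw [Finset.mem_filter, Finset.mem_powerset] at hG
    have hc := hf G hG.1 hG.2 hne
    have hd : (G \ H).card = 1 := by
      rw [Finset.card_sdiff_of_subset hG.2]
      omega
    obtain ⟨p, hp⟩ := Finset.card_eq_one.mp hd
    have hpm : p ∈ G \ H := by
      rw [hp]
      exact Finset.mem_singleton_self _
    apply hGn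
    refine Finset.mem_image.mpr ⟨p, Finset.mem_sdiff.mpr ⟨hG.1 (Finset.mem_sdiff.mp hpm).1,
      (Finset.mem_sdiff.mp hpm).2⟩, ?_⟩
    rw [Finset.insert_eq, ← hp, Finset.sdiff_union_of_subset hG.2]

theorem zmod_ite : ∀ z : ZMod 2, (if z ≠ 0 then (1 : ZMod 2) else 0) = z := by decide

/-- a cycle with coefficients in a ring of characteristic 2 -/
theorem eta_zero {V : Type} [DecidableEq V] {Δ : Finset (Finset V)} {α : Equiv.Perm V}
    {VP : Finset V} {m : ℕ} (h : NoCyc Δ α VP m) {A : Type*} [CommRing A] [CharP A 2]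
    (η : Finset V → A)
    (hη : ∀ G, η G ≠ 0 → G ⊆ VP ∧ G.card = m ∧ ∀ T ⊆ G, flip α G T ∈ Δ)
    (hcyc : ∀ H ⊆ VP, H.card + 1 = m → ∑ p ∈ VP \ H, η (insert p H) = 0) : ∀ G, η G = 0 := by
  classical
  intro G0
  by_contra hne
  let _ : Algebra (ZMod 2) A := ZMod.algebra A 2
  have _ : Fact (Nat.Prime 2) := ⟨Nat.prime_two⟩
  have h1 : ∃ φ : Module.Dual (ZMod 2) A, φ (η G0) ≠ 0 := by
    by_contra hcon
    push Not at hcon
    exact hne ((Module.forall_dual_apply_eq_zero_iff (ZMod 2) (η G0)).mp hcon)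
  obtain ⟨φ, hφ⟩ := h1
  have h2 := h (VP.powerset.filter (fun G => φ (η G) ≠ 0)) ?_ ?_
  · have h3 : G0 ∈ VP.powerset.filter (fun G => φ (η G) ≠ 0) :=
      Finset.mem_filter.mpr ⟨Finset.mem_powerset.mpr (hη G0 hne).1, hφ⟩
    rw [h2] at h3
    exact absurd h3 (Finset.notMem_empty _)
  · intro G hG
    refine hη G (fun h0 => (Finset.mem_filter.mp hG).2 ?_)
    rw [h0, map_zero]
  · intro H hH hc
    rw [← ZMod.natCast_eq_zero_iff_even]
    have h4 : (((VP.powerset.filter (fun G => φ (η G) ≠ 0)).filter (fun G => H ⊆ G)).card : ZMod 2)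
        = ∑ G ∈ VP.powerset.filter (fun G => H ⊆ G), φ (η G) := by
      rw [Finset.filter_comm, Finset.card_filter, Nat.cast_sum]
      apply Finset.sum_congr rfl
      intro G _
      rw [← zmod_ite (φ (η G))]
      by_cases h0 : φ (η G) = 0
      · simp [h0]
      · simp [h0]
    rw [h4, sum_insert_one VP H hH (fun G => φ (η G)), ← map_sum, hcyc H hH hc, map_zero]
    intro G hG _ hne2
    have := (hη G (fun h0 => hne2 (by simp only [h0, map_zero]))).2.1
    omega

/-- the boundary of a larger full set is a cycle -/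
theorem no_larger_of_noCyc {V : Type} [DecidableEq V] {Δ : Finset (Finset V)} {α : Equiv.Perm V}
    {VP : Finset V} {m : ℕ} (hdown : ∀ F ∈ Δ, ∀ G, G ⊆ F → G ∈ Δ) (h : NoCyc Δ α VP m)
    (hm : 1 ≤ m) {H0 : Finset V} (hH0 : H0 ⊆ VP) (hc : H0.card = m + 1) :
    ∃ T ⊆ H0, flip α H0 T ∉ Δ := by
  classical
  by_contra hcon
  push Not at hcon
  have h2 := h (H0.powersetCard m) ?_ ?_
  · have h3 : (H0.powersetCard m).card = m + 1 := by
      rw [Finset.card_powersetCard, hc]
      exact Nat.choose_succ_self_right m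
    rw [h2, Finset.card_empty] at h3
    omega
  · intro G hG
    obtain ⟨h3, h4⟩ := Finset.mem_powersetCard.mp hG
    refine ⟨h3.trans hH0, h4, fun T hT => ?_⟩
    refine hdown _ (hcon T (hT.trans h3)) _ ?_
    unfold flip
    exact Finset.union_subset_union (Finset.sdiff_subset_sdiff h3 (le_refl T)) (le_refl _)
  · intro H _ hHc
    by_cases hH : H ⊆ H0
    · have h5 : (H0.powersetCard m).filter (fun G => H ⊆ G) =
          (H0 \ H).image (fun p => insert p H) := by
        ext G
        rw [Finset.mem_filter, Finset.mem_powersetCard, Finset.mem_image]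
        constructor
        · rintro ⟨⟨h6, h7⟩, h8⟩
          have hd : (G \ H).card = 1 := by
            rw [Finset.card_sdiff_of_subset h8]
            omega
          obtain ⟨p, hp⟩ := Finset.card_eq_one.mp hd
          have hpm : p ∈ G \ H := by
            rw [hp]
            exact Finset.mem_singleton_self _
          refine ⟨p, Finset.mem_sdiff.mpr ⟨h6 (Finset.mem_sdiff.mp hpm).1,
            (Finset.mem_sdiff.mp hpm).2⟩, ?_⟩
          rw [Finset.insert_eq, ← hp, Finset.sdiff_union_of_subset h8]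
        · rintro ⟨p, hp, rfl⟩
          obtain ⟨h6, h7⟩ := Finset.mem_sdiff.mp hp
          refine ⟨⟨Finset.insert_subset h6 hH, ?_⟩, Finset.subset_insert _ _⟩
          rw [Finset.card_insert_of_notMem h7]
          exact hHc
      rw [h5, Finset.card_image_of_injOn, Finset.card_sdiff_of_subset hH]
      · rw [hc]
        refine ⟨1, ?_⟩
        omega
      · intro p hp q hq hpq
        have hp' := (Finset.mem_sdiff.mp hp).2
        have h1 : p ∈ insert q H := by
          have h2 : p ∈ insert p H := Finset.mem_insert_self _ _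
          simp only at hpq
          rwa [hpq] at h2
        rcases Finset.mem_insert.mp h1 with h2 | h2
        · exact h2
        · exact absurd h2 hp'
    · have h5 : (H0.powersetCard m).filter (fun G => H ⊆ G) = ∅ := by
        rw [Finset.filter_eq_empty_iff]
        intro G hG h6
        exact hH (h6.trans (Finset.mem_powersetCard.mp hG).1)
      rw [h5, Finset.card_empty]
      exact Even.zero

/-- as `pr_RedV`, with `j` factors `y_q` -/
theorem redJ {ee : ℕ} {V : Type} [Fintype V] [DecidableEq V] {R : Type} [CommRing R]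
    [IsDomain R] (D : Dat ee V R) (hC : Ctx D) {i j : ℕ} (hi : 2 * i < ee + 4) (hj : j < i)
    (hF : 1 ≤ j → ∀ H, D.Full H → H.card + i + j ≠ ee + 5)
    (y : MvPolynomial V R) (hy : y.IsHomogeneous i)
    (hb : ∀ M, ∀ gs : List V, gs.length = j →
      (2 : R) ∣ D.dg (M * (gs.map (yy R D.α)).prod * y)) :
    ∃ u : MvPolynomial V R, u.IsHomogeneous i ∧ y - (2 : R) • u ∈ D.J := by
  classical
  refine hC.nd2 i (ee + 4 - i) (by omega) y hy ?_
  intro S hS hSc
  rcases Nat.eq_zero_or_pos j with hj0 | hj0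
  · have h1 := hb (xm R S) [] (by rw [hj0]; rfl)
    rw [List.map_nil, List.prod_nil, mul_one, mul_comm] at h1
    exact h1
  obtain ⟨G, hG⟩ : ∃ G, G = IRedV.half D.VP D.α S := ⟨_, rfl⟩
  obtain ⟨T0, hT0⟩ : ∃ T, T = G.filter (fun v => D.α v ∈ S) := ⟨_, rfl⟩
  have hGV : G ⊆ D.VP := by
    rw [hG]
    exact filter_subset _ _
  have hTG : T0 ⊆ G := by
    rw [hT0]
    exact filter_subset _ _
  have hST : flip D.α G T0 = S := by
    rw [hT0, hG]
    exact IRedV.flip_half hC.vp hC.cs.invol (hC.cs.no_pair S hS)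
  have hGc : G.card = ee + 4 - i := by
    rw [← IRedV.card_flip hC.vp hGV hTG, hST, hSc]
  by_contra hodd
  let I : Ideal R := Ideal.span {(2 : R)}
  let f : Finset V → R ⧸ I := fun T => Ideal.Quotient.mk I (D.dg (xm R (flip D.α G T) * y))
  have hmk : ∀ r : R, Ideal.Quotient.mk I r = 0 ↔ (2 : R) ∣ r := fun r => by
    rw [Ideal.Quotient.eq_zero_iff_mem, Ideal.mem_span_singleton]
  have hsum : ∀ M ⊆ G, M.card = (j - 1) + 1 → ∀ T ⊆ G \ M, ∑ T' ∈ M.powerset, f (T ∪ T') = 0 := by
    intro M hM hMc T hT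
    have e1 : ∑ T' ∈ M.powerset, f (T ∪ T') =
        Ideal.Quotient.mk I (D.dg ((∑ T' ∈ M.powerset, xm R (flip D.α G (T ∪ T'))) * y)) := by
      rw [Finset.sum_mul, map_sum, map_sum]
    rw [e1, pr_Yp D hC G hGV M hM T hT, hmk]
    exact hb _ _ (by rw [Finset.length_toList]; omega)
  have hf0 : f T0 ≠ 0 := by
    intro h
    have h' := (hmk _).1 h
    rw [hST, mul_comm] at h'
    exact hodd h'
  obtain ⟨H, hHG, hHc, hH⟩ := pr_Shat G (j - 1) (by omega) f hsum T0 hTG hf0
  refine hF hj0 H ⟨hHG.trans hGV, ?_⟩ (by omega)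
  intro T hT
  obtain ⟨T', hT'G, hT', hfT⟩ := hH T (mem_powerset.1 hT)
  have hface : flip D.α G T' ∈ D.Δ := by
    by_contra hn
    apply hfT
    have h0 : D.dg (xm R (flip D.α G T') * y) = 0 := by
      apply hC.dgJ
      apply Ideal.mul_mem_right
      exact sr_le_J (ee + 4) (xm_mem_sr hn)
    change Ideal.Quotient.mk I (D.dg (xm R (flip D.α G T') * y)) = 0
    rw [h0, map_zero]
  exact hC.hs.down _ hface _ (IRedV.flip_sub D.α hHG hT')

/-- the element `f` killed modulo 2 by all `y_v` and by `w` -/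
theorem cyc_even {ee : ℕ} {V : Type} [Fintype V] [DecidableEq V] {R : Type} [CommRing R]
    [IsDomain R] (D : Dat ee V R) (hC : Ctx D) {m n : ℕ} (hmn : n + m = ee + 4)
    (hno : NoCyc D.Δ D.α D.VP m) (f : MvPolynomial V R)
    (hf : f.IsHomogeneous n) (hy : ∀ M v, (2 : R) ∣ D.dg (M * yy R D.α v * f))
    (hwf : D.w * f ∈ D.J) : ∀ M, (2 : R) ∣ D.dg (M * f) := by
  classical
  let I : Ideal R := Ideal.span {(2 : R)}
  have hmk : ∀ r : R, Ideal.Quotient.mk I r = 0 ↔ (2 : R) ∣ r := fun r => by
    rw [Ideal.Quotient.eq_zero_iff_mem, Ideal.mem_span_singleton]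
  have hprime : I.IsPrime := (Ideal.span_singleton_prime hC.two.ne_zero).mpr hC.two
  have _ : IsDomain (R ⧸ I) := Ideal.Quotient.isDomain I
  have h2z : (2 : R ⧸ I) = 0 := by
    have h := (hmk 2).mpr (dvd_refl _)
    rwa [map_ofNat] at h
  have _ : CharP (R ⧸ I) 2 := CharTwo.of_one_ne_zero_of_two_eq_zero one_ne_zero h2z
  obtain ⟨η0, hη0⟩ : ∃ η : MvPolynomial V R →+ R ⧸ I, ∀ g, η g = Ideal.Quotient.mk I (D.dg (g * f)) :=
    ⟨AddMonoidHom.mk' (fun g => Ideal.Quotient.mk I (D.dg (g * f)))
      (fun a b => by rw [add_mul, map_add, map_add]), fun g => rfl⟩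
  -- exchange of a vertex and its antipode
  have hz : ∀ M v, η0 (M * X v) = η0 (M * X (D.α v)) := by
    intro M v
    have h1 : M * yy R D.α v * f = M * X v * f + M * X (D.α v) * f := by
      unfold yy
      ring
    have h3 := (hmk _).mpr (hy M v)
    rw [h1, map_add, map_add] at h3
    rw [hη0, hη0]
    rw [add_eq_zero_iff_eq_neg] at h3
    rw [h3, CharTwo.neg_eq]
  have hJ : ∀ g ∈ D.J, η0 g = 0 := by
    intro g hg
    rw [hη0, hC.dgJ _ (Ideal.mul_mem_right _ _ hg), map_zero]
  have hflip : ∀ G ⊆ D.VP, ∀ T ⊆ G, η0 (xm R (flip D.α G T)) = η0 (xm R G) := by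
    intro G hG T
    induction T using Finset.induction_on with
    | empty =>
      intro _
      rw [show flip D.α G ∅ = G by simp [flip]]
    | insert t T ht ih =>
      intro hT
      have htG : t ∈ G := hT (Finset.mem_insert_self _ _)
      have hTG : T ⊆ G := (Finset.subset_insert _ _).trans hT
      have hTs : T ⊆ G \ {t} := by
        intro x hx
        rw [Finset.mem_sdiff, Finset.mem_singleton]
        exact ⟨hTG hx, fun h => ht (h ▸ hx)⟩
      have h1 := IYp.xm_split (R := R) hC.vp hG (M := {t}) (T' := {t})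
        (Finset.singleton_subset_iff.mpr htG) hTs (le_refl _)
      have h2 := IYp.xm_split (R := R) hC.vp hG (M := {t}) (T' := ∅)
        (Finset.singleton_subset_iff.mpr htG) hTs (Finset.empty_subset _)
      rw [Finset.prod_singleton, Finset.sdiff_self, Finset.prod_empty, mul_one] at h1
      rw [Finset.prod_empty, one_mul, Finset.sdiff_empty, Finset.prod_singleton,
        Finset.union_empty] at h2
      have h3 : insert t T = T ∪ {t} := by
        rw [Finset.union_comm]
        exact Finset.insert_eq t T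
      rw [h3, h1, ← hz, ← h2, ih hTG]
  have hnf : ∀ S, S ∉ D.Δ → η0 (xm R S) = 0 := fun S hS =>
    hJ _ (sr_le_J (ee + 4) (xm_mem_sr hS))
  let wt' : V → R ⧸ I := fun p => Ideal.Quotient.mk I (∑ l ∈ range (ee + 4), D.μ l * D.a l p)
  have hwt : ∀ p ∈ D.VP, wt' p ≠ 0 := fun p hp h => hC.wt_odd p hp ((hmk _).mp h)
  -- the cycle
  have hins : ∀ (p : V) (S : Finset V), p ∉ S → (X p : MvPolynomial V R) * xm R S = xm R (insert p S) := by
    intro p S hp
    unfold xm
    rw [Finset.prod_insert hp]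
  have hrel : ∀ H ⊆ D.VP, ∑ p ∈ D.VP \ H, wt' p * η0 (xm R (insert p H)) = 0 := by
    intro H hH
    have h1 : η0 (D.w * xm R H) = 0 := by
      rw [hη0]
      have h2 : D.w * xm R H * f = xm R H * (D.w * f) := by ring
      rw [h2, hC.dgJ _ (Ideal.mul_mem_left _ _ hwf), map_zero]
    have hsmul : ∀ (r : R) (g : MvPolynomial V R), η0 (C r * g) = Ideal.Quotient.mk I r * η0 g := by
      intro r g
      rw [hη0, hη0, mul_assoc, C_mul', map_smul, smul_eq_mul, map_mul]
    have h2 : D.w * xm R H = ∑ l ∈ range (ee + 4), C (D.μ l) *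
        (∑ v ∈ D.VP, C (D.a l v) * (X v * xm R H)) +
        ∑ v ∈ D.VP, C (D.c v) * (xm R H * yy R D.α v) := by
      unfold Dat.w welA
      rw [add_mul, Finset.sum_mul, Finset.sum_mul]
      congr 1
      · apply Finset.sum_congr rfl
        intro l _
        rw [mul_assoc, Finset.sum_mul]
        congr 1
        apply Finset.sum_congr rfl
        intro v _
        ring
      · apply Finset.sum_congr rfl
        intro v _
        ring
    have h3 : ∀ v, η0 (xm R H * yy R D.α v) = 0 := by
      intro v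
      rw [hη0]
      exact (hmk _).mpr (hy _ v)
    rw [h2, map_add, map_sum, map_sum] at h1
    have h4 : ∑ v ∈ D.VP, η0 (C (D.c v) * (xm R H * yy R D.α v)) = 0 := by
      apply Finset.sum_eq_zero
      intro v _
      rw [hsmul, h3, mul_zero]
    rw [h4, add_zero] at h1
    have h5 : ∑ l ∈ range (ee + 4), η0 (C (D.μ l) *
        (∑ v ∈ D.VP, C (D.a l v) * (X v * xm R H))) =
        ∑ v ∈ D.VP, wt' v * η0 (X v * xm R H) := by
      have h6 : ∀ l ∈ range (ee + 4), η0 (C (D.μ l) *
          (∑ v ∈ D.VP, C (D.a l v) * (X v * xm R H))) =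
          ∑ v ∈ D.VP, Ideal.Quotient.mk I (D.μ l * D.a l v) * η0 (X v * xm R H) := by
        intro l _
        rw [hsmul, map_sum, Finset.mul_sum]
        apply Finset.sum_congr rfl
        intro v _
        rw [hsmul, RingHom.map_mul]
        ring
      rw [Finset.sum_congr rfl h6, Finset.sum_comm]
      apply Finset.sum_congr rfl
      intro v _
      rw [← Finset.sum_mul, ← map_sum]
    rw [h5, ← Finset.sum_sdiff hH] at h1
    have h7 : ∑ v ∈ H, wt' v * η0 (X v * xm R H) = 0 := by
      apply Finset.sum_eq_zero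
      intro v hv
      have h8 : η0 (X v * xm R H) = η0 (X (D.α v) * xm R H) := by
        rw [mul_comm, hz, mul_comm]
      have h9 : D.α v ∉ H := fun h => (hC.vp v).1 (hH hv) (hH h)
      rw [h8, hins _ _ h9, hnf, mul_zero]
      intro hface
      exact hC.cs.no_pair _ hface v (Finset.mem_insert_of_mem hv) (Finset.mem_insert_self _ _)
    rw [h7, add_zero] at h1
    rw [← h1]
    apply Finset.sum_congr rfl
    intro p hp
    rw [hins _ _ (Finset.mem_sdiff.mp hp).2]
  let η : Finset V → R ⧸ I := fun G =>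
    if G ⊆ D.VP ∧ G.card = m then η0 (xm R G) * ∏ p ∈ G, wt' p else 0
  have hη : ∀ G, η G = 0 := by
    apply eta_zero hno η
    · intro G hG
      by_cases hc : G ⊆ D.VP ∧ G.card = m
      · refine ⟨hc.1, hc.2, fun T hT => ?_⟩
        by_contra hn
        apply hG
        simp only [η, if_pos hc]
        rw [← hflip G hc.1 T hT, hnf _ hn, zero_mul]
      · exact absurd (by simp only [η, if_neg hc]) hG
    · intro H hH hc
      have h1 : ∀ p ∈ D.VP \ H, η (insert p H) =
          (∏ q ∈ H, wt' q) * (wt' p * η0 (xm R (insert p H))) := by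
        intro p hp
        obtain ⟨h2, h3⟩ := Finset.mem_sdiff.mp hp
        have hc2 : insert p H ⊆ D.VP ∧ (insert p H).card = m := by
          refine ⟨Finset.insert_subset h2 hH, ?_⟩
          rw [Finset.card_insert_of_notMem h3]
          exact hc
        simp only [η, if_pos hc2]
        rw [Finset.prod_insert h3]
        ring
      rw [Finset.sum_congr rfl h1, ← Finset.mul_sum, hrel H hH, mul_zero]
  have hη1 : ∀ G ⊆ D.VP, G.card = m → η0 (xm R G) = 0 := by
    intro G hG hc
    have h1 := hη G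
    simp only [η, if_pos (And.intro hG hc)] at h1
    rcases mul_eq_zero.mp h1 with h2 | h2
    · exact h2
    · obtain ⟨p, hp, hp0⟩ := Finset.prod_eq_zero_iff.mp h2
      exact absurd hp0 (hwt p (hG hp))
  obtain ⟨u, _, hu⟩ := hC.nd2 n m hmn f hf (by
    intro S hS hSc
    have hGV : IRedV.half D.VP D.α S ⊆ D.VP := filter_subset _ _
    have hTG : (IRedV.half D.VP D.α S).filter (fun v => D.α v ∈ S) ⊆
        IRedV.half D.VP D.α S := filter_subset _ _
    have hST := IRedV.flip_half (VP := D.VP) hC.vp hC.cs.invol (hC.cs.no_pair S hS)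
    have hGc : (IRedV.half D.VP D.α S).card = m := by
      rw [← IRedV.card_flip hC.vp hGV hTG, hST, hSc]
    have h1 := hη1 _ hGV hGc
    rw [← hflip _ hGV _ hTG, hST, hη0] at h1
    rw [mul_comm]
    exact (hmk _).mp h1)
  intro M
  have h1 : M * f = M * (f - (2 : R) • u) + (2 : R) • (M * u) := by
    rw [mul_sub, mul_smul_comm]
    ring
  rw [h1, map_add, hC.dgJ _ (Ideal.mul_mem_left _ _ hu), zero_add, map_smul, smul_eq_mul]
  exact dvd_mul_right _ _

end IInjCyc

open IInjCyc in
/-- injectivity in degree `i ≥ 2` if there is no nonzero cycle modulo 2 of full sets with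
`ee + 6 - 2 i` elements -/
theorem injK_cyc {ee : ℕ} {V : Type} [Fintype V] [DecidableEq V] {Δ : Finset (Finset V)}
    {α : Equiv.Perm V} {VP : Finset V} (he : 1 ≤ ee) (hG : HG ee Δ α VP) {i : ℕ} (hi : 2 ≤ i)
    (hi2 : 2 * i < ee + 4) (hno : NoCyc Δ α VP (ee + 6 - 2 * i)) : InjK ee Δ α VP i 1 := by
  obtain ⟨D, h1, h2, h3, h4, h5, h6, hC, hR⟩ := exists_ctx he hG
  intro x hx hw
  rw [pow_one] at hw
  refine injRR_of_core hG D h1 h2 h3 h4 h5 h6 hC i (fun ε y hε hy hwy hαy => ?_) x hx hw
  obtain ⟨hy2, hT⟩ := pr_ExV D hC (pr_Tx D hC) i hi2 ε y hε hy hwy hαy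
  have hb := hR i (by omega) hi2 y hy (fun M => by
      rw [hC.dgJ _ (Ideal.mul_mem_left _ M hy2)]
      exact dvd_zero _) (fun M m hm => by
      rw [hT M m hm]
      exact dvd_zero _)
  have hno' : NoCyc D.Δ D.α D.VP (ee + 6 - 2 * i) := by rw [h1, h2, h3]; exact hno
  have hyy : ∀ gs : List V, ((gs.map (yy (RR (ee + 4) V) D.α)).prod).IsHomogeneous gs.length := by
    intro gs
    induction gs with
    | nil => exact isHomogeneous_one V _
    | cons v gs ih =>
      have hv : (yy (RR (ee + 4) V) D.α v).IsHomogeneous 1 := by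
        unfold yy
        exact (isHomogeneous_X _ v).add (isHomogeneous_X _ _)
      have hm := hv.mul ih
      rw [List.map_cons, List.prod_cons, List.length_cons, Nat.add_comm gs.length 1]
      exact hm
  refine redJ D hC (j := i - 2) hi2 (by omega) ?_ y hy ?_
  · intro hj H hH hc
    obtain ⟨T, hT1, hT2⟩ := no_larger_of_noCyc hC.hs.down hno' (by omega) hH.1 (by omega)
    exact hT2 (hH.2 T (Finset.mem_powerset.mpr hT1))
  · intro M gs hgs
    have h7 := cyc_even D hC (m := ee + 6 - 2 * i) (n := gs.length + i) (by omega) hno'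
      ((gs.map (yy (RR (ee + 4) V) D.α)).prod * y) ((hyy gs).mul hy) ?_ ?_ M
    · rwa [← mul_assoc] at h7
    · intro M v
      have h8 := hb M (v :: gs) (by rw [List.length_cons]; omega)
      rw [List.map_cons, List.prod_cons] at h8
      have h9 : M * yy (RR (ee + 4) V) D.α v * ((gs.map (yy (RR (ee + 4) V) D.α)).prod * y) =
          M * (yy (RR (ee + 4) V) D.α v * (gs.map (yy (RR (ee + 4) V) D.α)).prod) * y := by
        ring
      rw [h9]
      exact h8
    · have h8 : D.w * ((gs.map (yy (RR (ee + 4) V) D.α)).prod * y) =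
          (gs.map (yy (RR (ee + 4) V) D.α)).prod * (D.w * y) := by
        ring
      rw [h8]
      exact Ideal.mul_mem_left _ _ hwy

end CSLef.DG
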