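import Mathlib
import Pool.Agent.Work.MP_38c61c_al.DG.InjK

/-!
Block DG, powers: the unconditional cases, degree zero and `i + K ≤ 3`.
-/

namespace CSLef.DG

open MvPolynomial Finset

/-- the powers of the Lefschetz element are not zero -/
theorem pow_notMem {ee : ℕ} {V : Type} [Fintype V] [DecidableEq V] {R : Type} [CommRing R]
    [IsDomain R] (D : Dat ee V R) (hC : Ctx D) : ∀ k ≤ ee + 4, D.w ^ k ∉ D.J := by
  intro k
  induction k with
  | zero =>
    intro _ h
    rw [pow_zero] at h
    have h1 := hC.dgJ _ (Ideal.mul_mem_right (xm R D.σ) _ h)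
    rw [one_mul, hC.dgs] at h1
    exact one_ne_zero h1
  | succ k ih =>
    intro hk h
    apply ih (by omega)
    obtain ⟨h1, -⟩ := pr_ExK D hC (pr_Tx D hC) 0 k (ee + 4 - k) (by omega) (by omega) 1 1
      (one_mul 1) (isHomogeneous_one V R) (by rwa [mul_one])
      (by rw [map_one, one_smul, sub_self]; exact D.J.zero_mem)
    have h2 := (IExA.w_hom D).pow k
    rw [one_mul] at h2
    refine hC.nd k (ee + 4 - k) (by omega) _ h2 (fun g _ => ?_)
    have h3 := h1 g
    rw [one_pow, mul_one, mul_comm] at h3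
    exact h3

theorem injK_zero {ee : ℕ} {V : Type} [Fintype V] [DecidableEq V] {Δ : Finset (Finset V)}
    {α : Equiv.Perm V} {VP : Finset V} (he : 1 ≤ ee) (hG : HG ee Δ α VP) {K : ℕ}
    (hK : K ≤ ee + 4) : InjK ee Δ α VP 0 K := by
  obtain ⟨D, h1, h2, h3, h4, h5, h6, hC, -⟩ := exists_ctx he hG
  subst h1 h2 h3
  have hJ : D.J = Jid D.Δ (ga ee D.α D.VP) (ee + 4) := by
    unfold Dat.J
    rw [h4]
  have hw : D.w = welA (ee + 4) D.α D.VP (ga ee D.α D.VP) (gm ee V) (gc ee) := by
    unfold Dat.w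
    rw [h4, h5, h6]
  intro x hx hwx
  rw [← hw, ← hJ] at hwx
  rw [← hJ]
  have hC0 : x = C (coeff 0 x) :=
    totalDegree_eq_zero_iff_eq_C.mp (Nat.le_zero.mp hx.totalDegree_le)
  by_cases ha : coeff 0 x = 0
  · rw [hC0, ha, C_0]
    exact D.J.zero_mem
  · exfalso
    have h2 := (IExA.w_hom D).pow K
    rw [one_mul] at h2
    refine pow_notMem D hC K hK (hC.nd K (ee + 4 - K) (by omega) _ h2 (fun g _ => ?_))
    have h3 := hC.dgJ _ (Ideal.mul_mem_right g _ hwx)
    rw [hC0] at h3
    have h4 : D.w ^ K * C (coeff 0 x) * g = (coeff 0 x) • (D.w ^ K * g) := by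
      rw [smul_eq_C_mul]
      ring
    rw [h4, map_smul, smul_eq_mul] at h3
    exact (mul_eq_zero.mp h3).resolve_left ha

theorem injK_small {ee : ℕ} {V : Type} [Fintype V] [DecidableEq V] {Δ : Finset (Finset V)}
    {α : Equiv.Perm V} {VP : Finset V} (he : 1 ≤ ee) (hG : HG ee Δ α VP)
    (core : ∀ D : Dat ee V (RR (ee + 4) V), Ctx D → StCore D) :
    ∀ K i : ℕ, 1 ≤ K → i + K ≤ 3 → InjK ee Δ α VP i K := by
  intro K
  induction K with
  | zero => intro i h; omega
  | succ K ih =>
    intro i _ hiK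
    rcases Nat.eq_zero_or_pos K with h0 | h0
    · subst h0
      exact injK_two he hG core (by omega)
    · intro x hx hw
      apply ih i h0 (by omega) x hx
      have h1 := injK_two he hG core (i := i + K) (by omega)
      have h2 := ((welA_hom (d := ee + 4) (α := α) VP (ga ee α VP) (gm ee V)
        (gc (V := V) ee)).pow K).mul hx
      rw [one_mul, Nat.add_comm K i] at h2
      refine h1 _ h2 ?_
      rw [pow_one, ← mul_assoc, ← pow_succ']
      exact hw

end CSLef.DG
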