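import Mathlib
import Pool.Agent.Work.MP_38c61c_al.DG.Stmts2

/-!
Block D6, item Beta: the Tate class of `X_G`.
-/

namespace CSLef.DG

open MvPolynomial Finset

namespace IBeta

/-- two different pairs in `range (ee + 4)`: one meets the complement of the other -/
theorem inter_nonempty {ee : ℕ} {I I' : Finset ℕ} (hI : I ∈ (range (ee + 4)).powersetCard 2)
    (hI' : I' ∈ (range (ee + 4)).powersetCard 2) (h : I' ≠ I) : (I' ∩ (range (ee + 4) \ I)).Nonempty := by
  rw [Finset.mem_powersetCard] at hI hI'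
  by_contra hne
  rw [Finset.not_nonempty_iff_eq_empty] at hne
  apply h
  apply Finset.eq_of_subset_of_card_le
  · intro i hi
    by_contra hiI
    have : i ∈ I' ∩ (range (ee + 4) \ I) :=
      Finset.mem_inter.mpr ⟨hi, Finset.mem_sdiff.mpr ⟨hI'.1 hi, hiI⟩⟩
    rw [hne] at this
    exact Finset.notMem_empty _ this
  · rw [hI.2, hI'.2]

end IBeta

theorem pr_Beta {ee : ℕ} {V : Type} [Fintype V] [DecidableEq V] {R : Type} [CommRing R] [IsDomain R]
    (D : Dat ee V R) (hC : Ctx D) (h0 : StP1 D) (h1 : StWa D) (h2 : StSym D) (h3 : StWW D) :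
    StBeta D := by
  intro G hG
  have hG1 : G ⊆ D.VP ∧ G.card = ee + 2 := by
    have := (Finset.mem_filter.mp hG).1
    rwa [Finset.mem_powersetCard] at this
  have hF : D.Full G := (Finset.mem_filter.mp hG).2
  have hne : G.Nonempty := by
    rw [← Finset.card_pos, hG1.2]
    omega
  have hhom : (D.XH G).IsHomogeneous 2 := by
    have := hC.xh_hom G hF
    rwa [hG1.2, show ee + 4 - (ee + 2) = 2 by omega] at this
  obtain ⟨β, g, v, -, -, hrel⟩ := hC.tate 2 (D.XH G) hhom (h0 G hF hne).2.2.2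
  refine ⟨β, g, v, hrel, ?_⟩
  intro I hI
  have hIs : I ⊆ range (ee + 4) := (Finset.mem_powersetCard.mp hI).1
  have hK : range (ee + 4) \ I ⊆ range (ee + 4) := Finset.sdiff_subset
  set M : MvPolynomial V R := ∏ i ∈ range (ee + 4) \ I, D.W i with hM
  have hα : rename D.α M - M ∈ D.J := h1.2.2 _ hK
  have e1 : D.dg ((D.XH G - ∑ I ∈ (range (ee + 4)).powersetCard 2, C (β I) * ∏ i ∈ I, D.W i -
      (g + rename D.α g) - (2 : R) • v) * M) = 0 := hC.dgJ _ (Ideal.mul_mem_right _ _ hrel)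
  have e2 : (D.XH G - ∑ I ∈ (range (ee + 4)).powersetCard 2, C (β I) * ∏ i ∈ I, D.W i -
      (g + rename D.α g) - (2 : R) • v) * M = D.XH G * M -
      ∑ I ∈ (range (ee + 4)).powersetCard 2, β I • ((∏ i ∈ I, D.W i) * M) -
      (g + rename D.α g) * M - (2 : R) • (v * M) := by
    rw [sub_mul, sub_mul, sub_mul, Finset.sum_mul, smul_mul_assoc]
    congr 3
    apply Finset.sum_congr rfl
    intro I' _
    rw [← C_mul', mul_assoc]
  rw [e2, map_sub, map_sub, map_sub, hC.xh_dg G hF, map_sum, map_smul, h2 M hα, smul_eq_mul] at e1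
  have e3 : ∑ I' ∈ (range (ee + 4)).powersetCard 2, D.dg (β I' • ((∏ i ∈ I', D.W i) * M)) =
      D.dg (β I • ((∏ i ∈ I, D.W i) * M)) +
      ∑ I' ∈ ((range (ee + 4)).powersetCard 2).erase I, D.dg (β I' • ((∏ i ∈ I', D.W i) * M)) :=
    (Finset.add_sum_erase _ _ hI).symm
  have e4 : D.dg (β I • ((∏ i ∈ I, D.W i) * M)) = D.om * β I := by
    rw [map_smul, smul_eq_mul, hM, mul_comm (∏ i ∈ I, D.W i), Finset.prod_sdiff hIs, mul_comm]
    rfl
  have e5 : (2 : R) ∣ ∑ I' ∈ ((range (ee + 4)).powersetCard 2).erase I,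
      D.dg (β I' • ((∏ i ∈ I', D.W i) * M)) := by
    apply Finset.dvd_sum
    intro I' hI'
    rw [Finset.mem_erase] at hI'
    rw [map_smul, smul_eq_mul]
    apply Dvd.dvd.mul_left
    exact h3 I' (Finset.mem_powersetCard.mp hI'.2).1 _ hK (IBeta.inter_nonempty hI hI'.2 hI'.1)
  obtain ⟨t, ht⟩ := e5
  refine ⟨-(t + D.dg (g * M) + D.dg (v * M)), ?_⟩
  rw [e3, e4, ht] at e1
  linear_combination (-1 : R) * e1

end CSLef.DG
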