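import Mathlib
import Pool.Agent.Work.MP_38c61c_al.DG.Stmts2

/-!
Block DG, item C4: the quadratic condition.
-/

namespace CSLef.DG

open MvPolynomial Finset

namespace IC4

/-- the vertices of `U` and the four other vertices are `ee + 4` vertices in the half -/
theorem setcard {ee : ℕ} {V : Type} [Fintype V] [DecidableEq V] {R : Type} [CommRing R]
    (D : Dat ee V R) (x : Finset V → R) (U : Finset V) (q : Fin 4 → V) (h : HQ D x U q) :
    U ∪ Finset.univ.image q ⊆ D.VP ∧ (U ∪ Finset.univ.image q).card = ee + 4 := by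
  constructor
  · refine Finset.union_subset h.U_sub ?_
    intro v hv
    obtain ⟨i, _, rfl⟩ := Finset.mem_image.1 hv
    exact h.q_mem i
  · rw [Finset.card_union_of_disjoint, h.U_card, Finset.card_image_of_injective _ h.q_inj,
      Finset.card_univ, Fintype.card_fin]
    rw [Finset.disjoint_right]
    intro v hv
    obtain ⟨i, _, rfl⟩ := Finset.mem_image.1 hv
    exact h.q_ne i

/-- the arithmetic -/
theorem alg {R : Type} [CommRing R] [IsDomain R] (h2 : Prime (2 : R)) (om w E P L d c : R)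
    (hd : ¬ (2 : R) ∣ d) (hE : (2 : R) ∣ E)
    (h4 : (4 : R) ∣ om * w * E - d * (w * P + 2 * c)) (hL : E = P * L)
    (h : P = 0 ∨ (2 : R) ∣ om * L - d) : (2 : R) ∣ c := by
  have h0 : (2 : R) ≠ 0 := h2.ne_zero
  have key : (4 : R) ∣ om * E - d * P := by
    rcases h with h | h
    · rw [hL, h]
      exact ⟨0, by ring⟩
    · have hP : (2 : R) ∣ P := by
        rw [hL] at hE
        rcases h2.dvd_or_dvd hE with h5 | h5
        · exact h5
        · exfalso
          apply hd
          have h6 : (2 : R) ∣ om * L := h5.mul_left om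
          have h7 := dvd_sub h6 h
          rwa [sub_sub_cancel] at h7
      obtain ⟨a, ha⟩ := hP
      obtain ⟨b, hb⟩ := h
      refine ⟨a * b, ?_⟩
      rw [hL]
      linear_combination (om * L - d) * ha + 2 * a * hb
  obtain ⟨a, ha⟩ := h4
  obtain ⟨b, hb⟩ := key
  have h5 : d * c = 2 * (w * b - a) := by
    apply mul_left_cancel₀ h0
    linear_combination w * hb - ha
  rcases h2.dvd_or_dvd (⟨w * b - a, h5⟩ : (2 : R) ∣ d * c) with h6 | h6
  · exact absurd h6 hd
  · exact h6

end IC4

theorem pr_C4 {ee : ℕ} {V : Type} [Fintype V] [DecidableEq V] {R : Type} [CommRing R]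
    [IsDomain R] (D : Dat ee V R) (hC : Ctx D) (h1 : StE4 D) (h2 : StDag2 D) (h3 : StLeq D) :
    StC4 D := by
  intro x U q hx hq
  obtain ⟨L, hL, hL2⟩ := h3 x U q hx hq
  obtain ⟨hs, hc⟩ := IC4.setcard D x U q hq
  exact IC4.alg hC.two D.om (D.wt (q 3)) (E4 D x U q) (P4 x U q) L
    (D.pm (U ∪ Finset.univ.image q)) (C4 D x U q)
    (hC.indp _ hs hc) (h1 x U q hx hq).2 (h2 x U q hx hq) hL hL2

end CSLef.DG
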