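import Mathlib
import Pool.Agent.Work.MP_38c61c_al.DG.Stmts2

/-!
Item Clo of block D6: every pair inside a triple of the support is in another triple of it.
-/

namespace CSLef.DG

open MvPolynomial Finset

theorem pr_Clo {ee : ℕ} {V : Type} [Fintype V] [DecidableEq V] {R : Type} [CommRing R] [IsDomain R]
    (D : Dat ee V R) (hC : Ctx D) : StClo D := by
  intro x hx G hG H hH hH2
  obtain ⟨hGF, hGo⟩ := hx.supp G hG
  unfold Dat.FS at hGF
  rw [Finset.mem_filter, Finset.mem_powersetCard] at hGF
  obtain ⟨⟨hGV, hG3⟩, _⟩ := hGF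
  have hc : (G \ H).card = 1 := by
    rw [Finset.card_sdiff_of_subset hH]
    omega
  obtain ⟨r0, hr0⟩ := Finset.card_eq_one.mp hc
  have hr0m : r0 ∈ G \ H := by rw [hr0]; exact Finset.mem_singleton_self _
  have hr0G : r0 ∈ G := (Finset.mem_sdiff.mp hr0m).1
  have hr0H : r0 ∉ H := (Finset.mem_sdiff.mp hr0m).2
  have hins : insert r0 H = G := by
    rw [Finset.insert_eq, ← hr0]
    exact Finset.sdiff_union_of_subset hH
  by_contra hcon
  push Not at hcon
  have h0 : ∀ r ∈ D.VP \ H, r ≠ r0 → D.wt r * x (insert r H) = 0 := by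
    intro r hr hne
    have hrH : r ∉ H := (Finset.mem_sdiff.mp hr).2
    have hx0 : x (insert r H) = 0 := by
      by_contra hx1
      refine hcon (insert r H) hx1 ?_ (Finset.subset_insert _ _)
      intro heq
      rw [← hins] at heq
      have h1 : r ∈ insert r0 H := by rw [← heq]; exact Finset.mem_insert_self _ _
      rcases Finset.mem_insert.mp h1 with h2 | h2
      · exact hne h2
      · exact hrH h2
    rw [hx0, mul_zero]
  have hsum := hx.rm H (hH.trans hGV) hH2
  have hr0V : r0 ∈ D.VP \ H := Finset.mem_sdiff.mpr ⟨hGV hr0G, hr0H⟩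
  rw [Finset.sum_eq_single r0 h0 (fun h => absurd hr0V h), hins] at hsum
  rcases hC.two.dvd_or_dvd hsum with h | h
  · apply hC.wt_odd r0 (hGV hr0G)
    unfold Dat.wt at h
    exact (dvd_add_right (dvd_mul_right 2 _)).mp h
  · exact hGo h

end CSLef.DG
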