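import Mathlib
import Pool.Agent.Work.MP_38c61c_al.DG.Stmts2

/-!
Block DG, item Cr: one column more than rows (helper19).
-/

namespace CSLef.DG

open MvPolynomial Finset

namespace ICr

/-- a symmetric sum over the ordered pairs of different elements is even -/
theorem even_sum {ι R : Type} [DecidableEq ι] [CommRing R] (f : ι → ι → R)
    (hf : ∀ p q, f p q = f q p) (P : Finset ι) : (2 : R) ∣ ∑ p ∈ P, ∑ q ∈ P.erase p, f p q := by
  induction P using Finset.induction_on with
  | empty => simp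
  | insert a P ha ih =>
    rw [sum_insert ha, erase_insert ha]
    have h : ∀ p ∈ P, ∑ q ∈ (insert a P).erase p, f p q = f a p + ∑ q ∈ P.erase p, f p q := by
      intro p hp
      have hap : a ≠ p := fun e => ha (e ▸ hp)
      rw [erase_insert_of_ne hap, sum_insert (fun h => ha (mem_of_mem_erase h)), hf p a]
    rw [sum_congr rfl h, sum_add_distrib]
    have h2 : ∑ q ∈ P, f a q + (∑ p ∈ P, f a p + ∑ p ∈ P, ∑ q ∈ P.erase p, f p q) =
        2 * ∑ q ∈ P, f a q + ∑ p ∈ P, ∑ q ∈ P.erase p, f p q := by ring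
    rw [h2]
    exact dvd_add (dvd_mul_right _ _) ih

end ICr

theorem pr_Cr {ee : ℕ} {V : Type} [Fintype V] [DecidableEq V] {R : Type} [CommRing R]
    [IsDomain R] (D : Dat ee V R) (h1 : StPmR) : StCr D := by
  intro P hP
  have h2 : ∑ p ∈ P, (∑ m ∈ range (ee + 4), D.μ m * D.a m p) * D.pm (P.erase p) =
      ∑ m ∈ range (ee + 4), D.μ m * ∑ p ∈ P, ∑ v ∈ P.erase p,
        D.a m p * D.a m v * pmA D.VP D.a ((range (ee + 4)).erase m) ((P.erase p).erase v) := by
    have h3 : ∀ p ∈ P, (∑ m ∈ range (ee + 4), D.μ m * D.a m p) * D.pm (P.erase p) =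
        ∑ m ∈ range (ee + 4), D.μ m * ∑ v ∈ P.erase p,
        D.a m p * D.a m v * pmA D.VP D.a ((range (ee + 4)).erase m) ((P.erase p).erase v) := by
      intro p hp
      rw [sum_mul]
      refine sum_congr rfl fun m hm => ?_
      rw [Dat.pm, (h1 D.VP D.a (range (ee + 4)) (P.erase p) ((erase_subset _ _).trans hP)).1 m hm,
        mul_sum, mul_sum]
      refine sum_congr rfl fun v _ => ?_
      ring
    rw [sum_congr rfl h3, sum_comm]
    exact sum_congr rfl fun m _ => (mul_sum _ _ _).symm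
  rw [h2]
  refine dvd_sum fun m _ => Dvd.dvd.mul_left ?_ _
  refine ICr.even_sum (fun p v => D.a m p * D.a m v *
    pmA D.VP D.a ((range (ee + 4)).erase m) ((P.erase p).erase v)) (fun p v => ?_) P
  rw [erase_right_comm]
  ring

end CSLef.DG
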