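import Mathlib
import Pool.Agent.Work.MP_38c61c_al.DG.Stmts2

namespace CSLef.DG

open MvPolynomial Finset

namespace IDag1

/-- the sum over the sets that contain `U` -/
theorem sum_link {V : Type} [DecidableEq V] {R : Type} [CommRing R]
    (FS3 : Finset (Finset V)) (x : Finset V → R) (U : Finset V) (q : Fin 4 → V)
    (hsupp : ∀ G, x G ≠ 0 → G ∈ FS3) (hinj : Function.Injective q) (hne : ∀ i, q i ∉ U)
    (hlink : ∀ G, x G ≠ 0 → U ⊆ G → ∃ i j, i ≠ j ∧ G = insert (q i) (insert (q j) U))
    (F : Finset V → R) :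
    ∑ G ∈ FS3, (if U ⊆ G then x G else 0) * F G =
      ∑ i, ∑ j ∈ Finset.univ.filter (fun j => i < j),
        x (insert (q i) (insert (q j) U)) * F (insert (q i) (insert (q j) U)) := by
  classical
  set P : Finset (Fin 4 × Fin 4) := Finset.univ.filter (fun p => p.1 < p.2) with hP
  set φ : Fin 4 × Fin 4 → Finset V := fun p => insert (q p.1) (insert (q p.2) U) with hφ
  set g : Finset V → R := fun G => (if U ⊆ G then x G else 0) * F G with hg
  have h1 : ∑ G ∈ FS3, g G = ∑ G ∈ P.image φ, g G := by
    rw [← Finset.sum_filter_ne_zero FS3, ← Finset.sum_filter_ne_zero (P.image φ)]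
    refine Finset.sum_congr ?_ fun _ _ => rfl
    ext G
    rw [Finset.mem_filter, Finset.mem_filter]
    refine and_congr_left fun hG => ?_
    have hs : U ⊆ G := by
      by_contra hs
      exact hG (by rw [hg]; simp [hs])
    have hx : x G ≠ 0 := by
      intro hx
      exact hG (by rw [hg]; simp [hx])
    refine ⟨fun _ => ?_, fun _ => hsupp G hx⟩
    obtain ⟨i, j, hij, hG'⟩ := hlink G hx hs
    rw [Finset.mem_image]
    rcases lt_or_gt_of_ne hij with h | h
    · exact ⟨(i, j), by rw [hP, Finset.mem_filter]; exact ⟨Finset.mem_univ _, h⟩, hG'.symm⟩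
    · refine ⟨(j, i), by rw [hP, Finset.mem_filter]; exact ⟨Finset.mem_univ _, h⟩, ?_⟩
      show (insert (q j) (insert (q i) U) : Finset V) = G
      rw [hG', Finset.insert_comm]
  have h2 : ∑ G ∈ P.image φ, g G = ∑ p ∈ P, g (φ p) := by
    refine Finset.sum_image ?_
    rintro ⟨i, j⟩ hp ⟨i', j'⟩ hp' he
    have hij : i < j := by
      have := hp
      rw [hP, Finset.mem_coe, Finset.mem_filter] at this
      exact this.2
    have hij' : i' < j' := by
      have := hp'
      rw [hP, Finset.mem_coe, Finset.mem_filter] at this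
      exact this.2
    have he' : (insert (q i) (insert (q j) U) : Finset V) = insert (q i') (insert (q j') U) := he
    have mem : ∀ k, q k ∈ (insert (q i) (insert (q j) U) : Finset V) ↔ k = i ∨ k = j := by
      intro k
      rw [Finset.mem_insert, Finset.mem_insert, hinj.eq_iff, hinj.eq_iff]
      exact ⟨fun h => h.imp_right fun h' => h'.resolve_right (hne k),
        fun h => h.imp_right fun h' => Or.inl h'⟩
    have mem' : ∀ k, q k ∈ (insert (q i') (insert (q j') U) : Finset V) ↔ k = i' ∨ k = j' := by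
      intro k
      rw [Finset.mem_insert, Finset.mem_insert, hinj.eq_iff, hinj.eq_iff]
      exact ⟨fun h => h.imp_right fun h' => h'.resolve_right (hne k),
        fun h => h.imp_right fun h' => Or.inl h'⟩
    have k1 := (mem' i).1 (he' ▸ (mem i).2 (Or.inl rfl))
    have k2 := (mem' j).1 (he' ▸ (mem j).2 (Or.inr rfl))
    have k3 := (mem i').1 (he'.symm ▸ (mem' i').2 (Or.inl rfl))
    have k4 := (mem j').1 (he'.symm ▸ (mem' j').2 (Or.inr rfl))
    rw [Prod.mk.injEq]
    constructor
    · rcases k1 with h | h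
      · exact h
      · rcases k2 with h' | h' <;> rcases k3 with h'' | h'' <;> omega
    · rcases k2 with h | h
      · rcases k1 with h' | h' <;> rcases k4 with h'' | h'' <;> omega
      · exact h
  have h3 : ∑ p ∈ P, g (φ p) = ∑ i, ∑ j ∈ Finset.univ.filter (fun j => i < j),
      x (insert (q i) (insert (q j) U)) * F (insert (q i) (insert (q j) U)) := by
    rw [hP, Finset.sum_filter, Fintype.sum_prod_type]
    refine Finset.sum_congr rfl fun i _ => ?_
    rw [Finset.sum_filter]
    refine Finset.sum_congr rfl fun j _ => ?_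
    have hUs : U ⊆ insert (q i) (insert (q j) U) :=
      (Finset.subset_insert _ _).trans (Finset.subset_insert _ _)
    simp only [hg, hφ, if_pos hUs]
  rw [h1, h2, h3]

/-- the coefficient in the difference of the expansions -/
theorem coef {V : Type} [DecidableEq V] {R : Type} [CommRing R] (x : Finset V → R)
    (U G : Finset V) :
    x G - ∑ s ∈ U, xr s x G =
      (if U ⊆ G then x G else 0) +
        (if U ⊆ G then 0 else (1 - ((U \ G).card : R)) * x G) := by
  have e : ∑ s ∈ U, xr s x G = ((U \ G).card : R) * x G := by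
    have e1 : ∑ s ∈ U, xr s x G = ∑ s ∈ U.filter (fun s => s ∉ G), x G := by
      rw [Finset.sum_filter]
      refine Finset.sum_congr rfl fun s _ => ?_
      rw [xr]
      by_cases hs : s ∈ G <;> simp [hs]
    rw [e1, Finset.sum_const, nsmul_eq_mul, Finset.filter_notMem_eq_sdiff]
  rw [e]
  by_cases hU : U ⊆ G
  · rw [if_pos hU, if_pos hU, Finset.sdiff_eq_empty_iff_subset.2 hU]
    simp
  · rw [if_neg hU, if_neg hU]
    ring

end IDag1

theorem pr_Dag1 {ee : ℕ} {V : Type} [Fintype V] [DecidableEq V] {R : Type} [CommRing R]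
    [IsDomain R] (D : Dat ee V R) (hC : Ctx D) (h1 : StP1 D) (h2 : StStar D) (h3 : StTA2 D)
    (h4 : StVe D) (h5 : StE4 D) (h6 : StT4 D) (h7 : StInt D) (h8 : StLpl D) (h9 : StOm D) :
    StDag1 D := by
  classical
  intro x U q hG hQ
  have h20 : (2 : R) ≠ 0 := hC.two.ne_zero
  have hsupp : ∀ G, x G ≠ 0 → G ∈ D.FS (ee + 2) := fun G h => (hG.supp G h).1
  have memFS : ∀ k H, H ∈ D.FS k → H ⊆ D.VP ∧ H.card = k ∧ D.Full H := by
    intro k H hH
    rw [Dat.FS, Finset.mem_filter, Finset.mem_powersetCard] at hH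
    exact ⟨hH.1.1, hH.1.2, hH.2⟩
  -- the function `ν`
  have hν : ∃ ν : Finset V → R, ∀ H ⊆ D.VP, H.card = ee + 1 →
      2 * ν H = - ∑ r ∈ D.VP \ H, D.wt r * x (insert r H) := by
    have h : ∀ H : Finset V, ∃ c : R, H ⊆ D.VP → H.card = ee + 1 →
        2 * c = - ∑ r ∈ D.VP \ H, D.wt r * x (insert r H) := by
      intro H
      by_cases hH : H ⊆ D.VP ∧ H.card = ee + 1
      · obtain ⟨c, hc⟩ := hG.rm H hH.1 hH.2
        exact ⟨-c, fun _ _ => by rw [hc]; ring⟩
      · exact ⟨0, fun a b => absurd ⟨a, b⟩ hH⟩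
    choose ν hν using h
    exact ⟨ν, hν⟩
  obtain ⟨ν, hν⟩ := hν
  -- the expansions
  have hb : ∃ bG : Finset V → ℕ → MvPolynomial V R, ∀ G ∈ D.FS (ee + 2),
      rename D.α (D.XH G) - D.XH G - ∑ l ∈ range (ee + 4), lin (D.a l) * bG G l ∈
        srIdeal R D.Δ := by
    have h : ∀ G : Finset V, ∃ b : ℕ → MvPolynomial V R, G ∈ D.FS (ee + 2) →
        rename D.α (D.XH G) - D.XH G - ∑ l ∈ range (ee + 4), lin (D.a l) * b l ∈
          srIdeal R D.Δ := by
      intro G
      by_cases hGm : G ∈ D.FS (ee + 2)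
      · obtain ⟨_, hc, hF⟩ := memFS (ee + 2) G hGm
        have hne : G.Nonempty := by
          rw [← Finset.card_pos]
          omega
        have hJ : rename D.α (D.XH G) - D.XH G ∈ D.J := (h1 G hF hne).2.2.2
        obtain ⟨b, hb⟩ := (mem_J_iff (Δ := D.Δ) (a := D.a) (ee + 4) _).1 hJ
        exact ⟨b, fun _ => hb⟩
      · exact ⟨0, fun a => absurd a hGm⟩
    choose bG hbG using h
    exact ⟨bG, hbG⟩
  obtain ⟨bG, hbG⟩ := hb
  -- expansions of `αK - K` for a coefficient function
  have hexp : ∀ y : Finset V → R,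
      rename D.α (D.KK y) - D.KK y -
        ∑ l ∈ range (ee + 4), lin (D.a l) * ∑ G ∈ D.FS (ee + 2), C (y G) * bG G l ∈
          srIdeal R D.Δ := by
    intro y
    have e : rename D.α (D.KK y) - D.KK y -
        ∑ l ∈ range (ee + 4), lin (D.a l) * ∑ G ∈ D.FS (ee + 2), C (y G) * bG G l =
        ∑ G ∈ D.FS (ee + 2), C (y G) *
          (rename D.α (D.XH G) - D.XH G - ∑ l ∈ range (ee + 4), lin (D.a l) * bG G l) := by
      have e1 : ∑ l ∈ range (ee + 4), lin (D.a l) * ∑ G ∈ D.FS (ee + 2), C (y G) * bG G l =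
          ∑ G ∈ D.FS (ee + 2), C (y G) * ∑ l ∈ range (ee + 4), lin (D.a l) * bG G l := by
        simp only [Finset.mul_sum]
        rw [Finset.sum_comm]
        refine Finset.sum_congr rfl fun G _ => Finset.sum_congr rfl fun l _ => ?_
        ring
      rw [e1, Dat.KK, map_sum, ← Finset.sum_sub_distrib, ← Finset.sum_sub_distrib]
      refine Finset.sum_congr rfl fun G _ => ?_
      rw [map_mul, rename_C]
      ring
    rw [e]
    exact Ideal.sum_mem _ fun G hGm => Ideal.mul_mem_left _ _ (hbG G hGm)
  have hphC : ∀ (y : Finset V → R) (m : ℕ) (p : V),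
      D.ph {p} (∑ G ∈ D.FS (ee + 2), C (y G) * bG G m) =
        ∑ G ∈ D.FS (ee + 2), y G * D.ph {p} (bG G m) := by
    intro y m p
    rw [map_sum]
    refine Finset.sum_congr rfl fun G _ => ?_
    rw [← MvPolynomial.smul_eq_C_mul, map_smul, smul_eq_mul]
  -- the values
  set Yt : Finset V → V → R :=
    fun G p => ∑ m ∈ range (ee + 4), D.a m (q 3) * D.ph {p} (bG G m) with hYt
  refine ⟨fun i j k => Yt (insert (q i) (insert (q j) U)) (q k), ?_, ?_⟩
  · intro i j k hij hx hF
    have hGm : (insert (q i) (insert (q j) U) : Finset V) ∈ D.FS (ee + 2) := hsupp _ hx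
    exact h3 _ hGm (bG (insert (q i) (insert (q j) U))) (hbG _ hGm) (q k) hF (q 3)
  · -- the congruence
    obtain ⟨v1, v2, v3, v4⟩ := h4 x U q hG hQ
    obtain ⟨e1, e2⟩ := h5 x U q hG hQ
    set b : ℕ → MvPolynomial V R := fun m => ∑ G ∈ D.FS (ee + 2), C (x G) * bG G m with hbdef
    set bs : V → ℕ → MvPolynomial V R :=
      fun s m => ∑ G ∈ D.FS (ee + 2), C (xr s x G) * bG G m with hbsdef
    set Z : V → R := fun p => ∑ m ∈ range (ee + 4), D.a m (q 3) *
      (D.ph {p} (b m) - ∑ s ∈ U, D.ph {p} (bs s m)) with hZ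
    set Rm : V → R := fun p => ∑ G ∈ D.FS (ee + 2),
      (if U ⊆ G then 0 else (1 - ((U \ G).card : R)) * x G) * Yt G p with hRm
    have hZ1 : ∀ p, Z p = (∑ i, ∑ j ∈ Finset.univ.filter (fun j => i < j),
        xq x U q i j * Yt (insert (q i) (insert (q j) U)) p) + Rm p := by
      intro p
      have e4 : Z p =
          (∑ G ∈ D.FS (ee + 2), (if U ⊆ G then x G else 0) * Yt G p) + Rm p := by
        rw [hZ, hYt, hRm, ← Finset.sum_add_distrib]
        simp only [hbdef, hbsdef, hphC]
        have e5 : ∀ m, D.a m (q 3) * (∑ G ∈ D.FS (ee + 2), x G * D.ph {p} (bG G m) -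
            ∑ s ∈ U, ∑ G ∈ D.FS (ee + 2), xr s x G * D.ph {p} (bG G m)) =
            ∑ G ∈ D.FS (ee + 2),
              (x G - ∑ s ∈ U, xr s x G) * (D.a m (q 3) * D.ph {p} (bG G m)) := by
          intro m
          rw [Finset.sum_comm, ← Finset.sum_sub_distrib, Finset.mul_sum]
          refine Finset.sum_congr rfl fun G _ => ?_
          rw [← Finset.sum_mul]
          ring
        rw [Finset.sum_congr rfl fun m _ => e5 m, Finset.sum_comm]
        refine Finset.sum_congr rfl fun G _ => ?_
        rw [← Finset.mul_sum, IDag1.coef x U G, add_mul]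
      rw [e4]
      congr 1
      exact IDag1.sum_link (D.FS (ee + 2)) x U q hsupp hQ.q_inj hQ.q_ne hQ.link
        (fun G => Yt G p)
    -- the sets that do not contain `U`
    have hRk : ∀ k, (4 : R) ∣ S4 D x U q k * Rm (q k) := by
      intro k
      by_cases h0 : S4 D x U q k = 0
      · rw [h0, zero_mul]
        exact dvd_zero _
      have hF : D.Full {q k} := (v3 k h0).2
      have hex : ∃ l ≠ k, xq x U q k l ≠ 0 := by
        by_contra hno
        push Not at hno
        apply h0
        rw [S4]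
        refine Finset.sum_eq_zero fun l hl => ?_
        rw [hno l (Finset.ne_of_mem_erase hl), mul_zero]
      obtain ⟨l, hl, hxl⟩ := hex
      have hGl : (insert (q k) (insert (q l) U) : Finset V) ∈ D.FS (ee + 2) := hsupp _ hxl
      have hR2 : (2 : R) ∣ Rm (q k) := by
        rw [hRm]
        refine Finset.dvd_sum fun G hGm => ?_
        split_ifs with hcond
        · rw [zero_mul]
          exact dvd_zero _
        · by_cases hone : (U \ G).card = 1
          · rw [hone]
            simp
          refine Dvd.dvd.mul_left ?_ _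
          obtain ⟨hGV, hGc, hGF⟩ := memFS (ee + 2) G hGm
          -- `q k ∈ G`
          have hqk : q k ∈ G := by
            by_contra hqk
            have hcard := h7 G hGm _ hGl
            have hsub : G ∩ insert (q k) (insert (q l) U) ⊆ insert (q l) (U ∩ G) := by
              intro v hv
              rw [Finset.mem_inter, Finset.mem_insert, Finset.mem_insert] at hv
              rw [Finset.mem_insert, Finset.mem_inter]
              obtain ⟨hv1, hv2 | hv2 | hv2⟩ := hv
              · exact absurd (hv2 ▸ hv1) hqk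
              · exact Or.inl hv2
              · exact Or.inr ⟨hv2, hv1⟩
            have hc1 := Finset.card_le_card hsub
            have hc2 := Finset.card_insert_le (q l) (U ∩ G)
            have hc3 := Finset.card_sdiff_add_card_inter U G
            have hc4 : 0 < (U \ G).card := by
              rw [Finset.card_pos, Finset.sdiff_nonempty]
              exact hcond
            have hc5 := hQ.U_card
            omega
          have h := h3 G hGm (bG G) (hbG _ hGm) (q k) hF (q 3)
          have hPM : (2 : R) ∣ PM D G (q k) (q 3) :=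
            (h8 G hGV hGc (q k) (hQ.q_mem k) (q 3) (hQ.q_mem 3)).2 (Or.inr (Or.inl hqk))
          have h' := dvd_add h hPM
          rw [sub_add_cancel] at h'
          exact (hC.two.dvd_or_dvd h').resolve_left h9
      have h4' : (4 : R) = 2 * 2 := by norm_num
      rw [h4']
      exact mul_dvd_mul (v2 k) hR2
    have hst := h2 x ν hsupp (fun H hH => hν H (memFS (ee + 1) H hH).1
      (memFS (ee + 1) H hH).2.1) hG.fourT U hQ.U_sub hQ.U_card b bs (hexp x)
      (fun s _ => hexp (xr s x))
    -- the sum of the congruences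
    have hsum : (8 : R) ∣ ∑ m ∈ range (ee + 4), D.a m (q 3) *
        (∑ s ∈ U, D.wt s * D.T m (D.z s * xm R U * D.KK (xs s x) ^ 2) +
          D.μ m * D.dg (xm R U * D.KK x ^ 2) +
          4 * ∑ q' ∈ D.lk U, ν (insert q' U) *
            (D.ph {q'} (b m) - ∑ s ∈ U, D.ph {q'} (bs s m))) := by
      refine Finset.dvd_sum fun m hm => Dvd.dvd.mul_left ?_ _
      exact hst m (Finset.mem_range.1 hm)
    have e5 : ∑ m ∈ range (ee + 4), D.a m (q 3) *
        (∑ s ∈ U, D.wt s * D.T m (D.z s * xm R U * D.KK (xs s x) ^ 2) +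
          D.μ m * D.dg (xm R U * D.KK x ^ 2) +
          4 * ∑ q' ∈ D.lk U, ν (insert q' U) *
            (D.ph {q'} (b m) - ∑ s ∈ U, D.ph {q'} (bs s m))) =
        (∑ m ∈ range (ee + 4), D.μ m * D.a m (q 3)) * D.dg (xm R U * D.KK x ^ 2) +
        4 * ∑ q' ∈ D.lk U, ν (insert q' U) * Z q' := by
      have e6 : ∑ q' ∈ D.lk U, ν (insert q' U) * Z q' =
          ∑ m ∈ range (ee + 4), D.a m (q 3) * ∑ q' ∈ D.lk U, ν (insert q' U) *
            (D.ph {q'} (b m) - ∑ s ∈ U, D.ph {q'} (bs s m)) := by
        rw [hZ]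
        simp only [Finset.mul_sum]
        rw [Finset.sum_comm]
        refine Finset.sum_congr rfl fun m _ => Finset.sum_congr rfl fun p _ => ?_
        ring
      have e7 : ∑ m ∈ range (ee + 4), D.a m (q 3) *
          ∑ s ∈ U, D.wt s * D.T m (D.z s * xm R U * D.KK (xs s x) ^ 2) = 0 := by
        simp only [Finset.mul_sum]
        rw [Finset.sum_comm]
        refine Finset.sum_eq_zero fun s hs => ?_
        have := h6 x U q hG hQ s hs 3
        have e8 : ∑ m ∈ range (ee + 4), D.a m (q 3) *
            (D.wt s * D.T m (D.z s * xm R U * D.KK (xs s x) ^ 2)) =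
            D.wt s * ∑ m ∈ range (ee + 4), D.a m (q 3) *
              D.T m (D.z s * xm R U * D.KK (xs s x) ^ 2) := by
          rw [Finset.mul_sum]
          refine Finset.sum_congr rfl fun m _ => ?_
          ring
        rw [e8, this, mul_zero]
      have e9 : ∑ m ∈ range (ee + 4), D.a m (q 3) *
          (∑ s ∈ U, D.wt s * D.T m (D.z s * xm R U * D.KK (xs s x) ^ 2) +
            D.μ m * D.dg (xm R U * D.KK x ^ 2) +
            4 * ∑ q' ∈ D.lk U, ν (insert q' U) *
              (D.ph {q'} (b m) - ∑ s ∈ U, D.ph {q'} (bs s m))) =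
          ∑ m ∈ range (ee + 4), D.a m (q 3) *
            ∑ s ∈ U, D.wt s * D.T m (D.z s * xm R U * D.KK (xs s x) ^ 2) +
          (∑ m ∈ range (ee + 4), D.μ m * D.a m (q 3)) * D.dg (xm R U * D.KK x ^ 2) +
          4 * ∑ m ∈ range (ee + 4), D.a m (q 3) * ∑ q' ∈ D.lk U, ν (insert q' U) *
            (D.ph {q'} (b m) - ∑ s ∈ U, D.ph {q'} (bs s m)) := by
        rw [Finset.sum_mul, Finset.mul_sum (a := (4 : R)), ← Finset.sum_add_distrib,
          ← Finset.sum_add_distrib]
        refine Finset.sum_congr rfl fun m _ => ?_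
        ring
      rw [e9, e7, e6, zero_add]
    -- twice the sum with `ν`
    have e7 : 2 * ∑ q' ∈ D.lk U, ν (insert q' U) * Z q' = - ∑ k, S4 D x U q k * Z (q k) := by
      have hcard : ∀ p, p ∉ U → (insert p U : Finset V).card = ee + 1 := fun p hp => by
        rw [Finset.card_insert_of_notMem hp, hQ.U_card]
      have hsub : ∀ p ∈ D.VP, (insert p U : Finset V) ⊆ D.VP := fun p hp =>
        Finset.insert_subset hp hQ.U_sub
      have hval : ∀ i, 2 * ν (insert (q i) U) = - S4 D x U q i := by
        intro i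
        rw [hν _ (hsub _ (hQ.q_mem i)) (hcard _ (hQ.q_ne i)), v1 i]
      rw [Finset.mul_sum, ← Finset.sum_neg_distrib]
      have e8 : ∑ q' ∈ D.lk U, 2 * (ν (insert q' U) * Z q') =
          ∑ p ∈ (Finset.univ : Finset (Fin 4)).image q,
            (if p ∈ D.lk U then 2 * (ν (insert p U) * Z p) else 0) := by
        rw [Finset.sum_ite_mem, ← Finset.sum_filter_ne_zero (D.lk U),
          ← Finset.sum_filter_ne_zero (_ ∩ D.lk U)]
        refine Finset.sum_congr ?_ fun _ _ => rfl
        ext p
        rw [Finset.mem_filter (s := D.lk U), Finset.mem_filter (s := _ ∩ D.lk U),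
          Finset.mem_inter]
        refine and_congr_left fun hp0 => ⟨fun hp => ⟨?_, hp⟩, fun hp => hp.2⟩
        by_contra hni
        apply hp0
        have hpF := hp
        rw [Dat.lk, Finset.mem_filter, Finset.mem_sdiff] at hpF
        obtain ⟨⟨hpV, hpU⟩, _⟩ := hpF
        have hz : ∀ i, p ≠ q i := by
          intro i hi
          exact hni (Finset.mem_image.2 ⟨i, Finset.mem_univ _, hi.symm⟩)
        have h0 := hν (insert p U) (hsub p hpV) (hcard p hpU)
        rw [v4 p hpV hpU hz, neg_zero] at h0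
        rw [← mul_assoc, h0, zero_mul]
      rw [e8, Finset.sum_image (fun a _ b _ h => hQ.q_inj h)]
      refine Finset.sum_congr rfl fun k _ => ?_
      split_ifs with hk
      · rw [← mul_assoc, hval k]
        ring
      · have h0 : S4 D x U q k = 0 := by
          by_contra h0
          apply hk
          rw [Dat.lk, Finset.mem_filter, Finset.mem_sdiff]
          exact ⟨⟨hQ.q_mem k, hQ.q_ne k⟩, (v3 k h0).1⟩
        rw [h0]
        ring
    rw [e5, e1] at hsum
    have e9 : (∑ m ∈ range (ee + 4), D.μ m * D.a m (q 3)) * (2 * E4 D x U q) +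
        4 * ∑ q' ∈ D.lk U, ν (insert q' U) * Z q' =
        2 * ((∑ m ∈ range (ee + 4), D.μ m * D.a m (q 3)) * E4 D x U q -
          ∑ k, S4 D x U q k * Z (q k)) := by
      linear_combination 2 * e7
    rw [e9] at hsum
    have h8' : (8 : R) = 2 * 4 := by norm_num
    rw [h8'] at hsum
    have hfin := (mul_dvd_mul_iff_left h20).1 hsum
    have e10 : ∑ k, S4 D x U q k * ∑ i, ∑ j ∈ Finset.univ.filter (fun j => i < j),
          xq x U q i j * Yt (insert (q i) (insert (q j) U)) (q k) =
        ∑ k, S4 D x U q k * Z (q k) - ∑ k, S4 D x U q k * Rm (q k) := by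
      rw [← Finset.sum_sub_distrib]
      refine Finset.sum_congr rfl fun k _ => ?_
      rw [hZ1 (q k)]
      ring
    rw [e10, ← sub_add]
    exact dvd_add hfin (Finset.dvd_sum fun k _ => hRk k)

end CSLef.DG
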