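import Mathlib
import Pool.Agent.Work.MP_38c61c_al.DG.Stmts2

/-!
Block DG: item Dag2
-/

set_option autoImplicit false

namespace CSLef.DG

open MvPolynomial Finset

namespace IDag2

theorem sum_lt {R : Type} [CommRing R] (f : Fin 4 → Fin 4 → R) :
    ∑ i, ∑ j ∈ Finset.univ.filter (fun j => i < j), f i j =
      f 0 1 + f 0 2 + f 0 3 + f 1 2 + f 1 3 + f 2 3 := by
  have e0 : (Finset.univ.filter (fun j : Fin 4 => 0 < j)) = {1, 2, 3} := by decide
  have e1 : (Finset.univ.filter (fun j : Fin 4 => 1 < j)) = {2, 3} := by decide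
  have e2 : (Finset.univ.filter (fun j : Fin 4 => 2 < j)) = {3} := by decide
  have e3 : (Finset.univ.filter (fun j : Fin 4 => 3 < j)) = ∅ := by decide
  rw [Fin.sum_univ_four, e0, e1, e2, e3, Finset.sum_empty, Finset.sum_singleton,
    Finset.sum_pair (by decide), Finset.sum_insert (by decide), Finset.sum_pair (by decide)]
  ring

variable {ee : ℕ} {V : Type} [Fintype V] [DecidableEq V] {R : Type} [CommRing R] [IsDomain R]

theorem xq_symm (x : Finset V → R) (U : Finset V) (q : Fin 4 → V) (i j : Fin 4) :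
    xq x U q i j = xq x U q j i := by
  unfold xq
  rw [Finset.insert_comm]

theorem S4_0 (D : Dat ee V R) (x : Finset V → R) (U : Finset V) (q : Fin 4 → V) :
    S4 D x U q 0 = D.wt (q 1) * xq x U q 0 1 + D.wt (q 2) * xq x U q 0 2 +
      D.wt (q 3) * xq x U q 0 3 := by
  have e : (Finset.univ.erase (0 : Fin 4)) = {1, 2, 3} := by decide
  unfold S4
  rw [e, Finset.sum_insert (by decide), Finset.sum_pair (by decide)]
  ring

theorem S4_1 (D : Dat ee V R) (x : Finset V → R) (U : Finset V) (q : Fin 4 → V) :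
    S4 D x U q 1 = D.wt (q 0) * xq x U q 0 1 + D.wt (q 2) * xq x U q 1 2 +
      D.wt (q 3) * xq x U q 1 3 := by
  have e : (Finset.univ.erase (1 : Fin 4)) = {0, 2, 3} := by decide
  unfold S4
  rw [e, Finset.sum_insert (by decide), Finset.sum_pair (by decide), xq_symm x U q 1 0]
  ring

theorem S4_2 (D : Dat ee V R) (x : Finset V → R) (U : Finset V) (q : Fin 4 → V) :
    S4 D x U q 2 = D.wt (q 0) * xq x U q 0 2 + D.wt (q 1) * xq x U q 1 2 +
      D.wt (q 3) * xq x U q 2 3 := by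
  have e : (Finset.univ.erase (2 : Fin 4)) = {0, 1, 3} := by decide
  unfold S4
  rw [e, Finset.sum_insert (by decide), Finset.sum_pair (by decide), xq_symm x U q 2 0,
    xq_symm x U q 2 1]
  ring

/-- the set `U + q i + q j` -/
def Gs (U : Finset V) (q : Fin 4 → V) (i j : Fin 4) : Finset V := insert (q i) (insert (q j) U)

theorem q_notMem {D : Dat ee V R} {x : Finset V → R} {U : Finset V} {q : Fin 4 → V}
    (hQ : HQ D x U q) {i j k : Fin 4} (hki : k ≠ i) (hkj : k ≠ j) : q k ∉ Gs U q i j := by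
  unfold Gs
  rw [Finset.mem_insert, Finset.mem_insert]
  rintro (h | h | h)
  · exact hki (hQ.q_inj h)
  · exact hkj (hQ.q_inj h)
  · exact hQ.q_ne k h

theorem Gs_sub {D : Dat ee V R} {x : Finset V → R} {U : Finset V} {q : Fin 4 → V}
    (hQ : HQ D x U q) (i j : Fin 4) : Gs U q i j ⊆ D.VP := by
  unfold Gs
  exact Finset.insert_subset (hQ.q_mem i) (Finset.insert_subset (hQ.q_mem j) hQ.U_sub)

theorem Gs_card {D : Dat ee V R} {x : Finset V → R} {U : Finset V} {q : Fin 4 → V}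
    (hQ : HQ D x U q) {i j : Fin 4} (hij : i ≠ j) : (Gs U q i j).card = ee + 2 := by
  unfold Gs
  rw [Finset.card_insert_of_notMem, Finset.card_insert_of_notMem (hQ.q_ne j), hQ.U_card]
  rw [Finset.mem_insert]
  rintro (h | h)
  · exact hij (hQ.q_inj h)
  · exact hQ.q_ne i h

theorem ev {D : Dat ee V R} (h1 : StLpl D) {x : Finset V → R} {U : Finset V} {q : Fin 4 → V}
    (hQ : HQ D x U q) {i j k : Fin 4} (hij : i ≠ j)
    (h : k = i ∨ k = j ∨ 3 = i ∨ 3 = j ∨ k = 3) : (2 : R) ∣ PM D (Gs U q i j) (q k) (q 3) := by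
  refine (h1 _ (Gs_sub hQ i j) (Gs_card hQ hij) _ (hQ.q_mem k) _ (hQ.q_mem 3)).2 ?_
  unfold Gs
  rcases h with h | h | h | h | h
  · exact Or.inr (Or.inl (by rw [h]; exact Finset.mem_insert_self _ _))
  · exact Or.inr (Or.inl (by
      rw [h]; exact Finset.mem_insert_of_mem (Finset.mem_insert_self _ _)))
  · exact Or.inr (Or.inr (by rw [h]; exact Finset.mem_insert_self _ _))
  · exact Or.inr (Or.inr (by
      rw [h]; exact Finset.mem_insert_of_mem (Finset.mem_insert_self _ _)))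
  · exact Or.inl (by rw [h])

theorem vl {D : Dat ee V R} (h1 : StLpl D) {x : Finset V → R} {U : Finset V} {q : Fin 4 → V}
    (hQ : HQ D x U q) {i j k : Fin 4} (hij : i ≠ j) (hki : k ≠ i) (hkj : k ≠ j) (h3i : 3 ≠ i)
    (h3j : 3 ≠ j) (hk3 : k ≠ 3) (hall : (Finset.univ : Finset (Fin 4)) = {k, 3, i, j}) :
    PM D (Gs U q i j) (q k) (q 3) = D.pm (U ∪ Finset.univ.image q) := by
  rw [(h1 _ (Gs_sub hQ i j) (Gs_card hQ hij) _ (hQ.q_mem k) _ (hQ.q_mem 3)).1
    (fun h => hk3 (hQ.q_inj h)) (q_notMem hQ hki hkj) (q_notMem hQ h3i h3j)]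
  congr 1
  rw [hall]
  unfold Gs
  ext v
  simp only [Finset.mem_insert, Finset.mem_union, Finset.mem_image, Finset.mem_singleton]
  constructor
  · rintro (h | h | h | h | h)
    · exact Or.inr ⟨k, Or.inl rfl, h.symm⟩
    · exact Or.inr ⟨3, Or.inr (Or.inl rfl), h.symm⟩
    · exact Or.inr ⟨i, Or.inr (Or.inr (Or.inl rfl)), h.symm⟩
    · exact Or.inr ⟨j, Or.inr (Or.inr (Or.inr rfl)), h.symm⟩
    · exact Or.inl h
  · rintro (h | ⟨a, (h | h | h | h), ha⟩)
    · exact Or.inr (Or.inr (Or.inr (Or.inr h)))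
    · exact Or.inl (by rw [← ha, h])
    · exact Or.inr (Or.inl (by rw [← ha, h]))
    · exact Or.inr (Or.inr (Or.inl (by rw [← ha, h])))
    · exact Or.inr (Or.inr (Or.inr (Or.inl (by rw [← ha, h]))))

end IDag2

open IDag2 in
theorem pr_Dag2 {ee : ℕ} {V : Type} [Fintype V] [DecidableEq V] {R : Type} [CommRing R]
    [IsDomain R] (D : Dat ee V R) (h1 : StLpl D) (h2 : StVe D) (h3 : StE4 D) (h4 : StDag1 D) :
    StDag2 D := by
  intro x U q hG hQ
  obtain ⟨Y, hY1, y, hy⟩ := h4 x U q hG hQ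
  obtain ⟨-, hev, hfull, -⟩ := h2 x U q hG hQ
  obtain ⟨-, e, he⟩ := h3 x U q hG hQ
  -- one term
  have hterm : ∀ k i j, i ≠ j → ∃ t, S4 D x U q k * (xq x U q i j *
      (D.om * Y i j k - PM D (Gs U q i j) (q k) (q 3))) = 4 * t := by
    intro k i j hij
    by_cases hS : S4 D x U q k = 0
    · exact ⟨0, by rw [hS]; ring⟩
    · by_cases hx : xq x U q i j = 0
      · exact ⟨0, by rw [hx]; ring⟩
      · obtain ⟨w, hw⟩ := hev k
        obtain ⟨v, hv⟩ := hY1 i j k hij hx (hfull k hS).2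
        refine ⟨w * xq x U q i j * v, ?_⟩
        rw [hw]
        unfold Gs
        rw [hv]
        ring
  have hk : ∀ k, ∃ t, S4 D x U q k * (D.om * (∑ i, ∑ j ∈ Finset.univ.filter (fun j => i < j),
      xq x U q i j * Y i j k) - ∑ i, ∑ j ∈ Finset.univ.filter (fun j => i < j),
      xq x U q i j * PM D (Gs U q i j) (q k) (q 3)) = 4 * t := by
    intro k
    obtain ⟨t1, ht1⟩ := hterm k 0 1 (by decide)
    obtain ⟨t2, ht2⟩ := hterm k 0 2 (by decide)
    obtain ⟨t3, ht3⟩ := hterm k 0 3 (by decide)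
    obtain ⟨t4, ht4⟩ := hterm k 1 2 (by decide)
    obtain ⟨t5, ht5⟩ := hterm k 1 3 (by decide)
    obtain ⟨t6, ht6⟩ := hterm k 2 3 (by decide)
    refine ⟨t1 + t2 + t3 + t4 + t5 + t6, ?_⟩
    rw [sum_lt, sum_lt]
    linear_combination ht1 + ht2 + ht3 + ht4 + ht5 + ht6
  -- even terms
  have hE : ∀ k i j, i ≠ j → (k = i ∨ k = j ∨ 3 = i ∨ 3 = j ∨ k = 3) →
      ∃ t, S4 D x U q k * (xq x U q i j * PM D (Gs U q i j) (q k) (q 3)) = 4 * t := by
    intro k i j hij h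
    obtain ⟨w, hw⟩ := hev k
    obtain ⟨v, hv⟩ := ev h1 hQ hij h
    exact ⟨w * xq x U q i j * v, by rw [hw, hv]; ring⟩
  have B0 : ∃ b, S4 D x U q 0 * (∑ i, ∑ j ∈ Finset.univ.filter (fun j => i < j),
      xq x U q i j * PM D (Gs U q i j) (q 0) (q 3)) -
      S4 D x U q 0 * xq x U q 1 2 * D.pm (U ∪ Finset.univ.image q) = 4 * b := by
    obtain ⟨t1, ht1⟩ := hE 0 0 1 (by decide) (by decide)
    obtain ⟨t2, ht2⟩ := hE 0 0 2 (by decide) (by decide)
    obtain ⟨t3, ht3⟩ := hE 0 0 3 (by decide) (by decide)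
    have h4 := vl h1 hQ (i := 1) (j := 2) (k := 0) (by decide) (by decide) (by decide)
      (by decide) (by decide) (by decide) (by decide)
    obtain ⟨t5, ht5⟩ := hE 0 1 3 (by decide) (by decide)
    obtain ⟨t6, ht6⟩ := hE 0 2 3 (by decide) (by decide)
    refine ⟨t1 + t2 + t3 + t5 + t6, ?_⟩
    rw [sum_lt, h4]
    linear_combination ht1 + ht2 + ht3 + ht5 + ht6
  have B1 : ∃ b, S4 D x U q 1 * (∑ i, ∑ j ∈ Finset.univ.filter (fun j => i < j),
      xq x U q i j * PM D (Gs U q i j) (q 1) (q 3)) -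
      S4 D x U q 1 * xq x U q 0 2 * D.pm (U ∪ Finset.univ.image q) = 4 * b := by
    obtain ⟨t1, ht1⟩ := hE 1 0 1 (by decide) (by decide)
    have h4 := vl h1 hQ (i := 0) (j := 2) (k := 1) (by decide) (by decide) (by decide)
      (by decide) (by decide) (by decide) (by decide)
    obtain ⟨t3, ht3⟩ := hE 1 0 3 (by decide) (by decide)
    obtain ⟨t4, ht4⟩ := hE 1 1 2 (by decide) (by decide)
    obtain ⟨t5, ht5⟩ := hE 1 1 3 (by decide) (by decide)
    obtain ⟨t6, ht6⟩ := hE 1 2 3 (by decide) (by decide)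
    refine ⟨t1 + t3 + t4 + t5 + t6, ?_⟩
    rw [sum_lt, h4]
    linear_combination ht1 + ht3 + ht4 + ht5 + ht6
  have B2 : ∃ b, S4 D x U q 2 * (∑ i, ∑ j ∈ Finset.univ.filter (fun j => i < j),
      xq x U q i j * PM D (Gs U q i j) (q 2) (q 3)) -
      S4 D x U q 2 * xq x U q 0 1 * D.pm (U ∪ Finset.univ.image q) = 4 * b := by
    have h4 := vl h1 hQ (i := 0) (j := 1) (k := 2) (by decide) (by decide) (by decide)
      (by decide) (by decide) (by decide) (by decide)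
    obtain ⟨t2, ht2⟩ := hE 2 0 2 (by decide) (by decide)
    obtain ⟨t3, ht3⟩ := hE 2 0 3 (by decide) (by decide)
    obtain ⟨t4, ht4⟩ := hE 2 1 2 (by decide) (by decide)
    obtain ⟨t5, ht5⟩ := hE 2 1 3 (by decide) (by decide)
    obtain ⟨t6, ht6⟩ := hE 2 2 3 (by decide) (by decide)
    refine ⟨t2 + t3 + t4 + t5 + t6, ?_⟩
    rw [sum_lt, h4]
    linear_combination ht2 + ht3 + ht4 + ht5 + ht6
  have B3 : ∃ b, S4 D x U q 3 * (∑ i, ∑ j ∈ Finset.univ.filter (fun j => i < j),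
      xq x U q i j * PM D (Gs U q i j) (q 3) (q 3)) = 4 * b := by
    obtain ⟨t1, ht1⟩ := hE 3 0 1 (by decide) (by decide)
    obtain ⟨t2, ht2⟩ := hE 3 0 2 (by decide) (by decide)
    obtain ⟨t3, ht3⟩ := hE 3 0 3 (by decide) (by decide)
    obtain ⟨t4, ht4⟩ := hE 3 1 2 (by decide) (by decide)
    obtain ⟨t5, ht5⟩ := hE 3 1 3 (by decide) (by decide)
    obtain ⟨t6, ht6⟩ := hE 3 2 3 (by decide) (by decide)
    refine ⟨t1 + t2 + t3 + t4 + t5 + t6, ?_⟩
    rw [sum_lt]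
    linear_combination ht1 + ht2 + ht3 + ht4 + ht5 + ht6
  obtain ⟨t0, ht0⟩ := hk 0
  obtain ⟨t1, ht1⟩ := hk 1
  obtain ⟨t2, ht2⟩ := hk 2
  obtain ⟨t3, ht3⟩ := hk 3
  obtain ⟨b0, hb0⟩ := B0
  obtain ⟨b1, hb1⟩ := B1
  obtain ⟨b2, hb2⟩ := B2
  obtain ⟨b3, hb3⟩ := B3
  rw [Fin.sum_univ_four] at hy
  have hwt : D.wt (q 3) = 2 * D.c (q 3) + ∑ l ∈ range (ee + 4), D.μ l * D.a l (q 3) := rfl
  have hbr : D.wt (q 3) * P4 x U q + 2 * C4 D x U q = S4 D x U q 2 * xq x U q 0 1 +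
      S4 D x U q 1 * xq x U q 0 2 + S4 D x U q 0 * xq x U q 1 2 := by
    rw [S4_0, S4_1, S4_2]
    unfold P4 C4
    ring
  rw [hbr]
  refine ⟨D.om * D.c (q 3) * e + D.om * y + t0 + t1 + t2 + t3 + b0 + b1 + b2 + b3, ?_⟩
  linear_combination (D.om * E4 D x U q) * hwt + 2 * D.om * D.c (q 3) * he + D.om * hy +
    ht0 + ht1 + ht2 + ht3 + hb0 + hb1 + hb2 + hb3

end CSLef.DG
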