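import Mathlib
import Pool.Agent.Work.MP_38c61c_al.DG.Stmts

/-!
Block D6, item Der: the derivation `∂ / ∂ a_(m,v)` and the degree functional.
-/

namespace CSLef.DG

open MvPolynomial Finset

namespace IDer

variable {ee : ℕ} {V : Type} [Fintype V] [DecidableEq V] {R : Type} [CommRing R]

/-- the defect `deg (δ f) - δ (deg f) - T_m (z_v f)` -/
noncomputable def L (D : Dat ee V R) (m : ℕ) (v : V) (δ : Derivation ℤ R R) (f : MvPolynomial V R) : R :=
  D.dg (dmap δ f) - δ (D.dg f) - D.T m (D.z v * f)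

theorem L_add (D : Dat ee V R) (m : ℕ) (v : V) (δ : Derivation ℤ R R) (f g : MvPolynomial V R) :
    L D m v δ (f + g) = L D m v δ f + L D m v δ g := by
  unfold L
  rw [dmap_add, map_add, map_add, map_add, mul_add, map_add]
  ring

theorem L_C (D : Dat ee V R) (m : ℕ) (v : V) (δ : Derivation ℤ R R) (r : R) (f : MvPolynomial V R) :
    L D m v δ (C r * f) = r * L D m v δ f := by
  unfold L
  have e1 : D.dg (C r * f) = r * D.dg f := by rw [← smul_eq_C_mul, map_smul, smul_eq_mul]
  have e2 : D.dg (C r * dmap δ f) = r * D.dg (dmap δ f) := by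
    rw [← smul_eq_C_mul, map_smul, smul_eq_mul]
  have e3 : D.dg (C (δ r) * f) = δ r * D.dg f := by rw [← smul_eq_C_mul, map_smul, smul_eq_mul]
  have e4 : D.T m (D.z v * (C r * f)) = r * D.T m (D.z v * f) := by
    rw [mul_left_comm, ← smul_eq_C_mul, map_smul, smul_eq_mul]
  rw [dmap_mul, dmap_C, map_add, e1, e2, e3, e4, Derivation.leibniz, smul_eq_mul, smul_eq_mul]
  ring

theorem L_zero (D : Dat ee V R) (m : ℕ) (v : V) (δ : Derivation ℤ R R) : L D m v δ 0 = 0 := by
  unfold L
  rw [dmap_zero, map_zero, map_zero, mul_zero, map_zero]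
  ring

theorem L_sum (D : Dat ee V R) (m : ℕ) (v : V) (δ : Derivation ℤ R R) {ι : Type*} (I : Finset ι)
    (f : ι → MvPolynomial V R) : L D m v δ (∑ i ∈ I, f i) = ∑ i ∈ I, L D m v δ (f i) := by
  classical
  induction I using Finset.induction_on with
  | empty => rw [Finset.sum_empty, Finset.sum_empty, L_zero]
  | insert i I hi ih => rw [Finset.sum_insert hi, Finset.sum_insert hi, L_add, ih]

variable [IsDomain R]

theorem L_sr (D : Dat ee V R) (hC : Ctx D) (m : ℕ) (v : V) (δ : Derivation ℤ R R)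
    (f : MvPolynomial V R) (hf : f ∈ srIdeal R D.Δ) : L D m v δ f = 0 := by
  unfold L
  have e1 : D.dg (dmap δ f) = 0 := hC.dgJ _ (sr_le_J (ee + 4) (dmap_sr hC.hs.down δ hf))
  have e2 : D.dg f = 0 := hC.dgJ _ (sr_le_J (ee + 4) hf)
  have e3 : D.T m (D.z v * f) = 0 := hC.Tsr m _ (Ideal.mul_mem_left _ _ hf)
  rw [e1, e2, e3, map_zero]
  ring

theorem dmap_lin (D : Dat ee V R) (hC : Ctx D) (m : ℕ) (v : V) (δ : Derivation ℤ R R)
    (hδ : ∀ l < ee + 4, ∀ u, δ (D.a l u) =
      if m = l then (if u = v then 1 else if u = D.α v then -1 else 0) else 0)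
    (l : ℕ) (hl : l < ee + 4) : dmap δ (lin (D.a l)) = if l = m then D.z v else 0 := by
  unfold lin
  rw [dmap_sum]
  have h1 : ∀ u, dmap δ (C (D.a l u) * X u) = (C (δ (D.a l u)) * X u : MvPolynomial V R) := by
    intro u
    rw [dmap_mul, dmap_X, dmap_C, mul_zero, add_zero]
  rw [Finset.sum_congr rfl (fun u _ => h1 u)]
  by_cases hlm : l = m
  · rw [if_pos hlm]
    have h2 : ∀ u, (C (δ (D.a l u)) * X u : MvPolynomial V R) =
        (if u = v then X u else 0) - (if u = D.α v then X u else 0) := by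
      intro u
      rw [hδ l hl u, if_pos hlm.symm]
      by_cases h3 : u = v
      · have h4 : u ≠ D.α v := by
          rw [h3]
          exact (hC.cs.fpf v).symm
        rw [if_pos h3, if_pos h3, if_neg h4, C_1, one_mul, sub_zero]
      · rw [if_neg h3, if_neg h3]
        by_cases h4 : u = D.α v
        · rw [if_pos h4, if_pos h4, C_neg, C_1, neg_one_mul, zero_sub]
        · rw [if_neg h4, if_neg h4, C_0, zero_mul, sub_zero]
    rw [Finset.sum_congr rfl (fun u _ => h2 u), Finset.sum_sub_distrib, Finset.sum_ite_eq',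
      Finset.sum_ite_eq', if_pos (Finset.mem_univ _), if_pos (Finset.mem_univ _)]
    rfl
  · rw [if_neg hlm]
    refine Finset.sum_eq_zero fun u _ => ?_
    rw [hδ l hl u, if_neg (fun h => hlm h.symm), C_0, zero_mul]

theorem L_lin (D : Dat ee V R) (hC : Ctx D) (m : ℕ) (hm : m < ee + 4) (v : V) (δ : Derivation ℤ R R)
    (hδ : ∀ l < ee + 4, ∀ u, δ (D.a l u) =
      if m = l then (if u = v then 1 else if u = D.α v then -1 else 0) else 0)
    (l : ℕ) (hl : l < ee + 4) (g : MvPolynomial V R) : L D m v δ (lin (D.a l) * g) = 0 := by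
  unfold L
  have e1 : D.dg (lin (D.a l) * g) = 0 := hC.dgJ _ (Ideal.mul_mem_right _ _ (lin_mem_J hl))
  have e2 : D.dg (lin (D.a l) * dmap δ g) = 0 := hC.dgJ _ (Ideal.mul_mem_right _ _ (lin_mem_J hl))
  have e3 : D.T m (D.z v * (lin (D.a l) * g)) = if l = m then D.dg (D.z v * g) else 0 := by
    rw [mul_left_comm]
    exact hC.Tlin m hm l hl _
  rw [dmap_mul, map_add, e1, e2, e3, map_zero, dmap_lin D hC m v δ hδ l hl]
  by_cases hlm : l = m
  · rw [if_pos hlm, if_pos hlm]
    ring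
  · rw [if_neg hlm, if_neg hlm, zero_mul, map_zero]
    ring

theorem L_J (D : Dat ee V R) (hC : Ctx D) (m : ℕ) (hm : m < ee + 4) (v : V) (δ : Derivation ℤ R R)
    (hδ : ∀ l < ee + 4, ∀ u, δ (D.a l u) =
      if m = l then (if u = v then 1 else if u = D.α v then -1 else 0) else 0)
    (f : MvPolynomial V R) (hf : f ∈ D.J) : L D m v δ f = 0 := by
  obtain ⟨g, hg⟩ := (mem_J_iff (ee + 4) f).1 hf
  have h1 : f = (f - ∑ l ∈ range (ee + 4), lin (D.a l) * g l) + ∑ l ∈ range (ee + 4), lin (D.a l) * g l := by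
    ring
  rw [h1, L_add, L_sr D hC m v δ _ hg, L_sum, zero_add]
  exact Finset.sum_eq_zero fun l hl => L_lin D hC m hm v δ hδ l (Finset.mem_range.1 hl) _

end IDer

theorem pr_Der {ee : ℕ} {V : Type} [Fintype V] [DecidableEq V] {R : Type} [CommRing R] [IsDomain R]
    (D : Dat ee V R) (hC : Ctx D) : StDer D := by
  intro m hm v _ δ hδ f hf
  have h1 := IDer.L_J D hC m hm v δ hδ _ (hC.dgt f hf)
  have h2 : f = (f - C (D.dg f) * xm R D.σ) + C (D.dg f) * xm R D.σ := by ring
  have h3 : IDer.L D m v δ f = D.dg f * IDer.L D m v δ (xm R D.σ) := by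
    conv_lhs => rw [h2]
    rw [IDer.L_add, h1, IDer.L_C, zero_add]
  have h4 : IDer.L D m v δ (xm R D.σ) = - D.T m (D.z v * xm R D.σ) := by
    unfold IDer.L
    have h5 : dmap δ (xm R D.σ) = 0 := dmap_prod_zero δ _ _ (fun u _ => dmap_X δ u)
    rw [h5, hC.dgs, map_zero, Derivation.map_one_eq_zero]
    ring
  rw [h4] at h3
  unfold IDer.L at h3
  linear_combination h3

end CSLef.DG
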