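import Mathlib
import Pool.Agent.Work.MP_38c61c_al.DG.Stmts2

/-!
Block DG, item E4: half of `deg (X_U K^2)`.
-/

namespace CSLef.DG

open MvPolynomial Finset

namespace IE4

variable {ee : ℕ} {V : Type} [Fintype V] [DecidableEq V] {R : Type} [CommRing R]

/-- the ordered pairs of indices -/
def P : Finset (Fin 4 × Fin 4) := univ.filter (fun p : Fin 4 × Fin 4 => p.1 < p.2)

theorem P_eq : P = {(0, 1), (0, 2), (0, 3), (1, 2), (1, 3), (2, 3)} := by decide

/-- the set `U` with two more elements -/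
def T (U : Finset V) (q : Fin 4 → V) (p : Fin 4 × Fin 4) : Finset V :=
  insert (q p.1) (insert (q p.2) U)

theorem mem_T (U : Finset V) (q : Fin 4 → V) (p : Fin 4 × Fin 4) (y : V) :
    y ∈ T U q p ↔ y = q p.1 ∨ y = q p.2 ∨ y ∈ U := by
  simp only [T, mem_insert]

theorem q_mem_T {U : Finset V} {q : Fin 4 → V} (hq : Function.Injective q) (hU : ∀ i, q i ∉ U)
    (p : Fin 4 × Fin 4) (i : Fin 4) :
    q i ∈ T U q p ↔ i = p.1 ∨ i = p.2 := by
  rw [mem_T]
  constructor
  · rintro (h | h | h)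
    · exact Or.inl (hq h)
    · exact Or.inr (hq h)
    · exact absurd h (hU i)
  · rintro (h | h)
    · exact Or.inl (by rw [h])
    · exact Or.inr (Or.inl (by rw [h]))

theorem T_inj {U : Finset V} {q : Fin 4 → V} (hq : Function.Injective q) (hU : ∀ i, q i ∉ U)
    (p p' : Fin 4 × Fin 4) (hp : p ∈ P) (hp' : p' ∈ P) (h : T U q p = T U q p') :
    p = p' := by
  have h0 : ∀ i, (i = p.1 ∨ i = p.2) ↔ (i = p'.1 ∨ i = p'.2) := by
    intro i
    rw [← q_mem_T hq hU p i, ← q_mem_T hq hU p' i, h]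
  revert h0 hp hp'
  clear h
  revert p p'
  decide

theorem T_inter {U : Finset V} {q : Fin 4 → V} (hq : Function.Injective q) (hU : ∀ i, q i ∉ U)
    (p p' : Fin 4 × Fin 4) : T U q p ∩ T U q p' = U ↔
      ((p.1 ≠ p'.1 ∧ p.1 ≠ p'.2) ∧ (p.2 ≠ p'.1 ∧ p.2 ≠ p'.2)) := by
  constructor
  · intro h
    have key : ∀ i, (i = p.1 ∨ i = p.2) → (i = p'.1 ∨ i = p'.2) → False := by
      intro i h1 h2
      have h3 : q i ∈ T U q p ∩ T U q p' :=
        mem_inter.2 ⟨(q_mem_T hq hU p i).2 h1, (q_mem_T hq hU p' i).2 h2⟩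
      rw [h] at h3
      exact hU i h3
    exact ⟨⟨fun h1 => key p.1 (Or.inl rfl) (Or.inl h1), fun h1 => key p.1 (Or.inl rfl) (Or.inr h1)⟩,
      ⟨fun h1 => key p.2 (Or.inr rfl) (Or.inl h1), fun h1 => key p.2 (Or.inr rfl) (Or.inr h1)⟩⟩
  · rintro ⟨⟨h1, h2⟩, ⟨h3, h4⟩⟩
    ext y
    rw [mem_inter, mem_T, mem_T]
    constructor
    · rintro ⟨(h | h | h), (h' | h' | h')⟩
      · exact absurd (hq (h.symm.trans h')) h1
      · exact absurd (hq (h.symm.trans h')) h2
      · exact h'
      · exact absurd (hq (h.symm.trans h')) h3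
      · exact absurd (hq (h.symm.trans h')) h4
      · exact h'
      · exact h
      · exact h
      · exact h
    · intro h
      exact ⟨Or.inr (Or.inr h), Or.inr (Or.inr h)⟩

/-- the sum over the sets that contain `U` is the sum over the pairs of indices -/
theorem sum_T [IsDomain R] {D : Dat ee V R} {x : Finset V → R} {U : Finset V} {q : Fin 4 → V}
    (hG : ∀ G, x G ≠ 0 → G ∈ D.FS (ee + 2)) (hQ : HQ D x U q) (f : Finset V → R)
    (hf : ∀ G, x G = 0 → f G = 0) :
    ∑ G ∈ (D.FS (ee + 2)).filter (fun G => U ⊆ G), f G = ∑ p ∈ P, f (T U q p) := by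
  have h1 : ∑ G ∈ (D.FS (ee + 2)).filter (fun G => U ⊆ G), f G =
      ∑ G ∈ (D.FS (ee + 2)).filter (fun G => U ⊆ G) ∪ P.image (T U q), f G := by
    refine sum_subset subset_union_left ?_
    intro G _ hG2
    by_contra hne
    have hx : x G ≠ 0 := fun h => hne (hf G h)
    have hs : U ⊆ G := by
      rcases mem_union.1 ‹G ∈ _› with h | h
      · exact (mem_filter.1 h).2
      · obtain ⟨p, -, hp⟩ := mem_image.1 h
        rw [← hp]
        intro y hy
        exact (mem_T U q p y).2 (Or.inr (Or.inr hy))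
    exact hG2 (mem_filter.2 ⟨hG G hx, hs⟩)
  have h2 : ∑ G ∈ P.image (T U q), f G =
      ∑ G ∈ (D.FS (ee + 2)).filter (fun G => U ⊆ G) ∪ P.image (T U q), f G := by
    refine sum_subset subset_union_right ?_
    intro G hG1 hG2
    by_contra hne
    have hx : x G ≠ 0 := fun h => hne (hf G h)
    have hs : U ⊆ G := by
      rcases mem_union.1 hG1 with h | h
      · exact (mem_filter.1 h).2
      · exact absurd h hG2
    obtain ⟨i, j, hij, hG3⟩ := hQ.link G hx hs
    apply hG2
    rcases lt_or_gt_of_ne hij with h | h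
    · exact mem_image.2 ⟨(i, j), mem_filter.2 ⟨mem_univ _, h⟩, hG3.symm⟩
    · refine mem_image.2 ⟨(j, i), mem_filter.2 ⟨mem_univ _, h⟩, ?_⟩
      rw [hG3]
      ext y
      rw [mem_T, mem_insert, mem_insert]
      tauto
  rw [h1, ← h2, sum_image]
  intro p hp p' hp' h
  exact T_inj hQ.q_inj hQ.q_ne p p' hp hp' h

theorem sum_P (g : Fin 4 × Fin 4 → R) : ∑ p ∈ P, g p =
    g (0, 1) + g (0, 2) + g (0, 3) + g (1, 2) + g (1, 3) + g (2, 3) := by
  rw [P_eq]
  rw [sum_insert (by decide), sum_insert (by decide), sum_insert (by decide),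
    sum_insert (by decide), sum_insert (by decide), sum_singleton]
  ring

end IE4

open IE4

theorem pr_E4 {ee : ℕ} {V : Type} [Fintype V] [DecidableEq V] {R : Type} [CommRing R] [IsDomain R]
    (D : Dat ee V R) (hC : Ctx D) (h1 : StEs D) : StE4 D := by
  intro x U q hx hQ
  obtain ⟨-, hA⟩ := h1 x (fun G hG => (hx.supp G hG).1) U hQ.U_sub hQ.U_card
  have hval : D.dg (xm R U * D.KK x ^ 2) = 2 * E4 D x U q := by
    rw [hA]
    have e1 : ∀ G : Finset V,
        ∑ G' ∈ (D.FS (ee + 2)).filter (fun G' => U ⊆ G' ∧ G ∩ G' = U),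
        x G * x G' * D.dg (xm R U * D.XH G * D.XH G') =
        ∑ G' ∈ (D.FS (ee + 2)).filter (fun G' => U ⊆ G'), if G ∩ G' = U then
          x G * x G' * D.dg (xm R U * D.XH G * D.XH G') else 0 := by
      intro G
      rw [← sum_filter, filter_filter]
    simp only [e1]
    rw [sum_T (D := D) (x := x) (U := U) (q := q) (fun G hG => (hx.supp G hG).1) hQ
      (fun G => ∑ G' ∈ (D.FS (ee + 2)).filter (fun G' => U ⊆ G'), if G ∩ G' = U then
          x G * x G' * D.dg (xm R U * D.XH G * D.XH G') else 0)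
      (by
        intro G hG
        refine sum_eq_zero fun G' _ => ?_
        rw [hG]
        simp)]
    have e2 : ∀ p : Fin 4 × Fin 4, (∑ G' ∈ (D.FS (ee + 2)).filter (fun G' => U ⊆ G'),
        if T U q p ∩ G' = U then
          x (T U q p) * x G' * D.dg (xm R U * D.XH (T U q p) * D.XH G') else 0) =
        ∑ p' ∈ P, if ((p.1 ≠ p'.1 ∧ p.1 ≠ p'.2) ∧ (p.2 ≠ p'.1 ∧ p.2 ≠ p'.2)) then
          x (T U q p) * x (T U q p') *
            D.dg (xm R U * D.XH (T U q p) * D.XH (T U q p')) else 0 := by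
      intro p
      rw [sum_T (D := D) (x := x) (U := U) (q := q) (fun G hG => (hx.supp G hG).1) hQ
        (fun G' => if T U q p ∩ G' = U then
          x (T U q p) * x G' * D.dg (xm R U * D.XH (T U q p) * D.XH G') else 0)
        (by
          intro G hG
          rw [hG]
          simp)]
      refine sum_congr rfl fun p' _ => ?_
      rw [if_congr (T_inter hQ.q_inj hQ.q_ne p p') rfl rfl]
    simp only [e2]
    rw [sum_P]
    simp only [sum_P]
    have sym : ∀ A B : MvPolynomial V R, D.dg (xm R U * A * B) = D.dg (xm R U * B * A) := by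
      intro A B
      rw [mul_assoc, mul_comm A B, ← mul_assoc]
    simp only [E4, xq, lam, T]
    rw [sym (D.XH (insert (q 1) (insert (q 2) U))) (D.XH (insert (q 0) (insert (q 3) U))),
      sym (D.XH (insert (q 1) (insert (q 3) U))) (D.XH (insert (q 0) (insert (q 2) U))),
      sym (D.XH (insert (q 2) (insert (q 3) U))) (D.XH (insert (q 0) (insert (q 1) U)))]
    simp
    ring
  refine ⟨hval, ?_⟩
  have h4 := hx.four (xm R U)
  rw [hval] at h4
  obtain ⟨k, hk⟩ := h4
  refine ⟨k, ?_⟩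
  have h2 : (2 : R) ≠ 0 := hC.two.ne_zero
  apply mul_left_cancel₀ h2
  rw [hk]
  ring

end CSLef.DG
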