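import Mathlib
import Pool.Agent.Work.MP_38c61c_al.DG.Stmts2

/-!
Block DG, item Es: the square of `K` times `X_U`.
-/

set_option autoImplicit false

namespace CSLef.DG

open MvPolynomial Finset

namespace IEs

variable {ee : ℕ} {V : Type} [Fintype V] [DecidableEq V] {R : Type} [CommRing R]

theorem mem_FS (D : Dat ee V R) {k : ℕ} {G : Finset V} (h : G ∈ D.FS k) :
    D.Full G ∧ G.card = k := by
  unfold Dat.FS at h
  rw [Finset.mem_filter, Finset.mem_powersetCard] at h
  exact ⟨h.2, h.1.2⟩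

theorem expd (D : Dat ee V R) (x : Finset V → R) (P : MvPolynomial V R) :
    D.dg (P * D.KK x ^ 2) =
      ∑ G ∈ D.FS (ee + 2), ∑ G' ∈ D.FS (ee + 2), x G * x G' * D.dg (P * D.XH G * D.XH G') := by
  have h1 : P * D.KK x ^ 2 =
      ∑ G ∈ D.FS (ee + 2), ∑ G' ∈ D.FS (ee + 2), (x G * x G') • (P * D.XH G * D.XH G') := by
    unfold Dat.KK
    rw [pow_two, Finset.sum_mul_sum, Finset.mul_sum]
    refine Finset.sum_congr rfl fun G _ => ?_
    rw [Finset.mul_sum]
    refine Finset.sum_congr rfl fun G' _ => ?_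
    rw [MvPolynomial.smul_eq_C_mul, map_mul]
    ring
  rw [h1, map_sum]
  refine Finset.sum_congr rfl fun G _ => ?_
  rw [map_sum]
  refine Finset.sum_congr rfl fun G' _ => ?_
  rw [map_smul, smul_eq_mul]

/-- replace `X_U X_G` by `X_(G \ U)` -/
theorem repl (D : Dat ee V R) (h1 : StP1 D) (h2 : StPhX D) (G : Finset V) (hG : D.Full G)
    (U : Finset V) : U ⊆ G → xm R U * D.XH G - D.XH (G \ U) ∈ D.J := by
  induction U using Finset.induction_on with
  | empty =>
    intro _
    have e : xm R (∅ : Finset V) * D.XH G - D.XH (G \ ∅) = 0 := by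
      unfold xm
      rw [Finset.prod_empty, one_mul, Finset.sdiff_empty, sub_self]
    rw [e]
    exact D.J.zero_mem
  | insert u U hu ih =>
    intro hUG
    have huG : u ∈ G := hUG (Finset.mem_insert_self u U)
    have hU : U ⊆ G := (Finset.subset_insert u U).trans hUG
    have hm : u ∈ G \ U := Finset.mem_sdiff.2 ⟨huG, hu⟩
    have e1 : G \ insert u U = (G \ U).erase u := by
      ext t
      simp only [Finset.mem_sdiff, Finset.mem_insert, Finset.mem_erase]
      tauto
    have e2 : xm R (insert u U) = X u * xm R U := by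
      unfold xm
      rw [Finset.prod_insert hu]
    rw [e1, e2, show X u * xm R U * D.XH G - D.XH ((G \ U).erase u) =
      X u * (xm R U * D.XH G - D.XH (G \ U)) +
        (X u * D.XH (G \ U) - D.XH ((G \ U).erase u)) by ring]
    exact D.J.add_mem (D.J.mul_mem_left _ (ih hU))
      ((h1 (G \ U) (h2.2 G hG _ Finset.sdiff_subset) ⟨u, hm⟩).2.2.1 u hm)

/-- `X_U X_G` is zero if `U` is not contained in `G` -/
theorem kill (D : Dat ee V R) (h1 : StP1 D) (G : Finset V) (hG : D.Full G) (hne : G.Nonempty)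
    (U : Finset V) (hU : U ⊆ D.VP) (hUG : ¬ U ⊆ G) (f : MvPolynomial V R) :
    xm R U * D.XH G * f ∈ D.J := by
  obtain ⟨u, hu, huG⟩ := Finset.not_subset.1 hUG
  have e : xm R U = X u * xm R (U.erase u) := by
    unfold xm
    rw [Finset.mul_prod_erase U (fun v => (X v : MvPolynomial V R)) hu]
  rw [e, show X u * xm R (U.erase u) * D.XH G * f = xm R (U.erase u) * f * (X u * D.XH G) by ring]
  exact D.J.mul_mem_left _ ((h1 G hG hne).2.1 u (hU hu) huG).1

end IEs

open IEs

/-- item Es -/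
theorem pr_Es {ee : ℕ} {V : Type} [Fintype V] [DecidableEq V] {R : Type} [CommRing R] [IsDomain R]
    (D : Dat ee V R) (hC : Ctx D) (h1 : StP1 D) (h2 : StPhX D) (h3 : StNon D) : StEs D := by
  intro x _hx U hU hUc
  have hne : ∀ G ∈ D.FS (ee + 2), G.Nonempty := fun G hG =>
    Finset.card_pos.1 (by rw [(mem_FS D hG).2]; omega)
  have hz1 : ∀ G ∈ D.FS (ee + 2), ∀ G' ∈ D.FS (ee + 2), ¬ U ⊆ G →
      D.dg (xm R U * D.XH G * D.XH G') = 0 := fun G hG G' _ hn =>
    hC.dgJ _ (kill D h1 G (mem_FS D hG).1 (hne G hG) U hU hn _)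
  have hz2 : ∀ G ∈ D.FS (ee + 2), ∀ G' ∈ D.FS (ee + 2), ¬ U ⊆ G' →
      D.dg (xm R U * D.XH G * D.XH G') = 0 := by
    intro G hG G' hG' hn
    rw [show xm R U * D.XH G * D.XH G' = xm R U * D.XH G' * D.XH G by ring]
    exact hz1 G' hG' G hG hn
  have hA : ∀ G ∈ D.FS (ee + 2), ∀ G' ∈ D.FS (ee + 2), U ⊆ G → U ⊆ G' →
      D.dg (xm R U * D.XH G * D.XH G') = D.dg (D.XH G * D.XH (G' \ U)) ∧
      (G ∩ G' ≠ U → D.dg (xm R U * D.XH G * D.XH G') = 0) := by
    intro G hG G' hG' hUG hUG'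
    have hFE : D.Full (G' \ U) := h2.2 G' (mem_FS D hG').1 _ Finset.sdiff_subset
    have e1 : D.dg (xm R U * D.XH G * D.XH G') = D.dg (D.XH G * D.XH (G' \ U)) := by
      have e2 := hC.dgJ _ (Ideal.mul_mem_left D.J (D.XH G)
        (repl D h1 h2 G' (mem_FS D hG').1 U hUG'))
      have e4 : xm R U * D.XH G * D.XH G' =
          D.XH G * (xm R U * D.XH G' - D.XH (G' \ U)) + D.XH G * D.XH (G' \ U) := by ring
      rw [e4, map_add, e2, zero_add]
    refine ⟨e1, fun hn => ?_⟩
    rw [e1]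
    refine h3 G (G' \ U) (mem_FS D hG).1 hFE ?_ ?_
    · rw [Finset.card_sdiff_of_subset hUG', (mem_FS D hG).2, (mem_FS D hG').2, hUc]
      omega
    · by_contra hem
      rw [Finset.not_nonempty_iff_eq_empty] at hem
      apply hn
      apply Finset.Subset.antisymm
      · intro t ht
        rw [Finset.mem_inter] at ht
        by_contra htU
        have : t ∈ G ∩ (G' \ U) := Finset.mem_inter.2 ⟨ht.1, Finset.mem_sdiff.2 ⟨ht.2, htU⟩⟩
        rw [hem] at this
        exact absurd this (Finset.notMem_empty t)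
      · exact Finset.subset_inter hUG hUG'
  refine ⟨hA, ?_⟩
  rw [expd, Finset.sum_filter]
  refine Finset.sum_congr rfl fun G hG => ?_
  by_cases hG1 : U ⊆ G
  · rw [if_pos hG1, Finset.sum_filter]
    refine Finset.sum_congr rfl fun G' hG' => ?_
    by_cases hG2 : U ⊆ G'
    · by_cases hi : G ∩ G' = U
      · rw [if_pos ⟨hG2, hi⟩]
      · rw [if_neg (fun h => hi h.2), (hA G hG G' hG' hG1 hG2).2 hi, mul_zero]
    · rw [if_neg (fun h => hG2 h.1), hz2 G hG G' hG' hG2, mul_zero]
  · rw [if_neg hG1]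
    refine Finset.sum_eq_zero fun G' hG' => ?_
    rw [hz1 G hG G' hG' hG1, mul_zero]

end CSLef.DG
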