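import Mathlib
import Pool.Agent.Work.MP_38c61c_al.DG.Stmts

/-!
Block D6, item Ev: the Euler derivation at a vertex.
-/

namespace CSLef.DG

open MvPolynomial Finset

namespace IEv

variable {ee : ℕ} {V : Type} [Fintype V] [DecidableEq V] {R : Type} [CommRing R]

omit [Fintype V] in
theorem ex_apply (S : Finset V) (u : V) : ex S u = if u ∈ S then 1 else 0 := by
  unfold ex
  rw [Finsupp.finsetSum_apply]
  simp only [Finsupp.single_apply]
  rw [Finset.sum_ite_eq']

omit [Fintype V] in
theorem xm_eq (S : Finset V) : xm R S = monomial (ex S) 1 := by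
  unfold xm ex
  induction S using Finset.induction_on with
  | empty => simp
  | insert v S hv ih =>
    rw [Finset.prod_insert hv, Finset.sum_insert hv, ih, X, monomial_mul, one_mul]

theorem E_monomial (D : Dat ee V R) (v : V) (hv : D.α v ≠ v) (m : V →₀ ℕ) (b : R) :
    D.E v (monomial m b) = ((m v + m (D.α v) : ℕ) : R) • monomial m b := by
  unfold Dat.E
  rw [mkDerivation_monomial]
  have key : ∀ i : V, (monomial (m - Finsupp.single i 1) ((m i : ℕ) : R)) •
      (if i = v ∨ i = D.α v then (X i : MvPolynomial V R) else 0) =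
      (if i = v then ((m i : ℕ) : R) • monomial m (1 : R) else 0) +
      (if i = D.α v then ((m i : ℕ) : R) • monomial m (1 : R) else 0) := by
    intro i
    have h0 : (i = v ∨ i = D.α v) → (monomial (m - Finsupp.single i 1) ((m i : ℕ) : R)) •
        (X i : MvPolynomial V R) = ((m i : ℕ) : R) • monomial m (1 : R) := by
      intro _
      by_cases hi : m i = 0
      · rw [hi, Nat.cast_zero, monomial_zero, zero_smul, zero_smul]
      · have hs : m - Finsupp.single i 1 + Finsupp.single i 1 = m := by
          ext u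
          simp only [Finsupp.coe_add, Finsupp.coe_tsub, Pi.add_apply, Pi.sub_apply,
            Finsupp.single_apply]
          split_ifs with h
          · subst h
            omega
          · omega
        rw [smul_eq_mul, X, monomial_mul, mul_one, smul_monomial, smul_eq_mul, mul_one, hs]
    by_cases h1 : i = v
    · have h2 : i ≠ D.α v := by
        rintro rfl
        exact hv h1
      rw [if_pos (Or.inl h1), if_pos h1, if_neg h2, add_zero]
      exact h0 (Or.inl h1)
    · by_cases h2 : i = D.α v
      · rw [if_pos (Or.inr h2), if_neg h1, if_pos h2, zero_add]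
        exact h0 (Or.inr h2)
      · rw [if_neg (by tauto), if_neg h1, if_neg h2, smul_zero, add_zero]
  have h3 : (m.sum fun i k => (monomial (m - Finsupp.single i 1) ((k : ℕ) : R)) •
      (if i = v ∨ i = D.α v then (X i : MvPolynomial V R) else 0)) =
      ((m v + m (D.α v) : ℕ) : R) • monomial m (1 : R) := by
    rw [Finsupp.sum_fintype]
    · rw [Finset.sum_congr rfl (fun i _ => key i), Finset.sum_add_distrib,
        Finset.sum_ite_eq', Finset.sum_ite_eq', if_pos (Finset.mem_univ _),
        if_pos (Finset.mem_univ _), ← add_smul, Nat.cast_add]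
    · intro i
      simp
  rw [h3, smul_smul, mul_comm, mul_smul, smul_monomial, smul_eq_mul, mul_one]

theorem coeff_E (D : Dat ee V R) (v : V) (hv : D.α v ≠ v) (f : MvPolynomial V R) (m : V →₀ ℕ) :
    coeff m (D.E v f) = ((m v + m (D.α v) : ℕ) : R) * coeff m f := by
  induction f using MvPolynomial.induction_on' with
  | monomial u b =>
    rw [E_monomial D v hv, coeff_smul, coeff_monomial, smul_eq_mul]
    split_ifs with h
    · rw [h]
    · rw [mul_zero, mul_zero]
  | add p q hp hq => rw [map_add, coeff_add, coeff_add, hp, hq, mul_add]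

theorem flip_mem (D : Dat ee V R) (vp : ∀ v, v ∈ D.VP ↔ D.α v ∉ D.VP) (H T : Finset V) (hH : H ⊆ D.VP)
    (hT : T ⊆ H) (v : V) (hv : v ∈ D.VP) :
    (v ∈ flip D.α H T ↔ v ∈ H ∧ v ∉ T) ∧ (D.α v ∈ flip D.α H T ↔ v ∈ T) := by
  unfold flip
  simp only [Finset.mem_union, Finset.mem_sdiff, Finset.mem_image]
  constructor
  · constructor
    · rintro (h | ⟨t, ht, h⟩)
      · exact h
      · exact absurd hv (h ▸ (vp t).1 (hH (hT ht)))
    · exact fun h => Or.inl h
  · constructor
    · rintro (h | ⟨t, ht, h⟩)
      · exact absurd (hH h.1) ((vp v).1 hv)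
      · exact D.α.injective h ▸ ht
    · exact fun h => Or.inr ⟨v, h, rfl⟩

theorem ex_flip (D : Dat ee V R) (vp : ∀ v, v ∈ D.VP ↔ D.α v ∉ D.VP) (H T : Finset V) (hH : H ⊆ D.VP)
    (hT : T ⊆ H) (v : V) (hv : v ∈ D.VP) :
    ex (flip D.α H T) v + ex (flip D.α H T) (D.α v) = if v ∈ H then 1 else 0 := by
  obtain ⟨h1, h2⟩ := flip_mem D vp H T hH hT v hv
  rw [ex_apply, ex_apply]
  simp only [h1, h2]
  by_cases h3 : v ∈ T
  · simp [h3, hT h3]
  · by_cases h4 : v ∈ H
    · simp [h3, h4]
    · simp [h3, h4]

end IEv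

theorem pr_Ev {ee : ℕ} {V : Type} [Fintype V] [DecidableEq V] {R : Type} [CommRing R] [IsDomain R]
    (D : Dat ee V R) (hC : Ctx D) : StEv D := by
  intro v hv
  have hα : D.α v ≠ v := hC.cs.fpf v
  refine ⟨?_, ?_, ?_, ?_, ?_⟩
  · intro f hf
    rw [mem_sr_iff hC.hs.down] at hf ⊢
    intro m hm
    apply hf m
    intro h0
    apply hm
    rw [IEv.coeff_E D v hα, h0, mul_zero]
  · intro l
    unfold lin Dat.E Dat.z
    rw [map_sum]
    have h1 : ∀ u : V, (mkDerivation R (fun u => if u = v ∨ u = D.α v then
        (X u : MvPolynomial V R) else 0)) (C (D.a l u) * X u) =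
        (if u = v then C (D.a l v) * X v else 0) +
          (if u = D.α v then - (C (D.a l v) * X (D.α v)) else 0) := by
      intro u
      rw [C_mul', Derivation.map_smul, mkDerivation_X]
      by_cases h1 : u = v
      · have h2 : u ≠ D.α v := by
          rintro rfl
          exact hα h1
        rw [if_pos (Or.inl h1), if_pos h1, if_neg h2, add_zero, h1, C_mul']
      · by_cases h2 : u = D.α v
        · rw [if_pos (Or.inr h2), if_neg h1, if_pos h2, zero_add, h2, hC.anti, neg_smul, C_mul']
        · rw [if_neg (by tauto), if_neg h1, if_neg h2, smul_zero, add_zero]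
    rw [Finset.sum_congr rfl (fun u _ => h1 u), Finset.sum_add_distrib, Finset.sum_ite_eq',
      Finset.sum_ite_eq', if_pos (Finset.mem_univ _), if_pos (Finset.mem_univ _)]
    ring
  · intro H hH f
    unfold Dat.ph
    rw [LinearMap.sum_apply, LinearMap.sum_apply]
    have h1 : ∀ T ∈ H.powerset, lcoeff R (ex (flip D.α H T)) (D.E v f) =
        (if v ∈ H then (1 : R) else 0) * lcoeff R (ex (flip D.α H T)) f := by
      intro T hT
      rw [lcoeff_apply, lcoeff_apply, IEv.coeff_E D v hα,
        IEv.ex_flip D hC.vp H T hH.1 (Finset.mem_powerset.1 hT) v hv]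
      split_ifs <;> simp
    rw [Finset.sum_congr rfl h1, ← Finset.mul_sum]
    split_ifs <;> simp
  · intro n f hf m hm
    apply hf
    intro h0
    apply hm
    rw [IEv.coeff_E D v hα, h0, mul_zero]
  · rw [IEv.xm_eq, IEv.E_monomial D v hα, IEv.ex_apply, IEv.ex_apply]
    by_cases h1 : v ∈ D.σ
    · have h2 : D.α v ∉ D.σ := hC.cs.no_pair _ hC.sg v h1
      rw [if_pos h1, if_neg h2, if_pos (Or.inl h1)]
      simp
    · by_cases h2 : D.α v ∈ D.σ
      · rw [if_neg h1, if_pos h2, if_pos (Or.inr h2)]
        simp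
      · rw [if_neg h1, if_neg h2, if_neg (by tauto)]
        simp

end CSLef.DG
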