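import Mathlib
import Pool.Agent.Work.MP_38c61c_al.DG.Stmts2

/-!
Block DG, item Fin: good coefficient functions vanish (generalization of D6 `I_Fin.lean` of
helper65; helper19).
-/

namespace CSLef.DG

open MvPolynomial Finset

namespace IFin

/-- a set of four elements is enumerated by an injective function on `Fin 4` -/
theorem enum4 {V : Type} [DecidableEq V] (Q : Finset V) (h : Q.card = 4) :
    ∃ q : Fin 4 → V, Function.Injective q ∧ (∀ i, q i ∈ Q) ∧ ∀ v ∈ Q, ∃ i, q i = v := by
  let e := Q.equivFinOfCardEq h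
  refine ⟨fun i => (e.symm i : V), ?_, ?_, ?_⟩
  · intro i j hij
    exact e.symm.injective (Subtype.ext hij)
  · intro i
    exact (e.symm i).2
  · intro v hv
    refine ⟨e ⟨v, hv⟩, ?_⟩
    simp

end IFin

theorem pr_Fin {ee : ℕ} {V : Type} [Fintype V] [DecidableEq V] {R : Type} [CommRing R]
    [IsDomain R] (D : Dat ee V R) (hC : Ctx D) (h1 : StInt D) (h2 : StClo D) (h3 : StL4 D)
    (h4 : StL5 D) (h5 : StVPn D) (h6 : D5.StCL) : StFin D := by
  classical
  have he := hC.he
  intro x hx G
  by_contra hG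
  have hF : ∀ G, x G ≠ 0 → G ⊆ D.VP ∧ G.card = ee + 2 := by
    intro G h
    have h' := (hx.supp G h).1
    simp only [Dat.FS, mem_filter, mem_powersetCard] at h'
    exact h'.1
  obtain ⟨U, hUG, hUc⟩ : ∃ U ⊆ G, U.card = ee - 1 :=
    exists_subset_card_eq (by rw [(hF G hG).2]; omega)
  have hUV : U ⊆ D.VP := hUG.trans (hF G hG).1
  let G0 : Finset (Finset V) := Finset.univ.filter (fun T => Disjoint U T ∧ x (U ∪ T) ≠ 0)
  have hm : ∀ T, T ∈ G0 ↔ Disjoint U T ∧ x (U ∪ T) ≠ 0 := by
    intro T
    simp only [G0, mem_filter, mem_univ, true_and]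
  have hm' : ∀ G, x G ≠ 0 → U ⊆ G → G \ U ∈ G0 := by
    intro G h h'
    rw [hm, union_sdiff_of_subset h']
    exact ⟨disjoint_sdiff, h⟩
  have hc3 : ∀ T ∈ G0, T.card = 3 := by
    intro T hT
    have h := (hF _ ((hm T).1 hT).2).2
    rw [card_union_of_disjoint ((hm T).1 hT).1] at h
    omega
  have hcl := h6 G0 ⟨G \ U, hm' G hG hUG⟩ hc3
    (fun T hT T' hT' => by
      have h := h1 _ (hx.supp _ ((hm T).1 hT).2).1 _ (hx.supp _ ((hm T').1 hT').2).1
      rw [← union_inter_distrib_left] at h
      have h7 := card_union_le U (T ∩ T')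
      rw [← card_pos]
      omega)
    (fun T hT H hH hc => by
      have huT := ((hm T).1 hT).1
      have huH : Disjoint U H := huT.mono_right hH
      obtain ⟨G', a, b, c⟩ := h2 x hx (U ∪ T) ((hm T).1 hT).2 (U ∪ H)
        (union_subset_union_right hH) (by rw [card_union_of_disjoint huH, hc]; omega)
      have huG' : U ⊆ G' := subset_union_left.trans c
      refine ⟨G' \ U, hm' G' a huG', ?_, ?_⟩
      · intro h
        exact b (by rw [← h, union_sdiff_of_subset huG'])
      · intro v hv
        rw [mem_sdiff]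
        exact ⟨c (mem_union_right _ hv), fun h => disjoint_left.1 huH h hv⟩)
  rcases hcl with ⟨s, ⟨T1, hT1, hs1⟩, Q, hQc, hsQ, hQ⟩ | ⟨s, c, hc, hcs, hlink⟩
  · have hT1' := (hm T1).1 hT1
    have hsV : s ∈ D.VP := (hF _ hT1'.2).1 (mem_union_right _ hs1)
    have hsU : s ∉ U := fun h => disjoint_left.1 hT1'.1 h hs1
    have hUs : insert s U ⊆ D.VP := insert_subset hsV hUV
    have hUsc : (insert s U).card = ee := by
      rw [card_insert_of_notMem hsU, hUc]; omega
    have hsub : (Q ∩ D.VP) \ insert s U ⊆ D.VP \ insert s U := by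
      intro v hv
      rw [mem_sdiff, mem_inter] at hv
      rw [mem_sdiff]
      exact ⟨hv.1.2, hv.2⟩
    have hle : ((Q ∩ D.VP) \ insert s U).card ≤ 4 :=
      ((card_le_card sdiff_subset).trans (card_le_card inter_subset_left)).trans hQc
    have hge : 4 ≤ (D.VP \ insert s U).card := by
      rw [card_sdiff_of_subset hUs, hUsc]
      have h5' : ee + 4 ≤ D.VP.card := h5
      omega
    obtain ⟨Q', hQ1, hQ2, hQ3⟩ := exists_subsuperset_card_eq hsub hle hge
    obtain ⟨q, hqi, hqm, hqs⟩ := IFin.enum4 Q' hQ3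
    have hHQ : HQ D x (insert s U) q := by
      refine ⟨hUs, hUsc, ?_, hqi, ?_, ?_⟩
      · intro i
        exact (mem_sdiff.1 (hQ2 (hqm i))).1
      · intro i
        exact (mem_sdiff.1 (hQ2 (hqm i))).2
      · intro G2 hG2 hUG2
        have hsG2 : s ∈ G2 := hUG2 (mem_insert_self _ _)
        have huG2 : U ⊆ G2 := (subset_insert _ _).trans hUG2
        have hsT : s ∈ G2 \ U := mem_sdiff.2 ⟨hsG2, hsU⟩
        have hT2 := hm' G2 hG2 huG2
        have hc2 : ((G2 \ U).erase s).card = 2 := by
          rw [card_erase_of_mem hsT, hc3 _ hT2]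
        obtain ⟨v, v', hvv, he2⟩ := card_eq_two.1 hc2
        have hv : v ∈ (G2 \ U).erase s := by rw [he2]; simp
        have hv' : v' ∈ (G2 \ U).erase s := by rw [he2]; simp
        have hin : ∀ t ∈ (G2 \ U).erase s, t ∈ Q' := by
          intro t ht
          apply hQ1
          have ht1 := mem_erase.1 ht
          have ht2 := mem_sdiff.1 ht1.2
          rw [mem_sdiff, mem_inter, mem_insert]
          exact ⟨⟨hQ _ hT2 hsT ht, (hF G2 hG2).1 ht2.1⟩, fun h => h.elim ht1.1 ht2.2⟩
        obtain ⟨i, hi⟩ := hqs v (hin v hv)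
        obtain ⟨j, hj⟩ := hqs v' (hin v' hv')
        refine ⟨i, j, ?_, ?_⟩
        · rintro rfl
          exact hvv (hi.symm.trans hj)
        · rw [hi, hj]
          ext t
          have ht : t ∈ (G2 \ U).erase s ↔ t = v ∨ t = v' := by
            rw [he2, mem_insert, mem_singleton]
          rw [mem_erase, mem_sdiff] at ht
          simp only [mem_insert]
          constructor
          · intro h
            by_cases h8 : t = s
            · exact Or.inr (Or.inr (Or.inl h8))
            · by_cases h9 : t ∈ U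
              · exact Or.inr (Or.inr (Or.inr h9))
              · rcases ht.1 ⟨h8, h, h9⟩ with h10 | h10
                · exact Or.inl h10
                · exact Or.inr (Or.inl h10)
          · rintro (h | h | h | h)
            · exact (ht.2 (Or.inl h)).2.1
            · exact (ht.2 (Or.inr h)).2.1
            · rw [h]; exact hsG2
            · exact huG2 h
    exact hT1'.2 (h3 x (insert s U) q hx hHQ _
      (insert_subset (mem_union_right _ hs1) subset_union_left))
  · have hT : ∀ i, ({s, c i, c (i + 1)} : Finset V) ∈ G0 := fun i => ((hlink _).2 ⟨i, rfl⟩).1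
    have hsU : s ∉ U := fun h => disjoint_left.1 ((hm _).1 (hT 0)).1 h (mem_insert_self _ _)
    have hcU : ∀ i, c i ∉ U := by
      intro i h
      exact disjoint_left.1 ((hm _).1 (hT i)).1 h (by simp)
    have hsV : s ∈ D.VP := (hF _ ((hm _).1 (hT 0)).2).1 (mem_union_right _ (mem_insert_self _ _))
    have hset : ∀ i, U ∪ {s, c i, c (i + 1)} = insert (c i) (insert (c (i + 1)) (insert s U)) := by
      intro i
      ext t
      simp only [mem_union, mem_insert, mem_singleton]
      tauto
    refine h4 x hx (insert s U) (insert_subset hsV hUV)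
      (by rw [card_insert_of_notMem hsU, hUc]; omega) c hc ?_ ?_
    · intro i h
      rcases mem_insert.1 h with h | h
      · exact hcs i h
      · exact hcU i h
    intro G2
    constructor
    · rintro ⟨hG2, hUG2⟩
      have hsG2 : s ∈ G2 := hUG2 (mem_insert_self _ _)
      have huG2 : U ⊆ G2 := (subset_insert _ _).trans hUG2
      have hsT : s ∈ G2 \ U := mem_sdiff.2 ⟨hsG2, hsU⟩
      obtain ⟨i, hi⟩ := (hlink _).1 ⟨hm' G2 hG2 huG2, hsT⟩
      exact ⟨i, by rw [← hset, ← hi, union_sdiff_of_subset huG2]⟩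
    · rintro ⟨i, rfl⟩
      rw [← hset]
      refine ⟨((hm _).1 (hT i)).2, ?_⟩
      exact insert_subset (mem_union_right _ (mem_insert_self _ _)) subset_union_left

end CSLef.DG
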