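import Mathlib
import Pool.Agent.Work.MP_38c61c_al.DG.Stmts

/-!
Block DG: item Four
-/

namespace CSLef.DG

open MvPolynomial Finset

namespace IFour

variable {ee : ℕ} {V : Type} [Fintype V] [DecidableEq V] {R : Type} [CommRing R]

theorem kk_hom [IsDomain R] (D : Dat ee V R) (hC : Ctx D) (x : Finset V → R) :
    (D.KK x).IsHomogeneous 2 := by
  unfold Dat.KK
  refine MvPolynomial.IsHomogeneous.sum _ _ _ fun G hG => ?_
  have hG' : (G ∈ D.VP.powersetCard (ee + 2)) ∧ D.Full G := Finset.mem_filter.1 hG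
  have hc : G.card = ee + 2 := (Finset.mem_powersetCard.1 hG'.1).2
  have h1 := hC.xh_hom G hG'.2
  have hd : ee + 4 - (ee + 2) = 2 := by omega
  rw [hc, hd] at h1
  have h2 := (isHomogeneous_C V (x G)).mul h1
  rwa [zero_add] at h2

theorem smul_hom (r : R) {u : MvPolynomial V R} {n : ℕ} (hu : u.IsHomogeneous n) :
    (r • u).IsHomogeneous n := by
  rw [MvPolynomial.smul_eq_C_mul]
  have h2 := (isHomogeneous_C V r).mul hu
  rwa [zero_add] at h2

theorem four_sq (p K u : MvPolynomial V R) :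
    p * K ^ 2 = p * (K + (2 : R) • u) ^ 2 - (4 : R) • (p * (u * K + u ^ 2)) := by
  have h2 : (2 : R) • u = 2 * u := by
    rw [MvPolynomial.smul_eq_C_mul, map_ofNat]
  have h4 : (4 : R) • (p * (u * K + u ^ 2)) = 4 * (p * (u * K + u ^ 2)) := by
    rw [MvPolynomial.smul_eq_C_mul, map_ofNat]
  rw [h2, h4]
  ring

end IFour

theorem pr_Four {ee : ℕ} {V : Type} [Fintype V] [DecidableEq V] {R : Type} [CommRing R]
    [IsDomain R] (D : Dat ee V R) (hC : Ctx D) (h1 : StExA D) : StFour D := by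
  intro ε x u hε hu hw hr
  have hy : (D.KK x + (2 : R) • u).IsHomogeneous 2 :=
    (IFour.kk_hom D hC x).add (IFour.smul_hom 2 hu)
  obtain ⟨hJ, hT⟩ := h1 ε _ hε hy hw hr
  constructor
  · intro M
    rw [IFour.four_sq M (D.KK x) u, map_sub, hC.dgJ _ (D.J.mul_mem_left M hJ), map_smul,
      zero_sub, smul_eq_mul]
    exact (dvd_mul_right _ _).neg_right
  · intro M m hm
    rw [IFour.four_sq (M * D.w) (D.KK x) u, map_sub, hT M m hm, map_smul, zero_sub, smul_eq_mul]
    exact (dvd_mul_right _ _).neg_right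

end CSLef.DG
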