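import Mathlib
import Pool.Agent.Work.MP_38c61c_al.DG.Stmts2

/-! Block DG, item Int: full sets with `ee + 2` elements have `ee` common elements (helper37). -/

set_option autoImplicit false

namespace CSLef.DG

open MvPolynomial Finset

namespace IInt

/-- the product of the two duals is in the ideal -/
theorem mem {ee : ℕ} {V : Type} [Fintype V] [DecidableEq V] {R : Type} [CommRing R] [IsDomain R]
    (D : Dat ee V R) (h1 : StP1 D) (h2 : StPhX D) {G G' H : Finset V} {h : V} (hGF : D.Full G)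
    (hGn : G.Nonempty) (hGF' : D.Full G') (hhG' : h ∈ G') (hhG : h ∉ G) (hHG' : H ⊆ G')
    (hhH : h ∉ H) : D.XH G * D.XH H ∈ D.J := by
  have hS : insert h H ⊆ G' := Finset.insert_subset hhG' hHG'
  have hF : D.Full (insert h H) := h2.2 G' hGF' _ hS
  have e1 := (h1 (insert h H) hF ⟨h, Finset.mem_insert_self _ _⟩).2.2.1 h
    (Finset.mem_insert_self _ _)
  rw [Finset.erase_insert hhH] at e1
  have e2 := ((h1 G hGF hGn).2.1 h (hGF'.1 hhG') hhG).1
  have e5 := Ideal.sub_mem D.J (Ideal.mul_mem_right (D.XH (insert h H)) D.J e2)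
    (Ideal.mul_mem_left D.J (D.XH G) e1)
  have e6 : X h * D.XH G * D.XH (insert h H) -
      D.XH G * (X h * D.XH (insert h H) - D.XH H) = D.XH G * D.XH H := by ring
  rwa [e6] at e5

end IInt

theorem pr_Int {ee : ℕ} {V : Type} [Fintype V] [DecidableEq V] {R : Type} [CommRing R]
    [IsDomain R] (D : Dat ee V R) (hC : Ctx D) (h1 : StP1 D) (h2 : StPhX D) (h3 : StTA1 D)
    (h4 : StLpl D) : StInt D := by
  intro G hG G' hG'
  by_contra hne
  obtain ⟨hG1, hGF⟩ := Finset.mem_filter.mp hG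
  obtain ⟨hG'1, hGF'⟩ := Finset.mem_filter.mp hG'
  obtain ⟨hGs, hGc⟩ := Finset.mem_powersetCard.mp hG1
  obtain ⟨hGs', hGc'⟩ := Finset.mem_powersetCard.mp hG'1
  have hGn : G.Nonempty := Finset.card_pos.mp (by omega)
  have hD : 3 ≤ (G' \ G).card := by
    have e1 := Finset.card_sdiff_add_card_inter G' G
    rw [Finset.inter_comm] at e1
    omega
  obtain ⟨H, hHs, hHc⟩ := Finset.exists_subset_card_eq (show 2 ≤ (G' \ G).card by omega)
  have hex : ((G' \ G) \ H).Nonempty := by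
    apply Finset.card_pos.mp
    have e1 := Finset.card_sdiff_add_card_eq_card hHs
    omega
  obtain ⟨h, hh⟩ := hex
  obtain ⟨hh1, hhH⟩ := Finset.mem_sdiff.mp hh
  obtain ⟨hhG', hhG⟩ := Finset.mem_sdiff.mp hh1
  have hHG' : H ⊆ G' := hHs.trans Finset.sdiff_subset
  have hHG : ∀ u ∈ H, u ∉ G := fun u hu => (Finset.mem_sdiff.mp (hHs hu)).2
  have hHF : D.Full H := h2.2 G' hGF' _ hHG'
  have hz : D.dg (D.XH G * D.XH H) = 0 :=
    hC.dgJ _ (IInt.mem D h1 h2 hGF hGn hGF' hhG' hhG hHG' hhH)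
  obtain ⟨q, r, hqr, hHe⟩ := Finset.card_eq_two.mp hHc
  have mq : q ∈ H := by rw [hHe]; simp
  have mr : r ∈ H := by rw [hHe]; simp
  have hHm : ({q, r} : Finset V) ∈ D.FS 2 := by
    rw [← hHe]
    exact Finset.mem_filter.mpr ⟨Finset.mem_powersetCard.mpr ⟨hHG'.trans hGs', hHc⟩, hHF⟩
  have hta := h3 G hG q r hqr hHm
  rw [← hHe, hz, mul_zero, zero_sub, dvd_neg] at hta
  have hqG := hHG q mq
  have hrG := hHG r mr
  have hqV : q ∈ D.VP := hGs' (hHG' mq)
  have hrV : r ∈ D.VP := hGs' (hHG' mr)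
  rw [(h4 G hGs hGc q hqV r hrV).1 hqr hqG hrG] at hta
  refine hC.indp (insert q (insert r G)) ?_ ?_ hta
  · exact Finset.insert_subset hqV (Finset.insert_subset hrV hGs)
  · rw [Finset.card_insert_of_notMem, Finset.card_insert_of_notMem hrG, hGc]
    rw [Finset.mem_insert, not_or]
    exact ⟨hqr, hqG⟩

end CSLef.DG
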