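import Mathlib
import Pool.Agent.Work.MP_38c61c_al.DG.Stmts2

/-!
Block DG, part 2, item Leq: the three values `lam` agree.

Author: helper57 (model: D6 `I_Leq.lean`).
-/

set_option autoImplicit false

namespace CSLef.DG

open MvPolynomial Finset

namespace ILeq

variable {ee : ℕ} {V : Type} [Fintype V] [DecidableEq V] {R : Type} [CommRing R] [IsDomain R]
  {D : Dat ee V R} {x : Finset V → R} {U : Finset V} {s : V} {q : Fin 4 → V}

omit [IsDomain R] in
theorem fs_iff {k : ℕ} {G : Finset V} : G ∈ D.FS k ↔ G.card = k ∧ D.Full G := by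
  unfold Dat.FS
  rw [mem_filter, mem_powersetCard]
  constructor
  · rintro ⟨⟨_, h2⟩, h3⟩; exact ⟨h2, h3⟩
  · rintro ⟨h2, h3⟩; exact ⟨⟨h3.1, h2⟩, h3⟩

omit [Fintype V] [IsDomain R] in
theorem xq_comm (i j : Fin 4) : xq x U q i j = xq x U q j i := by
  unfold xq; rw [insert_comm]

omit [IsDomain R] in
theorem lam_c12 (i j k l : Fin 4) : lam D U q i j k l = lam D U q j i k l := by
  unfold lam; rw [insert_comm (q i)]

omit [IsDomain R] in
theorem lam_cp (i j k l : Fin 4) : lam D U q i j k l = lam D U q k l i j := by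
  unfold lam; congr 1; ring

/-- the set without `s` omitting the index `m` -/
def T (U : Finset V) (s : V) (q : Fin 4 → V) (m : Fin 4) : Finset V :=
  (U.erase s) ∪ (Finset.univ.erase m).image q

omit [Fintype V] in
theorem T_eq {m j k l : Fin 4} (h : (Finset.univ.erase m : Finset (Fin 4)) = {j, k, l}) :
    T U s q m = insert (q j) (insert (q k) (insert (q l) (U.erase s))) := by
  unfold T
  rw [h, image_insert, image_insert, image_singleton]
  ext v
  simp only [mem_union, mem_insert, mem_singleton]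
  tauto

theorem er {m j k l : Fin 4} (h1 : m ≠ j) (h2 : m ≠ k) (h3 : m ≠ l) (h4 : j ≠ k) (h5 : j ≠ l)
    (h6 : k ≠ l) : (Finset.univ.erase m : Finset (Fin 4)) = {j, k, l} := by
  revert m j k l; decide

theorem cov {i j k l : Fin 4} (h1 : i ≠ j) (h2 : i ≠ k) (h3 : i ≠ l) (h4 : j ≠ k) (h5 : j ≠ l)
    (h6 : k ≠ l) (m : Fin 4) : m = i ∨ m = j ∨ m = k ∨ m = l := by
  revert m i j k l; decide

/-- the common value -/
noncomputable def LL (D : Dat ee V R) (U : Finset V) (s : V) (q : Fin 4 → V) (m : Fin 4) : R :=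
  D.dg (D.XH (T U s q m) * D.XH {s, q m})

theorem dg_sub (hC : Ctx D) {f g : MvPolynomial V R} (h : f - g ∈ D.J) : D.dg f = D.dg g := by
  have := hC.dgJ _ h
  rw [map_sub, sub_eq_zero] at this
  exact this

theorem rem (h1 : StP1 D) (h2 : StPhX D) {G : Finset V} (hG : D.Full G) (A : Finset V)
    (hA : A ⊆ G) : xm R A * D.XH G - D.XH (G \ A) ∈ D.J := by
  induction A using Finset.induction_on with
  | empty =>
    rw [sdiff_empty, xm, prod_empty, one_mul, sub_self]
    exact Ideal.zero_mem _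
  | insert v A hv ih =>
    have hv' : v ∈ G := hA (mem_insert_self _ _)
    have ihA := ih ((subset_insert _ _).trans hA)
    have hm : v ∈ G \ A := mem_sdiff.2 ⟨hv', hv⟩
    have h3 := (h1 (G \ A) (h2.2 G hG _ sdiff_subset) ⟨v, hm⟩).2.2.1 v hm
    rw [← sdiff_insert] at h3
    have e2 : xm R (insert v A) * D.XH G - D.XH (G \ insert v A) =
        X v * (xm R A * D.XH G - D.XH (G \ A)) +
          (X v * D.XH (G \ A) - D.XH (G \ insert v A)) := by
      unfold xm
      rw [prod_insert hv]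
      ring
    rw [e2]
    exact Ideal.add_mem _ (Ideal.mul_mem_left _ _ ihA) h3

theorem key (hC : Ctx D) (h1 : StP1 D) (h2 : StPhX D) (h7 : StEs D) (hx : Gd D x)
    (hq : HQ D x U q) (hs : s ∈ U)
    {m j k l : Fin 4} (a1 : m ≠ j) (a2 : m ≠ k) (a3 : m ≠ l) (a4 : j ≠ k) (a5 : j ≠ l)
    (a6 : k ≠ l) (hT : T U s q m ∈ D.FS (ee + 2)) (hmj : xq x U q m j ≠ 0)
    (hkl : xq x U q k l ≠ 0) :
    lam D U q m j k l = LL D U s q m := by
  have hG := (hx.supp _ hmj).1
  have hG' := (hx.supp _ hkl).1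
  have hne : ∀ a b : Fin 4, a ≠ b → q a ≠ q b := fun a b h h' => h (hq.q_inj h')
  have hqU : ∀ a, ∀ v ∈ U, v ≠ q a := fun a v hv h => hq.q_ne a (h ▸ hv)
  have hTe : T U s q m = insert (q j) (insert (q k) (insert (q l) (U.erase s))) :=
    T_eq (er a1 a2 a3 a4 a5 a6)
  have hsubU : ∀ a b : Fin 4, U ⊆ insert (q a) (insert (q b) U) := fun a b v hv =>
    mem_insert_of_mem (mem_insert_of_mem hv)
  have e1 : lam D U q m j k l =
      D.dg (D.XH (insert (q m) (insert (q j) U)) * D.XH {q k, q l}) := by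
    have h := ((h7 x (fun G hG => (hx.supp G hG).1) U hq.U_sub hq.U_card).1 _ hG _ hG'
      (hsubU _ _) (hsubU _ _)).1
    have h3 : (insert (q k) (insert (q l) U)) \ U = {q k, q l} := by
      ext v
      simp only [mem_sdiff, mem_insert, mem_singleton]
      constructor
      · rintro ⟨b | b | b, b'⟩
        · exact Or.inl b
        · exact Or.inr b
        · exact absurd b b'
      · rintro (b | b)
        · exact ⟨Or.inl b, fun h => hqU k v h b⟩
        · exact ⟨Or.inr (Or.inl b), fun h => hqU l v h b⟩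
    rw [h3] at h
    exact h
  -- the set which is removed
  obtain ⟨A, hA⟩ : ∃ A : Finset V, A = insert (q j) (U.erase s) := ⟨_, rfl⟩
  have hAT : A ⊆ T U s q m := by
    rw [hA, hTe]
    intro v hv
    simp only [mem_insert] at hv ⊢
    tauto
  have hAG : A ⊆ insert (q m) (insert (q j) U) := by
    rw [hA]
    intro v hv
    simp only [mem_insert, mem_erase] at hv ⊢
    tauto
  have e2 : T U s q m \ A = {q k, q l} := by
    rw [hA, hTe]
    ext v
    simp only [mem_sdiff, mem_insert, mem_singleton, mem_erase, not_or]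
    constructor
    · rintro ⟨b1, b2, b3⟩
      rcases b1 with b | b | b | b
      · exact absurd b b2
      · exact Or.inl b
      · exact Or.inr b
      · exact absurd b b3
    · rintro (b | b)
      · refine ⟨Or.inr (Or.inl b), ?_, fun h => hqU k v h.2 b⟩
        rw [b]
        exact hne _ _ a4.symm
      · refine ⟨Or.inr (Or.inr (Or.inl b)), ?_, fun h => hqU l v h.2 b⟩
        rw [b]
        exact hne _ _ a5.symm
  have e3 : insert (q m) (insert (q j) U) \ A = {s, q m} := by
    rw [hA]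
    ext v
    simp only [mem_sdiff, mem_insert, mem_singleton, mem_erase, not_or, not_and]
    constructor
    · rintro ⟨b1, b2, b3⟩
      rcases b1 with b | b | b
      · exact Or.inr b
      · exact absurd b b2
      · left
        by_contra h
        exact b3 h b
    · rintro (b | b)
      · subst b
        exact ⟨Or.inr (Or.inr hs), hqU j v hs, fun h => absurd rfl h⟩
      · subst b
        exact ⟨Or.inl rfl, hne _ _ a1, fun _ => hq.q_ne m⟩
  have r1 := rem h1 h2 (fs_iff.mp hT).2 A hAT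
  have r2 := rem h1 h2 (fs_iff.mp hG).2 A hAG
  rw [e2] at r1
  rw [e3] at r2
  rw [e1, LL]
  have e4 : D.dg (D.XH (insert (q m) (insert (q j) U)) * (xm R A * D.XH (T U s q m))) =
      D.dg (D.XH (insert (q m) (insert (q j) U)) * D.XH {q k, q l}) := by
    apply dg_sub hC
    rw [← mul_sub]
    exact Ideal.mul_mem_left _ _ r1
  have e5 : D.dg (D.XH (T U s q m) * (xm R A * D.XH (insert (q m) (insert (q j) U)))) =
      D.dg (D.XH (T U s q m) * D.XH {s, q m}) := by
    apply dg_sub hC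
    rw [← mul_sub]
    exact Ideal.mul_mem_left _ _ r2
  rw [← e4, ← e5]
  congr 1
  ring

theorem lam_all (hC : Ctx D) (h1 : StP1 D) (h2 : StPhX D) (h7 : StEs D) (hx : Gd D x)
    (hq : HQ D x U q) (hs : s ∈ U)
    {m i j k l : Fin 4} (a1 : i ≠ j) (a2 : i ≠ k) (a3 : i ≠ l) (a4 : j ≠ k) (a5 : j ≠ l)
    (a6 : k ≠ l) (hT : T U s q m ∈ D.FS (ee + 2)) (hij : xq x U q i j ≠ 0)
    (hkl : xq x U q k l ≠ 0) :
    lam D U q i j k l = LL D U s q m := by
  rcases cov a1 a2 a3 a4 a5 a6 m with h | h | h | h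
  · subst h
    exact key hC h1 h2 h7 hx hq hs a1 a2 a3 a4 a5 a6 hT hij hkl
  · subst h
    rw [lam_c12]
    rw [xq_comm] at hij
    exact key hC h1 h2 h7 hx hq hs a1.symm a4 a5 a2 a3 a6 hT hij hkl
  · subst h
    rw [lam_cp]
    exact key hC h1 h2 h7 hx hq hs a6 a2.symm a4.symm a3.symm a5.symm a1 hT hkl hij
  · subst h
    rw [lam_cp, lam_c12]
    rw [xq_comm] at hkl
    exact key hC h1 h2 h7 hx hq hs a6.symm a3.symm a5.symm a2.symm a4.symm a1 hT hkl hij

theorem term (hC : Ctx D) (h1 : StP1 D) (h2 : StPhX D) (h7 : StEs D) (hx : Gd D x)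
    (hq : HQ D x U q) (hs : s ∈ U)
    {m i j k l : Fin 4} (a1 : i ≠ j) (a2 : i ≠ k) (a3 : i ≠ l) (a4 : j ≠ k) (a5 : j ≠ l)
    (a6 : k ≠ l) (hT : T U s q m ∈ D.FS (ee + 2)) :
    xq x U q i j * xq x U q k l * lam D U q i j k l =
      xq x U q i j * xq x U q k l * LL D U s q m := by
  by_cases hij : xq x U q i j = 0
  · rw [hij]; ring
  by_cases hkl : xq x U q k l = 0
  · rw [hkl]; ring
  rw [lam_all hC h1 h2 h7 hx hq hs a1 a2 a3 a4 a5 a6 hT hij hkl]

theorem E4_eq (hC : Ctx D) (h1 : StP1 D) (h2 : StPhX D) (h7 : StEs D) (hx : Gd D x)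
    (hq : HQ D x U q) (hs : s ∈ U)
    {m : Fin 4} (hT : T U s q m ∈ D.FS (ee + 2)) : E4 D x U q = P4 x U q * LL D U s q m := by
  unfold E4 P4
  rw [term hC h1 h2 h7 hx hq hs (i := 0) (j := 1) (k := 2) (l := 3) (by decide) (by decide)
      (by decide) (by decide) (by decide) (by decide) hT,
    term hC h1 h2 h7 hx hq hs (i := 0) (j := 2) (k := 1) (l := 3) (by decide) (by decide)
      (by decide) (by decide) (by decide) (by decide) hT,
    term hC h1 h2 h7 hx hq hs (i := 0) (j := 3) (k := 1) (l := 2) (by decide) (by decide)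
      (by decide) (by decide) (by decide) (by decide) hT]
  ring

/-- existence of a full set without `s` -/
theorem exT (h4 : StInt D) (h5 : StClo D) (hx : Gd D x) (hq : HQ D x U q) (hs : s ∈ U)
    {i j k l : Fin 4} (a1 : i ≠ j) (a2 : i ≠ k) (a3 : i ≠ l) (a4 : j ≠ k) (a5 : j ≠ l)
    (a6 : k ≠ l) (hij : xq x U q i j ≠ 0) (hkl : xq x U q k l ≠ 0) :
    ∃ m, T U s q m ∈ D.FS (ee + 2) := by
  have hne : ∀ a b : Fin 4, a ≠ b → q a ≠ q b := fun a b h h' => h (hq.q_inj h')
  have hqU : ∀ a, ∀ v ∈ U, v ≠ q a := fun a v hv h => hq.q_ne a (h ▸ hv)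
  have hUc : (U.erase s).card + 1 = ee := by
    rw [card_erase_add_one hs, hq.U_card]
  obtain ⟨H, hH⟩ : ∃ H : Finset V, H = insert (q i) (insert (q j) (U.erase s)) := ⟨_, rfl⟩
  have hsub : H ⊆ insert (q i) (insert (q j) U) := by
    rw [hH]
    intro v hv
    simp only [mem_insert, mem_erase] at hv ⊢
    tauto
  have hHc : H.card = ee + 1 := by
    rw [hH, card_insert_of_notMem, card_insert_of_notMem]
    · omega
    · rw [mem_erase]
      exact fun h => hq.q_ne j h.2
    · rw [mem_insert, mem_erase, not_or]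
      exact ⟨hne _ _ a1, fun h => hq.q_ne i h.2⟩
  obtain ⟨G', hG'0, hG'ne, hG'sub⟩ := h5 x hx (insert (q i) (insert (q j) U)) hij H hsub hHc
  have hG'3 := (hx.supp _ hG'0).1
  have hcard := (fs_iff.mp hG'3).1
  have hG2 := (hx.supp _ hkl).1
  -- the last element
  have hd : (G' \ H).card = 1 := by
    rw [card_sdiff_of_subset hG'sub, hcard, hHc]
    omega
  obtain ⟨t, ht⟩ := card_eq_one.mp hd
  have htn : t ∈ G' \ H := by rw [ht]; exact mem_singleton_self t
  have htH : t ∉ H := (mem_sdiff.mp htn).2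
  have hG'eq : G' = insert t H := by
    rw [← sdiff_union_of_subset hG'sub, ht]
    ext v; simp only [mem_union, mem_singleton, mem_insert]
  have hts : t ≠ s := by
    rintro rfl
    apply hG'ne
    rw [hG'eq, hH]
    ext v
    simp only [mem_insert, mem_erase]
    constructor
    · rintro (h | h | h | h)
      · rw [h]; exact Or.inr (Or.inr hs)
      · exact Or.inl h
      · exact Or.inr (Or.inl h)
      · exact Or.inr (Or.inr h.2)
    · rintro (h | h | h)
      · exact Or.inr (Or.inl h)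
      · exact Or.inr (Or.inr (Or.inl h))
      · by_cases h' : v = t
        · exact Or.inl h'
        · exact Or.inr (Or.inr (Or.inr ⟨h', h⟩))
  have htU : t ∉ U := by
    intro h
    apply htH
    rw [hH]
    simp only [mem_insert, mem_erase]
    exact Or.inr (Or.inr ⟨hts, h⟩)
  have hint := h4 _ hG'3 _ hG2
  have htkl : t = q k ∨ t = q l := by
    by_contra hcon
    rw [not_or] at hcon
    have hsb : G' ∩ insert (q k) (insert (q l) U) ⊆ U.erase s := by
      intro v hv
      rw [mem_inter, hG'eq, hH] at hv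
      simp only [mem_insert, mem_erase] at hv ⊢
      obtain ⟨hv1, hv2⟩ := hv
      rcases hv1 with h | h | h | h
      · rcases hv2 with h' | h' | h'
        · exact absurd (h.symm.trans h') hcon.1
        · exact absurd (h.symm.trans h') hcon.2
        · exact absurd (h ▸ h') htU
      · rcases hv2 with h' | h' | h'
        · exact absurd (h.symm.trans h') (hne _ _ a2)
        · exact absurd (h.symm.trans h') (hne _ _ a3)
        · exact absurd (h ▸ h') (hq.q_ne i)
      · rcases hv2 with h' | h' | h'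
        · exact absurd (h.symm.trans h') (hne _ _ a4)
        · exact absurd (h.symm.trans h') (hne _ _ a5)
        · exact absurd (h ▸ h') (hq.q_ne j)
      · exact h
    have := card_le_card hsb
    omega
  rcases htkl with h | h
  · refine ⟨l, ?_⟩
    rw [T_eq (er a6.symm a3.symm a5.symm a2.symm a4.symm a1), ← h, ← hH, ← hG'eq]
    exact hG'3
  · refine ⟨k, ?_⟩
    rw [T_eq (er a6 a2.symm a4.symm a3.symm a5.symm a1), ← h, ← hH, ← hG'eq]
    exact hG'3

omit [IsDomain R] in
theorem full_pair (h2 : StPhX D) (hx : Gd D x) (hq : HQ D x U q) (hs : s ∈ U)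
    {i j k l : Fin 4} (a1 : i ≠ j) (a2 : i ≠ k) (a3 : i ≠ l) (a4 : j ≠ k) (a5 : j ≠ l)
    (a6 : k ≠ l) (hij : xq x U q i j ≠ 0) (hkl : xq x U q k l ≠ 0) (m : Fin 4) :
    ({s, q m} : Finset V) ∈ D.FS 2 := by
  have key : ∀ a b : Fin 4, xq x U q a b ≠ 0 → D.Full {s, q a} := by
    intro a b hab
    refine h2.2 (insert (q a) (insert (q b) U)) (fs_iff.mp (hx.supp _ hab).1).2 _ ?_
    intro v hv
    simp only [mem_insert, mem_singleton] at hv ⊢
    rcases hv with h | h
    · rw [h]; exact Or.inr (Or.inr hs)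
    · exact Or.inl h
  rw [fs_iff]
  refine ⟨card_pair (fun h => hq.q_ne m (h ▸ hs)), ?_⟩
  rcases cov a1 a2 a3 a4 a5 a6 m with h | h | h | h
  · subst h; exact key _ _ hij
  · subst h; rw [xq_comm] at hij; exact key _ _ hij
  · subst h; exact key _ _ hkl
  · subst h; rw [xq_comm] at hkl; exact key _ _ hkl

theorem cong (h3 : StTA1 D) (h6 : StLpl D) (hq : HQ D x U q) (hs : s ∈ U) (m : Fin 4)
    (hT : T U s q m ∈ D.FS (ee + 2)) (hm : ({s, q m} : Finset V) ∈ D.FS 2) :
    (2 : R) ∣ D.om * LL D U s q m - D.pm (U ∪ Finset.univ.image q) := by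
  have hsm : s ≠ q m := fun h => hq.q_ne m (h ▸ hs)
  have h7 := h3 _ hT s (q m) hsm hm
  have hsT : s ∉ T U s q m := by
    unfold T
    rw [mem_union, mem_erase, mem_image, not_or]
    refine ⟨fun h => h.1 rfl, ?_⟩
    rintro ⟨a, _, h⟩
    exact hq.q_ne a (h ▸ hs)
  have hmT : q m ∉ T U s q m := by
    unfold T
    rw [mem_union, mem_erase, mem_image, not_or]
    refine ⟨fun h => hq.q_ne m h.2, ?_⟩
    rintro ⟨a, ha, h⟩
    rw [mem_erase] at ha
    exact ha.1 (hq.q_inj h)
  have h8 := (h6 _ (fs_iff.mp hT).2.1 (fs_iff.mp hT).1 s (hq.U_sub hs) (q m) (hq.q_mem m)).1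
    hsm hsT hmT
  have h9 : insert s (insert (q m) (T U s q m)) = U ∪ Finset.univ.image q := by
    unfold T
    ext v
    simp only [mem_insert, mem_union, mem_erase, mem_image, mem_univ, true_and, and_true, ne_eq]
    constructor
    · rintro (h | h | h | ⟨a, _, h⟩)
      · rw [h]; exact Or.inl hs
      · exact Or.inr ⟨m, h.symm⟩
      · exact Or.inl h.2
      · exact Or.inr ⟨a, h⟩
    · rintro (h | ⟨a, h⟩)
      · by_cases h' : v = s
        · exact Or.inl h'
        · exact Or.inr (Or.inr (Or.inl ⟨h', h⟩))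
      · by_cases h' : a = m
        · rw [h'] at h
          exact Or.inr (Or.inl h.symm)
        · exact Or.inr (Or.inr (Or.inr ⟨a, h', h⟩))
  rw [h8, h9] at h7
  exact h7

/-- the case of a nonzero product -/
theorem main (hC : Ctx D) (h1 : StP1 D) (h2 : StPhX D) (h3 : StTA1 D) (h4 : StInt D)
    (h5 : StClo D) (h6 : StLpl D) (h7 : StEs D) (hx : Gd D x) (hq : HQ D x U q)
    {i j k l : Fin 4} (a1 : i ≠ j) (a2 : i ≠ k) (a3 : i ≠ l) (a4 : j ≠ k) (a5 : j ≠ l)
    (a6 : k ≠ l) (h : xq x U q i j * xq x U q k l ≠ 0) :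
    ∃ L : R, E4 D x U q = P4 x U q * L ∧
      (P4 x U q = 0 ∨ (2 : R) ∣ D.om * L - D.pm (U ∪ Finset.univ.image q)) := by
  have hij := left_ne_zero_of_mul h
  have hkl := right_ne_zero_of_mul h
  have hne : U.Nonempty := by
    rw [← card_pos, hq.U_card]
    exact hC.he
  obtain ⟨s, hs⟩ := hne
  obtain ⟨m, hT⟩ := exT h4 h5 hx hq hs a1 a2 a3 a4 a5 a6 hij hkl
  exact ⟨LL D U s q m, E4_eq hC h1 h2 h7 hx hq hs hT,
    Or.inr (cong h3 h6 hq hs m hT (full_pair h2 hx hq hs a1 a2 a3 a4 a5 a6 hij hkl m))⟩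

end ILeq

theorem pr_Leq {ee : ℕ} {V : Type} [Fintype V] [DecidableEq V] {R : Type} [CommRing R]
    [IsDomain R] (D : Dat ee V R) (hC : Ctx D) (h1 : StP1 D) (h2 : StPhX D) (h3 : StTA1 D)
    (h4 : StInt D) (h5 : StClo D) (h6 : StLpl D) (h7 : StEs D) : StLeq D := by
  intro x U q hx hq
  by_cases c1 : xq x U q 0 1 * xq x U q 2 3 = 0
  · by_cases c2 : xq x U q 0 2 * xq x U q 1 3 = 0
    · by_cases c3 : xq x U q 0 3 * xq x U q 1 2 = 0
      · refine ⟨0, ?_, Or.inl ?_⟩
        · unfold E4 P4; rw [c1, c2, c3]; ring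
        · unfold P4; rw [c1, c2, c3]; ring
      · exact ILeq.main hC h1 h2 h3 h4 h5 h6 h7 hx hq (by decide) (by decide) (by decide)
          (by decide) (by decide) (by decide) c3
    · exact ILeq.main hC h1 h2 h3 h4 h5 h6 h7 hx hq (by decide) (by decide) (by decide)
        (by decide) (by decide) (by decide) c2
  · exact ILeq.main hC h1 h2 h3 h4 h5 h6 h7 hx hq (by decide) (by decide) (by decide)
      (by decide) (by decide) (by decide) c1

end CSLef.DG
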