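import Mathlib
import Pool.Agent.Work.MP_38c61c_al.DG.Stmts2

/-!
Block DG, item Lpl: Laplace expansion for permanents of finite sets of rows and columns.
-/

namespace CSLef.DG

open MvPolynomial Finset

namespace ILpl

/-- a sum over the ordered pairs of the two element subsets is a sum over all ordered pairs -/
lemma sum_pairs {R : Type} [CommRing R] (L : Finset ℕ) (F : Finset ℕ → R) (g : ℕ → ℕ → R) :
    ∑ I ∈ L.powersetCard 2, F I * ∑ l ∈ I, ∑ i ∈ I.erase l, g l i =
      ∑ l ∈ L, ∑ i ∈ L.erase l, F {l, i} * g l i := by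
  have h1 : ∀ I ∈ L.powersetCard 2, F I * ∑ l ∈ I, ∑ i ∈ I.erase l, g l i =
      ∑ x ∈ I.sigma (fun l => I.erase l), F I * g x.1 x.2 := by
    intro I _
    rw [Finset.sum_sigma, Finset.mul_sum]
    exact Finset.sum_congr rfl fun l _ => by rw [Finset.mul_sum]
  rw [Finset.sum_congr rfl h1, Finset.sum_comm' (t' := L.sigma (fun l => L.erase l))
    (s' := fun x => {{x.1, x.2}})]
  · rw [Finset.sum_sigma]
    exact Finset.sum_congr rfl fun l _ => Finset.sum_congr rfl fun i _ => by
      rw [Finset.sum_singleton]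
  · rintro I ⟨l, i⟩
    simp only [Finset.mem_powersetCard, Finset.mem_sigma, Finset.mem_erase, Finset.mem_singleton]
    constructor
    · rintro ⟨⟨h2, h3⟩, h4, h5, h6⟩
      refine ⟨?_, h2 h4, h5, h2 h6⟩
      symm
      apply Finset.eq_of_subset_of_card_le
      · intro x hx
        rw [Finset.mem_insert, Finset.mem_singleton] at hx
        rcases hx with rfl | rfl
        · exact h4
        · exact h6
      · rw [h3, Finset.card_pair (Ne.symm h5)]
    · rintro ⟨rfl, h2, h3, h4⟩
      refine ⟨⟨?_, Finset.card_pair (Ne.symm h3)⟩, by simp, h3, by simp⟩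
      intro x hx
      rw [Finset.mem_insert, Finset.mem_singleton] at hx
      rcases hx with rfl | rfl
      · exact h2
      · exact h4

lemma pair_sum {R : Type} [CommRing R] {x y : ℕ} (hxy : x ≠ y) (g : ℕ → ℕ → R) :
    ∑ l ∈ ({x, y} : Finset ℕ), ∑ i ∈ ({x, y} : Finset ℕ).erase l, g l i = g x y + g y x := by
  have e1 : ({x, y} : Finset ℕ).erase x = {y} := by
    rw [Finset.erase_insert]
    simpa using hxy
  have e2 : ({x, y} : Finset ℕ).erase y = {x} := by
    rw [Finset.pair_comm, Finset.erase_insert]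
    simpa using hxy.symm
  rw [Finset.sum_pair hxy, e1, e2, Finset.sum_singleton, Finset.sum_singleton]

/-- a sum of a symmetric function over the ordered pairs is even -/
lemma even_sum {R : Type} [CommRing R] (L : Finset ℕ) (g : ℕ → ℕ → R)
    (hg : ∀ l ∈ L, ∀ i ∈ L, g l i = g i l) : (2 : R) ∣ ∑ l ∈ L, ∑ i ∈ L.erase l, g l i := by
  have h := sum_pairs L (fun _ => 1) g
  simp only [one_mul] at h
  rw [← h]
  refine Finset.dvd_sum fun I hI => ?_
  rw [Finset.mem_powersetCard] at hI
  obtain ⟨x, y, hxy, rfl⟩ := Finset.card_eq_two.1 hI.2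
  have hx : x ∈ L := hI.1 (by simp)
  have hy : y ∈ L := hI.1 (by simp)
  rw [pair_sum hxy, hg y hy x hx, ← two_mul]
  exact Dvd.intro _ rfl

lemma sdiff_pair (L : Finset ℕ) (l i : ℕ) : L \ {l, i} = (L.erase l).erase i := by
  ext x
  simp only [Finset.mem_sdiff, Finset.mem_insert, Finset.mem_singleton, Finset.mem_erase]
  tauto

variable {ee : ℕ} {V : Type} [Fintype V] [DecidableEq V] {R : Type} [CommRing R]

/-- the Laplace sum as a sum over ordered pairs -/
lemma PM_eq [IsDomain R] (D : Dat ee V R) (G : Finset V) (q r : V) :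
    PM D G q r = ∑ l ∈ range (ee + 4), ∑ i ∈ (range (ee + 4)).erase l,
      D.a l r * (D.a i q * pmA D.VP D.a (((range (ee + 4)).erase l).erase i) G) := by
  unfold PM p2
  rw [sum_pairs (range (ee + 4)) (fun I => pmA D.VP D.a (range (ee + 4) \ I) G)
    (fun l i => D.a l r * D.a i q)]
  exact Finset.sum_congr rfl fun l _ => Finset.sum_congr rfl fun i _ => by
    rw [sdiff_pair]
    ring

lemma PM_symm [IsDomain R] (D : Dat ee V R) (G : Finset V) (q r : V) : PM D G q r = PM D G r q := by
  unfold PM p2
  refine Finset.sum_congr rfl fun I hI => ?_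
  rw [Finset.mem_powersetCard] at hI
  obtain ⟨x, y, hxy, rfl⟩ := Finset.card_eq_two.1 hI.2
  rw [pair_sum hxy, pair_sum hxy]
  ring

/-- one of the two columns is in the set -/
lemma even_mem [IsDomain R] (D : Dat ee V R) (h1 : StPmR) (G : Finset V) (hG : G ⊆ D.VP) (q r : V)
    (hq : q ∈ G) : (2 : R) ∣ PM D G q r := by
  rw [PM_eq]
  refine Finset.dvd_sum fun l _ => ?_
  rw [← Finset.mul_sum]
  refine Dvd.dvd.mul_left ?_ _
  have h2 : ∀ i ∈ (range (ee + 4)).erase l,
      D.a i q * pmA D.VP D.a (((range (ee + 4)).erase l).erase i) G =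
      ∑ j ∈ ((range (ee + 4)).erase l).erase i, D.a i q * (D.a j q *
        pmA D.VP D.a ((((range (ee + 4)).erase l).erase i).erase j) (G.erase q)) := by
    intro i _
    rw [(h1 D.VP D.a (((range (ee + 4)).erase l).erase i) G hG).2 q hq, Finset.mul_sum]
  rw [Finset.sum_congr rfl h2]
  refine even_sum ((range (ee + 4)).erase l) (fun i j => D.a i q * (D.a j q *
        pmA D.VP D.a ((((range (ee + 4)).erase l).erase i).erase j) (G.erase q))) ?_
  intro i _ j _
  rw [Finset.erase_right_comm (a := i) (b := j)]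
  ring

end ILpl

open ILpl in
/-- item Lpl -/
theorem pr_Lpl {ee : ℕ} {V : Type} [Fintype V] [DecidableEq V] {R : Type} [CommRing R] [IsDomain R]
    (D : Dat ee V R) (h1 : StPmR) : StLpl D := by
  intro G hG _ q hq r hr
  constructor
  · intro hqr hqG hrG
    rw [PM_eq]
    have hS : insert q (insert r G) ⊆ D.VP :=
      Finset.insert_subset hq (Finset.insert_subset hr hG)
    have hS' : insert q G ⊆ D.VP := Finset.insert_subset hq hG
    unfold Dat.pm
    rw [(h1 D.VP D.a (range (ee + 4)) (insert q (insert r G)) hS).2 r (by simp)]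
    refine Finset.sum_congr rfl fun l _ => ?_
    have e1 : (insert q (insert r G)).erase r = insert q G := by
      rw [Finset.erase_insert_of_ne hqr, Finset.erase_insert hrG]
    rw [e1, (h1 D.VP D.a ((range (ee + 4)).erase l) (insert q G) hS').2 q (by simp),
      Finset.erase_insert hqG, Finset.mul_sum]
  · rintro (hqr | hqG | hrG)
    · subst hqr
      rw [PM_eq]
      refine even_sum _ (fun l i => D.a l q * (D.a i q *
        pmA D.VP D.a (((range (ee + 4)).erase l).erase i) G)) ?_
      intro i _ j _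
      rw [Finset.erase_right_comm (a := i) (b := j)]
      ring
    · exact even_mem D h1 G hG q r hqG
    · rw [PM_symm]
      exact even_mem D h1 G hG r q hrG

end CSLef.DG
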