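import Mathlib
import Pool.Agent.Work.MP_38c61c_al.DG.Stmts

/-!
Block D6, item MI0 (helper82).
-/

set_option autoImplicit false

namespace CSLef.DG

open MvPolynomial Finset

namespace IMI0

variable {ee : ℕ} {V : Type} [Fintype V] [DecidableEq V] {R : Type} [CommRing R]

theorem mem_FS (D : Dat ee V R) {k : ℕ} {G : Finset V} (h : G ∈ D.FS k) : D.Full G ∧ G.card = k := by
  unfold Dat.FS at h
  rw [Finset.mem_filter, Finset.mem_powersetCard] at h
  exact ⟨h.2, h.1.2⟩

theorem KK_split (D : Dat ee V R) (x : Finset V → R) (s : V) :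
    D.KK x = D.KK (xs s x) + D.KK (xr s x) := by
  unfold Dat.KK
  rw [← Finset.sum_add_distrib]
  refine Finset.sum_congr rfl fun G _ => ?_
  unfold xs xr
  by_cases h : s ∈ G
  · rw [if_pos h, if_pos h, C_0, zero_mul, add_zero]
  · rw [if_neg h, if_neg h, C_0, zero_mul, zero_add]

theorem NN_split (D : Dat ee V R) (ν : Finset V → R) (s : V) :
    D.NN ν = D.NN (xs s ν) + D.NN (xr s ν) := by
  unfold Dat.NN
  rw [← Finset.sum_add_distrib]
  refine Finset.sum_congr rfl fun G _ => ?_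
  unfold xs xr
  by_cases h : s ∈ G
  · rw [if_pos h, if_pos h, C_0, zero_mul, add_zero]
  · rw [if_neg h, if_neg h, C_0, zero_mul, zero_add]

/-- the coefficient sum, when it is `-2 ν` -/
theorem coef_eq (D : Dat ee V R) (x ν : Finset V → R)
    (hν : ∀ H ∈ D.FS (ee + 1), 2 * ν H = - ∑ r ∈ D.VP \ H, D.wt r * x (insert r H)) :
    ∑ H ∈ D.FS (ee + 1), C (∑ r ∈ D.VP \ H, D.wt r * x (insert r H)) * D.XH H = - ((2 : R) • D.NN ν) := by
  unfold Dat.NN
  rw [Finset.smul_sum, ← Finset.sum_neg_distrib]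
  refine Finset.sum_congr rfl fun H hH => ?_
  have h : (∑ r ∈ D.VP \ H, D.wt r * x (insert r H)) = -(2 * ν H) := by
    rw [hν H hH, neg_neg]
  rw [h, MvPolynomial.smul_eq_C_mul, C_neg, C_mul]
  ring

/-- the coefficient sum for `xs s x` -/
theorem coef_xs (D : Dat ee V R) (x ν : Finset V → R) (s : V) (hs : s ∈ D.VP)
    (hν : ∀ H ∈ D.FS (ee + 1), 2 * ν H = - ∑ r ∈ D.VP \ H, D.wt r * x (insert r H)) :
    ∑ H ∈ D.FS (ee + 1), C (∑ r ∈ D.VP \ H, D.wt r * xs s x (insert r H)) * D.XH H =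
      - ((2 : R) • D.NN (xs s ν)) + C (D.wt s) *
        ∑ H ∈ (D.FS (ee + 1)).filter (fun H => s ∉ H), C (xs s x (insert s H)) * D.XH H := by
  unfold Dat.NN
  rw [Finset.smul_sum, ← Finset.sum_neg_distrib, Finset.mul_sum, Finset.sum_filter,
    ← Finset.sum_add_distrib]
  refine Finset.sum_congr rfl fun H hH => ?_
  by_cases h : s ∈ H
  · rw [if_neg (not_not.2 h), add_zero]
    have h1 : (∑ r ∈ D.VP \ H, D.wt r * xs s x (insert r H)) = -(2 * ν H) := by
      rw [hν H hH, neg_neg]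
      refine Finset.sum_congr rfl fun r _ => ?_
      unfold xs
      rw [if_pos (Finset.mem_insert_of_mem h)]
    have h2 : xs s ν H = ν H := if_pos h
    rw [h1, h2, MvPolynomial.smul_eq_C_mul, C_neg, C_mul]
    ring
  · rw [if_pos h]
    have h1 : (∑ r ∈ D.VP \ H, D.wt r * xs s x (insert r H)) = D.wt s * xs s x (insert s H) := by
      refine Finset.sum_eq_single_of_mem s (Finset.mem_sdiff.2 ⟨hs, h⟩) fun r _ hr => ?_
      unfold xs
      rw [if_neg, mul_zero]
      intro h'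
      rcases Finset.mem_insert.1 h' with h' | h'
      · exact hr h'.symm
      · exact h h'
    have h2 : xs s ν H = 0 := if_neg h
    rw [h1, h2, C_0, zero_mul, smul_zero, neg_zero, zero_add, C_mul, mul_assoc]

theorem z_KK (D : Dat ee V R) [IsDomain R] (h1 : StP1 D) (v : V) (x : Finset V → R) :
    D.z v * D.KK x ∈ D.J := by
  unfold Dat.KK
  rw [Finset.mul_sum]
  refine D.J.sum_mem fun G hG => ?_
  obtain ⟨hF, hc⟩ := mem_FS D hG
  have hN : G.Nonempty := Finset.card_pos.1 (by rw [hc]; norm_num)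
  have e : D.z v * (C (x G) * D.XH G) = C (x G) * (D.z v * D.XH G) := by ring
  rw [e]
  exact D.J.mul_mem_left _ ((h1 G hF hN).1 v)

theorem z_NN (D : Dat ee V R) [IsDomain R] (h1 : StP1 D) (v : V) (x : Finset V → R) :
    D.z v * D.NN x ∈ D.J := by
  unfold Dat.NN
  rw [Finset.mul_sum]
  refine D.J.sum_mem fun G hG => ?_
  obtain ⟨hF, hc⟩ := mem_FS D hG
  have hN : G.Nonempty := Finset.card_pos.1 (by rw [hc]; norm_num)
  have e : D.z v * (C (x G) * D.XH G) = C (x G) * (D.z v * D.XH G) := by ring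
  rw [e]
  exact D.J.mul_mem_left _ ((h1 G hF hN).1 v)

end IMI0

open IMI0

/-- item MI0 -/
theorem pr_MI0 {ee : ℕ} {V : Type} [Fintype V] [DecidableEq V] {R : Type} [CommRing R] [IsDomain R]
    (D : Dat ee V R) (_hC : Ctx D) (h1 : StP1 D) (h2 : StXK D) (h3 : StWK D) : StMI0 D := by
  intro x ν hx hν
  have hxs : ∀ s : V, ∀ G, xs s x G ≠ 0 → G ∈ D.FS (ee + 2) := by
    intro s G h
    refine hx G fun h' => h ?_
    unfold xs
    rw [h', ite_self]
  have hxr : ∀ s : V, ∀ G, xr s x G ≠ 0 → G ∈ D.FS (ee + 2) := by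
    intro s G h
    refine hx G fun h' => h ?_
    unfold xr
    rw [h', ite_self]
  have hA : D.w * D.KK x + (2 : R) • D.NN ν ∈ D.J := by
    have h := (h3 x hx).2.1
    rw [coef_eq D x ν hν, sub_neg_eq_add] at h
    exact h
  have hB : D.wo * D.KK x + (4 : R) • D.NN ν ∈ D.J := by
    have h := (h3 x hx).1
    rw [coef_eq D x ν hν, smul_neg, sub_neg_eq_add, smul_smul] at h
    norm_num at h
    exact h
  refine ⟨hA, hB, fun s hs => ?_⟩
  have hK := KK_split D x s
  have hN := NN_split D ν s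
  have hXs := (h2 (xs s x) (hxs s) s hs).1
  have hC1 : D.wo * D.KK (xs s x) + (4 : R) • D.NN (xs s ν) -
      C (2 * D.wt s) * X s * D.KK (xs s x) ∈ D.J := by
    have h := (h3 (xs s x) (hxs s)).1
    rw [coef_xs D x ν s hs hν] at h
    have h' := D.J.mul_mem_left (C (2 * D.wt s)) hXs
    have h'' := D.J.sub_mem h h'
    refine (congrArg (· ∈ D.J) ?_).mpr h''
    simp only [MvPolynomial.smul_eq_C_mul, C_mul]
    have e4 : (C (4 : R) : MvPolynomial V R) = 4 := map_ofNat C 4
    have e2 : (C (2 : R) : MvPolynomial V R) = 2 := map_ofNat C 2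
    rw [e4, e2]
    ring
  have hD1 : D.wo * D.KK (xr s x) + (4 : R) • D.NN (xr s ν) +
      C (2 * D.wt s) * X s * D.KK (xs s x) ∈ D.J := by
    have h := D.J.sub_mem hB hC1
    refine (congrArg (· ∈ D.J) ?_).mpr h
    rw [hK, hN, smul_add]
    ring
  have hE : X s * D.KK (xr s x) ∈ D.J := by
    have h := (h2 (xr s x) (hxr s) s hs).1
    have h0 : ∑ H ∈ (D.FS (ee + 1)).filter (fun H => s ∉ H), C (xr s x (insert s H)) * D.XH H = 0 := by
      refine Finset.sum_eq_zero fun H _ => ?_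
      unfold xr
      rw [if_pos (Finset.mem_insert_self _ _), C_0, zero_mul]
    rw [h0, sub_zero] at h
    exact h
  exact ⟨hK, hN, hC1, hD1, hE, fun v => z_KK D h1 v x, fun v => z_NN D h1 v ν, z_KK D h1 s _, z_KK D h1 s _⟩

end CSLef.DG
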