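import Mathlib
import Pool.Agent.Work.MP_38c61c_al.DG.Stmts

/-!
Block DG, item MI2 (helper22, after the D6 item of helper65 and the D5 item of helper92).
-/

namespace CSLef.DG

open MvPolynomial Finset

namespace IMI2

variable {ee : ℕ} {V : Type} [Fintype V] [DecidableEq V] {R : Type} [CommRing R] [IsDomain R]

theorem C_two : (C (2 : R) : MvPolynomial V R) = 2 := map_ofNat C 2

/-- `2 w = wo + ∑ μ_l Θ_l` -/
theorem two_w (D : Dat ee V R) (hC : Ctx D) :
    (2 : R) • D.w = D.wo + ∑ l ∈ range (ee + 4), C (D.μ l) * lin (D.a l) := by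
  have hl : ∀ l, lin (D.a l) = ∑ v ∈ D.VP, C (D.a l v) * (X v - X (D.α v)) := fun l =>
    lin_eq_VP hC.cs.invol hC.vp (hC.anti l)
  have e1 : ∑ l ∈ range (ee + 4), C (D.μ l) * lin (D.a l) =
      ∑ v ∈ D.VP, (∑ l ∈ range (ee + 4), C (D.μ l) * C (D.a l v)) * (X v - X (D.α v)) := by
    simp only [hl, Finset.mul_sum]
    rw [Finset.sum_comm]
    refine Finset.sum_congr rfl fun v _ => ?_
    rw [Finset.sum_mul]
    exact Finset.sum_congr rfl fun l _ => by ring
  have e2 : D.wo = ∑ v ∈ D.VP, (2 * C (D.c v) + ∑ l ∈ range (ee + 4), C (D.μ l) * C (D.a l v)) *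
      (X v + X (D.α v)) := by
    unfold Dat.wo Dat.wt yy
    refine Finset.sum_congr rfl fun v _ => ?_
    congr 1
    rw [map_add, map_mul, map_sum, C_two]
    refine congrArg₂ _ rfl ?_
    exact Finset.sum_congr rfl fun l _ => by rw [map_mul]
  have e3 : D.w = ∑ v ∈ D.VP, ((∑ l ∈ range (ee + 4), C (D.μ l) * C (D.a l v)) * X v +
      C (D.c v) * (X v + X (D.α v))) := by
    unfold Dat.w welA yy
    rw [Finset.sum_add_distrib]
    congr 1
    simp only [Finset.mul_sum]
    rw [Finset.sum_comm]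
    refine Finset.sum_congr rfl fun v _ => ?_
    rw [Finset.sum_mul]
    exact Finset.sum_congr rfl fun l _ => by ring
  rw [e1, e2, e3, smul_eq_C_mul, Finset.mul_sum, ← Finset.sum_add_distrib]
  refine Finset.sum_congr rfl fun v _ => ?_
  rw [C_two]
  ring

theorem ren_wo (D : Dat ee V R) (hC : Ctx D) : rename D.α D.wo = D.wo := by
  unfold Dat.wo
  rw [map_sum]
  refine Finset.sum_congr rfl fun p _ => ?_
  rw [map_mul, rename_C]
  congr 1
  unfold yy
  rw [map_add, rename_X, rename_X, hC.cs.invol]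
  exact add_comm _ _

/-- `T m` of a combination of the linear forms -/
theorem T_sum (D : Dat ee V R) (hC : Ctx D) (m : ℕ) (hm : m < ee + 4) (g : ℕ → MvPolynomial V R) :
    D.T m (∑ l ∈ range (ee + 4), lin (D.a l) * g l) = D.dg (g m) := by
  rw [map_sum, Finset.sum_congr rfl
    (fun l hl => hC.Tlin m hm l (Finset.mem_range.1 hl) (g l)), Finset.sum_ite_eq',
    if_pos (Finset.mem_range.2 hm)]

theorem T_two (D : Dat ee V R) (m : ℕ) (f : MvPolynomial V R) : D.T m (2 * f) = 2 * D.T m f := by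
  have : (2 : MvPolynomial V R) * f = (2 : R) • f := by
    rw [smul_eq_C_mul, C_two]
  rw [this, map_smul, smul_eq_mul]

theorem dg_two (D : Dat ee V R) (f : MvPolynomial V R) : D.dg (2 * f) = 2 * D.dg f := by
  have : (2 : MvPolynomial V R) * f = (2 : R) • f := by
    rw [smul_eq_C_mul, C_two]
  rw [this, map_smul, smul_eq_mul]

theorem step3 (D : Dat ee V R) (hC : Ctx D) (m : ℕ) (hm : m < ee + 4) (K K' q : MvPolynomial V R)
    (b : ℕ → MvPolynomial V R)
    (hb : K' - K - ∑ l ∈ range (ee + 4), lin (D.a l) * b l ∈ srIdeal R D.Δ) :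
    D.T m (q * K' ^ 2) = D.T m (q * K ^ 2) + 2 * D.dg (q * K * b m) := by
  have hPJ : ∑ l ∈ range (ee + 4), lin (D.a l) * b l ∈ D.J :=
    Ideal.sum_mem _ fun l hl => Ideal.mul_mem_right _ _ (lin_mem_J (Finset.mem_range.1 hl))
  have e2 : ∑ l ∈ range (ee + 4), lin (D.a l) * (2 * (q * K * b l)) =
      2 * q * K * ∑ l ∈ range (ee + 4), lin (D.a l) * b l := by
    rw [Finset.mul_sum]
    exact Finset.sum_congr rfl fun l _ => by ring
  have e3 : ∀ P : MvPolynomial V R, ∑ l ∈ range (ee + 4), lin (D.a l) * (q * P * b l) =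
      q * P * ∑ l ∈ range (ee + 4), lin (D.a l) * b l := by
    intro P
    rw [Finset.mul_sum]
    exact Finset.sum_congr rfl fun l _ => by ring
  have t2 := T_sum D hC m hm fun l => 2 * (q * K * b l)
  obtain ⟨P, hP⟩ : ∃ P, P = ∑ l ∈ range (ee + 4), lin (D.a l) * b l := ⟨_, rfl⟩
  have t3 := T_sum D hC m hm fun l => q * P * b l
  rw [e2] at t2
  rw [e3 P] at t3
  rw [← hP] at hb hPJ t2 t3
  obtain ⟨s₀, hs₀⟩ : ∃ s₀, s₀ = K' - K - P := ⟨_, rfl⟩
  rw [← hs₀] at hb
  have hK' : K' = K + P + s₀ := by rw [hs₀]; ring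
  have e1 : q * K' ^ 2 = q * K ^ 2 + 2 * q * K * P + q * P * P +
      s₀ * (q * (2 * K + 2 * P + s₀)) := by
    rw [hK']; ring
  have t4 : D.T m (s₀ * (q * (2 * K + 2 * P + s₀))) = 0 :=
    hC.Tsr m _ (Ideal.mul_mem_right _ _ hb)
  have t5 : D.dg (q * P * b m) = 0 := by
    refine hC.dgJ _ ?_
    have : q * P * b m = (q * b m) * P := by ring
    rw [this]
    exact Ideal.mul_mem_left _ _ hPJ
  rw [e1, map_add, map_add, map_add, t2, t3, t4, t5, dg_two]
  ring

/-- the product of the `X (α v)`, `v ∈ U` -/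
noncomputable def xa (D : Dat ee V R) (U : Finset V) : MvPolynomial V R := ∏ v ∈ U, X (D.α v)

theorem ren_xm (D : Dat ee V R) (U : Finset V) : rename D.α (xm R U) = xa D U := by
  unfold xm xa
  rw [map_prod]
  exact Finset.prod_congr rfl fun v _ => rename_X _ _

theorem xm_insert {U : Finset V} {u : V} (hu : u ∉ U) : xm R (insert u U) = X u * xm R U := by
  unfold xm
  rw [Finset.prod_insert hu]

theorem xa_insert (D : Dat ee V R) {U : Finset V} {u : V} (hu : u ∉ U) :
    xa D (insert u U) = X (D.α u) * xa D U := by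
  unfold xa
  rw [Finset.prod_insert hu]

theorem ph_xa (D : Dat ee V R) (h1 : StPhX D) (f : MvPolynomial V R) (U : Finset V)
    (hU : U ⊆ D.VP) : ∀ H ⊆ D.VP, D.ph H (xa D U * f) = if U ⊆ H then D.ph (H \ U) f else 0 := by
  induction U using Finset.induction_on with
  | empty =>
    intro H _
    rw [if_pos (Finset.empty_subset _), Finset.sdiff_empty]
    unfold xa
    rw [Finset.prod_empty, one_mul]
  | insert u U hu ih =>
    intro H hH
    have huV : u ∈ D.VP := hU (mem_insert_self _ _)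
    have hUV : U ⊆ D.VP := (Finset.subset_insert _ _).trans hU
    have e1 : xa D (insert u U) * f = X (D.α u) * (xa D U * f) := by
      rw [xa_insert D hu]; ring
    rw [e1]
    obtain ⟨b1, b2⟩ := h1.1 H hH u huV (xa D U * f)
    by_cases huH : u ∈ H
    · rw [(b1 huH).2, ih hUV (H.erase u) ((Finset.erase_subset _ _).trans hH)]
      have e2 : U ⊆ H.erase u ↔ insert u U ⊆ H := by
        rw [Finset.insert_subset_iff]
        constructor
        · intro h
          exact ⟨huH, h.trans (Finset.erase_subset _ _)⟩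
        · intro h v hv
          exact Finset.mem_erase.2 ⟨fun e => hu (e ▸ hv), h.2 hv⟩
      have e3 : H.erase u \ U = H \ insert u U := by
        ext v
        simp only [Finset.mem_sdiff, Finset.mem_erase, Finset.mem_insert, not_or]
        tauto
      rw [e3]
      by_cases h : insert u U ⊆ H
      · rw [if_pos h, if_pos (e2.2 h)]
      · rw [if_neg h, if_neg (fun h' => h (e2.1 h'))]
    · rw [(b2 huH).2, if_neg]
      intro h
      exact huH (h (mem_insert_self _ _))

theorem step5 (D : Dat ee V R) (hC : Ctx D) (h1 : StPhX D) (ν : Finset V → R) (U : Finset V)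
    (hU : U ⊆ D.VP) (hc : U.card = ee) (f : MvPolynomial V R) :
    D.dg (xa D U * D.NN ν * f) = ∑ q ∈ D.lk U, ν (insert q U) * D.ph {q} f := by
  have hmem : ∀ H ∈ D.FS (ee + 1), H ⊆ D.VP ∧ H.card = ee + 1 ∧ D.Full H := by
    intro H hH
    unfold Dat.FS at hH
    rw [mem_filter, mem_powersetCard] at hH
    exact ⟨hH.1.1, hH.1.2, hH.2⟩
  have e1 : xa D U * D.NN ν * f =
      ∑ H ∈ D.FS (ee + 1), C (ν H) * (D.XH H * (xa D U * f)) := by
    unfold Dat.NN
    rw [Finset.mul_sum, Finset.sum_mul]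
    exact Finset.sum_congr rfl fun H _ => by ring
  have e2 : D.dg (xa D U * D.NN ν * f) =
      ∑ H ∈ D.FS (ee + 1), if U ⊆ H then ν H * D.ph (H \ U) f else 0 := by
    rw [e1, map_sum]
    refine Finset.sum_congr rfl fun H hH => ?_
    obtain ⟨a1, _, a3⟩ := hmem H hH
    rw [← smul_eq_C_mul, map_smul, hC.xh_dg H a3, ph_xa D h1 f U hU H a1]
    by_cases h : U ⊆ H
    · rw [if_pos h, if_pos h, smul_eq_mul]
    · rw [if_neg h, if_neg h, smul_zero]
  rw [e2, ← Finset.sum_filter]
  symm
  unfold Dat.lk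
  have hsd : ∀ q, q ∉ U → insert q U \ U = {q} := by
    intro q hq
    ext v
    simp only [Finset.mem_sdiff, Finset.mem_insert, Finset.mem_singleton]
    constructor
    · rintro ⟨h | h, h'⟩
      · exact h
      · exact absurd h h'
    · rintro rfl
      exact ⟨Or.inl rfl, hq⟩
  refine Finset.sum_bij (fun q _ => insert q U) ?_ ?_ ?_ ?_
  · intro q hq
    rw [mem_filter] at hq ⊢
    exact ⟨hq.2, Finset.subset_insert _ _⟩
  · intro q hq q' _ h
    have hqU : q ∉ U := (Finset.mem_sdiff.1 (mem_filter.1 hq).1).2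
    have h4 : insert q U = insert q' U := h
    have h2 : q ∈ insert q' U := h4 ▸ mem_insert_self q U
    exact (mem_insert.1 h2).resolve_right hqU
  · intro H hH
    rw [mem_filter] at hH
    obtain ⟨hHF, hUH⟩ := hH
    obtain ⟨a1, a2, _⟩ := hmem H hHF
    have hcd : (H \ U).card = 1 := by
      rw [Finset.card_sdiff_of_subset hUH, a2, hc]
      omega
    obtain ⟨q, hq⟩ := Finset.card_eq_one.1 hcd
    have hqm : q ∈ H \ U := by rw [hq]; exact mem_singleton_self q
    have hHq : insert q U = H := by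
      rw [Finset.insert_eq, ← hq, Finset.sdiff_union_of_subset hUH]
    refine ⟨q, ?_, hHq⟩
    rw [mem_filter, hHq]
    exact ⟨Finset.mem_sdiff.2 ⟨a1 (Finset.mem_sdiff.1 hqm).1, (Finset.mem_sdiff.1 hqm).2⟩, hHF⟩
  · intro q hq
    have hqU : q ∉ U := (Finset.mem_sdiff.1 (mem_filter.1 hq).1).2
    rw [hsd q hqU]

/-- `(X_U - αX_U) N ∈ J` -/
theorem dif_mem (D : Dat ee V R) (N : MvPolynomial V R) (hz : ∀ v, D.z v * N ∈ D.J)
    (U : Finset V) : (xm R U - xa D U) * N ∈ D.J := by
  induction U using Finset.induction_on with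
  | empty =>
    have : (xm R (∅ : Finset V) - xa D ∅) * N = 0 := by
      unfold xm xa
      rw [Finset.prod_empty, Finset.prod_empty, sub_self, zero_mul]
    rw [this]
    exact Ideal.zero_mem _
  | insert u U hu ih =>
    rw [xm_insert hu, xa_insert D hu]
    have e : (X u * xm R U - X (D.α u) * xa D U) * N =
        X u * ((xm R U - xa D U) * N) + xa D U * (D.z u * N) := by
      unfold Dat.z
      ring
    rw [e]
    exact Ideal.add_mem _ (Ideal.mul_mem_left _ _ ih) (Ideal.mul_mem_left _ _ (hz u))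

/-- the difference of the values at `X_U` and `αX_U` -/
theorem step6 (D : Dat ee V R) (h2 : StTx D) (K N : MvPolynomial V R)
    (hzK : ∀ v, D.z v * K ∈ D.J) (hzN : ∀ v, D.z v * N ∈ D.J)
    (hb4 : D.wo * K + (4 : R) • N ∈ D.J) (m : ℕ) (hm : m < ee + 4) (U : Finset V) :
    ∀ M : MvPolynomial V R, D.T m (M * xm R U * D.wo * K ^ 2) =
      D.T m (M * xa D U * D.wo * K ^ 2) -
        4 * ∑ s ∈ U, D.T m (M * D.z s * xm R (U.erase s) * N * K) := by
  have t5 : ∀ (v : V) (q : MvPolynomial V R),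
      D.T m (D.z v * q * D.wo * K ^ 2) = - (4 * D.T m (D.z v * q * N * K)) := by
    intro v q
    have h4 : D.T m ((D.z v * K) * (q * (D.wo * K + (4 : R) • N))) = 0 :=
      h2.2 _ (hzK v) _ (Ideal.mul_mem_left _ _ hb4) m hm
    have h5 : (D.z v * K) * (q * (D.wo * K + (4 : R) • N)) =
        D.z v * q * D.wo * K ^ 2 + (4 : R) • (D.z v * q * N * K) := by
      rw [smul_eq_C_mul, smul_eq_C_mul]; ring
    rw [h5, map_add, map_smul, smul_eq_mul] at h4
    linear_combination h4
  induction U using Finset.induction_on with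
  | empty =>
    intro M
    rw [Finset.sum_empty]
    unfold xm xa
    rw [Finset.prod_empty, Finset.prod_empty, mul_zero, sub_zero]
  | insert u U hu ih =>
    intro M
    have e1 : M * xm R (insert u U) * D.wo * K ^ 2 = (M * X u) * xm R U * D.wo * K ^ 2 := by
      rw [xm_insert hu]; ring
    have e2 : (M * X u) * xa D U * D.wo * K ^ 2 =
        M * xa D (insert u U) * D.wo * K ^ 2 + D.z u * (M * xa D U) * D.wo * K ^ 2 := by
      rw [xa_insert D hu]
      unfold Dat.z
      ring
    have e3 : D.T m (D.z u * (M * xa D U) * N * K) = D.T m (M * D.z u * xm R U * N * K) := by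
      have h4 : D.T m ((D.z u * K) * (M * ((xm R U - xa D U) * N))) = 0 :=
        h2.2 _ (hzK u) _ (Ideal.mul_mem_left _ _ (dif_mem D N hzN U)) m hm
      have h5 : (D.z u * K) * (M * ((xm R U - xa D U) * N)) =
          M * D.z u * xm R U * N * K - D.z u * (M * xa D U) * N * K := by ring
      rw [h5, map_sub] at h4
      linear_combination - h4
    have e4 : ∑ s ∈ insert u U, D.T m (M * D.z s * xm R ((insert u U).erase s) * N * K) =
        D.T m (M * D.z u * xm R U * N * K) +
          ∑ s ∈ U, D.T m (M * X u * D.z s * xm R (U.erase s) * N * K) := by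
      rw [Finset.sum_insert hu, Finset.erase_insert hu]
      congr 1
      refine Finset.sum_congr rfl fun s hs => ?_
      have hsu : s ≠ u := fun h => hu (h ▸ hs)
      have e5 : (insert u U).erase s = insert u (U.erase s) :=
        Finset.erase_insert_of_ne (Ne.symm hsu)
      have e6 : u ∉ U.erase s := fun h => hu (Finset.mem_of_mem_erase h)
      rw [e5, xm_insert e6]
      congr 1
      ring
    rw [e1, ih (M * X u), e2, map_add, t5 u (M * xa D U), e3, e4]
    ring

end IMI2

open IMI2 in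
/-- Item MI2. -/
theorem pr_MI2 {ee : ℕ} {V : Type} [Fintype V] [DecidableEq V] {R : Type} [CommRing R] [IsDomain R]
    (D : Dat ee V R) (hC : Ctx D) (h1 : StPhX D) (h2 : StTx D) (h3 : StMI0 D) : StMI2 D := by
  intro x ν hx hν b hb U hU hc m hm
  obtain ⟨_, hb4, hall⟩ := h3 x ν hx hν
  have hne : U.Nonempty := by
    rw [← Finset.card_pos, hc]
    exact hC.he
  obtain ⟨s₀, hs₀⟩ := hne
  obtain ⟨_, _, _, _, _, hz, hzN, _, _⟩ := hall s₀ (hU hs₀)
  set K := D.KK x with hK
  set N := D.NN ν with hN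
  have two0 : (2 : R) ≠ 0 := hC.two.ne_zero
  have t1 : D.T m (xm R U * D.wo * K ^ 2) =
      - D.T m (xa D U * D.wo * (rename D.α K) ^ 2) := by
    have h4 := hC.Ta m hm (xm R U * D.wo * K ^ 2)
    have h5 : rename D.α (xm R U * D.wo * K ^ 2) = xa D U * D.wo * (rename D.α K) ^ 2 := by
      rw [map_mul, map_mul, map_pow, ren_xm, ren_wo D hC]
    rw [h5] at h4
    rw [h4, neg_neg]
  have t2 := step3 D hC m hm K (rename D.α K) (xa D U * D.wo) b hb
  have t3 : D.dg (xa D U * D.wo * K * b m) = - (4 * D.dg (xa D U * N * b m)) := by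
    have h4 : D.dg ((xa D U * b m) * (D.wo * K + (4 : R) • N)) = 0 :=
      hC.dgJ _ (Ideal.mul_mem_left _ _ hb4)
    have h5 : (xa D U * b m) * (D.wo * K + (4 : R) • N) =
        xa D U * D.wo * K * b m + (4 : R) • (xa D U * N * b m) := by
      rw [smul_eq_C_mul, smul_eq_C_mul]; ring
    rw [h5, map_add, map_smul, smul_eq_mul] at h4
    linear_combination h4
  have t4 := step5 D hC h1 ν U hU hc (b m)
  rw [← hN] at t4
  have t6 := step6 D h2 K N hz hzN hb4 m hm U 1
  simp only [one_mul] at t6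
  set S := ∑ q ∈ D.lk U, ν (insert q U) * D.ph {q} (b m) with hS
  set Z := ∑ s ∈ U, D.T m (D.z s * xm R (U.erase s) * N * K) with hZ
  have t7 : D.T m (xm R U * D.wo * K ^ 2) = - (2 * Z) + 4 * S := by
    apply mul_left_cancel₀ two0
    linear_combination t1 - t2 - 2 * t3 + 8 * t4 + t6
  have t8 : 2 * D.T m (xm R U * D.w * K ^ 2) =
      D.T m (xm R U * D.wo * K ^ 2) + D.μ m * D.dg (xm R U * K ^ 2) := by
    have h4 : (2 : R) • (xm R U * D.w * K ^ 2) = xm R U * D.wo * K ^ 2 +
        ∑ l ∈ range (ee + 4), lin (D.a l) * (C (D.μ l) * (xm R U * K ^ 2)) := by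
      have h5 : (2 : R) • (xm R U * D.w * K ^ 2) = xm R U * ((2 : R) • D.w) * K ^ 2 := by
        rw [smul_eq_C_mul, smul_eq_C_mul]; ring
      rw [h5, two_w D hC]
      have h6 : ∑ l ∈ range (ee + 4), lin (D.a l) * (C (D.μ l) * (xm R U * K ^ 2)) =
          (xm R U * K ^ 2) * ∑ l ∈ range (ee + 4), C (D.μ l) * lin (D.a l) := by
        rw [Finset.mul_sum]
        exact Finset.sum_congr rfl fun l _ => by ring
      rw [h6]
      ring
    have h7 := congrArg (D.T m) h4
    rw [map_smul, map_add, T_sum D hC m hm, ← smul_eq_C_mul, map_smul, smul_eq_mul,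
      smul_eq_mul] at h7
    exact h7
  rw [t8, t7]

end CSLef.DG
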