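import Mathlib
import Pool.Agent.Work.MP_38c61c_al.DG.Stmts

/-!
Block DG, item MI4: the value of `T m` on `z_s X_(U - s) N_s K_r`.
-/

namespace CSLef.DG

open MvPolynomial Finset

namespace IMI4

variable {ee : ℕ} {V : Type} [Fintype V] [DecidableEq V] {R : Type} [CommRing R] [IsDomain R]

omit [IsDomain R] in
/-- the monomial of `W ⊆ H` is removed from the argument of `φ_H` -/
theorem phW (D : Dat ee V R) (h1 : StPhX D) (W : Finset V) :
    ∀ H, D.Full H → W ⊆ H → ∀ f, D.ph H (xm R W * f) = D.ph (H \ W) f := by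
  induction W using Finset.induction with
  | empty =>
    intro H _ _ f
    have h5 : xm R (∅ : Finset V) = 1 := by
      unfold xm
      exact Finset.prod_empty
    rw [h5, one_mul, Finset.sdiff_empty]
  | insert v W hv ih =>
    intro H hH hW f
    have hvH : v ∈ H := hW (Finset.mem_insert_self _ _)
    have h5 : xm R (insert v W) * f = X v * (xm R W * f) := by
      unfold xm
      rw [Finset.prod_insert hv, mul_assoc]
    have h6 : D.Full (H.erase v) := h1.2 H hH _ (Finset.erase_subset _ _)
    have h7 : W ⊆ H.erase v := fun w hw => Finset.mem_erase.2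
      ⟨fun e => hv (e ▸ hw), hW (Finset.mem_insert_of_mem hw)⟩
    have h8 : H.erase v \ W = H \ insert v W := by
      rw [Finset.sdiff_insert, Finset.erase_sdiff_comm]
    rw [h5, ((h1.1 H hH.1 v (hH.1 hvH) (xm R W * f)).1 hvH).1, ih _ h6 h7 f, h8]

/-- the two values for one pair -/
theorem pair (D : Dat ee V R) (hC : Ctx D) (h1 : StPhX D) (h2 : StPhA D) (h4 : StTx D)
    (K : MvPolynomial V R) (W : Finset V) (s : V) (hsW : s ∉ W) (h b : ℕ → MvPolynomial V R)
    (hh : X s * K - ∑ l ∈ range (ee + 4), lin (D.a l) * h l ∈ srIdeal R D.Δ)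
    (hb : rename D.α K - K - ∑ l ∈ range (ee + 4), lin (D.a l) * b l ∈ srIdeal R D.Δ)
    (m : ℕ) (hm : m < ee + 4) (H : Finset V) (hH : D.Full H) (hW : W ⊆ H) (hs : s ∈ H) :
    D.T m (D.z s * xm R W * D.XH H * K) = D.ph ((H \ W).erase s) (b m) +
      2 * D.ph H (xm R W * h m) := by
  have hsVP : s ∈ D.VP := hH.1 hs
  have hHu : D.Full (H \ W) := h1.2 H hH _ Finset.sdiff_subset
  have hsu : s ∈ H \ W := Finset.mem_sdiff.2 ⟨hs, hsW⟩
  have e1 : D.T m (X s * K * (xm R W * D.XH H)) = D.ph H (xm R W * h m) := by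
    rw [h4.1 _ h hh m hm, ← hC.xh_dg H hH]
    congr 1
    ring
  have r1 := rename_sr hC.cs hh
  rw [map_sub, map_mul, rename_X, map_sum] at r1
  have r2 : ∑ l ∈ range (ee + 4), rename D.α (lin (D.a l) * h l) =
      - ∑ l ∈ range (ee + 4), lin (D.a l) * rename D.α (h l) := by
    rw [← Finset.sum_neg_distrib]
    refine Finset.sum_congr rfl fun l _ => ?_
    rw [map_mul, rename_lin_neg hC.cs.invol hC.anti]
    ring
  rw [r2] at r1
  have r3 : X (D.α s) * K - ∑ l ∈ range (ee + 4), lin (D.a l) *
      (- rename D.α (h l) - X (D.α s) * b l) ∈ srIdeal R D.Δ := by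
    have r4 := Ideal.sub_mem _ r1 (Ideal.mul_mem_left _ (X (D.α s)) hb)
    have r5 : X (D.α s) * (rename D.α K) -
        -∑ l ∈ range (ee + 4), lin (D.a l) * rename D.α (h l) -
        X (D.α s) * (rename D.α K - K - ∑ l ∈ range (ee + 4), lin (D.a l) * b l) =
        X (D.α s) * K - ∑ l ∈ range (ee + 4), lin (D.a l) *
          (- rename D.α (h l) - X (D.α s) * b l) := by
      have r6 : ∑ l ∈ range (ee + 4), lin (D.a l) *
            (- rename D.α (h l) - X (D.α s) * b l) =
          -(∑ l ∈ range (ee + 4), lin (D.a l) * rename D.α (h l)) -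
            X (D.α s) * ∑ l ∈ range (ee + 4), lin (D.a l) * b l := by
        rw [Finset.mul_sum, ← Finset.sum_neg_distrib, ← Finset.sum_sub_distrib]
        refine Finset.sum_congr rfl fun l _ => ?_
        ring
      rw [r6]
      ring
    rw [← r5]
    exact r4
  have e2 : D.T m (X (D.α s) * K * (xm R W * D.XH H)) =
      - D.ph H (xm R W * h m) - D.ph ((H \ W).erase s) (b m) := by
    rw [h4.1 _ (fun l => - rename D.α (h l) - X (D.α s) * b l) r3 m hm]
    have r7 : (- rename D.α (h m) - X (D.α s) * b m) * (xm R W * D.XH H) =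
        D.XH H * (- (xm R W * rename D.α (h m)) - xm R W * (X (D.α s) * b m)) := by ring
    show D.dg ((- rename D.α (h m) - X (D.α s) * b m) * (xm R W * D.XH H)) = _
    rw [r7, hC.xh_dg H hH, map_sub, map_neg,
      phW D h1 W H hH hW (rename D.α (h m)), phW D h1 W H hH hW (X (D.α s) * b m),
      phW D h1 W H hH hW (h m), (h2 (H \ W) hHu).1,
      ((h1.1 (H \ W) hHu.1 s hsVP (b m)).1 hsu).2]
  have e3 : D.z s * xm R W * D.XH H * K = X s * K * (xm R W * D.XH H) -
      X (D.α s) * K * (xm R W * D.XH H) := by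
    unfold Dat.z
    ring
  rw [e3, map_sub, e1, e2]
  ring

end IMI4

open IMI4 in
theorem pr_MI4 {ee : ℕ} {V : Type} [Fintype V] [DecidableEq V] {R : Type} [CommRing R]
    [IsDomain R] (D : Dat ee V R) (hC : Ctx D) (h1 : StPhX D) (h2 : StPhA D) (h3 : StP1 D)
    (h4 : StTx D) : StMI4 D := by
  intro x ν hx U hU hUc s hs b hb m hm
  -- `X s * K` is in the ideal
  have hXK : X s * D.KK (xr s x) ∈ D.J := by
    unfold Dat.KK
    rw [Finset.mul_sum]
    refine Ideal.sum_mem _ fun G hG => ?_
    unfold xr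
    by_cases hsG : s ∈ G
    · rw [if_pos hsG, C_0, zero_mul, mul_zero]
      exact Ideal.zero_mem _
    · have hG' := Finset.mem_filter.1 hG
      have hcard := (Finset.mem_powersetCard.1 hG'.1).2
      have hne : G.Nonempty := Finset.card_pos.1 (by omega)
      have h5 := ((h3 G hG'.2 hne).2.1 s (hU hs) hsG).1
      have h6 : X s * (C (if s ∈ G then 0 else x G) * D.XH G) =
          C (if s ∈ G then 0 else x G) * (X s * D.XH G) := by ring
      rw [h6]
      exact Ideal.mul_mem_left _ _ h5
  have hzK : D.z s * D.KK (xr s x) ∈ D.J := by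
    unfold Dat.KK
    rw [Finset.mul_sum]
    refine Ideal.sum_mem _ fun G hG => ?_
    have hG' := Finset.mem_filter.1 hG
    have hcard := (Finset.mem_powersetCard.1 hG'.1).2
    have hne : G.Nonempty := Finset.card_pos.1 (by omega)
    have h5 := (h3 G hG'.2 hne).1 s
    have h6 : D.z s * (C (xr s x G) * D.XH G) = C (xr s x G) * (D.z s * D.XH G) := by ring
    rw [h6]
    exact Ideal.mul_mem_left _ _ h5
  obtain ⟨h, hh⟩ := (mem_J_iff (ee + 4) _).1 hXK
  refine ⟨∑ H ∈ (D.FS (ee + 1)).filter (fun H => U ⊆ H),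
    ν H * D.ph H (xm R (U.erase s) * h m), ?_⟩
  have e1 : D.T m (D.z s * xm R (U.erase s) * D.NN (xs s ν) * D.KK (xr s x)) =
      ∑ H ∈ (D.FS (ee + 1)).filter (fun H => U ⊆ H),
        ν H * (D.ph (H \ U) (b m) + 2 * D.ph H (xm R (U.erase s) * h m)) := by
    have e2 : D.z s * xm R (U.erase s) * D.NN (xs s ν) * D.KK (xr s x) =
        ∑ H ∈ D.FS (ee + 1), xs s ν H •
          (D.z s * xm R (U.erase s) * D.XH H * D.KK (xr s x)) := by
      unfold Dat.NN
      rw [Finset.mul_sum, Finset.sum_mul]
      refine Finset.sum_congr rfl fun H _ => ?_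
      rw [smul_eq_C_mul]
      ring
    rw [e2, map_sum, Finset.sum_filter]
    refine Finset.sum_congr rfl fun H hH => ?_
    rw [map_smul, smul_eq_mul]
    have hH' := Finset.mem_filter.1 hH
    have hcard := (Finset.mem_powersetCard.1 hH'.1).2
    have hne : H.Nonempty := Finset.card_pos.1 (by omega)
    by_cases hsH : s ∈ H
    · by_cases huH : U.erase s ⊆ H
      · have hUH : U ⊆ H := fun u hu => by
          by_cases hus : u = s
          · rw [hus]; exact hsH
          · exact huH (Finset.mem_erase.2 ⟨hus, hu⟩)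
        have h9 : (H \ U.erase s).erase s = H \ U := by
          rw [← Finset.sdiff_insert, Finset.insert_erase hs]
        rw [if_pos hUH, pair D hC h1 h2 h4 (D.KK (xr s x)) (U.erase s) s
          (Finset.notMem_erase s U) h b hh hb m hm H hH'.2 huH hsH, h9]
        unfold xs
        rw [if_pos hsH]
      · rw [if_neg (fun e => huH ((Finset.erase_subset _ _).trans e))]
        obtain ⟨u, hu, huH'⟩ := Finset.not_subset.1 huH
        have h7 := ((h3 H hH'.2 hne).2.1 u (hU (Finset.mem_of_mem_erase hu)) huH').1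
        have h7' : xm R (U.erase s) * D.XH H ∈ D.J := by
          have h10 : xm R (U.erase s) = xm R ((U.erase s).erase u) * X u := by
            unfold xm
            exact (Finset.prod_erase_mul _ _ hu).symm
          rw [h10, mul_assoc]
          exact Ideal.mul_mem_left _ _ h7
        have h8 : D.z s * xm R (U.erase s) * D.XH H * D.KK (xr s x) =
            (xm R (U.erase s) * D.XH H) * (D.z s * D.KK (xr s x)) := by ring
        rw [h8, h4.2 _ h7' _ hzK m hm, mul_zero]
    · rw [if_neg (fun e => hsH (e hs))]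
      unfold xs
      rw [if_neg hsH, zero_mul]
  have e3 : ∑ H ∈ (D.FS (ee + 1)).filter (fun H => U ⊆ H), ν H * D.ph (H \ U) (b m) =
      ∑ q ∈ D.lk U, ν (insert q U) * D.ph {q} (b m) := by
    symm
    unfold Dat.lk
    refine Finset.sum_bij (fun q _ => (insert q U : Finset V)) ?_ ?_ ?_ ?_
    · intro q hq
      rw [Finset.mem_filter] at hq
      rw [Finset.mem_filter]
      exact ⟨hq.2, Finset.subset_insert _ _⟩
    · intro q hq q' hq' hqq
      have hq0 := Finset.mem_sdiff.1 (Finset.mem_filter.1 hq).1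
      have h7 : q ∈ (insert q' U : Finset V) := by
        have h7' : q ∈ (insert q U : Finset V) := Finset.mem_insert_self _ _
        exact hqq ▸ h7'
      rcases Finset.mem_insert.1 h7 with h8 | h8
      · exact h8
      · exact absurd h8 hq0.2
    · intro H hH
      rw [Finset.mem_filter] at hH
      obtain ⟨hH, hUH⟩ := hH
      have hH' := Finset.mem_filter.1 hH
      obtain ⟨hsub, hcard⟩ := Finset.mem_powersetCard.1 hH'.1
      have h8 : (H \ U).card = 1 := by
        rw [Finset.card_sdiff_of_subset hUH]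
        omega
      obtain ⟨q, hq⟩ := Finset.card_eq_one.1 h8
      have h10 : q ∈ H \ U := by rw [hq]; exact Finset.mem_singleton_self q
      have h11 := Finset.mem_sdiff.1 h10
      have h9 : (insert q U : Finset V) = H := by
        rw [← Finset.singleton_union, ← hq, Finset.sdiff_union_of_subset hUH]
      refine ⟨q, ?_, h9⟩
      rw [Finset.mem_filter, Finset.mem_sdiff]
      refine ⟨⟨hsub h11.1, h11.2⟩, ?_⟩
      rw [h9]
      exact hH
    · intro q hq
      have hq0 := Finset.mem_sdiff.1 (Finset.mem_filter.1 hq).1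
      have h11 : (insert q U : Finset V) \ U = {q} := by
        rw [Finset.insert_sdiff_of_notMem _ hq0.2, Finset.sdiff_self]
        rfl
      rw [h11]
  rw [e1, ← e3, Finset.mul_sum, ← Finset.sum_add_distrib]
  refine Finset.sum_congr rfl fun H _ => ?_
  ring

end CSLef.DG
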