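import Mathlib
import Pool.Agent.Work.MP_38c61c_al.DG.Stmts

/-!
Block DG, item MI5.
-/

set_option autoImplicit false

namespace CSLef.DG

open MvPolynomial Finset

namespace IMI5

variable {ee : ℕ} {V : Type} [Fintype V] [DecidableEq V] {R : Type} [CommRing R]

theorem expd (D : Dat ee V R) (x ν : Finset V → R) (s : V) (M : MvPolynomial V R) (m : ℕ) :
    D.T m (D.z s * M * D.NN ν * D.KK x) =
      ∑ G ∈ D.FS (ee + 2), ∑ H ∈ D.FS (ee + 1),
        x G * ν H * D.T m (D.z s * D.XH G * (M * D.XH H)) := by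
  unfold Dat.KK Dat.NN
  rw [Finset.mul_sum, map_sum]
  refine Finset.sum_congr rfl fun G _ => ?_
  have h1 : D.z s * M * (∑ H ∈ D.FS (ee + 1), C (ν H) * D.XH H) * (C (x G) * D.XH G) =
      ∑ H ∈ D.FS (ee + 1), (x G * ν H) • (D.z s * D.XH G * (M * D.XH H)) := by
    rw [Finset.mul_sum, Finset.sum_mul]
    refine Finset.sum_congr rfl fun H _ => ?_
    rw [MvPolynomial.smul_eq_C_mul, map_mul]
    ring
  rw [h1, map_sum]
  refine Finset.sum_congr rfl fun H _ => ?_
  rw [map_smul, smul_eq_mul]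

theorem mem_FS (D : Dat ee V R) {k : ℕ} {G : Finset V} (h : G ∈ D.FS k) :
    D.Full G ∧ G.card = k := by
  unfold Dat.FS at h
  rw [Finset.mem_filter, Finset.mem_powersetCard] at h
  exact ⟨h.2, h.1.2⟩


/-- a vertex of `P` is not in `H` -/
theorem outJ (D : Dat ee V R) (h0 : StP1 D) {H : Finset V} (hH : D.Full H) (hHn : H.Nonempty)
    {P : Finset V} (hP : P ⊆ D.VP) {v : V} (hv : v ∈ P) (hvH : v ∉ H) :
    xm R P * D.XH H ∈ D.J := by
  have h1 := ((h0 H hH hHn).2.1 v (hP hv) hvH).1
  unfold xm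
  rw [← Finset.mul_prod_erase P _ hv]
  have h2 : (X v : MvPolynomial V R) * (∏ u ∈ P.erase v, X u) * D.XH H =
      (∏ u ∈ P.erase v, X u) * (X v * D.XH H) := by ring
  rw [h2]
  exact Ideal.mul_mem_left _ _ h1

/-- `P` is a part of `H` -/
theorem innJ (D : Dat ee V R) (h0 : StP1 D) (h0' : StPhX D) {H : Finset V} (hH : D.Full H)
    (P : Finset V) : P ⊆ H → xm R P * D.XH H - D.XH (H \ P) ∈ D.J := by
  induction P using Finset.induction_on with
  | empty =>
    intro _
    have : xm R (∅ : Finset V) * D.XH H - D.XH (H \ ∅) = 0 := by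
      unfold xm
      rw [Finset.prod_empty, one_mul, Finset.sdiff_empty, sub_self]
    rw [this]
    exact Ideal.zero_mem _
  | insert v P hv ih =>
    intro hP
    have hvH : v ∈ H := hP (Finset.mem_insert_self v P)
    have h1 := ih (fun y hy => hP (Finset.mem_insert_of_mem hy))
    have hvm : v ∈ H \ P := Finset.mem_sdiff.2 ⟨hvH, hv⟩
    have h2 := (h0 (H \ P) (h0'.2 H hH _ Finset.sdiff_subset) ⟨v, hvm⟩).2.2.1 v hvm
    have h3 : (H \ P).erase v = H \ insert v P := by
      ext y
      simp only [Finset.mem_erase, Finset.mem_sdiff, Finset.mem_insert]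
      tauto
    rw [h3] at h2
    have h4 : xm R (insert v P) * D.XH H - D.XH (H \ insert v P) =
        X v * (xm R P * D.XH H - D.XH (H \ P)) + (X v * D.XH (H \ P) - D.XH (H \ insert v P)) := by
      unfold xm
      rw [Finset.prod_insert hv]
      ring
    rw [h4]
    exact Ideal.add_mem _ (Ideal.mul_mem_left _ _ h1) h2

theorem out (D : Dat ee V R) (h0 : StP1 D) (h00 : StTx D) {G H : Finset V} (hG : D.Full G)
    (hGn : G.Nonempty) (hH : D.Full H) (hHn : H.Nonempty) {s : V} {P : Finset V} (hP : P ⊆ D.VP)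
    (hPH : ¬ P ⊆ H) {m : ℕ} (hm : m < ee + 4) :
    D.T m (D.z s * D.XH G * (xm R P * D.XH H)) = 0 := by
  obtain ⟨v, hv, hvH⟩ := Finset.not_subset.1 hPH
  exact h00.2 _ ((h0 G hG hGn).1 s) _ (outJ D h0 hH hHn hP hv hvH) m hm

theorem inn (D : Dat ee V R) (h0 : StP1 D) (h0' : StPhX D) (h00 : StTx D) {G H : Finset V}
    (hG : D.Full G) (hGn : G.Nonempty) (hH : D.Full H) {s : V} {P : Finset V} (hPH : P ⊆ H)
    {m : ℕ} (hm : m < ee + 4) :
    D.T m (D.z s * D.XH G * (xm R P * D.XH H)) = D.T m (D.z s * D.XH G * D.XH (H \ P)) := by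
  have h := h00.2 _ ((h0 G hG hGn).1 s) _ (innJ D h0 h0' hH P hPH) m hm
  rw [mul_sub, map_sub, sub_eq_zero] at h
  exact h

end IMI5

open IMI5

/-- item MI5 -/
theorem pr_MI5 {ee : ℕ} {V : Type} [Fintype V] [DecidableEq V] {R : Type} [CommRing R]
    [IsDomain R] (D : Dat ee V R) (_hC : Ctx D) (h0 : StP1 D) (h0' : StPhX D) (h00 : StTx D)
    (h1 : StNonT D) (h2 : StDisT D) : StMI5 D := by
  intro x ν U hU hUc s hsU m hm
  have hs : s ∈ D.VP := hU hsU
  obtain ⟨P, hPdef⟩ : ∃ P, P = U.erase s := ⟨_, rfl⟩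
  have hPVP : P ⊆ D.VP := by
    rw [hPdef]
    exact (Finset.erase_subset _ _).trans hU
  have hPc : P.card + 1 = ee := by
    rw [hPdef, Finset.card_erase_of_mem hsU]
    have := Finset.card_pos.2 ⟨s, hsU⟩
    omega
  have hsP : s ∉ P := by
    rw [hPdef]
    exact Finset.notMem_erase s U
  rw [← hPdef]
  constructor
  · rw [expd]
    refine Finset.sum_eq_zero fun G hG => Finset.sum_eq_zero fun H hH => ?_
    obtain ⟨hG1, hG2⟩ := mem_FS D hG
    obtain ⟨hH1, hH2⟩ := mem_FS D hH
    have hGn : G.Nonempty := Finset.card_pos.1 (by omega)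
    have hHn : H.Nonempty := Finset.card_pos.1 (by omega)
    unfold xs
    by_cases hsG : s ∈ G
    · by_cases hsH : s ∈ H
      · by_cases hPH : P ⊆ H
        · have hc : (H \ P).card = 2 := by
            rw [Finset.card_sdiff_of_subset hPH]
            omega
          rw [inn D h0 h0' h00 hG1 hGn hH1 hPH hm,
            h1 G (H \ P) hG1 (h0'.2 H hH1 _ Finset.sdiff_subset) (by omega)
              ⟨s, Finset.mem_inter.2 ⟨hsG, Finset.mem_sdiff.2 ⟨hsH, hsP⟩⟩⟩
              s hs m hm, mul_zero]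
        · rw [out D h0 h00 hG1 hGn hH1 hHn hPVP hPH hm, mul_zero]
      · rw [if_neg hsH, mul_zero, zero_mul]
    · rw [if_neg hsG, zero_mul, zero_mul]
  · rw [expd]
    refine Finset.sum_eq_zero fun G hG => Finset.sum_eq_zero fun H hH => ?_
    obtain ⟨hG1, hG2⟩ := mem_FS D hG
    obtain ⟨hH1, hH2⟩ := mem_FS D hH
    have hGn : G.Nonempty := Finset.card_pos.1 (by omega)
    have hHn : H.Nonempty := Finset.card_pos.1 (by omega)
    unfold xr
    by_cases hsG : s ∈ G
    · rw [if_pos hsG, zero_mul, zero_mul]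
    · by_cases hsH : s ∈ H
      · rw [if_pos hsH, mul_zero, zero_mul]
      · by_cases hPH : P ⊆ H
        · have hc : (H \ P).card = 2 := by
            rw [Finset.card_sdiff_of_subset hPH]
            omega
          have hF : D.Full (H \ P) := h0'.2 H hH1 _ Finset.sdiff_subset
          have h3 : D.T m (D.z s * D.XH G * D.XH (H \ P)) = 0 := by
            by_cases hd : Disjoint G (H \ P)
            · refine h2 G (H \ P) hG1 hF hGn (Finset.card_pos.1 (by omega))
                (by omega) hd s hs ?_ m hm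
              rw [Finset.mem_union]
              rintro (h | h)
              · exact hsG h
              · exact hsH (Finset.mem_sdiff.1 h).1
            · exact h1 G (H \ P) hG1 hF (by omega)
                (Finset.not_disjoint_iff_nonempty_inter.1 hd) s hs m hm
          rw [inn D h0 h0' h00 hG1 hGn hH1 hPH hm, h3, mul_zero]
        · rw [out D h0 h00 hG1 hGn hH1 hHn hPVP hPH hm, mul_zero]

end CSLef.DG
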