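import Mathlib
import Pool.Agent.Work.MP_38c61c_al.DG.Stmts

/-!
Item Non of block D6: duals of meeting full sets are orthogonal.
-/

namespace CSLef.DG

open MvPolynomial Finset

theorem pr_Non {ee : ℕ} {V : Type} [Fintype V] [DecidableEq V] {R : Type} [CommRing R] [IsDomain R]
    (D : Dat ee V R) (hC : Ctx D) (h1 : StEv D) (h2 : StF3 D) (h3 : StEul D) : StNon D := by
  intro G H hG hH hc hne
  obtain ⟨v, hv⟩ := hne
  have hvG : v ∈ G := (Finset.mem_inter.mp hv).1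
  have hvH : v ∈ H := (Finset.mem_inter.mp hv).2
  have hvP : v ∈ D.VP := hG.1 hvG
  have e1 := h2 G H hG hH ⟨v, hvG⟩ ⟨v, hvH⟩ hc v (Finset.mem_union_left _ hvG) v hvP
  rw [if_pos rfl] at e1
  have hcard : ((ee + 4) - G.card) + ((ee + 4) - H.card) = ee + 4 := by omega
  have hom : (D.XH G * D.XH H).IsHomogeneous (ee + 4) := by
    have h := (hC.xh_hom G hG).mul (hC.xh_hom H hH)
    rwa [hcard] at h
  have e2 := h3 v hvP (D.XH G * D.XH H) hom
  have e3 : ∑ m ∈ range (ee + 4), D.a m v * D.T m (D.z v * (D.XH G * D.XH H)) =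
      D.dg (D.XH G * D.XH H) := by
    rw [← e1]
    refine Finset.sum_congr rfl fun m _ => ?_
    rw [mul_assoc (D.z v)]
  have hL : D.E v (D.XH G * D.XH H) =
      D.XH G * D.E v (D.XH H) + D.XH H * D.E v (D.XH G) := by
    rw [Derivation.leibniz, smul_eq_mul, smul_eq_mul]
  have a1 : D.dg (D.XH G * D.E v (D.XH H)) = D.dg (D.XH G * D.XH H) := by
    rw [hC.xh_dg G hG, (h1 v hvP).2.2.1 G hG, if_pos hvG, hC.xh_dg G hG]
  have a2 : D.dg (D.XH H * D.E v (D.XH G)) = D.dg (D.XH G * D.XH H) := by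
    rw [hC.xh_dg H hH, (h1 v hvP).2.2.1 H hH, if_pos hvH, ← hC.xh_dg H hH, mul_comm (D.XH H)]
  have e4 : D.dg (D.XH G * D.XH H) = D.dg (D.XH G * D.XH H) + D.dg (D.XH G * D.XH H) := by
    calc D.dg (D.XH G * D.XH H) = D.dg (D.E v (D.XH G * D.XH H)) := by rw [← e2, e3]
      _ = D.dg (D.XH G * D.E v (D.XH H) + D.XH H * D.E v (D.XH G)) := by rw [hL]
      _ = _ := by rw [map_add, a1, a2]
  exact left_eq_add.mp e4

end CSLef.DG
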