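import Mathlib
import Pool.Agent.Work.MP_38c61c_al.DG.Stmts

/-!
Block D6, item P1: the duals `X_G`.
-/

namespace CSLef.DG

open MvPolynomial Finset

theorem pr_P1 {ee : ℕ} {V : Type} [Fintype V] [DecidableEq V] {R : Type} [CommRing R] [IsDomain R]
    (D : Dat ee V R) (hC : Ctx D) (h1 : StPhX D) (h2 : StPh D) (h3 : StPhA D) : StP1 D := by
  intro G hG hne
  obtain ⟨ha, -, -, -, -, hcard⟩ := h3 G hG
  have hpos : 1 ≤ G.card := Finset.card_pos.mpr hne
  have hX : ∀ v, (X v * D.XH G).IsHomogeneous (1 + ((ee + 4) - G.card)) := fun v =>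
    (isHomogeneous_X R v).mul (hC.xh_hom G hG)
  have hik : (1 + ((ee + 4) - G.card)) + (G.card - 1) = ee + 4 := by omega
  refine ⟨?_, ?_, ?_, ?_⟩
  · intro v
    have hz : (D.z v * D.XH G).IsHomogeneous (1 + ((ee + 4) - G.card)) :=
      ((isHomogeneous_X R v).sub (isHomogeneous_X R (D.α v))).mul (hC.xh_hom G hG)
    refine hC.nd _ _ hik _ hz fun g _ => ?_
    have e : D.z v * D.XH G * g = D.XH G * (D.z v * g) := by ring
    rw [e, hC.xh_dg G hG, (h2 G hG).2.1]
  · intro v hv hvG
    have hh := fun f => ((h1.1 G hG.1 v hv f).2 hvG)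
    constructor
    · refine hC.nd _ _ hik _ (hX v) fun g _ => ?_
      have e : X v * D.XH G * g = D.XH G * (X v * g) := by ring
      rw [e, hC.xh_dg G hG, (hh g).1]
    · refine hC.nd _ _ hik _ (hX (D.α v)) fun g _ => ?_
      have e : X (D.α v) * D.XH G * g = D.XH G * (X (D.α v) * g) := by ring
      rw [e, hC.xh_dg G hG, (hh g).2]
  · intro v hv
    have hF : D.Full (G.erase v) := h1.2 G hG _ (Finset.erase_subset v G)
    have hdeg : (D.XH (G.erase v)).IsHomogeneous (1 + ((ee + 4) - G.card)) := by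
      have := hC.xh_hom _ hF
      rw [Finset.card_erase_of_mem hv] at this
      have e : (ee + 4) - (G.card - 1) = 1 + ((ee + 4) - G.card) := by omega
      rw [e] at this
      exact this
    refine hC.nd _ _ hik _ ((hX v).sub hdeg) fun g _ => ?_
    have e : (X v * D.XH G - D.XH (G.erase v)) * g =
        D.XH G * (X v * g) - D.XH (G.erase v) * g := by ring
    rw [e, map_sub, hC.xh_dg G hG, hC.xh_dg _ hF, ((h1.1 G hG.1 v (hG.1 hv) g).1 hv).1, sub_self]
  · have hh : (D.XH G).IsHomogeneous ((ee + 4) - G.card) := hC.xh_hom G hG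
    refine hC.nd ((ee + 4) - G.card) G.card (by omega) _ (hh.rename_isHomogeneous.sub hh) fun g _ => ?_
    have e1 : rename D.α (D.XH G) * g = rename D.α (D.XH G * rename D.α g) := by
      rw [map_mul, rename_rename_inv hC.cs.invol]
    rw [sub_mul, map_sub, e1, hC.dga, hC.xh_dg G hG, hC.xh_dg G hG, ha, sub_self]

end CSLef.DG
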