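import Mathlib
import Pool.Agent.Work.MP_38c61c_al.DG.Stmts2

/-!
Block DG, item PhW: values of `φ_H` on products of the `W_l`.
-/

namespace CSLef.DG

open MvPolynomial Finset

namespace IPhW

variable {ee : ℕ} {V : Type} [Fintype V] [DecidableEq V] {R : Type} [CommRing R]

section
variable [IsDomain R]

theorem mulW (D : Dat ee V R) (h1 : StPhX D) (H : Finset V) (hH : H ⊆ D.VP) (l : ℕ)
    (f : MvPolynomial V R) :
    D.ph H (D.W l * f) = ∑ p ∈ H, D.a l p * D.ph (H.erase p) f := by
  have e1 : D.W l * f = ∑ v ∈ D.VP, D.a l v • (X v * f) := by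
    unfold Dat.W
    rw [Finset.sum_mul]
    refine Finset.sum_congr rfl fun v _ => ?_
    rw [smul_eq_C_mul, mul_assoc]
  rw [e1, map_sum]
  have e2 : ∑ v ∈ D.VP, D.ph H (D.a l v • (X v * f)) =
      ∑ v ∈ H, D.ph H (D.a l v • (X v * f)) := by
    symm
    refine Finset.sum_subset hH fun v hv hvH => ?_
    rw [map_smul, ((h1.1 H hH v hv f).2 hvH).1, smul_zero]
  rw [e2]
  refine Finset.sum_congr rfl fun v hv => ?_
  rw [map_smul, ((h1.1 H hH v (hH hv) f).1 hv).1, smul_eq_mul]

theorem ph_empty (D : Dat ee V R) : D.ph ∅ (1 : MvPolynomial V R) = 1 := by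
  unfold Dat.ph
  rw [Finset.powerset_empty, Finset.sum_singleton]
  have e1 : flip D.α (∅ : Finset V) ∅ = ∅ := by
    unfold flip
    simp
  rw [e1]
  unfold ex
  rw [Finset.sum_empty, lcoeff_apply, coeff_zero_one]

theorem one (D : Dat ee V R) (h1 : StPhX D) (q : V) (hq : q ∈ D.VP) (i : ℕ) :
    D.ph {q} (D.W i) = D.a i q := by
  have h := mulW D h1 {q} (Finset.singleton_subset_iff.2 hq) i 1
  rw [mul_one] at h
  rw [h, Finset.sum_singleton]
  have e1 : ({q} : Finset V).erase q = ∅ := by simp
  rw [e1, ph_empty, mul_one]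

theorem two (D : Dat ee V R) (h1 : StPhX D) (q r : V) (hq : q ∈ D.VP) (hr : r ∈ D.VP)
    (hqr : q ≠ r) (j k : ℕ) :
    D.ph {q, r} (D.W j * D.W k) = D.a j q * D.a k r + D.a j r * D.a k q := by
  rw [mulW D h1 {q, r} (Finset.insert_subset hq (Finset.singleton_subset_iff.2 hr)) j (D.W k),
    Finset.sum_pair hqr]
  have e1 : ({q, r} : Finset V).erase q = {r} := by
    rw [Finset.erase_insert]
    rwa [Finset.mem_singleton]
  have e2 : ({q, r} : Finset V).erase r = {q} := by
    rw [Finset.pair_comm, Finset.erase_insert]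
    rw [Finset.mem_singleton]
    exact hqr.symm
  rw [e1, e2, one D h1 r hr k, one D h1 q hq k]

end

/-- the values of the exponent -/
theorem ex_apply (S : Finset V) (v : V) : ex S v = if v ∈ S then 1 else 0 := by
  unfold ex
  rw [Finsupp.finsetSum_apply]
  simp only [Finsupp.single_apply]
  rw [Finset.sum_ite_eq']

theorem ex_ne_zero (S : Finset V) (hS : S.Nonempty) : ex S ≠ 0 := by
  obtain ⟨v, hv⟩ := hS
  intro h
  have h1 := ex_apply S v
  rw [h, if_pos hv] at h1
  simp at h1

/-- coefficients of a multiple of a variable -/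
theorem coeff_X_mul (S : Finset V) (v : V) (f : MvPolynomial V R) :
    coeff (ex S) (X v * f) = if v ∈ S then coeff (ex (S.erase v)) f else 0 := by
  rw [coeff_X_mul']
  by_cases hv : v ∈ S
  · have hs : v ∈ (ex S).support := by
      rw [Finsupp.mem_support_iff, ex_apply, if_pos hv]
      exact one_ne_zero
    rw [if_pos hs, if_pos hv]
    have e : ex S = Finsupp.single v 1 + ex (S.erase v) := by
      unfold ex
      rw [Finset.add_sum_erase S (fun v => Finsupp.single v 1) hv]
    rw [e, add_tsub_cancel_left]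
  · have hs : v ∉ (ex S).support := by
      rw [Finsupp.mem_support_iff, ex_apply, if_neg hv]
      simp
    rw [if_neg hs, if_neg hv]

theorem pmA_insert (VP : Finset V) (a : ℕ → V → R) (L : Finset ℕ) (l : ℕ) (hl : l ∉ L)
    (H : Finset V) (hH : H ⊆ VP) :
    pmA VP a (insert l L) H = ∑ p ∈ H, a l p * pmA VP a L (H.erase p) := by
  unfold pmA
  rw [Finset.prod_insert hl, Finset.sum_mul, coeff_sum]
  have e : ∀ v ∈ VP, coeff (ex H) (C (a l v) * X v * ∏ l ∈ L, ∑ v ∈ VP, C (a l v) * X v) =
      if v ∈ H then a l v * coeff (ex (H.erase v)) (∏ l ∈ L, ∑ v ∈ VP, C (a l v) * X v)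
        else 0 := by
    intro v _
    rw [mul_assoc, coeff_C_mul, coeff_X_mul]
    split_ifs
    · rfl
    · rw [mul_zero]
  rw [Finset.sum_congr rfl e, ← Finset.sum_filter]
  refine Finset.sum_congr ?_ fun _ _ => rfl
  ext v
  rw [Finset.mem_filter]
  exact ⟨fun h => h.2, fun h => ⟨hH h, h⟩⟩

theorem flip_nonempty (α : Equiv.Perm V) (H T : Finset V) (hT : T ⊆ H) (hH : H.Nonempty) :
    (flip α H T).Nonempty := by
  obtain ⟨v, hv⟩ := hH
  unfold flip
  by_cases h : v ∈ T
  · exact ⟨α v, by simp [h]⟩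
  · exact ⟨v, by simp [h, hv]⟩

theorem ph_one (D : Dat ee V R) (H : Finset V) (hH : H.Nonempty) :
    D.ph H (1 : MvPolynomial V R) = 0 := by
  unfold Dat.ph
  rw [LinearMap.sum_apply]
  refine Finset.sum_eq_zero fun T hT => ?_
  rw [lcoeff_apply, coeff_one, if_neg]
  intro h
  exact ex_ne_zero _ (flip_nonempty D.α H T (Finset.mem_powerset.1 hT) hH) h.symm

end IPhW

open IPhW in
theorem pr_PhW {ee : ℕ} {V : Type} [Fintype V] [DecidableEq V] {R : Type} [CommRing R]
    [IsDomain R] (D : Dat ee V R) (h1 : StPhX D) : StPhW D := by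
  refine ⟨fun H hH l f => mulW D h1 H hH l f, ph_empty D, fun q hq i => one D h1 q hq i, ?_, ?_⟩
  · intro q hq r hr hqr I hI
    obtain ⟨i, j, hij, rfl⟩ := Finset.card_eq_two.1 hI
    rw [Finset.prod_pair hij, two D h1 q r hq hr hqr i j]
    unfold p2
    rw [Finset.sum_pair hij]
    have e1 : ({i, j} : Finset ℕ).erase i = {j} := by
      rw [Finset.erase_insert]
      rwa [Finset.mem_singleton]
    have e2 : ({i, j} : Finset ℕ).erase j = {i} := by
      rw [Finset.pair_comm, Finset.erase_insert]
      rw [Finset.mem_singleton]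
      exact hij.symm
    rw [e1, e2, Finset.sum_singleton, Finset.sum_singleton]
    ring
  · intro H hH L
    induction L using Finset.induction_on generalizing H with
    | empty =>
      unfold pmA
      rw [Finset.prod_empty, Finset.prod_empty]
      rcases H.eq_empty_or_nonempty with h | h
      · subst h
        rw [ph_empty, coeff_one, if_pos]
        unfold ex
        rw [Finset.sum_empty]
      · rw [ph_one D H h, coeff_one, if_neg]
        intro h2
        exact ex_ne_zero H h h2.symm
    | insert l L hl ih =>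
      rw [Finset.prod_insert hl, mulW D h1 H hH l, pmA_insert D.VP D.a L l hl H hH]
      refine Finset.sum_congr rfl fun p _ => ?_
      rw [ih (H.erase p) ((Finset.erase_subset p H).trans hH)]

end CSLef.DG
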