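import Mathlib
import Pool.Agent.Work.MP_38c61c_al.DG.Stmts2

/-!
Block DG, item PmR: row and column expansion of the permanent.
-/

namespace CSLef.DG

open MvPolynomial Finset

namespace IPmR

variable {V : Type} [DecidableEq V] {R : Type} [CommRing R]

omit [DecidableEq V] in
theorem ex_apply [DecidableEq V] (S : Finset V) (v : V) : ex S v = if v ∈ S then 1 else 0 := by
  unfold ex
  rw [Finsupp.finset_sum_apply]
  simp only [Finsupp.single_apply]
  rw [Finset.sum_ite_eq' S v]

theorem ex_erase (S : Finset V) {v : V} (hv : v ∈ S) :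
    ex S - Finsupp.single v 1 = ex (S.erase v) := by
  ext u
  rw [Finsupp.coe_tsub, Pi.sub_apply, ex_apply, ex_apply, Finsupp.single_apply]
  by_cases h : v = u
  · subst h
    rw [if_pos hv, if_pos rfl, if_neg (Finset.notMem_erase v S)]
  · rw [if_neg h, Nat.sub_zero]
    by_cases hu : u ∈ S
    · rw [if_pos hu, if_pos (Finset.mem_erase.2 ⟨fun h' => h h'.symm, hu⟩)]
    · rw [if_neg hu, if_neg fun h' => hu (Finset.mem_erase.1 h').2]

theorem mem_supp (S : Finset V) (v : V) : v ∈ (ex S).support ↔ v ∈ S := by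
  rw [Finsupp.mem_support_iff, ex_apply]
  by_cases h : v ∈ S
  · simp [h]
  · simp [h]

theorem coeff_Xmul (S : Finset V) (v : V) (f : MvPolynomial V R) :
    coeff (ex S) (X v * f) = if v ∈ S then coeff (ex (S.erase v)) f else 0 := by
  rw [coeff_X_mul']
  by_cases h : v ∈ S
  · rw [if_pos h, if_pos ((mem_supp S v).2 h), ex_erase S h]
  · rw [if_neg h, if_neg fun h' => h ((mem_supp S v).1 h')]

theorem row (VP : Finset V) (a : ℕ → V → R) (L : Finset ℕ) (S : Finset V) (hS : S ⊆ VP) :
    ∀ l ∈ L, pmA VP a L S = ∑ v ∈ S, a l v * pmA VP a (L.erase l) (S.erase v) := by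
  intro l hl
  unfold pmA
  rw [← Finset.mul_prod_erase L _ hl, Finset.sum_mul, coeff_sum]
  have h1 : ∀ v ∈ VP, coeff (ex S) (C (a l v) * X v *
      ∏ x ∈ L.erase l, ∑ v ∈ VP, C (a x v) * X v : MvPolynomial V R) =
      if v ∈ S then a l v * coeff (ex (S.erase v))
        (∏ x ∈ L.erase l, ∑ v ∈ VP, C (a x v) * X v : MvPolynomial V R) else 0 := by
    intro v _
    rw [mul_assoc, coeff_C_mul, coeff_Xmul]
    by_cases h : v ∈ S
    · rw [if_pos h, if_pos h]
    · rw [if_neg h, if_neg h, mul_zero]
  rw [Finset.sum_congr rfl h1, ← Finset.sum_filter]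
  refine Finset.sum_congr ?_ fun v _ => rfl
  ext v
  rw [Finset.mem_filter]
  exact ⟨fun h => h.2, fun h => ⟨hS h, h⟩⟩

theorem col (VP : Finset V) (a : ℕ → V → R) (L : Finset ℕ) : ∀ S ⊆ VP,
    ∀ p ∈ S, pmA VP a L S = ∑ l ∈ L, a l p * pmA VP a (L.erase l) (S.erase p) := by
  induction L using Finset.induction_on with
  | empty =>
    intro S _ p hp
    rw [Finset.sum_empty]
    unfold pmA
    rw [Finset.prod_empty, coeff_one, if_neg]
    intro h
    have h2 := ex_apply S p
    rw [← h, if_pos hp] at h2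
    exact zero_ne_one h2
  | insert l L' hl ih =>
    intro S hS p hp
    rw [row VP a (insert l L') S hS l (Finset.mem_insert_self l L'), Finset.erase_insert hl,
      ← Finset.add_sum_erase S _ hp, Finset.sum_insert hl, Finset.erase_insert hl]
    congr 1
    have h1 : ∀ v ∈ S.erase p, a l v * pmA VP a L' (S.erase v) =
        ∑ l' ∈ L', a l v * (a l' p * pmA VP a (L'.erase l') ((S.erase v).erase p)) := by
      intro v hv
      rw [Finset.mem_erase] at hv
      rw [ih (S.erase v) ((Finset.erase_subset v S).trans hS) p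
        (Finset.mem_erase.2 ⟨Ne.symm hv.1, hp⟩), Finset.mul_sum]
    rw [Finset.sum_congr rfl h1, Finset.sum_comm]
    refine Finset.sum_congr rfl fun l' hl' => ?_
    have hne : l ≠ l' := fun h => hl (h ▸ hl')
    have h2 : ((insert l L').erase l').erase l = L'.erase l' := by
      rw [Finset.erase_right_comm, Finset.erase_insert hl]
    rw [row VP a ((insert l L').erase l') (S.erase p) ((Finset.erase_subset p S).trans hS) l
      (Finset.mem_erase.2 ⟨hne, Finset.mem_insert_self l L'⟩), h2, Finset.mul_sum]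
    refine Finset.sum_congr rfl fun v _ => ?_
    rw [Finset.erase_right_comm (a := v) (b := p)]
    ring

end IPmR

open IPmR in
theorem pr_PmR : StPmR := by
  intro V _ _ R _ VP a L S hS
  exact ⟨row VP a L S hS, col VP a L S hS⟩

end CSLef.DG
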