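import Mathlib
import Pool.Agent.Work.MP_38c61c_al.DG.Stmts

/-!
Block DG, item Star: the main congruence.
-/

set_option autoImplicit false

namespace CSLef.DG

open MvPolynomial Finset

variable {ee : ℕ} {V : Type} [Fintype V] [DecidableEq V] {R : Type} [CommRing R] [IsDomain R]

namespace IStar

/-- the product splits into the two mixed terms -/
theorem split {D : Dat ee V R} (h1 : StMI0 D) (h5 : StMI5 D) (x ν : Finset V → R)
    (hx : ∀ G, x G ≠ 0 → G ∈ D.FS (ee + 2))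
    (hν : ∀ H ∈ D.FS (ee + 1), 2 * ν H = - ∑ r ∈ D.VP \ H, D.wt r * x (insert r H))
    (U : Finset V) (hU : U ⊆ D.VP) (hc : U.card = ee) (s : V) (hs : s ∈ U)
    (m : ℕ) (hm : m < ee + 4) :
    D.T m (D.z s * xm R (U.erase s) * D.NN ν * D.KK x) =
      D.T m (D.z s * xm R (U.erase s) * D.NN (xs s ν) * D.KK (xr s x)) +
      D.T m (D.z s * xm R (U.erase s) * D.NN (xr s ν) * D.KK (xs s x)) := by
  obtain ⟨-, -, hs3⟩ := h1 x ν hx hν
  obtain ⟨hK, hN, -, -, -, -, -, -⟩ := hs3 s (hU hs)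
  obtain ⟨g1, g2⟩ := h5 x ν U hU hc s hs m hm
  rw [hK, hN, show D.z s * xm R (U.erase s) * (D.NN (xs s ν) + D.NN (xr s ν)) *
    (D.KK (xs s x) + D.KK (xr s x)) =
    D.z s * xm R (U.erase s) * D.NN (xs s ν) * D.KK (xs s x) +
    D.z s * xm R (U.erase s) * D.NN (xs s ν) * D.KK (xr s x) +
    (D.z s * xm R (U.erase s) * D.NN (xr s ν) * D.KK (xs s x) +
    D.z s * xm R (U.erase s) * D.NN (xr s ν) * D.KK (xr s x))
    by ring, map_add, map_add, map_add, g1, g2]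
  ring

/-- one vertex split off -/
theorem xm_erase (U : Finset V) (s : V) (hs : s ∈ U) :
    (xm R (U.erase s) : MvPolynomial V R) * X s = xm R U := by
  unfold xm
  rw [Finset.prod_erase_mul _ _ hs]

end IStar

theorem pr_Star {ee : ℕ} {V : Type} [Fintype V] [DecidableEq V] {R : Type} [CommRing R]
    [IsDomain R] (D : Dat ee V R) (h1 : StMI0 D) (h2 : StMI2 D) (h3 : StMI3 D)
    (h4 : StMI4 D) (h5 : StMI5 D) : StStar D := by
  intro x ν hx hν hdiv U hU hc b bs hb hbs m hm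
  -- the numbers `ρ_s`
  have h4' : ∀ s : V, ∃ ρ : R, s ∈ U →
      D.T m (D.z s * xm R (U.erase s) * D.NN (xs s ν) * D.KK (xr s x)) =
        ∑ q ∈ D.lk U, ν (insert q U) * D.ph {q} (bs s m) + 2 * ρ := by
    intro s
    by_cases hs : s ∈ U
    · obtain ⟨ρ, hρ⟩ := h4 x ν hx U hU hc s hs (bs s) (hbs s hs) m hm
      exact ⟨ρ, fun _ => hρ⟩
    · exact ⟨0, fun h => absurd h hs⟩
  choose ρ hρ using h4'
  obtain ⟨c, hcc⟩ := hdiv (xm R U) m hm
  have g4 := h2 x ν hx hν b hb U hU hc m hm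
  -- the terms of the sum
  have e1 : 2 * ∑ s ∈ U, D.T m (D.z s * xm R (U.erase s) * D.NN ν * D.KK x) =
      4 * ∑ s ∈ U, ∑ q ∈ D.lk U, ν (insert q U) * D.ph {q} (bs s m) + 8 * ∑ s ∈ U, ρ s -
        ∑ s ∈ U, D.wt s * D.T m (D.z s * xm R U * D.KK (xs s x) ^ 2) := by
    rw [Finset.mul_sum, Finset.mul_sum, Finset.mul_sum, ← Finset.sum_add_distrib,
      ← Finset.sum_sub_distrib]
    refine Finset.sum_congr rfl fun s hs => ?_
    have f1 := IStar.split h1 h5 x ν hx hν U hU hc s hs m hm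
    have f2 := h3 x ν hx hν (xm R (U.erase s)) s (hU hs) m hm
    have f3 := hρ s hs
    have f4 : D.z s * xm R (U.erase s) * X s * D.KK (xs s x) ^ 2 =
        D.z s * xm R U * D.KK (xs s x) ^ 2 := by
      rw [mul_assoc (D.z s), IStar.xm_erase U s hs]
    rw [f4] at f2
    linear_combination 2 * f1 - f2 + 4 * f3
  have e2 : ∑ q ∈ D.lk U, ν (insert q U) * (D.ph {q} (b m) - ∑ s ∈ U, D.ph {q} (bs s m)) =
      ∑ q ∈ D.lk U, ν (insert q U) * D.ph {q} (b m) -
        ∑ s ∈ U, ∑ q ∈ D.lk U, ν (insert q U) * D.ph {q} (bs s m) := by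
    rw [Finset.sum_comm, ← Finset.sum_sub_distrib]
    refine Finset.sum_congr rfl fun q _ => ?_
    rw [mul_sub, Finset.mul_sum]
  rw [e1, hcc] at g4
  rw [e2]
  refine ⟨c + ∑ s ∈ U, ρ s, ?_⟩
  linear_combination (-1 : R) * g4

end CSLef.DG
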