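import Mathlib
import Pool.Agent.Work.MP_38c61c_al.DG.Stmts2

/-!
Block DG, item T4.
-/

set_option autoImplicit false

namespace CSLef.DG

open MvPolynomial Finset

namespace IT4

variable {ee : ℕ} {V : Type} [Fintype V] [DecidableEq V] {R : Type} [CommRing R]

theorem mem_FS (D : Dat ee V R) {k : ℕ} {G : Finset V} (h : G ∈ D.FS k) :
    D.Full G ∧ G.card = k := by
  unfold Dat.FS at h
  rw [Finset.mem_filter, Finset.mem_powersetCard] at h
  exact ⟨h.2, h.1.2⟩

theorem expd (D : Dat ee V R) (y : Finset V → R) (P : MvPolynomial V R) (m : ℕ) :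
    D.T m (P * D.KK y ^ 2) =
      ∑ G ∈ D.FS (ee + 2), ∑ G' ∈ D.FS (ee + 2), y G * y G' * D.T m (P * D.XH G * D.XH G') := by
  have h1 : P * D.KK y ^ 2 =
      ∑ G ∈ D.FS (ee + 2), ∑ G' ∈ D.FS (ee + 2), (y G * y G') • (P * D.XH G * D.XH G') := by
    unfold Dat.KK
    rw [pow_two, Finset.sum_mul_sum, Finset.mul_sum]
    refine Finset.sum_congr rfl fun G _ => ?_
    rw [Finset.mul_sum]
    refine Finset.sum_congr rfl fun G' _ => ?_
    rw [MvPolynomial.smul_eq_C_mul, map_mul]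
    ring
  rw [h1, map_sum]
  refine Finset.sum_congr rfl fun G _ => ?_
  rw [map_sum]
  refine Finset.sum_congr rfl fun G' _ => ?_
  rw [map_smul, smul_eq_mul]

/-- replace `X_U X_G` by `X_(G \ U)` -/
theorem repl (D : Dat ee V R) (h1 : StP1 D) (h2 : StPhX D) (G : Finset V) (hG : D.Full G)
    (U : Finset V) : U ⊆ G → xm R U * D.XH G - D.XH (G \ U) ∈ D.J := by
  induction U using Finset.induction_on with
  | empty =>
    intro _
    have e : xm R (∅ : Finset V) * D.XH G - D.XH (G \ ∅) = 0 := by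
      unfold xm
      rw [Finset.prod_empty, one_mul, Finset.sdiff_empty, sub_self]
    rw [e]
    exact D.J.zero_mem
  | insert u U hu ih =>
    intro hUG
    have huG : u ∈ G := hUG (Finset.mem_insert_self u U)
    have hU : U ⊆ G := (Finset.subset_insert u U).trans hUG
    have hm : u ∈ G \ U := Finset.mem_sdiff.2 ⟨huG, hu⟩
    have e1 : G \ insert u U = (G \ U).erase u := by
      ext t
      simp only [Finset.mem_sdiff, Finset.mem_insert, Finset.mem_erase]
      tauto
    have e2 : xm R (insert u U) = X u * xm R U := by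
      unfold xm
      rw [Finset.prod_insert hu]
    rw [e1, e2, show X u * xm R U * D.XH G - D.XH ((G \ U).erase u) =
      X u * (xm R U * D.XH G - D.XH (G \ U)) +
        (X u * D.XH (G \ U) - D.XH ((G \ U).erase u)) by ring]
    exact D.J.add_mem (D.J.mul_mem_left _ (ih hU))
      ((h1 (G \ U) (h2.2 G hG _ Finset.sdiff_subset) ⟨u, hm⟩).2.2.1 u hm)

/-- `X_U X_G` is zero if `U` is not contained in `G` -/
theorem kill (D : Dat ee V R) (h1 : StP1 D) (G : Finset V) (hG : D.Full G) (hne : G.Nonempty)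
    (U : Finset V) (hU : U ⊆ D.VP) (hUG : ¬ U ⊆ G) : xm R U * D.XH G ∈ D.J := by
  obtain ⟨u, hu, huG⟩ := Finset.not_subset.1 hUG
  have e : xm R U = X u * xm R (U.erase u) := by
    unfold xm
    rw [Finset.mul_prod_erase U (fun v => (X v : MvPolynomial V R)) hu]
  rw [e, show X u * xm R (U.erase u) * D.XH G = xm R (U.erase u) * (X u * D.XH G) by ring]
  exact D.J.mul_mem_left _ ((h1 G hG hne).2.1 u (hU hu) huG).1

theorem four : ∀ i j k l r : Fin 4, i ≠ j → k ≠ l → i ≠ k → i ≠ l → j ≠ k → j ≠ l →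
    (r = i ∨ r = j) ∨ (r = k ∨ r = l) := by
  intro i j k l r h1 h2 h3 h4 h5 h6
  omega

/-- the inner sums vanish -/
theorem inner [IsDomain R] (D : Dat ee V R) (h1 : StP1 D) (h2 : StPhX D) (h3 : StTx D)
    (h4 : StF3 D) (h5 : StNonT D) (x : Finset V → R) (U : Finset V) (q : Fin 4 → V)
    (hQ : HQ D x U q) (s : V) (hsU : s ∈ U) (r : Fin 4)
    (G G' : Finset V) (hG : G ∈ D.FS (ee + 2)) (hG' : G' ∈ D.FS (ee + 2))
    (hx : x G ≠ 0) (hx' : x G' ≠ 0) :
    ∑ m ∈ range (ee + 4), D.a m (q r) * D.T m (D.z s * xm R U * D.XH G * D.XH G') = 0 := by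
  obtain ⟨fG, cG⟩ := mem_FS D hG
  obtain ⟨fG', cG'⟩ := mem_FS D hG'
  have nG : G.Nonempty := Finset.card_pos.1 (by rw [cG]; omega)
  have nG' : G'.Nonempty := Finset.card_pos.1 (by rw [cG']; omega)
  by_cases hu : U ⊆ G
  swap
  · refine Finset.sum_eq_zero fun m hm => ?_
    have e1 := (h1 G' fG' nG').1 s
    have e2 := kill D h1 G fG nG U hQ.U_sub hu
    have e3 := h3.2 _ e1 _ e2 m (Finset.mem_range.1 hm)
    have e4 : D.z s * D.XH G' * (xm R U * D.XH G) =
        D.z s * xm R U * D.XH G * D.XH G' := by ring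
    rw [e4] at e3
    rw [e3, mul_zero]
  by_cases hu' : U ⊆ G'
  swap
  · refine Finset.sum_eq_zero fun m hm => ?_
    have e1 := (h1 G fG nG).1 s
    have e2 := kill D h1 G' fG' nG' U hQ.U_sub hu'
    have e3 := h3.2 _ e1 _ e2 m (Finset.mem_range.1 hm)
    have e4 : D.z s * D.XH G * (xm R U * D.XH G') =
        D.z s * xm R U * D.XH G * D.XH G' := by ring
    rw [e4] at e3
    rw [e3, mul_zero]
  have fE : D.Full (G' \ U) := h2.2 G' fG' _ Finset.sdiff_subset
  have cE : (G' \ U).card = 2 := by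
    rw [Finset.card_sdiff_of_subset hu', cG', hQ.U_card]
    omega
  have hrep : ∀ m < ee + 4, D.T m (D.z s * xm R U * D.XH G * D.XH G') =
      D.T m (D.z s * D.XH G * D.XH (G' \ U)) := by
    intro m hm
    have e1 := (h1 G fG nG).1 s
    have e2 := repl D h1 h2 G' fG' U hu'
    have e3 := h3.2 _ e1 _ e2 m hm
    have e4 : D.z s * D.XH G * (xm R U * D.XH G' - D.XH (G' \ U)) =
        D.z s * xm R U * D.XH G * D.XH G' - D.z s * D.XH G * D.XH (G' \ U) := by ring
    rw [e4, map_sub] at e3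
    exact sub_eq_zero.1 e3
  rw [Finset.sum_congr rfl fun m hm => by rw [hrep m (Finset.mem_range.1 hm)]]
  by_cases hI : (G ∩ (G' \ U)).Nonempty
  · refine Finset.sum_eq_zero fun m hm => ?_
    rw [h5 G (G' \ U) fG fE (by omega) hI s (hQ.U_sub hsU) m (Finset.mem_range.1 hm), mul_zero]
  · have hd : ∀ v, v ∈ G → v ∉ G' \ U := fun v hv hv' =>
      hI ⟨v, Finset.mem_inter.2 ⟨hv, hv'⟩⟩
    obtain ⟨i, j, hij, eG⟩ := hQ.link G hx hu
    obtain ⟨k, l, hkl, eG'⟩ := hQ.link G' hx' hu'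
    have mi : q i ∈ G := by rw [eG]; simp
    have mj : q j ∈ G := by rw [eG]; simp
    have mk : q k ∈ G' \ U := Finset.mem_sdiff.2 ⟨by rw [eG']; simp, hQ.q_ne k⟩
    have ml : q l ∈ G' \ U := Finset.mem_sdiff.2 ⟨by rw [eG']; simp, hQ.q_ne l⟩
    have hik : i ≠ k := fun h => hd _ mi (h ▸ mk)
    have hil : i ≠ l := fun h => hd _ mi (h ▸ ml)
    have hjk : j ≠ k := fun h => hd _ mj (h ▸ mk)
    have hjl : j ≠ l := fun h => hd _ mj (h ▸ ml)
    have hp : q r ∈ G ∪ (G' \ U) := by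
      rw [Finset.mem_union]
      rcases four i j k l r hij hkl hik hil hjk hjl with (h | h) | (h | h)
      · exact Or.inl (h ▸ mi)
      · exact Or.inl (h ▸ mj)
      · exact Or.inr (h ▸ mk)
      · exact Or.inr (h ▸ ml)
    have hne : s ≠ q r := fun h => hQ.q_ne r (h ▸ hsU)
    rw [h4 G (G' \ U) fG fE nG ⟨_, mk⟩ (by omega) (q r) hp s (hQ.U_sub hsU), if_neg hne]

end IT4

open IT4

/-- item T4 -/
theorem pr_T4 {ee : ℕ} {V : Type} [Fintype V] [DecidableEq V] {R : Type} [CommRing R] [IsDomain R]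
    (D : Dat ee V R) (_hC : Ctx D) (h1 : StP1 D) (h2 : StPhX D) (h3 : StTx D) (h4 : StF3 D)
    (h5 : StNonT D) : StT4 D := by
  intro x U q _ hQ s hs r
  have h : ∀ m ∈ range (ee + 4),
      D.a m (q r) * D.T m (D.z s * xm R U * D.KK (xs s x) ^ 2) =
      ∑ G ∈ D.FS (ee + 2), ∑ G' ∈ D.FS (ee + 2), xs s x G * xs s x G' *
        (D.a m (q r) * D.T m (D.z s * xm R U * D.XH G * D.XH G')) := by
    intro m _
    rw [expd, Finset.mul_sum]
    refine Finset.sum_congr rfl fun G _ => ?_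
    rw [Finset.mul_sum]
    exact Finset.sum_congr rfl fun G' _ => by ring
  rw [Finset.sum_congr rfl h, Finset.sum_comm]
  refine Finset.sum_eq_zero fun G hG => ?_
  rw [Finset.sum_comm]
  refine Finset.sum_eq_zero fun G' hG' => ?_
  rw [← Finset.mul_sum]
  by_cases hx : x G = 0
  · have h0 : xs s x G = 0 := by
      unfold xs
      rw [hx, ite_self]
    rw [h0, zero_mul, zero_mul]
  · by_cases hx' : x G' = 0
    · have h0 : xs s x G' = 0 := by
        unfold xs
        rw [hx', ite_self]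
      rw [h0, mul_zero, zero_mul]
    · rw [inner D h1 h2 h3 h4 h5 x U q hQ s hs r G G' hG hG' hx hx', mul_zero]

end CSLef.DG
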