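import Mathlib
import Pool.Agent.Work.MP_38c61c_al.DG.Stmts2

/-!
Block DG, item TA1: the pairing of a full set with `ee + 2` elements and a full pair modulo 2.
Port of the file of block D6.
-/

namespace CSLef.DG

open MvPolynomial Finset

/-- Item TA1. -/
theorem pr_TA1 {ee : ℕ} {V : Type} [Fintype V] [DecidableEq V] {R : Type} [CommRing R]
    [IsDomain R] (D : Dat ee V R) (hC : Ctx D) (h2 : StPh D) (h3 : StPhA D) (h4 : StPhW D)
    (h6 : StBeta D) : StTA1 D := by
  intro G hG q r hqr hH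
  obtain ⟨β, g, v, hrel, hβ⟩ := h6 _ hG
  have hGm := Finset.mem_filter.1 hG
  have hHm := Finset.mem_filter.1 hH
  have hGV : G ⊆ D.VP := (Finset.mem_powersetCard.1 hGm.1).1
  have hHV : ({q, r} : Finset V) ⊆ D.VP := (Finset.mem_powersetCard.1 hHm.1).1
  have hq : q ∈ D.VP := hHV (by simp)
  have hr : r ∈ D.VP := hHV (by simp)
  have e1 : D.dg (D.XH G * D.XH {q, r}) = D.ph {q, r} (D.XH G) := by
    rw [mul_comm]
    exact hC.xh_dg _ hHm.2 _
  have e2 := (h2 _ hHm.2).2.2 _ hrel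
  have e3 : ∀ I ∈ (range (ee + 4)).powersetCard 2,
      D.ph {q, r} (C (β I) * ∏ i ∈ I, D.W i) = β I * p2 D q r I := by
    intro I hI
    rw [← smul_eq_C_mul, map_smul, smul_eq_mul,
      h4.2.2.2.1 q hq r hr hqr I (Finset.mem_powersetCard.1 hI).2]
  have e4 : D.ph {q, r} (D.XH G) =
      ∑ I ∈ (range (ee + 4)).powersetCard 2, β I * p2 D q r I +
        2 * (D.ph {q, r} g + D.ph {q, r} v) := by
    rw [map_sub, map_sub, map_sub, map_sum, map_add, (h3 _ hHm.2).1 g, map_smul, smul_eq_mul,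
      Finset.sum_congr rfl e3] at e2
    linear_combination e2
  have e6 : (2 : R) ∣ ∑ I ∈ (range (ee + 4)).powersetCard 2,
      (D.om * β I - D.ph G (∏ i ∈ range (ee + 4) \ I, D.W i)) * p2 D q r I := by
    refine Finset.dvd_sum fun I hI => ?_
    exact Dvd.dvd.mul_right (hβ I hI) _
  have e5 : ∑ I ∈ (range (ee + 4)).powersetCard 2,
      (D.om * β I - D.ph G (∏ i ∈ range (ee + 4) \ I, D.W i)) * p2 D q r I =
      D.om * ∑ I ∈ (range (ee + 4)).powersetCard 2, β I * p2 D q r I - PM D G q r := by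
    unfold PM
    rw [Finset.mul_sum, ← Finset.sum_sub_distrib]
    refine Finset.sum_congr rfl fun I _ => ?_
    rw [h4.2.2.2.2 G hGV]
    ring
  have e7 : D.om * D.dg (D.XH G * D.XH {q, r}) - PM D G q r =
      (∑ I ∈ (range (ee + 4)).powersetCard 2,
        (D.om * β I - D.ph G (∏ i ∈ range (ee + 4) \ I, D.W i)) * p2 D q r I) +
      2 * (D.om * (D.ph {q, r} g + D.ph {q, r} v)) := by
    rw [e1, e4, e5]
    ring
  rw [e7]
  exact dvd_add e6 (Dvd.intro _ rfl)

end CSLef.DG
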