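import Mathlib
import Pool.Agent.Work.MP_38c61c_al.DG.Stmts

/-!
Block D6, item Tx: values of `T m` from expansions; products of two elements of `J`.
-/

namespace CSLef.DG

open MvPolynomial Finset

theorem pr_Tx {ee : ℕ} {V : Type} [Fintype V] [DecidableEq V] {R : Type} [CommRing R] [IsDomain R]
    (D : Dat ee V R) (hC : Ctx D) : StTx D := by
  have h1 : ∀ (f : MvPolynomial V R) (g : ℕ → MvPolynomial V R),
      f - ∑ l ∈ range (ee + 4), lin (D.a l) * g l ∈ srIdeal R D.Δ →
      ∀ m < ee + 4, ∀ h, D.T m (f * h) = D.dg (g m * h) := by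
    intro f g hf m hm h
    have e : f * h = ∑ l ∈ range (ee + 4), lin (D.a l) * (g l * h) +
        (f - ∑ l ∈ range (ee + 4), lin (D.a l) * g l) * h := by
      rw [sub_mul, Finset.sum_mul]
      simp only [mul_assoc]
      ring
    rw [e, map_add, map_sum, hC.Tsr m _ (Ideal.mul_mem_right h _ hf), add_zero,
      Finset.sum_congr rfl (fun l hl => hC.Tlin m hm l (Finset.mem_range.1 hl) (g l * h)),
      Finset.sum_ite_eq', if_pos (Finset.mem_range.2 hm)]
  refine ⟨h1, ?_⟩
  intro f hf h hh m hm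
  obtain ⟨g, hg⟩ := (mem_J_iff (ee + 4) f).1 hf
  rw [h1 f g hg m hm h]
  exact hC.dgJ _ (Ideal.mul_mem_left _ _ hh)

end CSLef.DG
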