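import Mathlib
import Pool.Agent.Work.MP_38c61c_al.DG.Stmts2

/-!
Block DG, item Ve: the weighted vertex sums at the sets `U + q i`.
Author: helper58 (port of `D6/I_Ve.lean` by helper72).
-/

namespace CSLef.DG

open MvPolynomial Finset

namespace IVe

variable {ee : ℕ} {V : Type} [Fintype V] [DecidableEq V] {R : Type} [CommRing R] [IsDomain R]

theorem key (D : Dat ee V R) (x : Finset V → R) (U : Finset V) (q : Fin 4 → V)
    (hQ : HQ D x U q) (r q' : V) (hq' : q' ∉ U) (hr : r ∉ insert q' U)
    (hx : x (insert r (insert q' U)) ≠ 0) :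
    ∃ j l, j ≠ l ∧ q' = q j ∧ r = q l := by
  rw [mem_insert, not_or] at hr
  obtain ⟨j, l, hjl, he⟩ := hQ.link _ hx ((subset_insert _ _).trans (subset_insert _ _))
  have h3 : q' ∈ insert (q j) (insert (q l) U) := by rw [← he]; simp
  have h4 : r ∈ insert (q j) (insert (q l) U) := by rw [← he]; simp
  simp only [mem_insert] at h3 h4
  rcases h3 with h3 | h3 | h3
  · rcases h4 with h4 | h4 | h4
    · exact absurd (h4.trans h3.symm) hr.1
    · exact ⟨j, l, hjl, h3, h4⟩
    · exact absurd h4 hr.2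
  · rcases h4 with h4 | h4 | h4
    · exact ⟨l, j, hjl.symm, h3, h4⟩
    · exact absurd (h4.trans h3.symm) hr.1
    · exact absurd h4 hr.2
  · exact absurd h3 hq'

end IVe

open IVe in
theorem pr_Ve {ee : ℕ} {V : Type} [Fintype V] [DecidableEq V] {R : Type} [CommRing R] [IsDomain R]
    (D : Dat ee V R) (h1 : StPhX D) : StVe D := by
  intro x U q hG hQ
  have hsum : ∀ i, ∑ r ∈ D.VP \ insert (q i) U, D.wt r * x (insert r (insert (q i) U)) =
      S4 D x U q i := by
    intro i
    have e1 : S4 D x U q i = ∑ r ∈ (Finset.univ.erase i).image q,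
        D.wt r * x (insert r (insert (q i) U)) := by
      rw [sum_image (fun a _ b _ h => hQ.q_inj h)]
      unfold S4 xq
      exact sum_congr rfl fun l _ => by rw [insert_comm (q i) (q l) U]
    rw [e1]
    symm
    apply sum_subset
    · intro r hr
      rw [mem_image] at hr
      obtain ⟨l, hl, rfl⟩ := hr
      rw [mem_erase] at hl
      rw [mem_sdiff]
      refine ⟨hQ.q_mem l, ?_⟩
      rw [mem_insert, not_or]
      exact ⟨fun h => hl.1 (hQ.q_inj h), hQ.q_ne l⟩
    · intro r hr hr2
      rw [mem_sdiff] at hr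
      by_contra hne
      have hx : x (insert r (insert (q i) U)) ≠ 0 := fun h => hne (by rw [h, mul_zero])
      obtain ⟨j, l, hjl, hj, hl⟩ := key D x U q hQ r (q i) (hQ.q_ne i) hr.2 hx
      apply hr2
      rw [mem_image]
      refine ⟨l, ?_, hl.symm⟩
      rw [mem_erase]
      refine ⟨?_, mem_univ _⟩
      rintro rfl
      exact hjl (hQ.q_inj hj).symm
  have hc : ∀ i, (insert (q i) U).card = ee + 1 := fun i => by
    rw [card_insert_of_notMem (hQ.q_ne i), hQ.U_card]
  refine ⟨hsum, fun i => ?_, fun i hi => ?_, fun q' _ hq'u hq' => ?_⟩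
  · rw [← hsum i]
    exact hG.rm _ (insert_subset (hQ.q_mem i) hQ.U_sub) (hc i)
  · unfold S4 at hi
    obtain ⟨l, hl, hne⟩ := exists_ne_zero_of_sum_ne_zero hi
    have hx : x (insert (q i) (insert (q l) U)) ≠ 0 :=
      fun h => hne (by unfold xq; rw [h, mul_zero])
    have h2 := (hG.supp _ hx).1
    unfold Dat.FS at h2
    rw [mem_filter] at h2
    have hf1 : D.Full (insert (q i) U) :=
      h1.2 _ h2.2 _ (insert_subset_insert _ (subset_insert _ _))
    have hf2 : D.Full {q i} := h1.2 _ h2.2 _ (by simp)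
    refine ⟨?_, hf2⟩
    unfold Dat.FS
    rw [mem_filter, mem_powersetCard]
    exact ⟨⟨hf1.1, hc i⟩, hf1⟩
  · apply sum_eq_zero
    intro r hr
    rw [mem_sdiff] at hr
    by_contra hne
    have hx : x (insert r (insert q' U)) ≠ 0 := fun h => hne (by rw [h, mul_zero])
    obtain ⟨j, l, hjl, hj, hl⟩ := key D x U q hQ r q' hq'u hr.2 hx
    exact hq' j hj

end CSLef.DG
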