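import Mathlib
import Pool.Agent.Work.MP_38c61c_al.DG.Stmts2

/-!
Block D6, item Wa: the linear forms `W_l`.
-/

namespace CSLef.DG

open MvPolynomial Finset

variable {ee : ℕ} {V : Type} [Fintype V] [DecidableEq V] {R : Type} [CommRing R] [IsDomain R]

namespace IWa

theorem rename_W (D : Dat ee V R) (hC : Ctx D) (l : ℕ) :
    rename D.α (D.W l) = D.W l - lin (D.a l) := by
  have h1 : lin (D.a l) = ∑ v ∈ D.VP, C (D.a l v) * (X v - X (D.α v)) :=
    lin_eq_VP hC.cs.invol hC.vp (hC.anti l)
  rw [h1]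
  unfold Dat.W
  rw [map_sum, ← Finset.sum_sub_distrib]
  refine Finset.sum_congr rfl fun v _ => ?_
  rw [map_mul, rename_C, rename_X]
  ring

end IWa

theorem pr_Wa {ee : ℕ} {V : Type} [Fintype V] [DecidableEq V] {R : Type} [CommRing R] [IsDomain R]
    (D : Dat ee V R) (hC : Ctx D) : StWa D := by
  refine ⟨IWa.rename_W D hC, fun I => ?_, fun I hI => ?_⟩
  · have h1 : ∀ i ∈ I, (D.W i).IsHomogeneous 1 := by
      intro i _
      unfold Dat.W
      refine IsHomogeneous.sum _ _ _ fun v _ => ?_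
      have h2 := (isHomogeneous_C V (D.a i v)).mul (isHomogeneous_X R v)
      rwa [zero_add] at h2
    have h3 := IsHomogeneous.prod I (fun i => D.W i) (fun _ => 1) h1
    rwa [Finset.sum_const, smul_eq_mul, mul_one] at h3
  · rw [← Ideal.Quotient.eq, map_prod, map_prod, map_prod]
    refine Finset.prod_congr rfl fun i hi => ?_
    rw [Ideal.Quotient.eq, IWa.rename_W D hC i, sub_sub_cancel_left]
    exact neg_mem (lin_mem_J (mem_range.1 (hI hi)))

end CSLef.DG
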