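import Mathlib
import Pool.Agent.Work.MP_38c61c_al.D5.I_K4
import Pool.Agent.Work.MP_38c61c_al.D5.I_CL
import Pool.Agent.Work.MP_38c61c_al.DG.I_Beta
import Pool.Agent.Work.MP_38c61c_al.DG.I_C4
import Pool.Agent.Work.MP_38c61c_al.DG.I_Clo
import Pool.Agent.Work.MP_38c61c_al.DG.I_Core
import Pool.Agent.Work.MP_38c61c_al.DG.I_Cr
import Pool.Agent.Work.MP_38c61c_al.DG.I_Dag1
import Pool.Agent.Work.MP_38c61c_al.DG.I_Dag2
import Pool.Agent.Work.MP_38c61c_al.DG.I_Der
import Pool.Agent.Work.MP_38c61c_al.DG.I_DisT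
import Pool.Agent.Work.MP_38c61c_al.DG.I_E4
import Pool.Agent.Work.MP_38c61c_al.DG.I_Es
import Pool.Agent.Work.MP_38c61c_al.DG.I_Eul
import Pool.Agent.Work.MP_38c61c_al.DG.I_Ev
import Pool.Agent.Work.MP_38c61c_al.DG.I_ExA
import Pool.Agent.Work.MP_38c61c_al.DG.I_F3
import Pool.Agent.Work.MP_38c61c_al.DG.I_Fin
import Pool.Agent.Work.MP_38c61c_al.DG.I_Four
import Pool.Agent.Work.MP_38c61c_al.DG.I_Inj
import Pool.Agent.Work.MP_38c61c_al.DG.I_Int
import Pool.Agent.Work.MP_38c61c_al.DG.I_L4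
import Pool.Agent.Work.MP_38c61c_al.DG.I_L5
import Pool.Agent.Work.MP_38c61c_al.DG.I_Leq
import Pool.Agent.Work.MP_38c61c_al.DG.I_Lpl
import Pool.Agent.Work.MP_38c61c_al.DG.I_MI0
import Pool.Agent.Work.MP_38c61c_al.DG.I_MI2
import Pool.Agent.Work.MP_38c61c_al.DG.I_MI3
import Pool.Agent.Work.MP_38c61c_al.DG.I_MI4
import Pool.Agent.Work.MP_38c61c_al.DG.I_MI5
import Pool.Agent.Work.MP_38c61c_al.DG.I_Non
import Pool.Agent.Work.MP_38c61c_al.DG.I_NonT
import Pool.Agent.Work.MP_38c61c_al.DG.I_Om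
import Pool.Agent.Work.MP_38c61c_al.DG.I_P1
import Pool.Agent.Work.MP_38c61c_al.DG.I_Ph
import Pool.Agent.Work.MP_38c61c_al.DG.I_PhA
import Pool.Agent.Work.MP_38c61c_al.DG.I_PhW
import Pool.Agent.Work.MP_38c61c_al.DG.I_PhX
import Pool.Agent.Work.MP_38c61c_al.DG.I_PmR
import Pool.Agent.Work.MP_38c61c_al.DG.I_Ps
import Pool.Agent.Work.MP_38c61c_al.DG.I_Red
import Pool.Agent.Work.MP_38c61c_al.DG.I_Rm
import Pool.Agent.Work.MP_38c61c_al.DG.I_Star
import Pool.Agent.Work.MP_38c61c_al.DG.I_Sym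
import Pool.Agent.Work.MP_38c61c_al.DG.I_T4
import Pool.Agent.Work.MP_38c61c_al.DG.I_TA1
import Pool.Agent.Work.MP_38c61c_al.DG.I_TA2
import Pool.Agent.Work.MP_38c61c_al.DG.I_Tx
import Pool.Agent.Work.MP_38c61c_al.DG.I_VPn
import Pool.Agent.Work.MP_38c61c_al.DG.I_Ve
import Pool.Agent.Work.MP_38c61c_al.DG.I_WK
import Pool.Agent.Work.MP_38c61c_al.DG.I_WW
import Pool.Agent.Work.MP_38c61c_al.DG.I_Wa
import Pool.Agent.Work.MP_38c61c_al.DG.I_XK

/-!
Block DG: assembly of parts 1 and 2. In the context `Ctx D` the kernel of multiplication by the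
Lefschetz element in degree 2 is divisible by 2.
-/

namespace CSLef.DG

open MvPolynomial Finset

theorem core_of_ctx {ee : ℕ} {V : Type} [Fintype V] [DecidableEq V] {R : Type} [CommRing R]
    [IsDomain R] (D : Dat ee V R) (hC : Ctx D) : StCore D := by
  have phx := pr_PhX D hC
  have ph := pr_Ph D hC phx
  have pha := pr_PhA D hC
  have ps := pr_Ps D hC
  have ev := pr_Ev D hC
  have p1 := pr_P1 D hC phx ph pha
  have tx := pr_Tx D hC
  have f3 := pr_F3 D hC ps p1 tx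
  have eul := pr_Eul D hC ev
  have non := pr_Non D hC ev f3 eul
  have der := pr_Der D hC
  have nonT := pr_NonT D hC pha non der
  have disT := pr_DisT D hC f3
  have exa := pr_ExA D hC tx
  have red := pr_Red D hC pha exa
  have four := pr_Four D hC exa
  have xk := pr_XK D phx p1
  have wk := pr_WK D hC xk
  have rm := pr_Rm D hC phx pha wk
  have mi0 := pr_MI0 D hC p1 xk wk
  have mi2 := pr_MI2 D hC phx tx mi0
  have mi3 := pr_MI3 D hC tx mi0
  have mi4 := pr_MI4 D hC phx pha p1 tx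
  have mi5 := pr_MI5 D hC p1 phx tx nonT disT
  have star := pr_Star D mi0 mi2 mi3 mi4 mi5
  have wa := pr_Wa D hC
  have sym := pr_Sym D hC
  have ww := pr_WW D hC wa
  have om := pr_Om D hC
  have phw := pr_PhW D phx
  have lpl := pr_Lpl D pr_PmR
  have cr := pr_Cr D pr_PmR
  have beta := pr_Beta D hC p1 wa sym ww
  have ta1 := pr_TA1 D hC ph pha phw beta
  have ta2 := pr_TA2 D hC ph pha phw wa beta
  have int := pr_Int D hC p1 phx ta1 lpl
  have clo := pr_Clo D hC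
  have ve := pr_Ve D phx
  have es := pr_Es D hC p1 phx non
  have e4 := pr_E4 D hC es
  have t4 := pr_T4 D hC p1 phx tx f3 nonT
  have dag1 := pr_Dag1 D hC p1 star ta2 ve e4 t4 int lpl om
  have dag2 := pr_Dag2 D lpl ve e4 dag1
  have leq := pr_Leq D hC p1 phx ta1 int clo lpl es
  have c4 := pr_C4 D hC e4 dag2 leq
  have l4 := pr_L4 D hC ve c4 D5.pr_K4
  have l5 := pr_L5 D hC phx ta1 es cr lpl
  have vpn := pr_VPn D hC
  have fin := pr_Fin D hC int clo l4 l5 vpn D5.pr_CL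
  exact pr_Core D hC red four rm fin

end CSLef.DG
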