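import Mathlib
import Pool.Agent.Work.MP_38c61c_al.DG.Stmts

/-!
Block DG, item DisT: the functionals `T m` on products of duals of disjoint full sets.
-/

namespace CSLef.DG

open MvPolynomial Finset

theorem pr_DisT {ee : ℕ} {V : Type} [Fintype V] [DecidableEq V] {R : Type} [CommRing R]
    [IsDomain R] (D : Dat ee V R) (hC : Ctx D) (h1 : StF3 D) : StDisT D := by
  intro G H hG hH hGn hHn hcard hdisj v hv hvU m hm
  have hU : (G ∪ H).card = ee + 4 := by rw [Finset.card_union_of_disjoint hdisj, hcard]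
  have hsub : G ∪ H ⊆ D.VP := Finset.union_subset hG.1 hH.1
  refine hC.indt (G ∪ H) hsub hU (fun l => D.T l (D.z v * D.XH G * D.XH H)) ?_ m hm
  intro p hp
  have h2 := h1 G H hG hH hGn hHn hcard p hp v hv
  have hne : v ≠ p := fun h => hvU (h ▸ hp)
  rw [if_neg hne] at h2
  exact h2

end CSLef.DG
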