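import Mathlib
import Pool.Agent.Work.MP_38c61c_al.DG.StmtsX

/-!
Block DG, item Trans: transfer to generic antisymmetric parameters and the sum of all variables.
-/

namespace CSLef.DG

open MvPolynomial Finset

universe u

theorem pr_Trans (ee : ℕ) {V : Type} [Fintype V] [DecidableEq V] (Δ : Finset (Finset V))
    (α : Equiv.Perm V) (VP : Finset V) (hG : HG ee Δ α VP) : StTrans.{u} ee Δ α VP := by
  intro k _ _ N g hg H
  have hinv := hG.cs.invol
  have hvp := hG.vp
  obtain ⟨p, hpg, hps⟩ := exists_param (k := k) VP hg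
  have hs0 : ∀ v, s0 α VP p v ≠ 0 := by
    intro v
    unfold s0
    split_ifs with hv
    · exact hps v hv
    · apply hps
      by_contra h
      exact hv ((hvp v).mpr h)
  refine ⟨PsiP VP p g, ⟨A0 α VP p, A0_anti hinv hvp p, ?_⟩, ?_⟩
  · have h1 := psiA_A0 (α := α) p hps
    have h2 := RingHom.congr_fun h1 g
    unfold psiA at h2
    rw [RingHom.comp_apply] at h2
    rw [h2]
    exact hpg
  · intro A hA hne
    have h1 := H (psiA VP p A) hne
    have hJ : Jid Δ (fun l v => psiA VP p A (aP (ee + 4) α VP l v)) (ee + 4) =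
        Jid Δ (fun l v => rowN A l v * s0 α VP p v) (ee + 4) := by
      congr 1
      funext l v
      exact psiA_aP hvp p hA l v
    rw [hJ] at h1
    obtain ⟨hin, h2⟩ := h1
    have hbig : ∀ n, ee + 4 < n → ∀ f : MvPolynomial V k, f.IsHomogeneous n →
        f ∈ Jid Δ (rowN A) (ee + 4) := by
      intro n hn f hf
      rw [← scale_J_iff (s0 α VP p) hs0]
      exact h2 n hn _ (scale_hom _ hf)
    refine ⟨?_, hbig⟩
    set J' := Jid Δ (fun l v => rowN A l v * s0 α VP p v) (ee + 4) with hJ'
    set w' := MvPolynomial.map (psiA VP p A) (wP (ee + 4) α VP) with hw'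
    have hcmp : ∀ x : MvPolynomial V k,
        C 2 * (w' * x) - (scale (s0 α VP p) (wsum V k)) * x ∈ J' := by
      intro x
      rw [← mul_assoc, ← sub_mul]
      exact Ideal.mul_mem_right _ _ (two_wP hinv hvp p hA)
    have hC2 : (C 2 : MvPolynomial V k) * C (2⁻¹) = 1 := by
      rw [← map_mul, mul_inv_cancel₀ two_ne_zero, map_one]
    intro i hi
    constructor
    · intro x' hx' hw0
      obtain ⟨x, hx, rfl⟩ := mem_gr.mp hx'
      rw [← map_mul, Ideal.Quotient.eq_zero_iff_mem] at hw0
      rw [Ideal.Quotient.eq_zero_iff_mem]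
      have hw := hw0
      rw [← scale_J_iff (s0 α VP p) hs0] at hw ⊢
      apply (hin i hi).1 _ (scale_hom _ hx)
      rw [map_mul] at hw
      have h3 := Ideal.add_mem _ (hcmp (scale (s0 α VP p) x)) hw
      rw [sub_add_cancel] at h3
      have h4 := Ideal.mul_mem_left _ (C (2⁻¹)) h3
      rw [← mul_assoc, mul_comm (C (2⁻¹)), hC2, one_mul] at h4
      exact h4
    · intro j hij y' hy'
      obtain ⟨y, hy, rfl⟩ := mem_gr.mp hy'
      obtain ⟨x', hx'1, hx'2⟩ := (hin i hi).2 j hij _ (scale_hom (s0 α VP p) hy)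
      have hssi : ∀ f : MvPolynomial V k,
          scale (s0 α VP p) (scale (fun v => (s0 α VP p v)⁻¹) f) = f :=
        scale_scale _ _ (fun v => mul_inv_cancel₀ (hs0 v))
      refine ⟨Ideal.Quotient.mk _ (scale (fun v => (s0 α VP p v)⁻¹) (C (2⁻¹) * x')),
        mem_gr.mpr ⟨_, ?_, rfl⟩, ?_⟩
      · apply scale_hom
        have := (isHomogeneous_C V (2⁻¹ : k)).mul hx'1
        rwa [zero_add] at this
      · rw [← map_mul, Ideal.Quotient.mk_eq_mk_iff_sub_mem]
        rw [← scale_J_iff (s0 α VP p) hs0, map_sub, map_mul, hssi]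
        have h3 := Ideal.add_mem _ hx'2
          ((Ideal.neg_mem_iff _).mpr (hcmp (C (2⁻¹) * x')))
        have h4 : C 2 * (w' * (C (2⁻¹) * x')) = w' * x' := by
          have h5 : C 2 * (w' * (C (2⁻¹) * x')) = (C 2 * C (2⁻¹)) * (w' * x') := by ring
          rw [h5, hC2, one_mul]
        rw [h4] at h3
        have h6 : w' * x' - scale (s0 α VP p) y +
            -(w' * x' - scale (s0 α VP p) (wsum V k) * (C (2⁻¹) * x')) =
            scale (s0 α VP p) (wsum V k) * (C (2⁻¹) * x') - scale (s0 α VP p) y := by ring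
        rw [h6] at h3
        exact h3

end CSLef.DG
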