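import Mathlib
import Pool.Agent.Work.MP_38c61c_al.DG.StmtsX

/-!
Block DG, item XindO: the weights are odd.
-/

namespace CSLef.DG

open MvPolynomial Finset

namespace IXindO

theorem eval_aP {V : Type} [Fintype V] [DecidableEq V] (ee : ℕ) (α : Equiv.Perm V) (VP : Finset V)
    (φ : Om (ee + 4) V → ℤ) (l : Fin (ee + 4)) (v : V) (hv : v ∈ VP) :
    MvPolynomial.eval φ (aP (ee + 4) α VP (l : ℕ) v) = φ (Sum.inl (l, Sum.inl v)) := by
  unfold aP pP
  rw [dif_pos l.2]
  simp only [hv, if_true, MvPolynomial.eval_X]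

/-- the weights as images of polynomials -/
theorem wt_eq {V : Type} [Fintype V] [DecidableEq V] (ee : ℕ) (α : Equiv.Perm V) (VP : Finset V)
    (v : V) :
    ∑ l ∈ range (ee + 4), gm ee V l * ga ee α VP l v =
      algebraMap (PR (ee + 4) V) (RR (ee + 4) V)
        (∑ l ∈ range (ee + 4), muP l * aP (ee + 4) α VP l v) := by
  rw [map_sum]
  refine Finset.sum_congr rfl fun l _ => ?_
  rw [map_mul]
  rfl

/-- value of a weight -/
theorem wt_eval {V : Type} [Fintype V] [DecidableEq V] (ee : ℕ) (α : Equiv.Perm V) (VP : Finset V)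
    (φ : Om (ee + 4) V → ℤ)
    (hφ : ∀ l : Fin (ee + 4), φ (Sum.inr (Sum.inl l)) = if l = 0 then 1 else 0)
    (v : V) (hv : v ∈ VP) :
    MvPolynomial.eval φ (∑ l ∈ range (ee + 4), muP l * aP (ee + 4) α VP l v) =
      φ (Sum.inl (0, Sum.inl v)) := by
  rw [map_sum, ← Fin.sum_univ_eq_sum_range
    (fun l => MvPolynomial.eval φ (muP l * aP (ee + 4) α VP l v)) (ee + 4)]
  have h4 : ∀ l : Fin (ee + 4), MvPolynomial.eval φ (muP (l : ℕ) * aP (ee + 4) α VP (l : ℕ) v) =
      if l = 0 then φ (Sum.inl (0, Sum.inl v)) else 0 := by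
    intro l
    rw [map_mul, eval_aP ee α VP φ l v hv]
    unfold muP
    rw [dif_pos l.2, MvPolynomial.eval_X]
    show φ (Sum.inr (Sum.inl l)) * _ = _
    rw [hφ]
    by_cases hl : l = 0
    · simp [hl]
    · simp [hl]
  simp only [h4]
  simp

end IXindO

open IXindO in
theorem pr_XindO (ee : ℕ) {V : Type} [Fintype V] [DecidableEq V] (α : Equiv.Perm V)
    (VP : Finset V) (h1 : StSp ee (V := V)) : StXindO ee α VP := by
  intro v hv hdvd
  let φ : Om (ee + 4) V → ℤ := fun s => match s with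
    | Sum.inl (l, Sum.inl u) => if l = 0 ∧ u = v then 1 else 0
    | Sum.inr (Sum.inl l) => if l = 0 then 1 else 0
    | _ => 0
  rw [wt_eq] at hdvd
  have h2 := h1 _ (MvPolynomial.eval φ) hdvd
  rw [wt_eval ee α VP φ (fun l => rfl) v hv] at h2
  have h3 : φ (Sum.inl (0, Sum.inl v)) = 1 := if_pos ⟨rfl, rfl⟩
  rw [h3] at h2
  omega

end CSLef.DG
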