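import Mathlib
import Pool.Agent.Work.MP_38c61c_al.DG.TransD
import Pool.Agent.Work.MP_38c61c_al.Quad.QGeneric
import Pool.Agent.Work.MP_38c61c_al.Quad.Shatter
import Pool.Agent.Work.MP_38c61c_al.Oct.Gen4

/-!
Block DG: the statement over a field in the dimensions `d - 1 ≤ 3`, from the strong Lefschetz
property proved before.
-/

namespace CSLef.DG

open MvPolynomial Finset

variable {V : Type} [Fintype V] [DecidableEq V]

/-- for generic antisymmetric parameters over `k`: multiplication by the sum of the variables is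
injective in the degrees of `N` and surjective in the dual degrees, and everything of degree above
`d` vanishes -/
def Fld (Δ : Finset (Finset V)) (α : Equiv.Perm V) (d : ℕ) (N : Finset ℕ) (k : Type*)
    [Field k] : Prop :=
  ∃ Φ : MvPolynomial (Fin d × V) k,
    (∃ A : Fin d → V → k, (∀ l v, A l (α v) = - A l v) ∧ eval (fun q => A q.1 q.2) Φ ≠ 0) ∧
    ∀ A : Fin d → V → k, (∀ l v, A l (α v) = - A l v) → eval (fun q => A q.1 q.2) Φ ≠ 0 →
      (∀ i ∈ N, (∀ x ∈ gr (Jid Δ (rowN A) d) i,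
          Ideal.Quotient.mk _ (wsum V k) * x = 0 → x = 0) ∧
        (∀ j, i + j + 1 = d → ∀ y ∈ gr (Jid Δ (rowN A) d) (j + 1),
          ∃ x ∈ gr (Jid Δ (rowN A) d) j, Ideal.Quotient.mk _ (wsum V k) * x = y)) ∧
      (∀ n, d < n → ∀ f : MvPolynomial V k, f.IsHomogeneous n →
        f ∈ Jid Δ (rowN A) d)

/-- from the strong property at specializations -/
theorem fld_of_bij {d : ℕ} {Δ : Finset (Finset V)} {α : Equiv.Perm V} {VP : Finset V}
    {k : Type*} [Field k] [CharZero k] (hα : IsCS Δ α) (hvp : ∀ v, v ∈ VP ↔ α v ∉ VP)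
    {g : PR d V} (hg : g ≠ 0)
    (H : ∀ ψ : PR d V →+* k, ψ g ≠ 0 →
      (∀ i e, i + e + i = d →
        (∀ x : MvPolynomial V k, x.IsHomogeneous i →
          (MvPolynomial.map ψ (wP d α VP)) ^ e * x ∈ Jid Δ (fun l v => ψ (aP d α VP l v)) d →
          x ∈ Jid Δ (fun l v => ψ (aP d α VP l v)) d) ∧
        (∀ y : MvPolynomial V k, y.IsHomogeneous (i + e) → ∃ x : MvPolynomial V k,
          x.IsHomogeneous i ∧ (MvPolynomial.map ψ (wP d α VP)) ^ e * x - y ∈
            Jid Δ (fun l v => ψ (aP d α VP l v)) d)) ∧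
      (∀ n, d < n → ∀ f : MvPolynomial V k, f.IsHomogeneous n →
        f ∈ Jid Δ (fun l v => ψ (aP d α VP l v)) d)) :
    Fld Δ α d ((range d).filter (fun i => 2 * i + 1 ≤ d)) k := by
  refine transD hα hvp _ hg (fun ψ hψ => ⟨?_, (H ψ hψ).2⟩)
  intro i hi
  rw [mem_filter, mem_range] at hi
  obtain ⟨e, he⟩ : ∃ e, i + (e + 1) + i = d := ⟨d - 2 * i - 1, by omega⟩
  obtain ⟨h1, h2⟩ := (H ψ hψ).1 i (e + 1) he
  have hw1 : (MvPolynomial.map ψ (wP d α VP)).IsHomogeneous 1 :=
    IsHomogeneous.map (welA_hom _ _ _ _) _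
  refine ⟨fun x hx hwx => h1 x hx ?_, fun j hj y hy => ?_⟩
  · rw [pow_succ, mul_assoc]
    exact Ideal.mul_mem_left _ _ hwx
  · have hj' : j + 1 = i + (e + 1) := by omega
    rw [hj'] at hy
    obtain ⟨x, hx, hxy⟩ := h2 y hy
    refine ⟨MvPolynomial.map ψ (wP d α VP) ^ e * x, ?_, ?_⟩
    · have h3 := (hw1.pow e).mul hx
      have h4 : 1 * e + i = j := by omega
      rwa [h4] at h3
    · rwa [← mul_assoc, ← pow_succ']

/-- dimensions at most two: there is no set of three vertices in a set of two -/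
theorem fld_le_three {d : ℕ} (hd : 1 ≤ d) (hd' : d ≤ 3) {Δ : Finset (Finset V)}
    {α : Equiv.Perm V} {VP : Finset V} (hΔ : IsHomSphere Δ d) (hα : IsCS Δ α)
    (hvp : ∀ v, v ∈ VP ↔ α v ∉ VP) {k : Type*} [Field k] [CharZero k] :
    Fld Δ α d ((range d).filter (fun i => 2 * i + 1 ≤ d)) k := by
  have hquad : CondQuad Δ α d := by
    intro G hG hc 𝓣 h1 h2 h3 h4
    by_contra hne
    have hP : ∀ P ⊆ G, P.card ≤ 2 → Even (𝓣.filter (fun T => P ⊆ T)).card := by
      intro P hP hPc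
      have hcases : P.card = 0 ∨ P.card = 1 ∨ P.card = 2 := by omega
      rcases hcases with h0 | h0 | h0
      · rw [Finset.card_eq_zero] at h0
        subst h0
        simpa using h2
      · obtain ⟨u, rfl⟩ := Finset.card_eq_one.mp h0
        simp only [Finset.singleton_subset_iff] at hP ⊢
        exact h3 u hP
      · obtain ⟨u, u', _, rfl⟩ := Finset.card_eq_two.mp h0
        simp only [Finset.insert_subset_iff, Finset.singleton_subset_iff] at hP ⊢
        exact h4 u hP.1 u' hP.2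
    obtain ⟨S, hS, hSc, _⟩ := shatter_of_even G 2 𝓣 (fun T hT => (h1 T hT).1)
      (Finset.nonempty_iff_ne_empty.mpr hne) hP
    have := Finset.card_le_card hS
    omega
  obtain ⟨g, hg, H⟩ := generic_bij_q hΔ hα hvp hd hquad
  exact fld_of_bij hα hvp hg (fun ψ hψ => H ψ hψ)

theorem fld_four {Δ : Finset (Finset V)} {α : Equiv.Perm V} {VP : Finset V}
    (hΔ : IsHomSphere Δ 4) (hα : IsCS Δ α) (hvp : ∀ v, v ∈ VP ↔ α v ∉ VP)
    {k : Type*} [Field k] [CharZero k] :
    Fld Δ α 4 ((range 4).filter (fun i => 2 * i + 1 ≤ 4)) k := by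
  obtain ⟨g, hg, H⟩ := Oct.bij_of_inj hΔ hα hvp (by norm_num)
    (fun i k hik x hx hw => Oct.inj4 hΔ hα hvp i k hik x hx hw)
  exact fld_of_bij hα hvp hg (fun ψ hψ => H ψ hψ)

end CSLef.DG
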